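import Pool.Agent.MP_8c549f_pr.S3.BasicB

/-! PROJECT BWALK3: Peierls bounds. -/

noncomputable section

namespace Pool.Agent.MP_8c549f_pr.S3

open MeasureTheory Finset Classical Real

namespace Pei

variable {D : ℕ}

/-- a self avoiding chain from `x` to `c` -/
def G (r : V D → V D → Prop) (c : V D) : V D → List (V D) → Prop
  | x, [] => x = c
  | x, y :: l => r x y ∧ x ∉ y :: l ∧ G r c y l

theorem G_suffix {r : V D → V D → Prop} {c v : V D} :
    ∀ (l : List (V D)) (x : V D), G r c x l → v ∈ x :: l → ∃ l', G r c v l'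
  | [], x, h, hv => ⟨[], by simp at hv; rw [hv]; exact h⟩
  | y :: l, x, h, hv => by
    rcases List.mem_cons.1 hv with rfl | hv
    · exact ⟨_, h⟩
    · exact G_suffix l y h.2.2 hv

theorem G_of {r : V D → V D → Prop} {c v : V D} (h : Relation.ReflTransGen r v c) :
    ∃ l, G r c v l := by
  induction h using Relation.ReflTransGen.head_induction_on with
  | refl => exact ⟨[], rfl⟩
  | @head a b hab _ ih =>
    obtain ⟨l, hl⟩ := ih
    by_cases hm : a ∈ b :: l
    · exact G_suffix l b hl hm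
    · exact ⟨b :: l, hab, hm, hl⟩

/-- the sets of sites of chains -/
def Wk : ℕ → V D → Finset (Finset (V D))
  | 0, x => {{x}}
  | n + 1, x => (ball x 2).biUnion fun y => (Wk n y).image (insert x)

theorem card_Wk : ∀ (n : ℕ) (x : V D), (Wk n x).card ≤ (5 ^ (D + 1)) ^ n
  | 0, x => by simp [Wk]
  | n + 1, x => by
    refine (card_biUnion_le_card_mul _ _ ((5 ^ (D + 1)) ^ n) fun y _ =>
      card_image_le.trans (card_Wk n y)).trans ?_
    rw [card_ball, pow_succ _ n, mul_comm]

theorem G_len {ω : Cfg D} {c : V D} : ∀ (l : List (V D)) (x : V D),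
    G (fun a b : V D => ∑ j, |b j - a j| ≤ 2 ∧ badS ω b) c x l → nrm (c - x) ≤ 2 * l.length
  | [], x, h => by rw [show x = c from h]; simp
  | y :: l, x, h => by
    have h1 := G_len l y h.2.2
    have h2 : nrm (y - x) ≤ 2 := nrm_le_of_sum (by simpa using h.1.1)
    have := nrm_tri c y x
    rw [List.length_cons]; omega

theorem G_set {ω : Cfg D} {c : V D} : ∀ (n : ℕ) (l : List (V D)) (x : V D),
    G (fun a b : V D => ∑ j, |b j - a j| ≤ 2 ∧ badS ω b) c x l → badS ω x → n ≤ l.length →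
    ∃ A ∈ Wk n x, A.card = n + 1 ∧ ∀ y ∈ A, y ∈ x :: l ∧ badS ω y
  | 0, l, x, _, hx, _ => ⟨{x}, by simp [Wk], rfl, fun y hy => by
      rw [mem_singleton.1 hy]; exact ⟨by simp, hx⟩⟩
  | n + 1, [], x, _, _, hn => by simp at hn
  | n + 1, y :: l, x, h, hx, hn => by
    obtain ⟨A, h1, h2, h3⟩ := G_set n l y h.2.2 h.1.2 (by simpa using hn)
    have h4 : nrm (y - x) ≤ 2 := nrm_le_of_sum (by simpa using h.1.1)
    refine ⟨insert x A, mem_biUnion.2 ⟨y, mem_ball.2 h4, mem_image_of_mem _ h1⟩, ?_, ?_⟩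
    · rw [card_insert_of_notMem fun hc => h.2.1 (h3 x hc).1, h2]
    · intro z hz
      rcases mem_insert.1 hz with rfl | hz
      · exact ⟨by simp, hx⟩
      · exact ⟨List.mem_cons_of_mem _ (h3 z hz).1, (h3 z hz).2⟩

theorem all_bad {p : ℝ} (h0 : 0 ≤ p) (h1 : p ≤ 1) (A : Finset (V D)) :
    (perc D p).real {ω | ∀ y ∈ A, badS ω y} ≤ ((2 * (D + 1) : ℕ) * √(1 - p)) ^ A.card := by
  have hP := perc_prob D h0 h1
  have key := real_exists_le (D := D) h0 h1 (univ : Finset (A → Step D))
    (fun f ω => ∀ y : A, ω (edge y (f y)) = false) (c := √(1 - p) ^ A.card) (by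
      intro f _
      set K := (univ : Finset A).image fun y : A => edge (y : V D) (f y) with hK
      have hc : A.card ≤ 2 * K.card := by
        rw [← Fintype.card_coe A, ← card_univ]
        refine card_le_mul_card_image _ 2 fun e _ => ?_
        refine (card_le_card_of_injOn (t := {e.1, e.1 + Pi.single e.2 1}) Subtype.val ?_
          Subtype.val_injective.injOn).trans card_le_two
        intro y hy
        have := (mem_filter.1 (mem_coe.1 hy)).2
        unfold edge at this
        split_ifs at this <;> simp [← this]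
      have e := cyl D p h0 h1 ∅ K (disjoint_empty_left _)
      have e2 : {ω : Cfg D | ∀ y : A, ω (edge y (f y)) = false} =
          {ω | (∀ e ∈ (∅ : Finset (Edge D)), ω e = true) ∧ ∀ e ∈ K, ω e = false} := by
        ext ω
        simp only [hK, Set.mem_ofPred_eq, forall_mem_image, mem_univ, notMem_empty,
          false_imp_iff, implies_true, true_and, forall_const]
      rw [e2, Measure.real, e, ENNReal.toReal_ofReal (by have := sub_nonneg.2 h1; positivity),
        card_empty, pow_zero, one_mul]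
      calc (1 - p) ^ K.card = √(1 - p) ^ (2 * K.card) := by
            rw [pow_mul, sq_sqrt (sub_nonneg.2 h1)]
        _ ≤ _ := pow_le_pow_of_le_one (sqrt_nonneg _) (sqrt_le_one.2 (by linarith)) hc)
  refine le_trans (measureReal_mono fun ω hω => ?_) (key.trans (le_of_eq ?_))
  · choose f hf using fun y : A => hω y y.2
    exact ⟨f, mem_univ _, hf⟩
  · rw [card_univ, Fintype.card_fun, Fintype.card_coe, mul_pow]
    simp [Step, mul_comm]

end Pei

open Pei

theorem pei : PeiStmt := by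
  intro D γ
  set c : ℝ := ((5 ^ (D + 1) : ℕ) : ℝ) with hc
  set d : ℝ := ((2 * (D + 1) : ℕ) : ℝ) with hd
  have c1 : 1 ≤ c := by rw [hc]; exact_mod_cast Nat.one_le_pow _ _ (by norm_num)
  have d0 : 0 < d := by rw [hd]; positivity
  set g := max γ 0 with hg
  refine ⟨(exp (-(2 * g)) / (c * d)) ^ 2, by positivity, fun p hp h1 h0 v h => ?_⟩
  have hP := perc_prob D h0 h1
  have hs : c * (d * √(1 - p)) ≤ exp (-(2 * g)) := by
    have : √(1 - p) ≤ exp (-(2 * g)) / (c * d) :=
      sqrt_le_iff.2 ⟨by positivity, by linarith⟩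
    rw [le_div_iff₀ (by positivity)] at this
    linarith
  set n := (h + 1) / 2 with hn
  have key := real_exists_le (D := D) h0 h1 (Wk n v)
    (fun A ω => A.card = n + 1 ∧ ∀ y ∈ A, badS ω y) (c := (d * √(1 - p)) ^ (n + 1)) (by
      intro A _
      by_cases e : A.card = n + 1
      · rw [← e]
        exact (measureReal_mono fun ω hω => hω.2).trans (all_bad h0 h1 A)
      · simp only [e, false_and, Set.ofPred_false, measureReal_empty]
        positivity)
  refine le_trans (measureReal_mono fun ω hω => ?_) (key.trans ?_)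
  · obtain ⟨b0, x, x1, x2⟩ := hω
    obtain ⟨l, hl⟩ := G_of x2
    have := G_len l v hl
    obtain ⟨A, a1, a2, a3⟩ := G_set n l v hl b0 (by omega)
    exact ⟨A, a1, a2, fun y hy => (a3 y hy).2⟩
  · have k1 : ((Wk n v).card : ℝ) ≤ c ^ (n + 1) := by
      refine le_trans ?_ (pow_le_pow_right₀ c1 (Nat.le_succ n))
      rw [hc]; exact_mod_cast card_Wk n v
    calc ((Wk n v).card : ℝ) * (d * √(1 - p)) ^ (n + 1)
        ≤ c ^ (n + 1) * (d * √(1 - p)) ^ (n + 1) := by gcongr
      _ = (c * (d * √(1 - p))) ^ (n + 1) := (mul_pow _ _ _).symm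
      _ ≤ exp (-(2 * g)) ^ (n + 1) := by gcongr
      _ ≤ _ := by
        rw [← exp_nat_mul, exp_le_exp]
        have g0 : 0 ≤ g := le_max_right _ _
        have g1 : γ ≤ g := le_max_left _ _
        have n1 : (h : ℝ) + 1 ≤ 2 * ((n + 1 : ℕ) : ℝ) := by
          exact_mod_cast (by omega : h + 1 ≤ 2 * (n + 1))
        have h0 : (0 : ℝ) ≤ h := Nat.cast_nonneg h
        nlinarith

theorem peiL : PeiStmt → PeiLStmt := by
  intro H D k
  obtain ⟨e, e0, he⟩ := H D (200 * k)
  refine ⟨e, e0, fun p hp h1 h0 v l hl => (he p hp h1 h0 v _).trans ?_⟩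
  have l0 : (0 : ℝ) < l := by exact_mod_cast hl
  have a1 : l ≤ 2 ^ (200 * (hh l + 1)) :=
    (Nat.lt_pow_succ_log_self (by norm_num : 1 < 2) l).le.trans
      (Nat.pow_le_pow_right (by norm_num) (by unfold hh; omega))
  have a2 : (l : ℝ) ≤ exp 1 ^ (200 * (hh l + 1)) := by
    refine le_trans (by exact_mod_cast a1 : (l : ℝ) ≤ 2 ^ (200 * (hh l + 1))) ?_
    have := add_one_le_exp (1 : ℝ)
    gcongr; linarith
  rw [exp_neg, one_div]
  refine inv_anti₀ (by positivity) ((pow_le_pow_left₀ l0.le a2 k).trans (le_of_eq ?_))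
  rw [← pow_mul, ← exp_nat_mul]
  congr 1
  push_cast; ring

theorem fcp : FCStmt → PeiStmt → FcpStmt := by
  intro F H D hD γ
  set g := max γ 1 with hg
  have g0 : 1 ≤ g := le_max_right _ _
  have g1 : γ ≤ g := le_max_left _ _
  obtain ⟨e, e0, he⟩ := H D (2 * g)
  refine ⟨e, e0, fun p hp h1 h0 h => ?_⟩
  have hP := perc_prob D h0 h1
  set x := exp (-(γ * (h + 1))) with hx
  have hs : HasSum (fun r : ℕ => x / 2 / 2 ^ r) x := hasSum_geometric_two' x
  have hb : ∀ r : ℕ, perc D p {ω | Ch ω (ray 0 r) (max h r)} ≤ ENNReal.ofReal (x / 2 / 2 ^ r) := by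
    intro r
    rw [← ofReal_measureReal]
    refine ENNReal.ofReal_le_ofReal ((he p hp h1 h0 _ _).trans ?_)
    have m1 : (h : ℝ) ≤ (max h r : ℕ) := by exact_mod_cast le_max_left h r
    have m2 : (r : ℝ) ≤ (max h r : ℕ) := by exact_mod_cast le_max_right h r
    have h0' : (0 : ℝ) ≤ h := Nat.cast_nonneg h
    have r0 : (0 : ℝ) ≤ r := Nat.cast_nonneg r
    have a2 : (2 : ℝ) ^ (r + 1) ≤ exp (r + 1) := by
      have := add_one_le_exp (1 : ℝ)
      calc (2 : ℝ) ^ (r + 1) ≤ exp 1 ^ (r + 1) := by gcongr; linarith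
        _ = _ := by rw [← exp_nat_mul]; congr 1; push_cast; ring
    rw [div_div, ← pow_succ', le_div_iff₀ (by positivity)]
    refine (mul_le_mul_of_nonneg_left a2 (exp_pos _).le).trans ?_
    rw [← exp_add, hx, exp_le_exp]
    nlinarith
  refine ENNReal.toReal_le_of_le_ofReal (exp_pos _).le ?_
  calc perc D p {ω | ω ∉ InfCl D ∧ ∃ c, Conn ω 0 c ∧ 2 * h ≤ nrm c}
      ≤ perc D p (⋃ r : ℕ, {ω | Ch ω (ray 0 r) (max h r)}) :=
        measure_mono fun ω hω => Set.mem_iUnion.2 (F D hD ω h hω.1 hω.2)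
    _ ≤ ∑' r : ℕ, ENNReal.ofReal (x / 2 / 2 ^ r) :=
        (measure_iUnion_le _).trans (ENNReal.tsum_le_tsum hb)
    _ = _ := by
        rw [← ENNReal.ofReal_tsum_of_nonneg (fun r => by positivity) hs.summable, hs.tsum_eq]

end Pool.Agent.MP_8c549f_pr.S3
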