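import Pool.Agent.MP_8c549f_pr.Base

-- ======== part 0: formerly Pool.Agent.MP_8c549f_pr.S3.Defs
section MrgPart0

/-! PROJECT BWALK3 (small bias): definitions. -/

noncomputable section

namespace Pool.Agent.MP_8c549f_pr.S3

open MeasureTheory Finset Classical

/-- real indicator of a proposition -/
def ind (P : Prop) : ℝ := if P then 1 else 0

/-! ### Abstract restart expansion -/

/-- expectation over `n` independent inputs with weights `w` -/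
def Ex {ι : Type} [Fintype ι] (w : ι → ℝ) : ℕ → (List ι → ℝ) → ℝ
  | 0, Φ => Φ []
  | n + 1, Φ => ∑ a, w a * Ex w n fun u => Φ (a :: u)

/-- a deterministic system driven by inputs -/
structure Sys (σ ι : Type) where
  F : σ → ι → σ
  dis : σ → ι → ℝ
  th : σ → ℝ
  safe : σ → Prop
  conf : σ → σ → ι → Prop
  new : σ

namespace Sys
variable {σ ι : Type} (A : Sys σ ι)

def run (S : σ) (u : List ι) : σ := u.foldl A.F S

def disp : σ → List ι → ℝ
  | _, [] => 0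
  | S, a :: u => A.dis S a + disp (A.F S a) u

/-- The tree of restarts. Mode `none`: the state `S` waits for a safe time. Mode `some R`: `S` is
compared with the fresh state `R`. `t` is the time and `o` the displacement so far. -/
def tree (sg : ℝ) (ψ : ℕ → ℝ → List ι → ℝ) (eW : σ → ℝ → ℝ) (eT : σ → σ → ℝ → ℝ) :
    List ι → σ → Option σ → ℕ → ℝ → ℝ
  | [], S, none, _, o => eW S o
  | [], S, some R, _, o => eT S R o
  | a :: u, S, none, t, o =>
      if A.safe (A.F S a) then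
        ψ (t + 1) (o + A.dis S a) u +
          tree sg ψ eW eT u (A.F S a) (some A.new) (t + 1) (o + A.dis S a)
      else tree sg ψ eW eT u (A.F S a) none (t + 1) (o + A.dis S a)
  | a :: u, S, some R, t, o =>
      if A.conf S R a then
        (if A.safe (A.F S a) then
          ψ (t + 1) (o + A.dis S a) u +
            tree sg ψ eW eT u (A.F S a) (some A.new) (t + 1) (o + A.dis S a)
        else tree sg ψ eW eT u (A.F S a) none (t + 1) (o + A.dis S a)) +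
        sg * (if A.safe (A.F R a) then
          ψ (t + 1) (o + A.dis R a) u +
            tree sg ψ eW eT u (A.F R a) (some A.new) (t + 1) (o + A.dis R a)
        else tree sg ψ eW eT u (A.F R a) none (t + 1) (o + A.dis R a))
      else tree sg ψ eW eT u (A.F S a) (some (A.F R a)) (t + 1) (o + A.dis S a)

/-- signed restarts at time `m`, tested against `φ` of the displacement -/
def out (φ : ℝ → ℝ) (m : ℕ) (u : List ι) : ℝ :=
  A.tree (-1) (fun t o _ => if t = m then φ o else 0) (fun _ _ => 0) (fun _ _ _ => 0)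
    u A.new none 0 0

/-- signed unfinished branches -/
def err (φ : ℝ → ℝ) (u : List ι) : ℝ :=
  A.tree (-1) (fun _ _ _ => 0) (fun S o => φ o * A.th S) (fun S R o => φ o * (A.th S - A.th R))
    u A.new none 0 0

/-- total size of the unfinished branches -/
def aerr (u : List ι) : ℝ :=
  A.tree 1 (fun _ _ _ => 0) (fun S _ => A.th S) (fun S R _ => |A.th S - A.th R|) u A.new none 0 0

/-- the main term: a first input in `G` -/
def top (G : Finset ι) (f : ι → ℝ) : List ι → ℝ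
  | [] => 0
  | a :: _ => if a ∈ G then f a else 0

/-- restarts without the main term -/
def rs (G : Finset ι) (φ : ℝ → ℝ) (m : ℕ) (u : List ι) : ℝ :=
  A.out φ m u - if m = 1 then top G (fun a => φ (A.dis A.new a)) u else 0

/-- second moment of the restart times, without the main term -/
def mom (G : Finset ι) (u : List ι) : ℝ :=
  A.tree 1 (fun t _ _ => (1 + (t : ℝ)) ^ 2) (fun _ _ => 0) (fun _ _ _ => 0) u A.new none 0 0 -
    top G (fun _ => 4) u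

/-- fourth power of the lag of the first conflict -/
def lagw : List ι → σ → σ → ℕ → ℝ
  | [], _, _, _ => 0
  | a :: u, S, R, L => if A.conf S R a then (1 + (L : ℝ)) ^ 4 else lagw u (A.F S a) (A.F R a) (L + 1)

/-- no conflict -/
def noconf : List ι → σ → σ → Prop
  | [], _, _ => True
  | a :: u, S, R => ¬ A.conf S R a ∧ noconf u (A.F S a) (A.F R a)

/-- weighted number of descendants -/
def zz : List ι → σ → Option (σ × ℕ) → ℝ
  | [], _, _ => 0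
  | a :: u, S, none =>
      if A.safe (A.F S a) then zz u (A.F S a) (some (A.new, 0)) else zz u (A.F S a) none
  | a :: u, S, some (R, L) =>
      if A.conf S R a then
        (2 * (1 + (L : ℝ))) ^ 2 * (2 +
          (if A.safe (A.F S a) then zz u (A.F S a) (some (A.new, 0)) else zz u (A.F S a) none) +
          (if A.safe (A.F R a) then zz u (A.F R a) (some (A.new, 0)) else zz u (A.F R a) none))
      else zz u (A.F S a) (some (A.F R a, L + 1))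

/-- the state at time `t` of the process born at time `b` -/
def st (u : List ι) (b t : ℕ) : σ := A.run A.new ((u.take t).drop b)

/-- the process born at `b` is not safe at the times strictly between `t` and `r` -/
def Gap (u : List ι) (b t r : ℕ) : Prop := ∀ i, t < i → i < r → ¬ A.safe (A.st u b i)

/-- fourth powers of the excess of long waits -/
def yq (u : List ι) : ℝ :=
  ∑ t ∈ range (u.length + 1), ∑ b ∈ range (t + 1), ∑ r ∈ Ioc t u.length,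
    ind (A.safe (A.st u b r) ∧ A.Gap u b t r) * (((r - (2 * t + 1) : ℕ) : ℝ)) ^ 4

/-- long unfinished waits -/
def v1 (u : List ι) : ℝ :=
  ∑ t ∈ range (u.length / 2 + 1), ∑ b ∈ range (t + 1),
    ind (A.Gap u b t u.length) * A.th (A.st u b u.length)

/-- long unfinished comparisons -/
def v2 (u : List ι) : ℝ :=
  ∑ r ∈ range (u.length / 2 + 1), ∑ b ∈ range (r + 1),
    ind (A.safe (A.st u b r) ∧ A.noconf (u.drop r) (A.st u b r) A.new) *
      |A.th (A.st u b u.length) - A.th (A.st u r u.length)|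

variable [Fintype ι]

def yy (w : ι → ℝ) (n : ℕ) : ℝ := Ex w n fun u => A.disp A.new u * A.th (A.run A.new u)

def piC (w : ι → ℝ) (φ : ℝ → ℝ) (m : ℕ) : ℝ := Ex w m (A.out φ m)

def waitq (w : ι → ℝ) (t T : ℕ) : ℝ :=
  Ex w (t + T) fun u => ind (A.Gap u 0 t (t + T)) * A.th (A.run A.new u)

def lateq (w : ι → ℝ) (t T : ℕ) : ℝ :=
  Ex w (t + T) fun u => ind (A.safe (A.st u 0 t) ∧ A.noconf (u.drop t) (A.st u 0 t) A.new) *
    |A.th (A.run A.new u) - A.th (A.run A.new (u.drop t))|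

/-- the elementary properties -/
structure Hyp0 (w : ι → ℝ) (θ : ℝ) : Prop where
  w0 : ∀ a, 0 ≤ w a
  w1 : ∑ a, w a = 1
  dis1 : ∀ S a, |A.dis S a| ≤ 1
  th0 : ∀ S, 0 ≤ A.th S
  th1 : ∀ S, A.th S ≤ 1
  agree : ∀ S R a, ¬ A.conf S R a → A.dis S a = A.dis R a
  half : ∀ S, A.safe S → 1 / 2 ≤ A.th S
  mass : ∀ n, (Ex w n fun u => A.th (A.run A.new u)) = θ
  pos : 1 / 2 ≤ θ

/-- the estimates -/
structure Hyp (w : ι → ℝ) (G : Finset ι) (θ C β : ℝ) : Prop extends A.Hyp0 w θ where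
  trial : ∀ S, A.safe S → ∀ n, (Ex w n fun u => A.lagw u S A.new 0) ≤ 1 / 256
  first : ∀ a ∈ G, A.safe (A.F A.new a)
  first' : ∀ a ∈ G, ∀ n, (Ex w n fun u => A.lagw u (A.F A.new a) A.new 0) ≤ β
  off : ∑ a ∈ Gᶜ, w a ≤ β
  wait : ∀ t T, t ≤ T → 1 ≤ T → A.waitq w t T ≤ C / (T : ℝ) ^ 10
  late : ∀ t T, 1 ≤ T → A.lateq w t T ≤ C / (T : ℝ) ^ 10

end Sys

/-! ### The exploration of the cluster by the walk -/

variable {D : ℕ}

/-- statuses of the edges at a site -/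
abbrev Sv (D : ℕ) : Type := Step D → Bool
/-- the statuses seen at a site and the step taken -/
abbrev Ob (D : ℕ) : Type := Sv D × Step D
/-- the observations so far, the most recent first -/
abbrev St (D : ℕ) : Type := List (Ob D)
/-- fresh statuses and a rule that chooses the step -/
abbrev In (D : ℕ) : Type := Sv D × (Sv D → Step D)

/-- the step from the origin that crosses `e`, if there is one -/
def stepOf (e : Edge D) : Option (Step D) :=
  if e.1 = 0 then some (e.2, true) else if e.1 = -Pi.single e.2 1 then some (e.2, false) else none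

/-- the known status of an edge, in coordinates relative to the present position -/
def look : St D → Edge D → Option Bool
  | [], _ => none
  | o :: S, e =>
    match stepOf (e.1 + vec o.2, e.2) with
    | some s => some (o.1 s)
    | none => look S (e.1 + vec o.2, e.2)

/-- overwrite `ω` with the known statuses -/
def ov (S : St D) (ω : Cfg D) : Cfg D := fun e => (look S e).getD (ω e)

/-- the statuses at the present position -/
def stat (S : St D) (σ : Sv D) : Sv D := fun s => (look S (edge 0 s)).getD (σ s)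

def upd (S : St D) (a : In D) : St D := (stat S a.1, a.2 (stat S a.1)) :: S

/-- all steps crossed open edges -/
def Leg (S : St D) : Prop := ∀ o ∈ S, o.1 o.2 = true

/-- conditional probability of an infinite cluster -/
def th (p : ℝ) (S : St D) : ℝ := if Leg S then (perc D p).real {ω | ov S ω ∈ InfCl D} else 0

/-- the position `k` steps ago, relative to the present position -/
def back (S : St D) (k : ℕ) : V D := -pos ((S.take k).map Prod.snd)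

/-- sup norm -/
def nrm (x : V D) : ℕ := univ.sup fun j => (x j).natAbs

def ker (lam : ℝ) (z : V D) : ℝ :=
  ((1 + (nrm z : ℝ)) ^ 2740)⁻¹ * Real.exp (max 0 (lam * (z 0 : ℝ) - (nrm z : ℝ) ^ (1 / 9 : ℝ)))

def del (p : ℝ) (b : Bool) : ℝ := if b = true then 1 - p else 1

/-- the danger of the known edges -/
def Dg (p lam : ℝ) (S : St D) : ℝ :=
  ∑ k : Fin S.length, ∑ s, del p ((S.get k).1 s) * ker lam (back S (k + 1))

def sys (D : ℕ) (p lam β : ℝ) : Sys (St D) (In D) where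
  F := upd
  dis S a := (vec (a.2 (stat S a.1)) 0 : ℝ)
  th := th p
  safe S := S ≠ [] ∧ Dg p lam S ≤ β ∧ 1 / 2 ≤ th p S
  conf S R a := stat S a.1 ≠ stat R a.1
  new := []

/-- the state reached from `S` -/
def go (S : St D) (u : List (In D)) : St D := u.foldl upd S

/-- law of the step given the statuses -/
def rho (lam : ℝ) (τ : Sv D) (s : Step D) : ℝ :=
  if ∃ s', τ s' = true then
    (if τ s = true then wt lam s / ∑ s', if τ s' = true then wt lam s' else 0 else 0)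
  else wt lam s / Zf D lam

/-- law of an input -/
def win (p lam : ℝ) (a : In D) : ℝ :=
  (∏ s, if a.1 s = true then p else 1 - p) * ∏ τ, rho lam τ (a.2 τ)

/-- inputs whose fresh statuses are all open -/
def G1 (D : ℕ) : Finset (In D) := univ.filter fun a => ∀ s, a.1 s = true

/-- quenched expectation over the first `n` steps -/
def Qx (lam : ℝ) (ω : Cfg D) : ℕ → V D → (List (Step D) → ℝ) → ℝ
  | 0, _, Φ => Φ []
  | n + 1, x, Φ => ∑ s, pr lam ω x s * Qx lam ω n (x + vec s) fun l => Φ (s :: l)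

/-- the state after the steps `l` in the configuration `ω` -/
def tr : St D → Cfg D → List (Step D) → St D
  | S, _, [] => S
  | S, ω, s :: l => tr ((fun s' => ω (edge 0 s'), s) :: S) (shift (vec s) ω) l

/-! ### Geometry -/

def Conn (ω : Cfg D) (x y : V D) : Prop := Relation.ReflTransGen (Opn ω) x y

/-- open path all of whose sites after the first lie in `B` -/
def OC (ω : Cfg D) (B : Finset (V D)) (x y : V D) : Prop :=
  Relation.ReflTransGen (fun u v => Opn ω u v ∧ v ∈ B) x y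

def ball (y : V D) (R : ℕ) : Finset (V D) := Fintype.piFinset fun j => Icc (y j - R) (y j + R)

def badS (ω : Cfg D) (v : V D) : Prop := ∃ s, ω (edge v s) = false

/-- a chain of sites with a closed edge leads from `v` to distance `h` -/
def Ch (ω : Cfg D) (v : V D) (h : ℕ) : Prop :=
  badS ω v ∧ ∃ c, h ≤ nrm (c - v) ∧
    Relation.ReflTransGen (fun a b : V D => ∑ j, |b j - a j| ≤ 2 ∧ badS ω b) v c

def Gd (ω : Cfg D) (y : V D) (R h : ℕ) : Prop := ∀ v, nrm (v - y) ≤ R → ¬ Ch ω v h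

def Big (ω : Cfg D) (v : V D) (h : ℕ) : Prop := ∃ c, Conn ω v c ∧ 6 * h ≤ nrm (c - v)

def Wide (ω : Cfg D) (y : V D) (h : ℕ) : Prop :=
  ∃ a b, Conn ω y a ∧ Conn ω y b ∧ 12 * h ≤ nrm (a - b)

def ray (v : V D) (r : ℕ) : V D := v + Pi.single (Fin.last D) (r : ℤ)

/-- the cluster of the origin is finite and has a site that was not left in the last `T` steps -/
def Unc (S : St D) (T : ℕ) (ω : Cfg D) : Prop :=
  ω ∉ InfCl D ∧ ∃ c, Conn ω 0 c ∧ ∀ k, 1 ≤ k → k ≤ T → c ≠ back S k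

def hh (l : ℕ) : ℕ := Nat.log 2 l / 200

/-! ### Kernels -/

/-- reversible measure -/
def pim (lam : ℝ) (ω : Cfg D) (x : V D) : ℝ := Real.exp (2 * lam * (x 0 : ℝ)) * Zq lam ω x

/-- transition probability -/
def pf (lam : ℝ) (ω : Cfg D) (n : ℕ) (y z : V D) : ℝ :=
  Qx lam ω n y fun l => ind (y + pos l = z)

/-- transition probability of the walk killed outside `A` -/
def pk (lam : ℝ) (ω : Cfg D) (A : Finset (V D)) (n : ℕ) (y z : V D) : ℝ :=
  Qx lam ω n y fun l => ind ((∀ i ≤ n, y + loc l i ∈ A) ∧ y + pos l = z)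

/-- energy of `g` on the open edges at the sites of `B` -/
def En (lam : ℝ) (ω : Cfg D) (B : Finset (V D)) (g : V D → ℝ) : ℝ :=
  ∑ x ∈ B, ∑ s, if ω (edge x s) = true then
    Real.exp (lam * (expo x s : ℝ)) * (g (x + vec s) - g x) ^ 2 else 0

/-- probability of a first visit to `z` at time `L` -/
def fv (p lam : ℝ) (L : ℕ) (z : V D) : ℝ :=
  Ex (win p lam) L fun u => ind (Leg (go [] u) ∧ back (go [] u) L = -z ∧
    ∀ k, 1 ≤ k → k ≤ L → back (go [] u) k ≠ 0)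

def finq (D : ℕ) (p lam : ℝ) (t T : ℕ) : ℝ :=
  Ex (win p lam) (t + T) fun u : List (In D) => ind (Leg (go [] u)) *
    (perc D p).real {ω | Unc (go [] u) T (ov (go [] u) ω)}

/-! ### The cascade of scales -/

def Ls (L i : ℕ) : ℕ := L ^ 37 ^ i

def NN (D n : ℕ) : ℝ := ((D : ℝ) + 9) * Real.log n

/-- the position `Ls L i` steps ago is far from everything older than `Ls L (i + 1)` steps -/
def Iso (S : St D) (L i : ℕ) : Prop :=
  ∀ k, Ls L (i + 1) ≤ k → k ≤ S.length → 3 * Ls L i < nrm (back S k - back S (Ls L i))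

/-- no deep backtrack during the last `n` steps -/
def NBk (lam : ℝ) (S : St D) (n : ℕ) (N : ℝ) : Prop :=
  ∀ a b, a ≤ b → b ≤ n → b ≤ S.length → lam * (((back S b - back S a) 0 : ℤ) : ℝ) ≤ N

/-- the recent sites near the position `Ls L 1` steps ago have only open edges -/
def AO (S : St D) (L : ℕ) : Prop :=
  ∀ k : Fin S.length, (k : ℕ) < Ls L 2 → nrm (back S (k + 1) - back S (Ls L 1)) ≤ 2 * Ls L 1 →
    ∀ s, (S.get k).1 s = true

/-- failure of an attempt below the top level -/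
def Low (lam : ℝ) (S : St D) (L J : ℕ) : Prop :=
  (∃ i, 1 ≤ i ∧ i < J ∧ ¬ NBk lam S (Ls L (i + 1)) (NN D (Ls L (i + 1)))) ∨
  (∃ i, 1 ≤ i ∧ i + 2 ≤ J ∧ Iso S L (i + 1) ∧ NBk lam S (Ls L (i + 2)) (NN D (Ls L (i + 2))) ∧
    ¬ Iso S L i) ∨
  (Iso S L 1 ∧ ¬ AO S L)

end Pool.Agent.MP_8c549f_pr.S3

end
end MrgPart0

-- ======== part 1: formerly Pool.Agent.MP_8c549f_pr.S3.Spec
section MrgPart1

/-! PROJECT BWALK3 (small bias): module statements. -/

noncomputable section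

namespace Pool.Agent.MP_8c549f_pr.S3

open MeasureTheory Finset Filter Topology Real

/-! ### Abstract part -/

def RecStmt : Prop := ∀ (σ ι : Type) [Fintype ι] (A : Sys σ ι) (w : ι → ℝ) (θ : ℝ), A.Hyp0 w θ →
  ∀ n : ℕ,
    A.yy w n = ∑ m ∈ Icc 1 n, (θ * A.piC w id m + A.yy w (n - m) * A.piC w (fun _ => 1) m) +
      Ex w n (A.err id) ∧
    θ = ∑ m ∈ Icc 1 n, θ * A.piC w (fun _ => 1) m + Ex w n (A.err fun _ => 1) ∧
    |Ex w n (A.err id)| ≤ n * Ex w n A.aerr ∧ |Ex w n (A.err fun _ => 1)| ≤ Ex w n A.aerr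

def RestStmt : Prop := ∀ (σ ι : Type) [Fintype ι] (A : Sys σ ι) (w : ι → ℝ) (θ : ℝ)
  (G : Finset ι), A.Hyp0 w θ → (∀ a ∈ G, A.safe (A.F A.new a)) → ∀ M : ℕ,
    ∑ m ∈ Icc 1 M, (m : ℝ) * Ex w m (fun u => |A.rs G id m u|) ≤ Ex w M (A.mom G) ∧
    ∑ m ∈ Icc 1 M, (m : ℝ) * Ex w m (fun u => |(m : ℝ) * A.rs G (fun _ => 1) m u|) ≤
      Ex w M (A.mom G)

def PathStmt : Prop := ∀ (σ ι : Type) (A : Sys σ ι) (G : Finset ι) (u : List ι) (y : ℝ),
  (∀ S, 0 ≤ A.th S) → (∀ S, A.th S ≤ 1) → (∀ a ∈ G, A.safe (A.F A.new a)) → 0 ≤ y →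
  (∀ b t r : ℕ, b ≤ t → t < r → r ≤ u.length → A.safe (A.st u b r) → A.Gap u b t r →
    (r : ℝ) ≤ 2 * t + 1 + y) →
  A.mom G u ≤ (2 + y) ^ 2 * (1 - Sys.top G (fun _ => 1) u) + (2 + 2 * y) ^ 2 * A.zz u A.new none ∧
  (u ≠ [] → A.aerr u ≤ 8 * (2 + 2 * y) ^ 2 * (1 + A.zz u A.new none) / (u.length : ℝ) ^ 2 +
    (1 + A.zz u A.new none) * (√(A.v1 u) + √(A.v2 u)))

def ZYStmt : Prop := ∀ (σ ι : Type) [Fintype ι] (A : Sys σ ι) (w : ι → ℝ) (G : Finset ι)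
  (θ C β : ℝ), A.Hyp w G θ C β → ∀ n : ℕ,
    (Ex w n fun u => A.zz u A.new none ^ 2) ≤ 257 * β ∧ Ex w n A.yq ≤ 4 * C ∧
    (1 ≤ n → Ex w n A.v1 ≤ 4096 * C / (n : ℝ) ^ 8 ∧ Ex w n A.v2 ≤ 4096 * C / (n : ℝ) ^ 8)

def MomStmt : Prop := ∀ C : ℝ, ∃ C' : ℝ, 0 ≤ C' ∧ ∀ (σ ι : Type) [Fintype ι] (A : Sys σ ι)
  (w : ι → ℝ) (G : Finset ι) (θ β : ℝ), A.Hyp w G θ C β →
    (∀ n, Ex w n (A.mom G) ≤ C' * √β) ∧
    Tendsto (fun n : ℕ => (n : ℝ) * Ex w n A.aerr) atTop (𝓝 0)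

def TauStmt : Prop := ∀ (y a b e f : ℕ → ℝ) (θ v : ℝ), θ ≠ 0 → y 0 = 0 →
  (∀ n, y n = ∑ m ∈ Icc 1 n, (θ * a m + y (n - m) * b m) + e n) →
  (∀ n, θ = ∑ m ∈ Icc 1 n, θ * b m + f n) →
  Summable (fun m => |a m|) → Summable (fun m : ℕ => (m : ℝ) * |b m|) →
  Tendsto e atTop (𝓝 0) → Tendsto f atTop (𝓝 0) →
  Tendsto (fun n : ℕ => y n / n) atTop (𝓝 (v * θ)) →
  Tendsto (fun M : ℕ => v * ∑ m ∈ Icc 1 M, (m : ℝ) * b m - ∑ m ∈ Icc 1 M, a m) atTop (𝓝 0)

def LipStmt : Prop := ∀ (ι : Type) [Fintype ι] (w : ℝ → ι → ℝ) (x y c δ : ℝ)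
  (Φ : ℕ → List ι → ℝ) (M : ℕ), x ≤ y → 0 ≤ c → (∀ s ∈ Set.Icc x y, ∀ a, 0 ≤ w s a) →
  (∀ s ∈ Set.Icc x y, ∀ t ∈ Set.Icc x y, ∀ a, w t a ≤ exp (c * |s - t|) * w s a) →
  (∀ s ∈ Set.Icc x y, ∑ m ∈ Icc 1 M, (m : ℝ) * Ex (w s) m (fun u => |Φ m u|) ≤ δ) →
  |∑ m ∈ Icc 1 M, (Ex (w y) m (Φ m) - Ex (w x) m (Φ m))| ≤ 2 * c * δ * (y - x)

def AbsStmt : Prop := ∀ C c c₀ : ℝ, 0 ≤ c → 0 < c₀ → ∃ β₀ : ℝ, 0 < β₀ ∧
  ∀ (σ ι : Type) [Fintype ι] (A : Sys σ ι) (w : ℝ → ι → ℝ) (G : Finset ι) (θ β x y vx vy : ℝ),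
    β ≤ β₀ → x < y → (∀ s ∈ Set.Icc x y, A.Hyp (w s) G θ C β) →
    (∀ s ∈ Set.Icc x y, ∀ t ∈ Set.Icc x y, ∀ a, w t a ≤ exp (c * |s - t|) * w s a) →
    ∑ a ∈ G, w y a = ∑ a ∈ G, w x a →
    c₀ * (y - x) ≤ ∑ a ∈ G, w y a * A.dis A.new a - ∑ a ∈ G, w x a * A.dis A.new a →
    Tendsto (fun n : ℕ => A.yy (w x) n / n) atTop (𝓝 (vx * θ)) →
    Tendsto (fun n : ℕ => A.yy (w y) n / n) atTop (𝓝 (vy * θ)) → vx < vy

/-! ### Inputs and the bridge to the annealed law -/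

def WinStmt : Prop := ∀ (D : ℕ) (p : ℝ), 0 ≤ p → p ≤ 1 →
  (∀ lam (a : In D), 0 ≤ win p lam a) ∧ (∀ lam, ∑ a : In D, win p lam a = 1) ∧
  (∀ lam (g : Sv D → Sv D) (f : Sv D → Step D → ℝ), ∑ a : In D, win p lam a * f a.1 (a.2 (g a.1)) =
    ∑ σ : Sv D, (∏ s, if σ s = true then p else 1 - p) * ∑ s, rho lam (g σ) s * f σ s) ∧
  (∀ s t (a : In D), win p t a ≤ exp (2 * 2 ^ (2 * (D + 1)) * |s - t|) * win p s a) ∧
  (∀ lam, ∑ a ∈ G1 D, win p lam a = p ^ (2 * (D + 1))) ∧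
  (∀ lam, ∑ a ∈ G1 D, win p lam a * (vec (a.2 (stat [] a.1)) 0 : ℝ) =
    p ^ (2 * (D + 1)) * ((exp lam - exp (-lam)) / Zf D lam)) ∧
  (∀ x y, 0 ≤ x → x ≤ y → y ≤ 1 → (y - x) / (8 * (D + 1)) ≤
    (exp y - exp (-y)) / Zf D y - (exp x - exp (-x)) / Zf D x)

def BrStmt : Prop := ∀ (D : ℕ) (p lam : ℝ), 0 ≤ p → p ≤ 1 → ∀ (n : ℕ) (S : St D)
  (G : St D → Cfg D → ℝ), Leg S → (∀ S', Measurable (G S')) → (∀ S', ∃ M, ∀ ω, |G S' ω| ≤ M) →
  (Ex (win p lam) n fun u => ind (Leg (go S u)) * ∫ ω, G (go S u) (ov (go S u) ω) ∂perc D p) =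
    ∫ ω, Qx lam (ov S ω) n 0 (fun l => G (tr S (ov S ω) l) (shift (pos l) (ov S ω))) ∂perc D p

def BrfStmt : Prop := ∀ (D : ℕ) (p lam : ℝ), 0 ≤ p → p ≤ 1 → ∀ (n : ℕ) (S : St D)
  (G : St D → Cfg D → Prop) (Bad : Set (Cfg D)) (c : ℝ), Leg S → 0 ≤ c →
  (∀ S', MeasurableSet {ω | G S' ω}) →
  (∀ ω ∉ Bad, Qx lam (ov S ω) n 0
    (fun l => ind (G (tr S (ov S ω) l) (shift (pos l) (ov S ω)))) ≤ c) →
  (Ex (win p lam) n fun u => ind (Leg (go S u)) *
    (perc D p).real {ω | G (go S u) (ov (go S u) ω)}) ≤ c + (perc D p).real Bad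

def SpeedStmt : Prop := ∀ (D : ℕ) (p lam lam' β : ℝ), 0 ≤ p → p ≤ 1 →
  (∀ n, (Ex (win p lam) n fun u : List (In D) => th p (go [] u)) = (perc D p).real (InfCl D)) ∧
  ∀ v, HasSpeed D p lam v → Tendsto (fun n : ℕ => (sys D p lam' β).yy (win p lam) n / n) atTop
    (𝓝 (v * (perc D p).real (InfCl D)))

/-! ### Geometry and Peierls bounds -/

def LUStmt : Prop := ∀ (D : ℕ), 1 ≤ D → ∀ (ω : Cfg D) (v v' : V D) (h : ℕ), 2 ≤ h →
  Big ω v h → Big ω v' h → nrm (v' - v) ≤ 2 * h → Gd ω v (2 * h) h → OC ω (ball v (4 * h)) v v'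

def LEStmt : Prop := ∀ (D : ℕ), 1 ≤ D → ∀ (ω : Cfg D) (u : V D) (h : ℕ),
  Gd ω u (7 * h) h → ∃ r ≤ h, Big ω (ray u r) h

def FCStmt : Prop := ∀ (D : ℕ), 1 ≤ D → ∀ (ω : Cfg D) (h : ℕ), ω ∉ InfCl D →
  (∃ c, Conn ω 0 c ∧ 2 * h ≤ nrm c) → ∃ r : ℕ, Ch ω (ray 0 r) (max h r)

def PeiStmt : Prop := ∀ (D : ℕ) (γ : ℝ), ∃ e₀ : ℝ, 0 < e₀ ∧ ∀ p, 1 - e₀ ≤ p → p ≤ 1 → 0 ≤ p →
  ∀ (v : V D) (h : ℕ), (perc D p).real {ω | Ch ω v h} ≤ exp (-(γ * (h + 1)))

def PeiLStmt : Prop := ∀ (D : ℕ) (k : ℕ), ∃ e₀ : ℝ, 0 < e₀ ∧ ∀ p, 1 - e₀ ≤ p → p ≤ 1 → 0 ≤ p →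
  ∀ (v : V D) (l : ℕ), 1 ≤ l → (perc D p).real {ω | Ch ω v (hh l)} ≤ 1 / (l : ℝ) ^ k

def FcpStmt : Prop := ∀ (D : ℕ), 1 ≤ D → ∀ γ : ℝ, ∃ e₀ : ℝ, 0 < e₀ ∧
  ∀ p, 1 - e₀ ≤ p → p ≤ 1 → 0 ≤ p → ∀ h : ℕ,
    (perc D p).real {ω | ω ∉ InfCl D ∧ ∃ c, Conn ω 0 c ∧ 2 * h ≤ nrm c} ≤ exp (-(γ * (h + 1)))

/-! ### Heat kernel bounds -/

def PkStmt : Prop := ∀ (D : ℕ) (lam : ℝ) (ω : Cfg D),
  (∀ A n y z, pim lam ω y * pk lam ω A n y z = pim lam ω z * pk lam ω A n z y) ∧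
  (∀ A n y z, pk lam ω A (n + 1) y z =
    ind (y ∈ A) * ∑ s, pr lam ω y s * pk lam ω A n (y + vec s) z) ∧
  (∀ A n y, (Qx lam ω n y fun l => ind (∀ i ≤ n, y + loc l i ∈ A)) = ∑ z ∈ A, pk lam ω A n y z) ∧
  (∀ n y z, pf lam ω n y z = pk lam ω (ball y n) n y z) ∧
  (∀ A n y z, pk lam ω A n y z ≠ 0 → y ∈ A ∧ z ∈ A ∧ Conn ω y z ∧ nrm (z - y) ≤ n) ∧
  (∀ a b y z (c : ℝ), 0 ≤ c → (∀ u, Conn ω y u → nrm (u - y) ≤ a → pf lam ω b u z ≤ c) →
    pf lam ω (a + b) y z ≤ c) ∧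
  (0 ≤ lam → lam ≤ 1 → ∀ n y z, pf lam ω n y z ≤
    20 * (D + 1) * exp (2 * lam * ((z 0 : ℝ) - (y 0 : ℝ))))

def SpecStmt : Prop := ∀ (D : ℕ) (lam : ℝ) (ω : Cfg D) (A B : Finset (V D)) (y : V D) (α κ : ℝ),
  0 < Zq lam ω y → 1 ≤ α → 0 ≤ κ →
  (∀ g : V D → ℝ, (∀ x, 0 ≤ g x) → (∀ x, g x ≠ 0 → x ∈ A ∧ Conn ω y x) →
    ∑ x ∈ A, pim lam ω x * g x ≤ 2 →
    ∑ x ∈ A, pim lam ω x * g x ^ 2 ≤ α * En lam ω B g + κ) →
  ∀ n : ℕ, ∑ z ∈ A, pk lam ω A n y z ^ 2 / pim lam ω z ≤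
    κ + exp (-(n / (4 * α))) / pim lam ω y

def NashStmt : Prop := ∀ (D : ℕ) (g : V D → ℝ) (y : V D) (R l : ℕ), 1 ≤ l →
  (∀ x, g x ≠ 0 → x ∈ ball y R) →
  ∑ x ∈ ball y R, g x ^ 2 ≤
    2 * (D + 1) * (l : ℝ) ^ 2 * ∑ x ∈ ball y (R + 1), ∑ i, (g (x + Pi.single i 1) - g x) ^ 2 +
      2 * (∑ x ∈ ball y R, |g x|) ^ 2 / (l : ℝ) ^ (D + 1)

def HardyStmt : Prop := ∀ (D : ℕ) (g : V D → ℝ) (y : V D) (R : ℕ) (lam : ℝ), 0 < lam → lam ≤ 1 →
  (∀ x, g x ≠ 0 → x ∈ ball y R) →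
  ∑ x ∈ ball y R, exp (2 * lam * (x 0 : ℝ)) * g x ^ 2 ≤ 4 / lam ^ 2 *
    ∑ x ∈ ball y (R + 1), exp (2 * lam * (x 0 : ℝ)) * (g (x + Pi.single 0 1) - g x) ^ 2

def PathEStmt : Prop := ∀ (D : ℕ) (ω : Cfg D) (B : Finset (V D)) (a b : V D) (g : V D → ℝ),
  a ∈ B → OC ω B a b → (g b - g a) ^ 2 ≤
    B.card * ∑ x ∈ B, ∑ s, if ω (edge x s) = true then (g (x + vec s) - g x) ^ 2 else 0

def ExtStmt : Prop := ∀ (D : ℕ), 1 ≤ D → ∀ (lam : ℝ) (ω : Cfg D) (y : V D) (m h : ℕ)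
  (g : V D → ℝ), 0 ≤ lam → 2 ≤ h → Gd ω y (m + 9 * h) h →
  (∀ x, g x ≠ 0 → x ∈ ball y m ∧ Big ω x h) →
  ∃ g' : V D → ℝ, (∀ x, g' x ≠ 0 → x ∈ ball y (m + h)) ∧ (∀ x, g x ≠ 0 → g' x = g x) ∧
    ∑ x ∈ ball y (m + h), |g' x| ≤ (h + 1) * ∑ x ∈ ball y m, |g x| ∧
    ∑ x ∈ ball y (m + h + 1), ∑ i,
        exp (2 * lam * (x 0 : ℝ)) * (g' (x + Pi.single i 1) - g' x) ^ 2 ≤
      (D + 1) * (10 * (h : ℝ) + 1) ^ (2 * (D + 1)) * exp (lam * (10 * h + 1)) *
        En lam ω (ball y (m + 7 * h)) g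

def HKStmt : Prop := ∀ (D : ℕ), 1 ≤ D → ∃ l₀ : ℕ, ∀ l, l₀ ≤ l → ∀ (lam : ℝ) (ω : Cfg D)
  (y z : V D) (j : ℕ), 0 < lam → lam ≤ 1 → l ^ 9 ≤ j → Gd ω y (2 * j) (hh l) → Wide ω y (hh l) →
  pf lam ω j y z * (l : ℝ) ^ ((D + 1) / 2) ≤
    l * exp (max 0 (lam * ((z 0 : ℝ) - (y 0 : ℝ)) - (l : ℝ) ^ 2))

def NBStmt : Prop := ∀ (D : ℕ), ∃ n₀ : ℕ, ∀ (lam : ℝ) (ω : Cfg D) (S : St D) (n n' : ℕ),
  0 ≤ lam → lam ≤ 1 → n₀ ≤ n' → n ≤ n' →
  (Qx lam ω n 0 fun l => ind (¬ NBk lam (tr S ω l) n (NN D n'))) ≤ 1 / (n' : ℝ) ^ 12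

def FinStmt : Prop := ∀ (D : ℕ), 1 ≤ D → ∀ k : ℕ, ∃ C e₀ : ℝ, 0 ≤ C ∧ 0 < e₀ ∧
  ∀ p lam, 1 - e₀ ≤ p → p ≤ 1 → 0 ≤ p → 0 ≤ lam → lam ≤ 1 → ∀ t T : ℕ, 1 ≤ T →
    finq D p lam t T ≤ C / (T : ℝ) ^ k

def SumStmt : Prop := ∀ (D : ℕ), 100000 ≤ D → ∃ K e₀ : ℝ, 0 < K ∧ 0 < e₀ ∧
  ∀ p lam lam', 1 - e₀ ≤ p → p ≤ 1 → 0 ≤ p → 0 < lam → lam ≤ lam' → lam' ≤ 1 →
    ∀ (z z' : V D) (n : ℕ), nrm (z' - z) ≤ 1 →
      ∑ L ∈ range n, (1 + (L : ℝ)) ^ 4 * fv p lam L z' ≤ K * ker lam' z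

/-! ### Conflicts -/

def ConfStmt : Prop := ∀ (D : ℕ) (p lam lam' β K : ℝ), 0 ≤ p → p ≤ 1 →
  (∀ (z z' : V D) (n : ℕ), nrm (z' - z) ≤ 1 →
    ∑ L ∈ range n, (1 + (L : ℝ)) ^ 4 * fv p lam L z' ≤ K * ker lam' z) →
  ∀ S : St D, S ≠ [] → Leg S → ∀ n,
    (Ex (win p lam) n fun u => (sys D p lam' β).lagw u S [] 0) ≤ 2 * K * Dg p lam' S

def LateStmt : Prop := ∀ (D : ℕ) (p lam lam' β : ℝ), 0 ≤ p → p ≤ 1 → ∀ t T : ℕ,
  (sys D p lam' β).lateq (win p lam) t T ≤ finq D p lam t T + finq D p lam 0 T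

/-! ### The cascade -/

def DgStmt : Prop := ∀ (D : ℕ) (β : ℝ), 0 < β → ∃ L₀ : ℕ, ∀ L, L₀ ≤ L → ∃ e₀ : ℝ, 0 < e₀ ∧
  ∀ (p lam lam' : ℝ) (J : ℕ) (S : St D), 1 - e₀ ≤ p → p ≤ 1 → 0 < lam → lam ≤ lam' →
    lam' ≤ 2 * lam → lam' ≤ 1 → 2 ≤ J → S.length ≤ 2 * Ls L (J + 1) ^ 2 →
    ¬ Low lam S L J → Iso S L (J - 1) → NBk lam S S.length (NN D (2 * Ls L (J + 1) ^ 2)) →
    Dg p lam' S ≤ β

def FarStmt : Prop := ∀ (D : ℕ), 100000 ≤ D → ∃ (L₀ : ℕ) (e₀ : ℝ), 0 < e₀ ∧ ∀ L, L₀ ≤ L →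
  ∀ (p lam : ℝ), 1 - e₀ ≤ p → p ≤ 1 → 0 ≤ p → 0 < lam → lam ≤ 1 → ∀ (i : ℕ) (S : St D), 1 ≤ i →
    Leg S → (Ex (win p lam) (Ls L (i + 2)) fun u => ind (Leg (go S u) ∧ Iso (go S u) L (i + 1) ∧
      NBk lam (go S u) (Ls L (i + 2)) (NN D (Ls L (i + 2))) ∧ ¬ Iso (go S u) L i)) ≤ 1 / Ls L i

def TopStmt : Prop := ∀ (D : ℕ), 100000 ≤ D → ∃ (L₀ : ℕ) (e₀ : ℝ), 0 < e₀ ∧ ∀ L, L₀ ≤ L →
  ∀ (p lam : ℝ), 1 - e₀ ≤ p → p ≤ 1 → 0 ≤ p → 0 < lam → lam ≤ 1 → ∀ J s n : ℕ, 2 ≤ J →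
    Ls L J ≤ s → s ≤ n → n ≤ 2 * Ls L (J + 1) ^ 2 →
    (Ex (win p lam) n fun u : List (In D) => th p (go [] u) *
      ind (NBk lam (go [] (u.take s)) s (NN D (2 * Ls L (J + 1) ^ 2)) ∧
        ¬ Iso (go [] (u.take s)) L (J - 1))) ≤ 1 / (Ls L (J + 1) : ℝ) ^ 24

def AOStmt : Prop := ∀ (D L : ℕ), 2 ≤ L → ∃ e₀ : ℝ, 0 < e₀ ∧ ∀ (p lam : ℝ), 1 - e₀ ≤ p → p ≤ 1 →
  0 ≤ p → ∀ S : St D, Leg S → (Ex (win p lam) (Ls L 2) fun u =>
    ind (Leg (go S u) ∧ Iso (go S u) L 1 ∧ ¬ AO (go S u) L)) ≤ 1 / 8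

def LowStmt : Prop := ∀ (D : ℕ), 100000 ≤ D → ∃ L₀ : ℕ, ∀ L, L₀ ≤ L → ∃ e₀ : ℝ, 0 < e₀ ∧
  ∀ (p lam : ℝ), 1 - e₀ ≤ p → p ≤ 1 → 0 ≤ p → 0 < lam → lam ≤ 1 → ∀ (J : ℕ) (S : St D), 2 ≤ J →
    Leg S → (Ex (win p lam) (Ls L J) fun u => ind (Leg (go S u) ∧ Low lam (go S u) L J)) ≤ 1 / 2

def CascStmt : Prop := ∀ (D : ℕ), 100000 ≤ D → ∀ β : ℝ, 0 < β → ∃ C e₀ : ℝ, 0 ≤ C ∧ 0 < e₀ ∧
  ∀ (p lam lam' : ℝ), 1 - e₀ ≤ p → p ≤ 1 → 0 ≤ p → 0 < lam → lam ≤ lam' → lam' ≤ 2 * lam →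
    lam' ≤ 1 → ∀ t T : ℕ, t ≤ T → 1 ≤ T →
      (sys D p lam' β).waitq (win p lam) t T ≤ C / (T : ℝ) ^ 10

/-! ### Final statements -/

def SmallStmt : Prop := ∀ (D : ℕ), 100000 ≤ D → ∃ p₀ : ℝ, p₀ < 1 ∧ ∀ p, p₀ < p → p < 1 →
  ∀ x y vx vy : ℝ, 0 < x → x < y → y ≤ 2 * x → y ≤ 1 →
    HasSpeed D p x vx → HasSpeed D p y vy → vx < vy

def MainStmt : Prop := ∀ (D : ℕ), 100000 ≤ D → ∃ p₀ : ℝ, p₀ < 1 ∧ ∀ p, p₀ < p → p < 1 →
  ∀ v : ℝ → ℝ, (∀ x, 0 < x → HasSpeed D p x (v x)) →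
    ∀ x y z : ℝ, 0 < x → x < y → y < z → min (v x) (v z) ≤ v y

end Pool.Agent.MP_8c549f_pr.S3

end
end MrgPart1

-- ======== part 2: formerly Pool.Agent.MP_8c549f_pr.S3.BasicA
section MrgPart2

/-! PROJECT BWALK3: elementary facts on `ind`, `Ex` and the abstract systems. -/

noncomputable section

namespace Pool.Agent.MP_8c549f_pr.S3

open Finset Classical

/-! ### indicators -/

theorem ind_pos {P : Prop} (h : P) : ind P = 1 := if_pos h

theorem ind_neg {P : Prop} (h : ¬ P) : ind P = 0 := if_neg h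

@[simp] theorem ind_true : ind True = 1 := ind_pos trivial

@[simp] theorem ind_false : ind False = 0 := ind_neg id

theorem ind_nonneg (P : Prop) : 0 ≤ ind P := by unfold ind; split_ifs <;> norm_num

theorem ind_le_one (P : Prop) : ind P ≤ 1 := by unfold ind; split_ifs <;> norm_num

theorem ind_congr {P Q : Prop} (h : P ↔ Q) : ind P = ind Q := by rw [propext h]

theorem ind_mono {P Q : Prop} (h : P → Q) : ind P ≤ ind Q := by
  by_cases hP : P
  · rw [ind_pos hP, ind_pos (h hP)]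
  · rw [ind_neg hP]; exact ind_nonneg Q

theorem ind_and (P Q : Prop) : ind (P ∧ Q) = ind P * ind Q := by
  by_cases hP : P <;> by_cases hQ : Q <;> simp [ind, hP, hQ]

theorem ind_not (P : Prop) : ind (¬ P) = 1 - ind P := by by_cases hP : P <;> simp [ind, hP]

theorem ind_or_le (P Q : Prop) : ind (P ∨ Q) ≤ ind P + ind Q := by
  by_cases hP : P
  · rw [ind_pos (Or.inl hP), ind_pos hP]; linarith [ind_nonneg Q]
  · rw [ind_neg hP, zero_add]; exact ind_mono fun h => h.resolve_left hP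

theorem ind_le_add {P Q R : Prop} (h : P → Q ∨ R) : ind P ≤ ind Q + ind R :=
  (ind_mono h).trans (ind_or_le Q R)

/-- union bound -/
theorem ind_le_sum {α : Type} {P : Prop} (s : Finset α) (Q : α → Prop) (h : P → ∃ a ∈ s, Q a) :
    ind P ≤ ∑ a ∈ s, ind (Q a) := by
  by_cases hP : P
  · obtain ⟨a, ha, hq⟩ := h hP
    rw [ind_pos hP, ← ind_pos hq]
    exact single_le_sum (f := fun a => ind (Q a)) (fun _ _ => ind_nonneg _) ha
  · rw [ind_neg hP]; exact sum_nonneg fun _ _ => ind_nonneg _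

theorem ind_le_of {P : Prop} {c : ℝ} (hc : 0 ≤ c) (h : P → 1 ≤ c) : ind P ≤ c := by
  by_cases hP : P
  · rw [ind_pos hP]; exact h hP
  · rw [ind_neg hP]; exact hc

theorem ind_mul_le {P : Prop} {a c : ℝ} (hc : 0 ≤ c) (h : P → a ≤ c) : ind P * a ≤ c := by
  by_cases hP : P
  · rw [ind_pos hP, one_mul]; exact h hP
  · rw [ind_neg hP, zero_mul]; exact hc

theorem ind_mul_congr {P : Prop} {a b : ℝ} (h : P → a = b) : ind P * a = ind P * b := by
  by_cases hP : P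
  · rw [h hP]
  · rw [ind_neg hP, zero_mul, zero_mul]

theorem ind_mul_mono {P : Prop} {a b : ℝ} (h : P → a ≤ b) : ind P * a ≤ ind P * b := by
  by_cases hP : P
  · exact mul_le_mul_of_nonneg_left (h hP) (ind_nonneg P)
  · rw [ind_neg hP, zero_mul, zero_mul]

theorem ind_ne_zero {P : Prop} (h : ind P ≠ 0) : P := by
  by_contra hP; exact h (ind_neg hP)

/-! ### the expectation `Ex` -/

section Ex

variable {ι : Type} [Fintype ι] {w : ι → ℝ}

@[simp] theorem Ex_zero (Φ : List ι → ℝ) : Ex w 0 Φ = Φ [] := rfl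

theorem Ex_succ (n : ℕ) (Φ : List ι → ℝ) :
    Ex w (n + 1) Φ = ∑ a, w a * Ex w n fun u => Φ (a :: u) := rfl

/-- only lists of length `n` whose entries have non-zero weight matter -/
theorem Ex_congr' {n : ℕ} {Φ Ψ : List ι → ℝ}
    (h : ∀ u, u.length = n → (∀ a ∈ u, w a ≠ 0) → Φ u = Ψ u) : Ex w n Φ = Ex w n Ψ := by
  induction n generalizing Φ Ψ with
  | zero => exact h [] rfl (by simp)
  | succ n ih =>
    rw [Ex_succ, Ex_succ]
    refine sum_congr rfl fun a _ => ?_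
    by_cases ha : w a = 0
    · simp [ha]
    · rw [ih fun u hu hw => h (a :: u) (by simp [hu]) (by simpa [ha] using hw)]

theorem Ex_congr {n : ℕ} {Φ Ψ : List ι → ℝ} (h : ∀ u, u.length = n → Φ u = Ψ u) :
    Ex w n Φ = Ex w n Ψ := Ex_congr' fun u hu _ => h u hu

theorem Ex_mono' (h0 : ∀ a, 0 ≤ w a) {n : ℕ} {Φ Ψ : List ι → ℝ}
    (h : ∀ u, u.length = n → (∀ a ∈ u, w a ≠ 0) → Φ u ≤ Ψ u) : Ex w n Φ ≤ Ex w n Ψ := by
  induction n generalizing Φ Ψ with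
  | zero => exact h [] rfl (by simp)
  | succ n ih =>
    rw [Ex_succ, Ex_succ]
    refine sum_le_sum fun a _ => ?_
    by_cases ha : w a = 0
    · simp [ha]
    · exact mul_le_mul_of_nonneg_left
        (ih fun u hu hw => h (a :: u) (by simp [hu]) (by simpa [ha] using hw)) (h0 a)

theorem Ex_mono (h0 : ∀ a, 0 ≤ w a) {n : ℕ} {Φ Ψ : List ι → ℝ}
    (h : ∀ u, u.length = n → Φ u ≤ Ψ u) : Ex w n Φ ≤ Ex w n Ψ := Ex_mono' h0 fun u hu _ => h u hu

theorem Ex_add (n : ℕ) (Φ Ψ : List ι → ℝ) :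
    (Ex w n fun u => Φ u + Ψ u) = Ex w n Φ + Ex w n Ψ := by
  induction n generalizing Φ Ψ with
  | zero => rfl
  | succ n ih => simp only [Ex_succ, ih, mul_add, sum_add_distrib]

theorem Ex_mul_left (n : ℕ) (c : ℝ) (Φ : List ι → ℝ) :
    (Ex w n fun u => c * Φ u) = c * Ex w n Φ := by
  induction n generalizing Φ with
  | zero => rfl
  | succ n ih =>
    simp only [Ex_succ, ih, mul_sum]
    exact sum_congr rfl fun a _ => by ring

theorem Ex_mul_right (n : ℕ) (c : ℝ) (Φ : List ι → ℝ) :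
    (Ex w n fun u => Φ u * c) = Ex w n Φ * c := by
  rw [mul_comm, ← Ex_mul_left]; exact Ex_congr fun u _ => mul_comm _ _

theorem Ex_div (n : ℕ) (c : ℝ) (Φ : List ι → ℝ) :
    (Ex w n fun u => Φ u / c) = Ex w n Φ / c := by
  simp only [div_eq_mul_inv, Ex_mul_right]

theorem Ex_neg (n : ℕ) (Φ : List ι → ℝ) : (Ex w n fun u => -Φ u) = -Ex w n Φ := by
  have := Ex_mul_left (w := w) n (-1) Φ
  simpa using this

theorem Ex_sub (n : ℕ) (Φ Ψ : List ι → ℝ) :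
    (Ex w n fun u => Φ u - Ψ u) = Ex w n Φ - Ex w n Ψ := by
  simp only [sub_eq_add_neg, Ex_add, Ex_neg]

@[simp] theorem Ex_zero_fun (n : ℕ) : (Ex w n fun _ => 0) = 0 := by
  have := Ex_mul_left (w := w) n 0 fun _ => 0
  simpa using this

theorem Ex_sum {α : Type} (n : ℕ) (s : Finset α) (f : α → List ι → ℝ) :
    (Ex w n fun u => ∑ i ∈ s, f i u) = ∑ i ∈ s, Ex w n (f i) := by
  induction s using Finset.induction_on with
  | empty => simp
  | insert a s ha ih => simp only [sum_insert ha, Ex_add, ih]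

theorem Ex_const (h1 : ∑ a, w a = 1) (n : ℕ) (c : ℝ) : (Ex w n fun _ => c) = c := by
  induction n with
  | zero => rfl
  | succ n ih => rw [Ex_succ]; simp only [ih]; rw [← sum_mul, h1, one_mul]

theorem Ex_nonneg (h0 : ∀ a, 0 ≤ w a) {n : ℕ} {Φ : List ι → ℝ} (h : ∀ u, u.length = n → 0 ≤ Φ u) :
    0 ≤ Ex w n Φ := by
  rw [← Ex_zero_fun (w := w) n]; exact Ex_mono h0 h

theorem Ex_le_const (h0 : ∀ a, 0 ≤ w a) (h1 : ∑ a, w a = 1) {n : ℕ} {Φ : List ι → ℝ} {c : ℝ}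
    (h : ∀ u, u.length = n → Φ u ≤ c) : Ex w n Φ ≤ c :=
  (Ex_mono h0 h).trans (Ex_const h1 n c).le

theorem abs_Ex_le (h0 : ∀ a, 0 ≤ w a) (n : ℕ) (Φ : List ι → ℝ) :
    |Ex w n Φ| ≤ Ex w n fun u => |Φ u| := by
  refine abs_le.2 ⟨?_, Ex_mono h0 fun u _ => le_abs_self _⟩
  rw [← Ex_neg]
  exact Ex_mono h0 fun u _ => neg_abs_le _

/-- first `m` inputs, then `n` inputs -/
theorem Ex_append (m n : ℕ) (Φ : List ι → ℝ) :
    Ex w (m + n) Φ = Ex w m fun u => Ex w n fun v => Φ (u ++ v) := by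
  induction m generalizing Φ with
  | zero => simp
  | succ m ih =>
    rw [Nat.succ_add, Ex_succ, Ex_succ]
    simp only [ih, List.cons_append]

/-- last input -/
theorem Ex_succ' (n : ℕ) (Φ : List ι → ℝ) :
    Ex w (n + 1) Φ = Ex w n fun u => ∑ a, w a * Φ (u ++ [a]) := by
  rw [Ex_append]; rfl

theorem Ex_take_drop (m n : ℕ) (f : List ι → List ι → ℝ) :
    (Ex w (m + n) fun u => f (u.take m) (u.drop m)) = Ex w m fun u => Ex w n fun v => f u v := by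
  rw [Ex_append]
  exact Ex_congr fun u hu => Ex_congr fun v _ => by
    rw [List.take_left' hu, List.drop_left' hu]

theorem Ex_take (h1 : ∑ a, w a = 1) {m N : ℕ} (h : m ≤ N) (f : List ι → ℝ) :
    (Ex w N fun u => f (u.take m)) = Ex w m f := by
  obtain ⟨n, rfl⟩ := Nat.exists_eq_add_of_le h
  rw [Ex_take_drop m n fun u _ => f u]
  exact Ex_congr fun u _ => Ex_const h1 n _

theorem Ex_drop (h1 : ∑ a, w a = 1) {m N : ℕ} (h : m ≤ N) (f : List ι → ℝ) :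
    (Ex w N fun u => f (u.drop m)) = Ex w (N - m) f := by
  obtain ⟨n, rfl⟩ := Nat.exists_eq_add_of_le h
  rw [Ex_take_drop m n fun _ v => f v, Nat.add_sub_cancel_left]
  exact Ex_const h1 m _

/-- a window of inputs -/
theorem Ex_window (h1 : ∑ a, w a = 1) {b r N : ℕ} (hb : b ≤ r) (hr : r ≤ N) (f : List ι → ℝ) :
    (Ex w N fun u => f ((u.take r).drop b)) = Ex w (r - b) f := by
  rw [Ex_take h1 hr fun u => f (u.drop b), Ex_drop h1 hb]

/-- bound by conditioning on the first `m` inputs -/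
theorem Ex_append_le (h0 : ∀ a, 0 ≤ w a) {m n : ℕ} {Φ Ψ : List ι → ℝ}
    (h : ∀ u, u.length = m → (Ex w n fun v => Φ (u ++ v)) ≤ Ψ u) : Ex w (m + n) Φ ≤ Ex w m Ψ := by
  rw [Ex_append]; exact Ex_mono h0 h

/-- Cauchy-Schwarz -/
theorem Ex_mul_sq_le (h0 : ∀ a, 0 ≤ w a) (n : ℕ) (f g : List ι → ℝ) :
    (Ex w n fun u => f u * g u) ^ 2 ≤ (Ex w n fun u => f u ^ 2) * Ex w n fun u => g u ^ 2 := by
  have key : ∀ x : ℝ, 0 ≤ (Ex w n fun u => f u ^ 2) * (x * x) +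
      2 * (Ex w n fun u => f u * g u) * x + Ex w n fun u => g u ^ 2 := by
    intro x
    have := Ex_nonneg h0 (n := n) (Φ := fun u => (f u * x + g u) ^ 2) fun u _ => sq_nonneg _
    rw [← Ex_mul_right, mul_assoc, ← Ex_mul_right, ← Ex_mul_left, ← Ex_add, ← Ex_add]
    exact this.trans_eq (Ex_congr fun u _ => by ring)
  have := discrim_le_zero key
  rw [discrim] at this
  nlinarith

theorem Ex_mul_le_sqrt (h0 : ∀ a, 0 ≤ w a) (n : ℕ) (f g : List ι → ℝ) :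
    (Ex w n fun u => f u * g u) ≤ √(Ex w n fun u => f u ^ 2) * √(Ex w n fun u => g u ^ 2) := by
  rw [← Real.sqrt_mul (Ex_nonneg h0 fun u _ => sq_nonneg _)]
  exact Real.le_sqrt_of_sq_le (Ex_mul_sq_le h0 n f g)

/-- the expectation of a function of the first input -/
theorem Ex_top (h1 : ∑ a, w a = 1) (G : Finset ι) (f : ι → ℝ) (n : ℕ) :
    Ex w (n + 1) (Sys.top G f) = ∑ a ∈ G, w a * f a := by
  rw [Ex_succ]
  simp only [Sys.top, Ex_const h1, mul_ite, mul_zero]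
  rw [← sum_filter]
  simp

end Ex

/-! ### systems -/

namespace Sys

variable {σ ι : Type} (A : Sys σ ι)

@[simp] theorem run_nil (S : σ) : A.run S [] = S := rfl

@[simp] theorem run_cons (S : σ) (a : ι) (u : List ι) : A.run S (a :: u) = A.run (A.F S a) u := rfl

theorem run_append (S : σ) (u v : List ι) : A.run S (u ++ v) = A.run (A.run S u) v :=
  List.foldl_append

@[simp] theorem disp_nil (S : σ) : A.disp S [] = 0 := rfl

@[simp] theorem disp_cons (S : σ) (a : ι) (u : List ι) :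
    A.disp S (a :: u) = A.dis S a + A.disp (A.F S a) u := rfl

theorem abs_disp_le (h : ∀ S a, |A.dis S a| ≤ 1) (u : List ι) :
    ∀ S, |A.disp S u| ≤ u.length := by
  induction u with
  | nil => intro S; simp
  | cons a u ih =>
    intro S
    rw [disp_cons, List.length_cons]
    push_cast
    linarith [abs_add_le (A.dis S a) (A.disp (A.F S a) u), h S a, ih (A.F S a)]

theorem st_of_le (u : List ι) {b t : ℕ} (h : t ≤ b) : A.st u b t = A.new := by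
  rw [st, List.drop_of_length_le ((List.length_take_le _ _).trans h)]; rfl

@[simp] theorem st_self (u : List ι) (b : ℕ) : A.st u b b = A.new := A.st_of_le u le_rfl

theorem st_zero (u : List ι) (t : ℕ) : A.st u 0 t = A.run A.new (u.take t) := rfl

theorem st_length (u : List ι) (b : ℕ) : A.st u b u.length = A.run A.new (u.drop b) := by
  rw [st, List.take_length]

theorem st_take (u : List ι) (b : ℕ) {t r : ℕ} (h : t ≤ r) : A.st (u.take r) b t = A.st u b t := by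
  rw [st, List.take_take, min_eq_left h]; rfl

theorem st_drop (u : List ι) (b c t : ℕ) : A.st (u.drop b) c t = A.st u (b + c) (b + t) := by
  rw [st, st, List.take_drop, List.drop_drop]

/-- the state of the process born at `b` in terms of the window `[b, r)` -/
theorem st_window (u : List ι) {b t r : ℕ} (hb : b ≤ t) (h : t ≤ r) :
    A.st ((u.take r).drop b) 0 (t - b) = A.st u b t := by
  rw [st_drop, add_zero, Nat.add_sub_cancel' hb, st_take _ _ _ h]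

theorem st_succ (pre : List ι) (a : ι) (u : List ι) {b : ℕ} (hb : b ≤ pre.length) :
    A.st (pre ++ a :: u) b (pre.length + 1) = A.F (A.st (pre ++ a :: u) b pre.length) a := by
  have e1 : (pre ++ a :: u).take (pre.length + 1) = pre ++ [a] := by
    rw [List.take_length_add_append]; rfl
  rw [st, st, e1, List.take_left, List.drop_append_of_le_length hb, run_append]; rfl

theorem st_add (u : List ι) {b t : ℕ} (hb : b ≤ t) (ht : t ≤ u.length) (k : ℕ) :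
    A.st u b (t + k) = A.run (A.st u b t) ((u.drop t).take k) := by
  rw [st, st, List.take_add, List.drop_append_of_le_length (by simp; omega), run_append]

variable (sg : ℝ) (ψ : ℕ → ℝ → List ι → ℝ) (eW : σ → ℝ → ℝ) (eT : σ → σ → ℝ → ℝ)

@[simp] theorem tree_nil_none (S : σ) (t : ℕ) (o : ℝ) :
    A.tree sg ψ eW eT [] S none t o = eW S o := by simp [tree]

@[simp] theorem tree_nil_some (S R : σ) (t : ℕ) (o : ℝ) :
    A.tree sg ψ eW eT [] S (some R) t o = eT S R o := by simp [tree]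

theorem tree_cons_none (a : ι) (u : List ι) (S : σ) (t : ℕ) (o : ℝ) :
    A.tree sg ψ eW eT (a :: u) S none t o =
      if A.safe (A.F S a) then
        ψ (t + 1) (o + A.dis S a) u +
          A.tree sg ψ eW eT u (A.F S a) (some A.new) (t + 1) (o + A.dis S a)
      else A.tree sg ψ eW eT u (A.F S a) none (t + 1) (o + A.dis S a) := by
  rw [tree]

/-- at a conflict both branches pass to the waiting mode -/
theorem tree_cons_some (a : ι) (u : List ι) (S R : σ) (t : ℕ) (o : ℝ) :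
    A.tree sg ψ eW eT (a :: u) S (some R) t o =
      if A.conf S R a then
        A.tree sg ψ eW eT (a :: u) S none t o + sg * A.tree sg ψ eW eT (a :: u) R none t o
      else A.tree sg ψ eW eT u (A.F S a) (some (A.F R a)) (t + 1) (o + A.dis S a) := by
  rw [tree_cons_none, tree_cons_none, tree]

@[simp] theorem zz_nil (S : σ) (md : Option (σ × ℕ)) : A.zz [] S md = 0 := by simp [zz]

theorem zz_cons_none (a : ι) (u : List ι) (S : σ) :
    A.zz (a :: u) S none =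
      if A.safe (A.F S a) then A.zz u (A.F S a) (some (A.new, 0)) else A.zz u (A.F S a) none := by
  rw [zz]

theorem zz_cons_some (a : ι) (u : List ι) (S R : σ) (L : ℕ) :
    A.zz (a :: u) S (some (R, L)) =
      if A.conf S R a then
        (2 * (1 + (L : ℝ))) ^ 2 * (2 + A.zz (a :: u) S none + A.zz (a :: u) R none)
      else A.zz u (A.F S a) (some (A.F R a, L + 1)) := by
  rw [zz_cons_none, zz_cons_none, zz]

theorem zz_nonneg (u : List ι) : ∀ (S : σ) (md : Option (σ × ℕ)), 0 ≤ A.zz u S md := by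
  induction u with
  | nil => intro S md; simp
  | cons a u ih =>
    have hn : ∀ S, 0 ≤ A.zz (a :: u) S none := fun S => by
      rw [zz_cons_none]; split_ifs <;> exact ih _ _
    rintro S (_ | ⟨R, L⟩)
    · exact hn S
    · rw [zz_cons_some]
      split_ifs
      · have := hn S
        have := hn R
        positivity
      · exact ih _ _

@[simp] theorem lagw_nil (S R : σ) (L : ℕ) : A.lagw [] S R L = 0 := by simp [lagw]

theorem lagw_cons (a : ι) (u : List ι) (S R : σ) (L : ℕ) :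
    A.lagw (a :: u) S R L =
      if A.conf S R a then (1 + (L : ℝ)) ^ 4 else A.lagw u (A.F S a) (A.F R a) (L + 1) := by
  rw [lagw]

theorem lagw_nonneg (u : List ι) : ∀ (S R : σ) (L : ℕ), 0 ≤ A.lagw u S R L := by
  induction u with
  | nil => intro S R L; simp
  | cons a u ih =>
    intro S R L
    rw [lagw_cons]
    split_ifs
    · positivity
    · exact ih _ _ _

@[simp] theorem noconf_nil (S R : σ) : A.noconf [] S R := by simp [noconf]

theorem noconf_cons (a : ι) (u : List ι) (S R : σ) :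
    A.noconf (a :: u) S R ↔ ¬ A.conf S R a ∧ A.noconf u (A.F S a) (A.F R a) := by
  rw [noconf]

theorem noconf_append (u v : List ι) : ∀ S R : σ,
    A.noconf (u ++ v) S R ↔ A.noconf u S R ∧ A.noconf v (A.run S u) (A.run R u) := by
  induction u with
  | nil => intro S R; simp
  | cons a u ih => intro S R; simp [noconf_cons, ih, and_assoc]

/-- with non-negative data and sign `1` the tree is non-negative -/
theorem tree_nonneg (hψ : ∀ t o u, 0 ≤ ψ t o u) (hW : ∀ S o, 0 ≤ eW S o)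
    (hT : ∀ S R o, 0 ≤ eT S R o) (u : List ι) :
    ∀ (S : σ) (md : Option σ) (t : ℕ) (o : ℝ), 0 ≤ A.tree 1 ψ eW eT u S md t o := by
  induction u with
  | nil =>
    rintro S (_ | R) t o
    · simpa using hW S o
    · simpa using hT S R o
  | cons a u ih =>
    have hn : ∀ S t o, 0 ≤ A.tree 1 ψ eW eT (a :: u) S none t o := fun S t o => by
      rw [tree_cons_none]
      split_ifs
      · exact add_nonneg (hψ _ _ _) (ih _ _ _ _)
      · exact ih _ _ _ _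
    rintro S (_ | R) t o
    · exact hn S t o
    · rw [tree_cons_some]
      split_ifs
      · have := hn S t o
        have := hn R t o
        positivity
      · exact ih _ _ _ _

@[simp] theorem top_nil (G : Finset ι) (f : ι → ℝ) : top G f [] = 0 := rfl

theorem top_cons (G : Finset ι) (f : ι → ℝ) (a : ι) (u : List ι) :
    top G f (a :: u) = if a ∈ G then f a else 0 := rfl

end Sys

end Pool.Agent.MP_8c549f_pr.S3

end
end MrgPart2

-- marker of a merged file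
example : 731051 + 745489 = 731051 + 745489 := rfl
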