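import Mathlib.Analysis.Complex.ExponentialBounds
import Mathlib.Combinatorics.SimpleGraph.Basic
import Pool.Agent.MP_8c549f_pr.A1
import Pool.Agent.MP_8c549f_pr.S3.BasicA

/-! PROJECT BWALK3: elementary facts on norms, clusters, `Qx`, `look`, `go`, `tr`, `back`. -/

noncomputable section

namespace Pool.Agent.MP_8c549f_pr.S3

open MeasureTheory Finset Classical

variable {D : ℕ}

/-! ### the sup norm -/

theorem nrm_le_iff {x : V D} {R : ℕ} : nrm x ≤ R ↔ ∀ j, |x j| ≤ (R : ℤ) := by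
  simp only [nrm, Finset.sup_le_iff, mem_univ, forall_const]
  refine forall_congr' fun j => ?_
  rw [← Int.natCast_natAbs, Int.ofNat_le]

theorem abs_le_nrm (x : V D) (j : Fin (D + 1)) : |x j| ≤ (nrm x : ℤ) := nrm_le_iff.1 le_rfl j

theorem exists_abs_eq_nrm (x : V D) : ∃ j, |x j| = (nrm x : ℤ) := by
  obtain ⟨j, -, h⟩ := exists_mem_eq_sup (univ : Finset (Fin (D + 1))) univ_nonempty
    fun j => (x j).natAbs
  exact ⟨j, by rw [nrm, h, Int.natCast_natAbs]⟩

@[simp] theorem nrm_zero : nrm (0 : V D) = 0 := Nat.le_zero.1 (nrm_le_iff.2 (by simp))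

@[simp] theorem nrm_neg (x : V D) : nrm (-x) = nrm x := by simp [nrm]

theorem nrm_eq_zero {x : V D} : nrm x = 0 ↔ x = 0 := by
  refine ⟨fun h => funext fun j => ?_, fun h => h ▸ nrm_zero⟩
  have := abs_le_nrm x j
  rw [h] at this
  simpa using this

theorem nrm_add_le (x y : V D) : nrm (x + y) ≤ nrm x + nrm y := nrm_le_iff.2 fun j => by
  have := abs_add_le (x j) (y j)
  have := abs_le_nrm x j
  have := abs_le_nrm y j
  simp only [Pi.add_apply]
  push_cast
  linarith

theorem nrm_sub_comm (x y : V D) : nrm (x - y) = nrm (y - x) := by rw [← nrm_neg, neg_sub]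

theorem nrm_tri (a b c : V D) : nrm (a - c) ≤ nrm (a - b) + nrm (b - c) := by
  simpa using nrm_add_le (a - b) (b - c)

theorem nrm_sub_le (x y : V D) : nrm (x - y) ≤ nrm x + nrm y := by
  simpa [sub_eq_add_neg] using nrm_add_le x (-y)

theorem nrm_vec_le (s : Step D) : nrm (vec s) ≤ 1 :=
  nrm_le_iff.2 fun j => abs_le.2 (by simpa using vec_bounds s j)

@[simp] theorem nrm_vec (s : Step D) : nrm (vec s) = 1 :=
  le_antisymm (nrm_vec_le s) (Nat.pos_of_ne_zero fun h => vec_ne_zero s (nrm_eq_zero.1 h))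

theorem nrm_single (i : Fin (D + 1)) (r : ℤ) : nrm (Pi.single i r : V D) = r.natAbs := by
  refine le_antisymm (nrm_le_iff.2 fun j => ?_) ?_
  · by_cases h : j = i
    · subst h; simp
    · simp [Pi.single_eq_of_ne h]
  · have := abs_le_nrm (Pi.single i r : V D) i
    rw [Pi.single_eq_same, ← Int.natCast_natAbs] at this
    exact_mod_cast this

@[simp] theorem nrm_ray (v : V D) (r : ℕ) : nrm (ray v r - v) = r := by
  simp [ray, nrm_single]

theorem nrm_le_of_sum {x : V D} {R : ℕ} (h : ∑ j, |x j| ≤ (R : ℤ)) : nrm x ≤ R :=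
  nrm_le_iff.2 fun j =>
    (single_le_sum (f := fun j => |x j|) (fun _ _ => abs_nonneg _) (mem_univ j)).trans h

theorem mem_ball {x y : V D} {R : ℕ} : x ∈ ball y R ↔ nrm (x - y) ≤ R := by
  simp only [ball, Fintype.mem_piFinset, mem_Icc, nrm_le_iff, Pi.sub_apply, abs_le]
  exact forall_congr' fun j => ⟨fun h => ⟨by linarith [h.1], by linarith [h.2]⟩,
    fun h => ⟨by linarith [h.1], by linarith [h.2]⟩⟩

theorem self_mem_ball (y : V D) (R : ℕ) : y ∈ ball y R := mem_ball.2 (by simp)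

theorem ball_mono (y : V D) {R R' : ℕ} (h : R ≤ R') : ball y R ⊆ ball y R' :=
  fun _ hx => mem_ball.2 ((mem_ball.1 hx).trans h)

theorem card_ball (y : V D) (R : ℕ) : (ball y R).card = (2 * R + 1) ^ (D + 1) := by
  rw [ball, Fintype.card_piFinset]
  have : ∀ j, (Icc (y j - R) (y j + R)).card = 2 * R + 1 := fun j => by
    rw [Int.card_Icc]; omega
  simp [this]

theorem nrm_pos_le (l : List (Step D)) : nrm (pos l) ≤ l.length := by
  induction l with
  | nil => simp
  | cons s l ih =>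
    have := nrm_add_le (vec s) (pos l)
    rw [pos_cons, List.length_cons]
    rw [nrm_vec] at this
    omega

theorem nrm_loc_le (l : List (Step D)) (i : ℕ) : nrm (loc l i) ≤ i :=
  (nrm_pos_le _).trans (List.length_take_le _ _)

theorem nrm_loc_sub (l : List (Step D)) {i j : ℕ} (h : i ≤ j) : nrm (loc l j - loc l i) ≤ j - i := by
  obtain ⟨k, rfl⟩ := Nat.exists_eq_add_of_le h
  rw [loc_drop, add_sub_cancel_left, Nat.add_sub_cancel_left]
  exact nrm_loc_le _ _

/-! ### translations and clusters -/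

theorem shift_edge (x y : V D) (s : Step D) (ω : Cfg D) :
    shift x ω (edge y s) = ω (edge (y + x) s) := Fac.shift_edge x y s ω

@[simp] theorem shift_zero (ω : Cfg D) : shift 0 ω = ω := by funext e; simp [shift]

theorem shift_shift (x y : V D) (ω : Cfg D) : shift x (shift y ω) = shift (y + x) ω := by
  funext e; simp [shift, add_assoc, add_comm x y]

theorem Conn.refl (ω : Cfg D) (x : V D) : Conn ω x x := Relation.ReflTransGen.refl

theorem Conn.trans {ω : Cfg D} {x y z : V D} (h : Conn ω x y) (h' : Conn ω y z) : Conn ω x z :=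
  Relation.ReflTransGen.trans h h'

theorem rtg_mono {α : Type} {r q : α → α → Prop} (H : ∀ a b, r a b → q a b) {x y : α}
    (h : Relation.ReflTransGen r x y) : Relation.ReflTransGen q x y := by
  induction h with
  | refl => exact .refl
  | tail _ h ih => exact ih.tail (H _ _ h)

theorem Conn.symm {ω : Cfg D} {x y : V D} (h : Conn ω x y) : Conn ω y x := by
  induction h with
  | refl => exact Conn.refl _ _
  | tail _ h ih => exact Relation.ReflTransGen.head h.symm ih

theorem Conn.step {ω : Cfg D} {x : V D} {s : Step D} (h : ω (edge x s) = true) :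
    Conn ω x (x + vec s) := Relation.ReflTransGen.single (opn_iff.2 ⟨s, rfl, h⟩)

theorem OC.conn {ω : Cfg D} {B : Finset (V D)} {x y : V D} (h : OC ω B x y) : Conn ω x y :=
  rtg_mono (fun _ _ h => h.1) h

theorem OC.mono {ω : Cfg D} {B B' : Finset (V D)} (hB : B ⊆ B') {x y : V D} (h : OC ω B x y) :
    OC ω B' x y := rtg_mono (fun _ _ h => ⟨h.1, hB h.2⟩) h

theorem Conn.mono {ω ω' : Cfg D} (hω : ∀ e, ω e = true → ω' e = true) {x y : V D}
    (h : Conn ω x y) : Conn ω' x y := by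
  refine rtg_mono (fun a b h => ?_) h
  obtain ⟨s, rfl, hs⟩ := opn_iff.1 h
  exact opn_iff.2 ⟨s, rfl, hω _ hs⟩

theorem Conn.shift {ω : Cfg D} {x a b : V D} (h : Conn (shift x ω) a b) :
    Conn ω (a + x) (b + x) := by
  induction h with
  | refl => exact Conn.refl _ _
  | tail _ h ih =>
    obtain ⟨s, rfl, hs⟩ := opn_iff.1 h
    rw [shift_edge] at hs
    exact ih.trans (by rw [add_right_comm]; exact Conn.step hs)

theorem conn_shift {ω : Cfg D} {x a b : V D} : Conn (shift x ω) a b ↔ Conn ω (a + x) (b + x) := by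
  refine ⟨Conn.shift, fun h => ?_⟩
  have e : ω = shift (-x) (shift x ω) := by rw [shift_shift]; simp
  rw [e] at h
  simpa using h.shift

theorem mem_inf {ω : Cfg D} : ω ∈ InfCl D ↔ {y | Conn ω 0 y}.Infinite := Iff.rfl

theorem inf_iff {ω : Cfg D} : ω ∈ InfCl D ↔ ∀ R : ℕ, ∃ c, Conn ω 0 c ∧ R ≤ nrm c := by
  rw [mem_inf]
  constructor
  · intro h R
    obtain ⟨c, h1, h2⟩ := h.exists_notMem_finset (ball 0 R)
    rw [mem_ball, sub_zero] at h2
    exact ⟨c, h1, by omega⟩
  · intro h hf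
    obtain ⟨c, h1, h2⟩ := h (hf.toFinset.sup nrm + 1)
    have := le_sup (f := nrm) (hf.mem_toFinset.2 h1)
    omega

/-- being in an infinite cluster is a property of the cluster -/
theorem inf_shift {ω : Cfg D} {x : V D} (h : Conn ω 0 x) : shift x ω ∈ InfCl D ↔ ω ∈ InfCl D := by
  rw [inf_iff, inf_iff]
  constructor
  · intro H R
    obtain ⟨c, h1, h2⟩ := H (R + nrm x)
    have := nrm_sub_le (c + x) x
    rw [add_sub_cancel_right] at this
    exact ⟨c + x, h.trans (by simpa using h1.shift), by omega⟩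
  · intro H R
    obtain ⟨c, h1, h2⟩ := H (R + nrm x)
    have := nrm_add_le (c - x) x
    rw [sub_add_cancel] at this
    exact ⟨c - x, conn_shift.2 (by simpa using h.symm.trans h1), by omega⟩

theorem inf_mono {ω ω' : Cfg D} (hω : ∀ e, ω e = true → ω' e = true) (h : ω ∈ InfCl D) :
    ω' ∈ InfCl D := Set.Infinite.mono (fun _ hy => Conn.mono hω hy) h

theorem wide_of_inf {ω : Cfg D} (h : ω ∈ InfCl D) {y : V D} (hy : Conn ω 0 y) (k : ℕ) :
    Wide ω y k := by
  obtain ⟨c, h1, h2⟩ := inf_iff.1 h (12 * k)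
  exact ⟨c, 0, hy.symm.trans h1, hy.symm, by simpa using h2⟩

theorem Wide.of_conn {ω : Cfg D} {y x : V D} {k : ℕ} (h : Wide ω y k) (hx : Conn ω y x) :
    Wide ω x k := by
  obtain ⟨a, b, h1, h2, h3⟩ := h
  exact ⟨a, b, hx.symm.trans h1, hx.symm.trans h2, h3⟩

theorem Wide.big {ω : Cfg D} {y : V D} {k : ℕ} (h : Wide ω y k) : Big ω y k := by
  obtain ⟨a, b, h1, h2, h3⟩ := h
  have := nrm_tri a y b
  rw [nrm_sub_comm y b] at this
  by_cases ha : 6 * k ≤ nrm (a - y)
  · exact ⟨a, h1, ha⟩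
  · exact ⟨b, h2, by omega⟩

theorem Gd.mono {ω : Cfg D} {y x : V D} {R R' k : ℕ} (h : Gd ω y R k)
    (hx : nrm (x - y) + R' ≤ R) : Gd ω x R' k := fun v hv =>
  h v (by have := nrm_tri v x y; omega)

theorem measurableSet_inf : MeasurableSet (InfCl D) := Law.meas_inf

theorem measurableSet_conn (x y : V D) : MeasurableSet {ω : Cfg D | Conn ω x y} := by
  have h : {ω : Cfg D | Conn ω x y} = ⋃ l : List (Step D), {ω | W 0 ω x l ≠ 0 ∧ x + pos l = y} := by
    ext ω
    simp only [Conn, Set.mem_ofPred_eq, Set.mem_iUnion, Law.reach_iff]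
  rw [h]
  exact MeasurableSet.iUnion fun l =>
    ((measurable_W 0 x l) (MeasurableSet.singleton 0).compl).inter (MeasurableSet.const _)

theorem measurableSet_unc (S : St D) (T : ℕ) : MeasurableSet {ω | Unc S T ω} := by
  have h : {ω | Unc S T ω} = (InfCl D)ᶜ ∩ ⋃ c : V D,
      ({ω | Conn ω 0 c} ∩ {_ω | ∀ k, 1 ≤ k → k ≤ T → c ≠ back S k}) := by
    ext ω
    simp [Unc]
  rw [h]
  exact measurableSet_inf.compl.inter
    (MeasurableSet.iUnion fun c => (measurableSet_conn 0 c).inter (MeasurableSet.const _))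

theorem measurable_ov (S : St D) : Measurable (ov S) := by
  refine measurable_pi_lambda _ fun e => ?_
  unfold ov
  cases look S e with
  | none => exact measurable_pi_apply e
  | some b => exact measurable_const

/-- union bound over a finite set -/
theorem real_exists_le {p : ℝ} (h0 : 0 ≤ p) (h1 : p ≤ 1) {α : Type} (B : Finset α)
    (P : α → Cfg D → Prop) {c : ℝ} (h : ∀ a ∈ B, (perc D p).real {ω | P a ω} ≤ c) :
    (perc D p).real {ω | ∃ a ∈ B, P a ω} ≤ B.card * c := by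
  have := perc_prob D h0 h1
  have e : {ω | ∃ a ∈ B, P a ω} = ⋃ a ∈ B, {ω | P a ω} := by ext ω; simp
  rw [e]
  refine (measureReal_biUnion_finset_le _ _).trans ((sum_le_sum h).trans ?_)
  simp

/-- a chain event is decided by the edges at the sites within distance `h + 1` -/
theorem Ch_local {ω ω' : Cfg D} {v : V D} {h : ℕ}
    (H : ∀ x, nrm (x - v) ≤ h + 1 → ∀ s, ω (edge x s) = ω' (edge x s)) (hc : Ch ω v h) :
    Ch ω' v h := by
  have hb : ∀ x, nrm (x - v) ≤ h + 1 → badS ω x → badS ω' x := fun x hx ⟨s, hs⟩ =>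
    ⟨s, H x hx s ▸ hs⟩
  obtain ⟨h0, c, h1, h2⟩ := hc
  refine ⟨hb v (by simp) h0, ?_⟩
  have key : (∃ c', h ≤ nrm (c' - v) ∧
      Relation.ReflTransGen (fun a b : V D => ∑ j, |b j - a j| ≤ 2 ∧ badS ω' b) v c') ∨
      (nrm (c - v) < h ∧
        Relation.ReflTransGen (fun a b : V D => ∑ j, |b j - a j| ≤ 2 ∧ badS ω' b) v c) := by
    clear h1
    induction h2 with
    | refl =>
      by_cases hh : h ≤ nrm (v - v)
      · exact Or.inl ⟨v, hh, .refl⟩
      · exact Or.inr ⟨by omega, .refl⟩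
    | @tail b c _ hbc ih =>
      rcases ih with ih | ⟨i1, i2⟩
      · exact Or.inl ih
      · have e1 : nrm (c - b) ≤ 2 := nrm_le_of_sum (by simpa using hbc.1)
        have e2 := nrm_tri c b v
        have e3 := i2.tail ⟨hbc.1, hb c (by omega) hbc.2⟩
        by_cases hh : h ≤ nrm (c - v)
        · exact Or.inl ⟨c, hh, e3⟩
        · exact Or.inr ⟨by omega, e3⟩
  rcases key with k | k
  · exact k
  · omega

/-! ### weights -/

theorem third_le_wt {lam : ℝ} (h : |lam| ≤ 1) (s : Step D) : 1 / 3 ≤ wt lam s ∧ wt lam s ≤ 3 := by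
  have hv : |(vec s 0 : ℝ)| ≤ 1 := by exact_mod_cast abs_le.2 (vec_bounds s 0)
  have ha : |lam * (vec s 0 : ℝ)| ≤ 1 := by
    rw [abs_mul]; exact mul_le_one₀ h (abs_nonneg _) hv
  have h3 : Real.exp 1 ≤ 3 := Real.exp_one_lt_d9.le.trans (by norm_num)
  refine ⟨?_, (Real.exp_le_exp.2 (abs_le.1 ha).2).trans h3⟩
  refine le_trans ?_ (Real.exp_le_exp.2 (abs_le.1 ha).1)
  rw [Real.exp_neg, one_div]
  exact inv_anti₀ (Real.exp_pos 1) h3

theorem Zf_le {lam : ℝ} (h0 : 0 ≤ lam) (h1 : lam ≤ 1) : Zf D lam ≤ 2 * D + 4 := by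
  have h3 : Real.exp lam ≤ 3 :=
    (Real.exp_le_exp.2 h1).trans (Real.exp_one_lt_d9.le.trans (by norm_num))
  have h4 : Real.exp (-lam) ≤ 1 := Real.exp_le_one_iff.2 (by linarith)
  unfold Zf
  linarith

theorem Zq_pos_iff {lam : ℝ} {ω : Cfg D} {x : V D} :
    0 < Zq lam ω x ↔ ∃ s, ω (edge x s) = true := by
  refine ⟨fun h => ?_, fun ⟨s, hs⟩ => Zq_pos lam hs⟩
  by_contra hn
  push Not at hn
  simp [Zq, hn] at h

theorem third_le_Zq {lam : ℝ} (h : |lam| ≤ 1) {ω : Cfg D} {x : V D} (hx : 0 < Zq lam ω x) :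
    1 / 3 ≤ Zq lam ω x := by
  obtain ⟨s, hs⟩ := Zq_pos_iff.1 hx
  exact (third_le_wt h s).1.trans (wt_le_Zq lam hs)

theorem Zq_pos_of_conn {lam : ℝ} {ω : Cfg D} {y x : V D} (h : Conn ω y x) (hy : 0 < Zq lam ω y) :
    0 < Zq lam ω x := by
  rcases h.cases_tail with rfl | ⟨c, -, hc⟩
  · exact hy
  · obtain ⟨s, rfl, hs⟩ := opn_iff.1 hc
    exact Zq_pos lam (s := rev s) (by rwa [edge_rev])

theorem Zq_pos_of_ne {lam : ℝ} {ω : Cfg D} {y x : V D} (h : Conn ω y x) (hne : x ≠ y) :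
    0 < Zq lam ω y := by
  rcases h.cases_head with rfl | ⟨c, hc, -⟩
  · exact absurd rfl hne
  · obtain ⟨s, rfl, hs⟩ := opn_iff.1 hc
    exact Zq_pos lam hs

theorem Zq_pos_of_inf {lam : ℝ} {ω : Cfg D} (h : ω ∈ InfCl D) : 0 < Zq lam ω 0 := by
  obtain ⟨c, h1, h2⟩ := inf_iff.1 h 1
  exact Zq_pos_of_ne h1 fun e => by simp [e] at h2

theorem pim_nonneg (lam : ℝ) (ω : Cfg D) (x : V D) : 0 ≤ pim lam ω x :=
  mul_nonneg (Real.exp_pos _).le (Zq_nonneg lam ω x)

/-! ### the quenched expectation `Qx` -/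

/-- the steps `l` from `x` cross open edges -/
def OpenP (ω : Cfg D) : V D → List (Step D) → Prop
  | _, [] => True
  | x, s :: l => ω (edge x s) = true ∧ OpenP ω (x + vec s) l

@[simp] theorem openP_nil (ω : Cfg D) (x : V D) : OpenP ω x [] := trivial

@[simp] theorem openP_cons (ω : Cfg D) (x : V D) (s : Step D) (l : List (Step D)) :
    OpenP ω x (s :: l) ↔ ω (edge x s) = true ∧ OpenP ω (x + vec s) l := Iff.rfl

theorem openP_append {ω : Cfg D} (u l : List (Step D)) : ∀ x : V D,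
    OpenP ω x (u ++ l) ↔ OpenP ω x u ∧ OpenP ω (x + pos u) l := by
  induction u with
  | nil => intro x; simp
  | cons s u ih => intro x; simp [ih, and_assoc, add_assoc]

theorem OpenP.conn {ω : Cfg D} {l : List (Step D)} : ∀ {x : V D}, OpenP ω x l →
    ∀ i, Conn ω x (x + loc l i) := by
  induction l with
  | nil => intro x _ i; simpa using Conn.refl ω x
  | cons s l ih =>
    rintro x h (_ | i)
    · simpa using Conn.refl ω x
    · rw [loc_cons_succ, ← add_assoc]
      exact (Conn.step h.1).trans (ih h.2 i)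

theorem OpenP.conn_pos {ω : Cfg D} {l : List (Step D)} {x : V D} (h : OpenP ω x l) :
    Conn ω x (x + pos l) := by simpa using h.conn l.length

section Qx

variable {lam : ℝ} {ω : Cfg D}

@[simp] theorem Qx_zero (x : V D) (Φ : List (Step D) → ℝ) : Qx lam ω 0 x Φ = Φ [] := rfl

theorem Qx_succ (n : ℕ) (x : V D) (Φ : List (Step D) → ℝ) : Qx lam ω (n + 1) x Φ =
    ∑ s, pr lam ω x s * Qx lam ω n (x + vec s) fun l => Φ (s :: l) := rfl

theorem Qx_mono' {n : ℕ} {x : V D} {Φ Ψ : List (Step D) → ℝ}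
    (h : ∀ l, l.length = n → OpenP ω x l → Φ l ≤ Ψ l) : Qx lam ω n x Φ ≤ Qx lam ω n x Ψ := by
  induction n generalizing x Φ Ψ with
  | zero => exact h [] rfl trivial
  | succ n ih =>
    rw [Qx_succ, Qx_succ]
    refine sum_le_sum fun s _ => ?_
    by_cases hs : pr lam ω x s = 0
    · simp [hs]
    · exact mul_le_mul_of_nonneg_left
        (ih fun l hl ho => h (s :: l) (by simp [hl]) ⟨open_of_pr_ne hs, ho⟩) (pr_nonneg _ _ _ _)

theorem Qx_mono {n : ℕ} {x : V D} {Φ Ψ : List (Step D) → ℝ} (h : ∀ l, l.length = n → Φ l ≤ Ψ l) :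
    Qx lam ω n x Φ ≤ Qx lam ω n x Ψ := Qx_mono' fun l hl _ => h l hl

theorem Qx_congr' {n : ℕ} {x : V D} {Φ Ψ : List (Step D) → ℝ}
    (h : ∀ l, l.length = n → OpenP ω x l → Φ l = Ψ l) : Qx lam ω n x Φ = Qx lam ω n x Ψ :=
  le_antisymm (Qx_mono' fun l hl ho => (h l hl ho).le) (Qx_mono' fun l hl ho => (h l hl ho).ge)

theorem Qx_congr {n : ℕ} {x : V D} {Φ Ψ : List (Step D) → ℝ} (h : ∀ l, l.length = n → Φ l = Ψ l) :
    Qx lam ω n x Φ = Qx lam ω n x Ψ := Qx_congr' fun l hl _ => h l hl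

theorem Qx_add (n : ℕ) (x : V D) (Φ Ψ : List (Step D) → ℝ) :
    (Qx lam ω n x fun l => Φ l + Ψ l) = Qx lam ω n x Φ + Qx lam ω n x Ψ := by
  induction n generalizing x Φ Ψ with
  | zero => rfl
  | succ n ih => simp only [Qx_succ, ih, mul_add, sum_add_distrib]

theorem Qx_mul_left (n : ℕ) (x : V D) (c : ℝ) (Φ : List (Step D) → ℝ) :
    (Qx lam ω n x fun l => c * Φ l) = c * Qx lam ω n x Φ := by
  induction n generalizing x Φ with
  | zero => rfl
  | succ n ih =>
    simp only [Qx_succ, ih, mul_sum]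
    exact sum_congr rfl fun a _ => by ring

theorem Qx_mul_right (n : ℕ) (x : V D) (c : ℝ) (Φ : List (Step D) → ℝ) :
    (Qx lam ω n x fun l => Φ l * c) = Qx lam ω n x Φ * c := by
  rw [mul_comm, ← Qx_mul_left]; exact Qx_congr fun l _ => mul_comm _ _

@[simp] theorem Qx_zero_fun (n : ℕ) (x : V D) : (Qx lam ω n x fun _ => 0) = 0 := by
  simpa using Qx_mul_left (lam := lam) (ω := ω) n x 0 fun _ => 0

theorem Qx_sub (n : ℕ) (x : V D) (Φ Ψ : List (Step D) → ℝ) :
    (Qx lam ω n x fun l => Φ l - Ψ l) = Qx lam ω n x Φ - Qx lam ω n x Ψ := by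
  have := Qx_mul_left (lam := lam) (ω := ω) n x (-1) Ψ
  simp only [neg_mul, one_mul] at this
  simp only [sub_eq_add_neg, Qx_add, this]

theorem Qx_sum {α : Type} (n : ℕ) (x : V D) (s : Finset α) (f : α → List (Step D) → ℝ) :
    (Qx lam ω n x fun l => ∑ i ∈ s, f i l) = ∑ i ∈ s, Qx lam ω n x (f i) := by
  induction s using Finset.induction_on with
  | empty => simp
  | insert a s ha ih => simp only [sum_insert ha, Qx_add, ih]

theorem Qx_nonneg {n : ℕ} {x : V D} {Φ : List (Step D) → ℝ} (h : ∀ l, l.length = n → 0 ≤ Φ l) :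
    0 ≤ Qx lam ω n x Φ := by
  rw [← Qx_zero_fun (lam := lam) (ω := ω) n x]; exact Qx_mono h

theorem Qx_const_le (n : ℕ) (x : V D) {c : ℝ} (hc : 0 ≤ c) : (Qx lam ω n x fun _ => c) ≤ c := by
  induction n generalizing x with
  | zero => exact le_rfl
  | succ n ih =>
    rw [Qx_succ]
    refine (sum_le_sum fun s _ => mul_le_mul_of_nonneg_left (ih _) (pr_nonneg _ _ _ _)).trans ?_
    rw [← sum_mul]
    exact mul_le_of_le_one_left hc (sum_pr_le_one _ _ _)

theorem Qx_le_const {n : ℕ} {x : V D} {Φ : List (Step D) → ℝ} {c : ℝ} (hc : 0 ≤ c)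
    (h : ∀ l, l.length = n → OpenP ω x l → Φ l ≤ c) : Qx lam ω n x Φ ≤ c :=
  (Qx_mono' h).trans (Qx_const_le n x hc)

theorem Qx_ind_le_one (n : ℕ) (x : V D) (P : List (Step D) → Prop) :
    (Qx lam ω n x fun l => ind (P l)) ≤ 1 := Qx_le_const zero_le_one fun _ _ _ => ind_le_one _

theorem abs_Qx_le {n : ℕ} {x : V D} {Φ : List (Step D) → ℝ} {c : ℝ} (hc : 0 ≤ c)
    (h : ∀ l, l.length = n → |Φ l| ≤ c) : |Qx lam ω n x Φ| ≤ c := by
  refine abs_le.2 ⟨?_, Qx_le_const hc fun l hl _ => (abs_le.1 (h l hl)).2⟩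
  have := Qx_le_const (lam := lam) (ω := ω) (n := n) (x := x) (Φ := fun l => -1 * Φ l) hc
    fun l hl _ => by linarith [(abs_le.1 (h l hl)).1]
  rw [Qx_mul_left] at this
  linarith

/-- total mass one when the starting site has an open edge -/
theorem Qx_const (n : ℕ) {x : V D} (hx : 0 < Zq lam ω x) (c : ℝ) :
    (Qx lam ω n x fun _ => c) = c := by
  induction n generalizing x with
  | zero => rfl
  | succ n ih =>
    rw [Qx_succ]
    have : ∀ s, pr lam ω x s * (Qx lam ω n (x + vec s) fun _ => c) = pr lam ω x s * c := fun s => by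
      by_cases hs : pr lam ω x s = 0
      · simp [hs]
      · rw [ih (Zq_pos_of_conn (Conn.step (open_of_pr_ne hs)) hx)]
    simp only [this]
    rw [← sum_mul, sum_pr, div_self hx.ne', one_mul]

/-- the Markov property -/
theorem Qx_append (m n : ℕ) (x : V D) (Φ : List (Step D) → ℝ) : Qx lam ω (m + n) x Φ =
    Qx lam ω m x fun l => Qx lam ω n (x + pos l) fun l' => Φ (l ++ l') := by
  induction m generalizing x Φ with
  | zero => simp
  | succ m ih =>
    rw [Nat.succ_add, Qx_succ, Qx_succ]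
    simp only [ih, List.cons_append, pos_cons, add_assoc]

theorem Qx_shift (y : V D) (n : ℕ) (x : V D) (Φ : List (Step D) → ℝ) :
    Qx lam (shift y ω) n x Φ = Qx lam ω n (x + y) Φ := by
  induction n generalizing x Φ with
  | zero => rfl
  | succ n ih => simp only [Qx_succ, ih, pr_shift, add_right_comm x y]

theorem measurable_pr (lam : ℝ) (x : V D) (s : Step D) : Measurable fun ω => pr lam ω x s :=
  Dep.measurable (S := Set.range (edge x)) (fun _ _ h => pr_congr lam (fun t => h _ ⟨t, rfl⟩) s)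
    (Set.finite_range _)

theorem measurable_Qx {Ω : Type} [MeasurableSpace Ω] {f : Ω → Cfg D} (hf : Measurable f) (n : ℕ)
    (x : V D) {Φ : Ω → List (Step D) → ℝ} (hΦ : ∀ l, Measurable fun a => Φ a l) :
    Measurable fun a => Qx lam (f a) n x (Φ a) := by
  induction n generalizing x Φ with
  | zero => exact hΦ []
  | succ n ih =>
    simp only [Qx_succ]
    exact Finset.measurable_sum _ fun s _ =>
      ((measurable_pr lam x s).comp hf).mul (ih _ fun l => hΦ (s :: l))

theorem pf_nonneg (n : ℕ) (y z : V D) : 0 ≤ pf lam ω n y z := Qx_nonneg fun _ _ => ind_nonneg _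

theorem pf_le_one (n : ℕ) (y z : V D) : pf lam ω n y z ≤ 1 := Qx_ind_le_one _ _ _

theorem pk_nonneg (A : Finset (V D)) (n : ℕ) (y z : V D) : 0 ≤ pk lam ω A n y z :=
  Qx_nonneg fun _ _ => ind_nonneg _

theorem pk_le_pf (A : Finset (V D)) (n : ℕ) (y z : V D) : pk lam ω A n y z ≤ pf lam ω n y z :=
  Qx_mono fun _ _ => ind_mono fun h => h.2

/-- the walk is in `B` at time `n` -/
theorem Qx_mem (n : ℕ) (y : V D) (B : Finset (V D)) :
    (Qx lam ω n y fun l => ind (y + pos l ∈ B)) = ∑ z ∈ B, pf lam ω n y z := by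
  simp only [pf]
  rw [← Qx_sum]
  refine Qx_congr fun l _ => ?_
  by_cases h : y + pos l ∈ B
  · rw [ind_pos h, sum_eq_single_of_mem _ h fun z _ hz => ind_neg hz.symm, ind_pos rfl]
  · rw [ind_neg h, sum_eq_zero fun z hz => ind_neg fun e : y + pos l = z => h (e ▸ hz)]

theorem En_nonneg (B : Finset (V D)) (g : V D → ℝ) : 0 ≤ En lam ω B g :=
  sum_nonneg fun _ _ => sum_nonneg fun _ _ => by split_ifs <;> positivity

end Qx

end Pool.Agent.MP_8c549f_pr.S3
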