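import Pool.Agent.MP_8c549f_pr.S3.BasicB
import Pool.Agent.MP_8c549f_pr.S3.BasicA

-- ======== part 0: formerly Pool.Agent.MP_8c549f_pr.S3.Ao
section MrgPart0

-- ======== part 0: formerly Pool.Agent.MP_8c549f_pr.S3.BasicC
section MrgPart0

/-! PROJECT BWALK3: elementary facts on `look`, `ov`, `stat`, `go`, `tr`, `back`, `Leg`. -/

noncomputable section

namespace Pool.Agent.MP_8c549f_pr.S3

open MeasureTheory Finset Classical

variable {D : ℕ}

/-! ### positions in the past -/

@[simp] theorem back_zero (S : St D) : back S 0 = 0 := by simp [back]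

@[simp] theorem back_nil (k : ℕ) : back ([] : St D) k = 0 := by simp [back]

theorem back_cons_succ (o : Ob D) (S : St D) (k : ℕ) :
    back (o :: S) (k + 1) = -vec o.2 + back S k := by simp [back, add_comm]

theorem back_add (S : St D) (m k : ℕ) : back S (m + k) = back S m + back (S.drop m) k := by
  simp [back, List.take_add, add_comm]

theorem back_of_le {S : St D} {k : ℕ} (h : S.length ≤ k) : back S k = back S S.length := by
  simp [back, List.take_of_length_le h]

theorem back_append_left {R : St D} (S : St D) {k : ℕ} (h : k ≤ R.length) :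
    back (R ++ S) k = back R k := by rw [back, List.take_append_of_le_length h]; rfl

theorem back_append_right (R S : St D) (k : ℕ) :
    back (R ++ S) (R.length + k) = back R R.length + back S k := by
  rw [back_add, back_append_left S le_rfl, List.drop_left]

theorem back_drop (S : St D) (m k : ℕ) : back (S.drop m) k = back S (m + k) - back S m := by
  rw [back_add]; simp

theorem nrm_back_le (S : St D) (k : ℕ) : nrm (back S k) ≤ k := by
  rw [back, nrm_neg]
  exact (nrm_pos_le _).trans (by simp)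

theorem nrm_back_sub (S : St D) {a b : ℕ} (h : a ≤ b) : nrm (back S b - back S a) ≤ b - a := by
  obtain ⟨k, rfl⟩ := Nat.exists_eq_add_of_le h
  rw [← back_drop, Nat.add_sub_cancel_left]
  exact nrm_back_le _ _

theorem back_succ {S : St D} {k : ℕ} (h : k < S.length) :
    back S (k + 1) = back S k - vec S[k].2 := by
  rw [back_add, List.drop_eq_getElem_cons h, back_cons_succ]
  simp [sub_eq_add_neg]

/-! ### known edges -/

theorem stepOf_edge (s : Step D) : stepOf (edge 0 s) = some s := by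
  obtain ⟨i, g⟩ := s
  cases g
  · have : (-Pi.single i 1 : V D) ≠ 0 := by simp
    simp [stepOf, this]
  · simp [stepOf]

theorem stepOf_eq_some {e : Edge D} {s : Step D} : stepOf e = some s ↔ e = edge 0 s := by
  refine ⟨fun h => ?_, fun h => h ▸ stepOf_edge s⟩
  obtain ⟨x, i⟩ := e
  unfold stepOf at h
  split_ifs at h with h1 h2
  · obtain rfl := Option.some.inj h
    simpa using h1
  · obtain rfl := Option.some.inj h
    simpa using h2

theorem stepOf_eq_none {e : Edge D} : stepOf e = none ↔ ∀ s, e ≠ edge 0 s := by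
  simp only [Option.eq_none_iff_forall_ne_some, ne_eq, stepOf_eq_some]

theorem add_eq_edge {e : Edge D} {x y : V D} {s : Step D} :
    (e.1 + x, e.2) = edge y s ↔ e = edge (y - x) s := by
  have h := edge_add x (y - x) s
  rw [sub_add_cancel] at h
  rw [h]
  constructor
  · intro h
    rw [Prod.mk.injEq, add_left_inj] at h
    exact Prod.ext h.1 h.2
  · rintro rfl; rfl

@[simp] theorem look_nil (e : Edge D) : look ([] : St D) e = none := rfl

theorem look_cons_edge (o : Ob D) (S : St D) (s : Step D) :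
    look (o :: S) (edge (-vec o.2) s) = some (o.1 s) := by
  have h : stepOf ((edge (-vec o.2) s).1 + vec o.2, (edge (-vec o.2) s).2) = some s :=
    stepOf_eq_some.2 (add_eq_edge.2 (by rw [zero_sub]))
  simp only [look, h]

theorem look_cons_of_ne (o : Ob D) (S : St D) {e : Edge D} (h : ∀ s, e ≠ edge (-vec o.2) s) :
    look (o :: S) e = look S (e.1 + vec o.2, e.2) := by
  have h' : stepOf (e.1 + vec o.2, e.2) = none :=
    stepOf_eq_none.2 fun s hs => h s (by simpa using add_eq_edge.1 hs)
  simp only [look, h']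

theorem look_append (R S : St D) : ∀ e : Edge D,
    look (R ++ S) e = (look R e).or (look S (e.1 - back R R.length, e.2)) := by
  induction R with
  | nil => intro e; simp
  | cons o R ih =>
    intro e
    by_cases h : ∃ s, e = edge (-vec o.2) s
    · obtain ⟨s, rfl⟩ := h
      rw [List.cons_append, look_cons_edge, look_cons_edge]; rfl
    · push Not at h
      rw [List.cons_append, look_cons_of_ne _ _ h, look_cons_of_ne _ _ h, ih, List.length_cons,
        back_cons_succ]
      congr 3
      simp only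
      abel

theorem look_append_of_some {R : St D} (S : St D) {e : Edge D} {b : Bool} (h : look R e = some b) :
    look (R ++ S) e = some b := by rw [look_append, h]; rfl

theorem look_append_of_none {R : St D} (S : St D) {e : Edge D} (h : look R e = none) :
    look (R ++ S) e = look S (e.1 - back R R.length, e.2) := by rw [look_append, h]; rfl

/-- a known edge was seen at some earlier position -/
theorem look_some {S : St D} : ∀ {e : Edge D} {b : Bool}, look S e = some b →
    ∃ (k : Fin S.length) (s : Step D), e = edge (back S (k + 1)) s ∧ (S.get k).1 s = b := by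
  induction S with
  | nil => intro e b h; simp at h
  | cons o S ih =>
    intro e b h
    by_cases h' : ∃ s, e = edge (-vec o.2) s
    · obtain ⟨s, rfl⟩ := h'
      rw [look_cons_edge] at h
      exact ⟨⟨0, by simp⟩, s, by simp [back_cons_succ], Option.some.inj h⟩
    · push Not at h'
      rw [look_cons_of_ne _ _ h'] at h
      obtain ⟨k, s, h1, h2⟩ := ih h
      refine ⟨k.succ, s, ?_, h2⟩
      rw [add_eq_edge.1 h1, Fin.val_succ, back_cons_succ]
      congr 1
      abel

theorem look_none {S : St D} : ∀ {e : Edge D},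
    look S e = none ↔ ∀ k, 1 ≤ k → k ≤ S.length → ∀ s, e ≠ edge (back S k) s := by
  induction S with
  | nil => intro e; simp only [look_nil, List.length_nil, true_iff]; intro k h1 h2; omega
  | cons o S ih =>
    intro e
    by_cases h' : ∃ s, e = edge (-vec o.2) s
    · obtain ⟨s, rfl⟩ := h'
      rw [look_cons_edge]
      refine ⟨fun h => by simp at h, fun h => absurd ?_ (h 1 le_rfl (by simp) s)⟩
      rw [back_cons_succ]; simp
    · push Not at h'
      rw [look_cons_of_ne _ _ h', ih]
      have e1 : ∀ k, back (o :: S) (k + 1) = back S k - vec o.2 := fun k => by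
        rw [back_cons_succ]; abel
      constructor
      · intro h k h1 h2 s
        obtain ⟨k, rfl⟩ : ∃ j, k = j + 1 := ⟨k - 1, by omega⟩
        rw [e1]
        rcases Nat.eq_zero_or_pos k with rfl | hk
        · simpa using h' s
        · exact fun he => h k hk (by simpa using h2) s (add_eq_edge.2 he)
      · intro h k h1 h2 s he
        exact h (k + 1) (by omega) (by simpa using h2) s (by rw [e1]; exact add_eq_edge.1 he)

/-- all edges at a position of the past are known -/
theorem look_back_ne_none {S : St D} {k : ℕ} (h1 : 1 ≤ k) (h2 : k ≤ S.length) (s : Step D) :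
    look S (edge (back S k) s) ≠ none := fun h => look_none.1 h k h1 h2 s rfl

@[simp] theorem ov_nil (ω : Cfg D) : ov [] ω = ω := rfl

@[simp] theorem stat_nil (σ : Sv D) : stat [] σ = σ := rfl

theorem ov_of_none {S : St D} {e : Edge D} (h : look S e = none) (ω : Cfg D) : ov S ω e = ω e := by
  simp [ov, h]

theorem ov_of_some {S : St D} {e : Edge D} {b : Bool} (h : look S e = some b) (ω : Cfg D) :
    ov S ω e = b := by simp [ov, h]

theorem stat_eq_ov (S : St D) (ω : Cfg D) :
    stat S (fun s => ω (edge 0 s)) = fun s => ov S ω (edge 0 s) := rfl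

/-- an edge both of whose ends differ from the positions of the past is not known -/
theorem look_eq_none_of_ne {S : St D} {x : V D} {s : Step D}
    (h : ∀ k, 1 ≤ k → k ≤ S.length → back S k ≠ x ∧ back S k ≠ x + vec s) :
    look S (edge x s) = none := by
  refine look_none.2 fun k h1 h2 t he => ?_
  rcases edge_eq_iff.1 he with ⟨e, -⟩ | ⟨e, -⟩
  exacts [(h k h1 h2).1 e, (h k h1 h2).2 e]

theorem ov_eq_of_far {S : St D} {x : V D} (h : ∀ k, 1 ≤ k → k ≤ S.length → 2 ≤ nrm (back S k - x))
    (ω : Cfg D) (s : Step D) : ov S ω (edge x s) = ω (edge x s) := by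
  refine ov_of_none (look_eq_none_of_ne fun k h1 h2 => ⟨fun e => ?_, fun e => ?_⟩) ω
  all_goals have := h k h1 h2; rw [e] at this; simp at this

/-- if all recorded edges are open, `ov` only opens edges -/
theorem le_ov {S : St D} (h : ∀ o ∈ S, ∀ s, o.1 s = true) (ω : Cfg D) (e : Edge D)
    (he : ω e = true) : ov S ω e = true := by
  cases hl : look S e with
  | none => rw [ov_of_none hl, he]
  | some b =>
    obtain ⟨k, s, -, h2⟩ := look_some hl
    rw [ov_of_some hl, ← h2]
    exact h _ (List.get_mem _ _) s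

/-- the edge just crossed is known -/
theorem look_rev (o : Ob D) (S : St D) : look (o :: S) (edge 0 (rev o.2)) = some (o.1 o.2) := by
  have := edge_rev (-vec o.2) o.2
  rw [neg_add_cancel] at this
  rw [this, look_cons_edge]

theorem stat_rev (o : Ob D) (S : St D) (σ : Sv D) : stat (o :: S) σ (rev o.2) = o.1 o.2 := by
  simp [stat, look_rev]

/-- one step of the exploration -/
theorem shift_ov (S : St D) (ω : Cfg D) (s : Step D) : shift (vec s) (ov S ω) =
    ov ((fun s' => ov S ω (edge 0 s'), s) :: S) (shift (vec s) ω) := by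
  funext e
  by_cases h : ∃ t, e = edge (-vec s) t
  · obtain ⟨t, rfl⟩ := h
    rw [ov_of_some (look_cons_edge (fun s' => ov S ω (edge 0 s'), s) S t), shift_edge,
      neg_add_cancel]
  · push Not at h
    simp only [ov, look_cons_of_ne (fun s' => (look S (edge 0 s')).getD (ω (edge 0 s')), s) S h,
      shift]

/-! ### legal states -/

@[simp] theorem leg_nil : Leg ([] : St D) := by simp [Leg]

theorem leg_cons {o : Ob D} {S : St D} : Leg (o :: S) ↔ o.1 o.2 = true ∧ Leg S := by simp [Leg]

theorem leg_append {R S : St D} : Leg (R ++ S) ↔ Leg R ∧ Leg S := by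
  simp only [Leg, List.mem_append, or_imp, forall_and]

theorem Leg.drop {S : St D} (h : Leg S) (m : ℕ) : Leg (S.drop m) :=
  fun o ho => h o (List.mem_of_mem_drop ho)

theorem Leg.take {S : St D} (h : Leg S) (m : ℕ) : Leg (S.take m) :=
  fun o ho => h o (List.mem_of_mem_take ho)

/-- in a legal non-empty state the present position has an open edge -/
theorem Leg.stat_open {S : St D} (h : Leg S) (hS : S ≠ []) (σ : Sv D) : ∃ s, stat S σ s = true := by
  obtain ⟨o, S, rfl⟩ := List.exists_cons_of_ne_nil hS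
  exact ⟨rev o.2, by rw [stat_rev]; exact (leg_cons.1 h).1⟩

theorem th_nonneg (p : ℝ) (S : St D) : 0 ≤ th p S := by
  unfold th; split_ifs
  exacts [measureReal_nonneg, le_rfl]

theorem th_le_one {p : ℝ} (h0 : 0 ≤ p) (h1 : p ≤ 1) (S : St D) : th p S ≤ 1 := by
  have := perc_prob D h0 h1
  unfold th; split_ifs
  exacts [measureReal_le_one, zero_le_one]

theorem th_eq (p : ℝ) (S : St D) :
    th p S = ind (Leg S) * (perc D p).real {ω | ov S ω ∈ InfCl D} := by
  unfold th ind; split_ifs <;> simp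

theorem th_of_not_leg (p : ℝ) {S : St D} (h : ¬ Leg S) : th p S = 0 := if_neg h

theorem th_le_ind {p : ℝ} (h0 : 0 ≤ p) (h1 : p ≤ 1) (S : St D) : th p S ≤ ind (Leg S) := by
  by_cases h : Leg S
  · rw [ind_pos h]; exact th_le_one h0 h1 S
  · rw [ind_neg h, th_of_not_leg p h]

theorem leg_of_th_pos {p : ℝ} {S : St D} (h : 0 < th p S) : Leg S := by
  by_contra hn; rw [th_of_not_leg p hn] at h; exact lt_irrefl _ h

theorem ker_pos (lam : ℝ) (z : V D) : 0 < ker lam z := by unfold ker; positivity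

theorem del_nonneg {p : ℝ} (h1 : p ≤ 1) (b : Bool) : 0 ≤ del p b := by
  unfold del; split_ifs <;> linarith

theorem Dg_nonneg {p : ℝ} (h1 : p ≤ 1) (lam : ℝ) (S : St D) : 0 ≤ Dg p lam S :=
  sum_nonneg fun _ _ => sum_nonneg fun _ _ => mul_nonneg (del_nonneg h1 _) (ker_pos _ _).le

/-! ### the state driven by inputs -/

@[simp] theorem go_nil (S : St D) : go S [] = S := rfl

theorem go_cons (S : St D) (a : In D) (u : List (In D)) : go S (a :: u) = go (upd S a) u := rfl

theorem go_append (S : St D) (u v : List (In D)) : go S (u ++ v) = go (go S u) v :=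
  List.foldl_append

theorem go_concat (S : St D) (u : List (In D)) (a : In D) : go S (u ++ [a]) = upd (go S u) a := by
  rw [go_append]; rfl

theorem sys_run (p lam β : ℝ) (S : St D) (u : List (In D)) : (sys D p lam β).run S u = go S u := rfl

theorem sys_st (p lam β : ℝ) (u : List (In D)) (b t : ℕ) :
    (sys D p lam β).st u b t = go [] ((u.take t).drop b) := rfl

theorem exists_go_eq (u : List (In D)) : ∀ S : St D,
    ∃ R : St D, R.length = u.length ∧ go S u = R ++ S := by
  induction u with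
  | nil => intro S; exact ⟨[], rfl, rfl⟩
  | cons a u ih =>
    intro S
    obtain ⟨R, h1, h2⟩ := ih (upd S a)
    exact ⟨R ++ [(stat S a.1, a.2 (stat S a.1))], by simp [h1], by rw [go_cons, h2]; simp [upd]⟩

@[simp] theorem length_go (S : St D) (u : List (In D)) : (go S u).length = u.length + S.length := by
  obtain ⟨R, h1, h2⟩ := exists_go_eq u S
  rw [h2, List.length_append, h1]

theorem drop_go (S : St D) (u : List (In D)) : (go S u).drop u.length = S := by
  obtain ⟨R, h1, h2⟩ := exists_go_eq u S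
  rw [h2, List.drop_left' h1]

theorem drop_go_append (S : St D) (u v : List (In D)) :
    (go S (u ++ v)).drop v.length = go S u := by rw [go_append, drop_go]

/-- the state at an earlier time -/
theorem go_take (S : St D) (u : List (In D)) (s : ℕ) :
    go S (u.take s) = (go S u).drop (u.length - s) := by
  conv_rhs => rw [← List.take_append_drop s u]
  rw [← drop_go_append S (u.take s) (u.drop s)]
  simp

theorem leg_of_go {S : St D} {u : List (In D)} (h : Leg (go S u)) : Leg S := by
  have := h.drop u.length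
  rwa [drop_go] at this

theorem leg_go_take {S : St D} {u : List (In D)} (h : Leg (go S u)) (s : ℕ) :
    Leg (go S (u.take s)) := by rw [go_take]; exact h.drop _

/-- without conflict the old part of the state is carried along -/
theorem go_append_of_noconf {p lam β : ℝ} (S : St D) (u : List (In D)) : ∀ R : St D,
    (sys D p lam β).noconf u (R ++ S) R → go (R ++ S) u = go R u ++ S := by
  induction u with
  | nil => intro R _; rfl
  | cons a u ih =>
    intro R h
    rw [Sys.noconf_cons] at h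
    have e : stat (R ++ S) a.1 = stat R a.1 := not_not.1 h.1
    have e' : upd (R ++ S) a = upd R a ++ S := by simp [upd, e]
    have h2 : (sys D p lam β).noconf u (upd (R ++ S) a) (upd R a) := h.2
    rw [e'] at h2
    rw [go_cons, go_cons, e', ih _ h2]

theorem disp_eq (p lam β : ℝ) (u : List (In D)) : ∀ S : St D,
    (sys D p lam β).disp S u = -((back (go S u) u.length 0 : ℤ) : ℝ) := by
  induction u with
  | nil => intro S; simp
  | cons a u ih =>
    intro S
    rw [Sys.disp_cons, ih, List.length_cons, go_cons, back_add, drop_go]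
    simp [sys, upd, back_cons_succ]

/-! ### the state along a path -/

@[simp] theorem tr_nil (S : St D) (ω : Cfg D) : tr S ω [] = S := rfl

theorem tr_cons (S : St D) (ω : Cfg D) (s : Step D) (l : List (Step D)) :
    tr S ω (s :: l) = tr ((fun s' => ω (edge 0 s'), s) :: S) (shift (vec s) ω) l := rfl

theorem tr_append (l l' : List (Step D)) : ∀ (S : St D) (ω : Cfg D),
    tr S ω (l ++ l') = tr (tr S ω l) (shift (pos l) ω) l' := by
  induction l with
  | nil => intro S ω; simp
  | cons s l ih => intro S ω; rw [List.cons_append, tr_cons, tr_cons, ih, shift_shift, pos_cons]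

theorem tr_concat (S : St D) (ω : Cfg D) (l : List (Step D)) (s : Step D) :
    tr S ω (l ++ [s]) = (fun s' => ω (edge (pos l) s'), s) :: tr S ω l := by
  rw [tr_append, tr_cons, tr_nil]
  simp only [shift_edge, zero_add]

theorem tr_eq_append (S : St D) (ω : Cfg D) (l : List (Step D)) : tr S ω l = tr [] ω l ++ S := by
  induction l using List.reverseRecOn with
  | nil => rfl
  | append_singleton l s ih => rw [tr_concat, tr_concat, ih]; rfl

@[simp] theorem length_tr (S : St D) (ω : Cfg D) (l : List (Step D)) :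
    (tr S ω l).length = l.length + S.length := by
  induction l using List.reverseRecOn with
  | nil => simp
  | append_singleton l s ih => rw [tr_concat]; simp [ih]; omega

theorem drop_tr (S : St D) (ω : Cfg D) (l : List (Step D)) : (tr S ω l).drop l.length = S := by
  rw [tr_eq_append, List.drop_left' (by simp)]

theorem drop_tr_append (S : St D) (ω : Cfg D) (l l' : List (Step D)) :
    (tr S ω (l ++ l')).drop l'.length = tr S ω l := by rw [tr_append, drop_tr]

theorem tr_take (S : St D) (ω : Cfg D) (l : List (Step D)) (s : ℕ) :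
    tr S ω (l.take s) = (tr S ω l).drop (l.length - s) := by
  conv_rhs => rw [← List.take_append_drop s l]
  rw [← drop_tr_append S ω (l.take s) (l.drop s)]
  simp

theorem back_tr_length (S : St D) (ω : Cfg D) (l : List (Step D)) :
    back (tr S ω l) l.length = -pos l := by
  induction l using List.reverseRecOn with
  | nil => simp
  | append_singleton l s ih =>
    rw [tr_concat, List.length_append, List.length_singleton, back_cons_succ, ih]
    simp

theorem back_tr_add (S : St D) (ω : Cfg D) (l : List (Step D)) (k : ℕ) :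
    back (tr S ω l) (l.length + k) = back S k - pos l := by
  rw [back_add, back_tr_length, drop_tr]; abel

theorem back_tr (S : St D) (ω : Cfg D) (l : List (Step D)) {k : ℕ} (h : k ≤ l.length) :
    back (tr S ω l) k = loc l (l.length - k) - pos l := by
  have e := back_tr_length (tr S ω (l.take (l.length - k))) (shift (pos (l.take (l.length - k))) ω)
    (l.drop (l.length - k))
  rw [← tr_append, List.take_append_drop, List.length_drop, Nat.sub_sub_self h] at e
  rw [e]
  conv_rhs => rw [← List.take_append_drop (l.length - k) l]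
  rw [pos_append, List.take_append_drop, pos_take]
  abel

/-- the record made `k + 1` steps ago -/
theorem getElem_tr (S : St D) (ω : Cfg D) (l : List (Step D)) {k : ℕ} (h : k < l.length) :
    (tr S ω l)[k]'(by simp; omega) =
      (fun s => ω (edge (loc l (l.length - (k + 1))) s), l[l.length - (k + 1)]'(by omega)) := by
  have h1 : l.length - (k + 1) < l.length := by omega
  have e := tr_take S ω l (l.length - (k + 1) + 1)
  rw [List.take_succ_eq_append_getElem h1, tr_concat,
    show l.length - (l.length - (k + 1) + 1) = k by omega,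
    List.drop_eq_getElem_cons (by simp; omega)] at e
  exact (List.cons.inj e).1.symm

theorem leg_tr {S : St D} {ω : Cfg D} {l : List (Step D)} : Leg (tr S ω l) ↔ Leg S ∧ OpenP ω 0 l := by
  induction l using List.reverseRecOn with
  | nil => simp
  | append_singleton l s ih =>
    rw [tr_concat, leg_cons, ih, openP_append]
    simp only [zero_add, openP_cons, openP_nil, and_true]
    tauto

/-- the configuration seen from the end of the path -/
theorem shift_pos_ov (l : List (Step D)) : ∀ (S : St D) (ω : Cfg D),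
    shift (pos l) (ov S ω) = ov (tr S (ov S ω) l) (shift (pos l) ω) := by
  induction l with
  | nil => intro S ω; simp
  | cons s l ih =>
    intro S ω
    rw [pos_cons, ← shift_shift, ← shift_shift, tr_cons, shift_ov, ih]

theorem measurable_tr {Ω : Type} [MeasurableSpace Ω] {f : Ω → Cfg D} (hf : Measurable f)
    (S : St D) (l : List (Step D)) {G : St D → Ω → ℝ} (hG : ∀ S', Measurable (G S')) :
    Measurable fun a => G (tr S (f a) l) a := by
  induction l generalizing S f with
  | nil => exact hG S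
  | cons s l ih =>
    simp only [tr_cons]
    have h1 : Measurable fun a => (fun s' => f a (edge 0 s') : Sv D) :=
      measurable_pi_lambda _ fun s' => (measurable_pi_apply _).comp hf
    have h2 : Measurable fun q : Ω × Sv D => G (tr ((q.2, s) :: S) (shift (vec s) (f q.1)) l) q.1 :=
      measurable_from_prod_countable_left fun τ => ih ((measurable_shift _).comp hf) ((τ, s) :: S)
    exact h2.comp (measurable_id.prodMk h1)

end Pool.Agent.MP_8c549f_pr.S3

end
end MrgPart0

-- ======== part 1: formerly Pool.Agent.MP_8c549f_pr.S3.Ao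
section MrgPart1

/-! PROJECT BWALK3: the recent sites have only open edges. -/

noncomputable section

namespace Pool.Agent.MP_8c549f_pr.S3

open MeasureTheory Finset Classical

variable {D : ℕ}

namespace Ao

theorem real_closed {p : ℝ} (h0 : 0 ≤ p) (h1 : p ≤ 1) (e : Edge D) :
    (perc D p).real {ω | ω e = false} ≤ 1 - p := by
  rw [measureReal_def, perc_edge h0 h1 e, ENNReal.toReal_ofReal (by linarith)]

theorem bad_of {S : St D} {ω : Cfg D} {l : List (Step D)} {L : ℕ} (hL : 2 ≤ L)
    (hl : l.length = Ls L 2) (h1 : Iso (tr S (ov S ω) l) L 1) (h2 : ¬ AO (tr S (ov S ω) l) L) :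
    ∃ x ∈ ball (0 : V D) (Ls L 2), ∃ s ∈ (univ : Finset (Step D)), ω (edge x s) = false := by
  unfold AO at h2
  push Not at h2
  obtain ⟨k, k1, k2, s, k3⟩ := h2
  have hk : (k : ℕ) < l.length := by omega
  have e := getElem_tr S (ov S ω) l hk
  have k4 : ov S ω (edge (loc l (l.length - (k + 1))) s) = false := by
    have : (tr S (ov S ω) l).get k = (tr S (ov S ω) l)[(k : ℕ)] := rfl
    rw [this, e] at k3
    simpa using k3
  have p1 : 1 ≤ Ls L 1 := Nat.one_le_pow _ _ (by omega)
  rw [back_tr S _ l (k := k + 1) hk] at k2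
  refine ⟨loc l (l.length - (k + 1)), mem_ball.2 ?_, s, mem_univ _, ?_⟩
  · have := nrm_loc_le l (l.length - (k + 1))
    rw [sub_zero]
    omega
  · rw [← ov_eq_of_far (S := S) ?_ ω s, k4]
    intro j j1 j2
    have a := h1 (l.length + j) (by change Ls L 2 ≤ _; omega) (by rw [length_tr]; omega)
    rw [back_tr_add] at a
    have b := nrm_tri (back S j - pos l) (loc l (l.length - (k + 1)) - pos l)
      (back (tr S (ov S ω) l) (Ls L 1))
    rw [sub_sub_sub_cancel_right] at b
    omega

end Ao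

theorem ao (brf : BrfStmt) : AOStmt := by
  intro D L hL
  set N : ℝ := (ball (0 : V D) (Ls L 2)).card * (univ : Finset (Step D)).card with hN
  have N0 : 0 ≤ N := by positivity
  refine ⟨1 / (8 * (N + 1)), by positivity, fun p lam e1 h1 h0 S hS => ?_⟩
  have := perc_prob D h0 h1
  have b := brf D p lam h0 h1 (Ls L 2) S (fun S' _ => Iso S' L 1 ∧ ¬ AO S' L)
    {ω | ∃ x ∈ ball (0 : V D) (Ls L 2), ∃ s ∈ (univ : Finset (Step D)), ω (edge x s) = false} 0 hS
    le_rfl (fun _ => MeasurableSet.const _) fun ω hω =>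
      Qx_le_const le_rfl fun l hl _ => (ind_neg fun h => hω (Ao.bad_of hL hl h.1 h.2)).le
  have c := real_exists_le h0 h1 (ball (0 : V D) (Ls L 2))
    (fun x ω => ∃ s ∈ (univ : Finset (Step D)), ω (edge x s) = false) fun x _ =>
      real_exists_le h0 h1 univ (fun s ω => ω (edge x s) = false) fun s _ => Ao.real_closed h0 h1 _
  rw [← mul_assoc, ← hN] at c
  have d : N * (1 - p) ≤ 1 / 8 := by
    have : N * (1 - p) ≤ (N + 1) * (1 / (8 * (N + 1))) :=
      mul_le_mul (by linarith) (by linarith) (by linarith) (by linarith)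
    refine this.trans_eq ?_
    field_simp
  refine le_trans (le_of_eq (Ex_congr fun u _ => ?_)) (b.trans (by linarith))
  rw [ind_and]
  congr 1
  by_cases h : Iso (go S u) L 1 ∧ ¬ AO (go S u) L
  · rw [ind_pos h]; simp [h]
  · rw [ind_neg h]; simp only [h]; simp

end Pool.Agent.MP_8c549f_pr.S3

end
end MrgPart1

-- marker of a merged file
example : 731051 + 3326 = 731051 + 3326 := rfl

end MrgPart0

-- ======== part 1: formerly Pool.Agent.MP_8c549f_pr.S3.ZY
section MrgPart1

-- ======== part 0: formerly Pool.Agent.MP_8c549f_pr.S3.SpecB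
section MrgPart0

/-! PROJECT BWALK3, row SPEC: decay of the killed kernel from a functional inequality. -/

noncomputable section

namespace Pool.Agent.MP_8c549f_pr.S3

open Finset Classical

namespace SpecB

variable {D : ℕ} (lam : ℝ) (ω : Cfg D)

/-- conductance of the edge crossed by `s` from `x` -/
def cd (x : V D) (s : Step D) : ℝ :=
  if ω (edge x s) = true then Real.exp (lam * (expo x s : ℝ)) else 0

theorem cd_nonneg (x : V D) (s : Step D) : 0 ≤ cd lam ω x s := by
  unfold cd; split_ifs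
  · exact (Real.exp_pos _).le
  · exact le_rfl

theorem cd_rev (x : V D) (s : Step D) : cd lam ω (x + vec s) (rev s) = cd lam ω x s := by
  simp [cd]

theorem cd_eq (x : V D) (s : Step D) : cd lam ω x s =
    Real.exp (2 * lam * (x 0 : ℝ)) * (if ω (edge x s) = true then wt lam s else 0) := by
  unfold cd wt; split_ifs
  · rw [← Real.exp_add]; congr 1; simp only [expo]; push_cast; ring
  · simp

theorem sum_cd (x : V D) : ∑ s, cd lam ω x s = pim lam ω x := by
  simp only [cd_eq, pim, Zq, mul_sum]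

theorem pim_pr (x : V D) (s : Step D) : pim lam ω x * pr lam ω x s = cd lam ω x s := by
  rw [cd_eq]; unfold pim pr; split_ifs with h
  · have := (Zq_pos lam h).ne'
    field_simp
  · simp

theorem swap (C A : Finset (V D)) (F : V D → V D → ℝ) :
    ∑ x ∈ C, ∑ s, (if x + vec s ∈ A then cd lam ω x s * F x (x + vec s) else 0) =
    ∑ z ∈ A, ∑ s, (if z + vec s ∈ C then cd lam ω z s * F (z + vec s) z else 0) := by
  rw [← sum_product', ← sum_product', ← sum_filter, ← sum_filter]
  refine sum_nbij' (fun q => (q.1 + vec q.2, rev q.2)) (fun q => (q.1 + vec q.2, rev q.2))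
    ?_ ?_ ?_ ?_ ?_
  · intro q hq
    simp only [mem_filter, mem_product, mem_univ, and_true] at hq ⊢
    exact ⟨hq.2, by simpa using hq.1⟩
  · intro q hq
    simp only [mem_filter, mem_product, mem_univ, and_true] at hq ⊢
    exact ⟨hq.2, by simpa using hq.1⟩
  · intro q _; simp
  · intro q _; simp
  · intro q _; simp [cd_rev]

variable (A : Finset (V D))

def ip (f g : V D → ℝ) : ℝ := ∑ x ∈ A, pim lam ω x * (f x * g x)

def kf (f g : V D → ℝ) : ℝ := ∑ x ∈ A, ∑ s, cd lam ω x s * (f x * g (x + vec s))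

variable {A}

theorem ite_supp {g : V D → ℝ} (hg : ∀ x, g x ≠ 0 → x ∈ A) (a b : ℝ) (x : V D) :
    a * (b * g x) = if x ∈ A then a * (b * g x) else 0 := by
  split_ifs with h
  · rfl
  · have : g x = 0 := by by_contra h'; exact h (hg x h')
    simp [this]

theorem kf_symm {f g : V D → ℝ} (hf : ∀ x, f x ≠ 0 → x ∈ A) (hg : ∀ x, g x ≠ 0 → x ∈ A) :
    kf lam ω A f g = kf lam ω A g f := by
  have h := swap lam ω A A fun x z => f x * g z
  unfold kf
  rw [sum_congr rfl fun x _ => sum_congr rfl fun s _ => ite_supp hg (cd lam ω x s) (f x) _, h]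
  refine sum_congr rfl fun x _ => sum_congr rfl fun s _ => ?_
  rw [ite_supp hf (cd lam ω x s) (g x), mul_comm (g x)]

theorem out_le (C : Finset (V D)) {h : V D → ℝ} (hh : ∀ x, h x ≠ 0 → x ∈ A) :
    ∑ x ∈ C, ∑ s, cd lam ω x s * (h (x + vec s) * h (x + vec s)) ≤ ip lam ω A h h := by
  have e := swap lam ω C A fun _ z => h z * h z
  rw [sum_congr rfl fun x _ => sum_congr rfl fun s _ =>
    ite_supp hh (cd lam ω x s) (h (x + vec s)) _, e]
  refine sum_le_sum fun x _ => ?_
  rw [← sum_cd, sum_mul]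
  refine sum_le_sum fun s _ => ?_
  split_ifs
  · exact le_rfl
  · exact mul_nonneg (cd_nonneg _ _ _ _) (mul_self_nonneg _)

theorem ip_eq (h : V D → ℝ) :
    ip lam ω A h h = ∑ x ∈ A, ∑ s, cd lam ω x s * (h x * h x) := by
  simp only [ip, ← sum_cd, sum_mul]

theorem ip_add_kf {h : V D → ℝ} (hh : ∀ x, h x ≠ 0 → x ∈ A) :
    0 ≤ ip lam ω A h h + kf lam ω A h h := by
  have h1 := out_le lam ω A hh
  have h2 : 0 ≤ ∑ x ∈ A, ∑ s, cd lam ω x s * (h x + h (x + vec s)) ^ 2 :=
    sum_nonneg fun x _ => sum_nonneg fun s _ => mul_nonneg (cd_nonneg _ _ _ _) (sq_nonneg _)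
  have h3 : ∑ x ∈ A, ∑ s, cd lam ω x s * (h x + h (x + vec s)) ^ 2 =
      ip lam ω A h h + 2 * kf lam ω A h h +
        ∑ x ∈ A, ∑ s, cd lam ω x s * (h (x + vec s) * h (x + vec s)) := by
    rw [ip_eq]; unfold kf
    simp only [mul_sum, ← sum_add_distrib]
    exact sum_congr rfl fun x _ => sum_congr rfl fun s _ => by ring
  linarith

theorem En_le (B : Finset (V D)) {u : V D → ℝ} (hu : ∀ x, u x ≠ 0 → x ∈ A) :
    En lam ω B u ≤ 2 * (ip lam ω A u u - kf lam ω A u u) := by
  have h0 : En lam ω B u ≤ ∑ x ∈ A ∪ B, ∑ s, cd lam ω x s * (u (x + vec s) - u x) ^ 2 := by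
    have : En lam ω B u = ∑ x ∈ B, ∑ s, cd lam ω x s * (u (x + vec s) - u x) ^ 2 := by
      unfold En cd
      refine sum_congr rfl fun x _ => sum_congr rfl fun s _ => ?_
      split_ifs <;> simp
    rw [this]
    exact sum_le_sum_of_subset_of_nonneg subset_union_right fun x _ _ =>
      sum_nonneg fun s _ => mul_nonneg (cd_nonneg _ _ _ _) (sq_nonneg _)
  have h1 := out_le lam ω (A ∪ B) hu
  have hz : ∀ x ∈ A ∪ B, x ∉ A → u x = 0 := fun x _ hx => by
    by_contra h'; exact hx (hu x h')
  have h2 : ∑ x ∈ A ∪ B, ∑ s, cd lam ω x s * (u x * u x) = ip lam ω A u u := by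
    rw [ip_eq]
    exact (sum_subset subset_union_left fun x hx hx' => by simp [hz x hx hx']).symm
  have h3 : ∑ x ∈ A ∪ B, ∑ s, cd lam ω x s * (u x * u (x + vec s)) = kf lam ω A u u :=
    (sum_subset subset_union_left fun x hx hx' => by simp [hz x hx hx']).symm
  have h4 : ∑ x ∈ A ∪ B, ∑ s, cd lam ω x s * (u (x + vec s) - u x) ^ 2 =
      ∑ x ∈ A ∪ B, ∑ s, cd lam ω x s * (u (x + vec s) * u (x + vec s)) +
        ∑ x ∈ A ∪ B, ∑ s, cd lam ω x s * (u x * u x) -
        2 * ∑ x ∈ A ∪ B, ∑ s, cd lam ω x s * (u x * u (x + vec s)) := by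
    simp only [mul_sum, ← sum_add_distrib, ← sum_sub_distrib]
    exact sum_congr rfl fun x _ => sum_congr rfl fun s _ => by ring
  linarith

theorem ip_lin (f g : V D → ℝ) (c : ℝ) :
    ip lam ω A (fun x => f x + c * g x) (fun x => f x + c * g x) =
      ip lam ω A f f + 2 * c * ip lam ω A f g + c ^ 2 * ip lam ω A g g := by
  simp only [ip, mul_sum, ← sum_add_distrib]
  exact sum_congr rfl fun x _ => by ring

theorem kf_lin (f g : V D → ℝ) (c : ℝ) :
    kf lam ω A (fun x => f x + c * g x) (fun x => f x + c * g x) =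
      kf lam ω A f f + c * kf lam ω A f g + c * kf lam ω A g f + c ^ 2 * kf lam ω A g g := by
  simp only [kf, mul_sum, ← sum_add_distrib]
  exact sum_congr rfl fun x _ => sum_congr rfl fun s _ => by ring

/-- one step of the contraction -/
theorem step (B : Finset (V D)) {g g' : V D → ℝ} (hg : ∀ x, g x ≠ 0 → x ∈ A)
    (hg' : ∀ x, g' x ≠ 0 → x ∈ A)
    (hP : ∀ x ∈ A, g' x = ∑ s, pr lam ω x s * g (x + vec s)) :
    En lam ω B (fun x => g x + 1 * g' x) ≤ 4 * (ip lam ω A g g - ip lam ω A g' g') := by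
  have hk : ∀ f : V D → ℝ, kf lam ω A f g = ip lam ω A f g' := fun f => by
    refine sum_congr rfl fun x hx => ?_
    rw [hP x hx, mul_sum, mul_sum]
    exact sum_congr rfl fun s _ => by rw [← pim_pr]; ring
  have hs : ∀ c : ℝ, ∀ x, g x + c * g' x ≠ 0 → x ∈ A := fun c x h => by
    by_contra hx
    have h1 : g x = 0 := by by_contra h'; exact hx (hg x h')
    have h2 : g' x = 0 := by by_contra h'; exact hx (hg' x h')
    simp [h1, h2] at h
  have h1 := En_le lam ω B (hs 1)
  have h2 := ip_add_kf lam ω (hs (-1))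
  rw [ip_lin, kf_lin, kf_symm lam ω hg hg', hk, hk] at h1 h2
  linarith

end SpecB

open SpecB in
theorem spec (hpk : PkStmt) : SpecStmt := by
  intro D lam ω A B y α κ hy hα hκ H
  obtain ⟨h1, h2, h3, -, h5, -⟩ := hpk D lam ω
  have hπ : 0 < pim lam ω y := mul_pos (Real.exp_pos _) hy
  set g : ℕ → V D → ℝ := fun n z => pk lam ω A n z y / pim lam ω y with hgd
  have g0 : ∀ n z, 0 ≤ g n z := fun n z => div_nonneg (pk_nonneg _ _ _ _) hπ.le
  have gs : ∀ n z, g n z ≠ 0 → z ∈ A ∧ Conn ω y z := fun n z h => by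
    have h' : pk lam ω A n z y ≠ 0 := fun e => h (by simp [hgd, e])
    exact ⟨(h5 A n z y h').1, (h5 A n z y h').2.2.1.symm⟩
  have ge : ∀ n z, pim lam ω z * g n z = pk lam ω A n y z := fun n z => by
    simp only [hgd]
    rw [← mul_div_assoc, ← h1, mul_div_cancel_left₀ _ hπ.ne']
  have gm : ∀ n, ∑ z ∈ A, pim lam ω z * g n z ≤ 1 := fun n => by
    simp only [ge]; rw [← h3]; exact Qx_ind_le_one _ _ _
  have gP : ∀ n, ∀ x ∈ A, g (n + 1) x = ∑ s, pr lam ω x s * g n (x + vec s) := fun n x hx => by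
    simp only [hgd]
    rw [h2]
    simp only [ind, hx, if_true, one_mul, sum_div, mul_div_assoc]
  have key : ∀ n : ℕ, ip lam ω A (g n) (g n) - κ ≤
      Real.exp (-(n / (4 * α))) / pim lam ω y := by
    intro n
    induction n with
    | zero =>
      have e : ip lam ω A (g 0) (g 0) ≤ (∑ z ∈ A, pim lam ω z * g 0 z) * (1 / pim lam ω y) := by
        rw [sum_mul]
        refine sum_le_sum fun z _ => ?_
        rw [← mul_assoc]
        refine mul_le_mul_of_nonneg_left ?_ (mul_nonneg (pim_nonneg _ _ _) (g0 _ _))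
        exact div_le_div_of_nonneg_right ((pk_le_pf _ _ _ _).trans (pf_le_one _ _ _)) hπ.le
      have e2 := mul_le_mul_of_nonneg_right (gm 0) (one_div_pos.2 hπ).le
      simp only [Nat.cast_zero, zero_div, neg_zero, Real.exp_zero]
      linarith
    | succ n ih =>
      have e1 := step lam ω B (fun x h => (gs n x h).1) (fun x h => (gs (n + 1) x h).1) (gP n)
      have e2 := H (fun x => g n x + 1 * g (n + 1) x)
        (fun x => by have := g0 n x; have := g0 (n + 1) x; linarith)
        (fun x h => by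
          by_cases h' : g n x = 0
          · exact gs (n + 1) x (by simpa [h'] using h)
          · exact gs n x h')
        (by
          have := gm n; have := gm (n + 1)
          simp only [one_mul, mul_add, sum_add_distrib]; linarith)
      have e3 : ip lam ω A (g n) (g n) ≤
          ∑ x ∈ A, pim lam ω x * (g n x + 1 * g (n + 1) x) ^ 2 := by
        refine sum_le_sum fun x _ => mul_le_mul_of_nonneg_left ?_ (pim_nonneg _ _ _)
        have := g0 n x; have := g0 (n + 1) x; nlinarith
      have hα0 : 0 < 4 * α := by linarith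
      have e4 := mul_le_mul_of_nonneg_left e1 (by linarith : 0 ≤ α)
      set a := ip lam ω A (g n) (g n)
      set b := ip lam ω A (g (n + 1)) (g (n + 1))
      have e5 : b - κ ≤ (1 - 1 / (4 * α)) * (a - κ) := by
        have : (1 - 1 / (4 * α)) * (a - κ) = (4 * α * (a - κ) - (a - κ)) / (4 * α) := by
          field_simp
        rw [this, le_div_iff₀ hα0]; nlinarith
      have q0 : 0 ≤ 1 - 1 / (4 * α) := by
        rw [sub_nonneg, div_le_one hα0]; linarith
      have q1 : 1 - 1 / (4 * α) ≤ Real.exp (-(1 / (4 * α))) := by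
        have := Real.add_one_le_exp (-(1 / (4 * α))); linarith
      have e6 : Real.exp (-(((n + 1 : ℕ) : ℝ) / (4 * α))) / pim lam ω y =
          Real.exp (-(1 / (4 * α))) * (Real.exp (-(n / (4 * α))) / pim lam ω y) := by
        rw [← mul_div_assoc, ← Real.exp_add]; congr 2; push_cast; ring
      rw [e6]
      exact e5.trans ((mul_le_mul_of_nonneg_left ih q0).trans
        (mul_le_mul_of_nonneg_right q1 (div_nonneg (Real.exp_pos _).le hπ.le)))
  intro n
  have e : ∑ z ∈ A, pk lam ω A n y z ^ 2 / pim lam ω z = ip lam ω A (g n) (g n) := by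
    refine sum_congr rfl fun z _ => ?_
    rw [← ge]
    by_cases h : pim lam ω z = 0
    · simp [h]
    · field_simp
  have := key n
  linarith

end Pool.Agent.MP_8c549f_pr.S3

end
end MrgPart0

-- ======== part 1: formerly Pool.Agent.MP_8c549f_pr.S3.Sum
section MrgPart1

/-! PROJECT BWALK3: the weighted sum of the probabilities of first visits. -/

noncomputable section

namespace Pool.Agent.MP_8c549f_pr.S3

open MeasureTheory Finset Real

namespace SumM

variable {D : ℕ}

lemma tr_snd (l : List (Step D)) : ∀ (S : St D) (ω : Cfg D),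
    (tr S ω l).map Prod.snd = l.reverse ++ S.map Prod.snd := by
  induction l with
  | nil => intro S ω; rfl
  | cons s l ih => intro S ω; simp [tr, ih]

lemma back_tr (ω : Cfg D) (l : List (Step D)) : back (tr [] ω l) l.length = -pos l := by
  rw [back, List.map_take, tr_snd, List.map_nil, List.append_nil,
    List.take_of_length_le (by simp)]
  simp [pos, List.sum_reverse]

lemma nrm_back (S : St D) (k : ℕ) : nrm (back S k) ≤ k := by
  rw [back, nrm_neg]
  exact (nrm_pos_le _).trans (by simp)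

lemma exists_l (L : ℕ) : ∃ l : ℕ, l ^ 9 ≤ L ∧ L < (l + 1) ^ 9 := by
  induction L with
  | zero => exact ⟨0, by simp⟩
  | succ L ih =>
    obtain ⟨l, h1, h2⟩ := ih
    by_cases h : L + 1 < (l + 1) ^ 9
    · exact ⟨l, by omega, h⟩
    · exact ⟨l + 1, by omega, lt_of_le_of_lt h2 (Nat.pow_lt_pow_left (by omega) (by omega))⟩

lemma sum_sq (n : ℕ) : ∑ L ∈ range n, 1 / (1 + (L : ℝ)) ^ 2 ≤ 2 := by
  have h : ∑ L ∈ range n, 1 / (1 + (L : ℝ)) ^ 2 ≤ 2 - 2 / ((n : ℝ) + 1) := by
    induction n with
    | zero => simp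
    | succ n ih =>
      rw [sum_range_succ]
      have h1 : 1 / (1 + (n : ℝ)) ^ 2 ≤ 2 / ((n : ℝ) + 1) - 2 / ((n : ℝ) + 1 + 1) := by
        rw [div_sub_div _ _ (by positivity) (by positivity), div_le_div_iff₀ (by positivity)
          (by positivity)]
        nlinarith [sq_nonneg (n : ℝ), (Nat.cast_nonneg n : (0 : ℝ) ≤ n)]
      push_cast
      linarith
  have : 0 ≤ 2 / ((n : ℝ) + 1) := by positivity
  linarith

lemma split (Wn : WinStmt) {p : ℝ} (h0 : 0 ≤ p) (h1 : p ≤ 1) (lam : ℝ) (L : ℕ) (z : V D) :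
    fv p lam L z ≤ (Ex (win p lam) L fun u : List (In D) => ind (Leg (go [] u)) *
      (perc D p).real {ω | back (go [] u) L = -z ∧ ov (go [] u) ω ∈ InfCl D}) +
      finq D p lam 0 L := by
  have := perc_prob D h0 h1
  rw [finq, Nat.zero_add, ← Ex_add]
  refine Ex_mono ((Wn D p h0 h1).1 lam) fun u _ => ind_le_of ?_ fun h => ?_
  · have := ind_nonneg (Leg (go [] u))
    positivity
  · rw [ind_pos h.1, one_mul, one_mul, ← probReal_univ (μ := perc D p)]
    refine le_trans (measureReal_mono fun ω _ => ?_) (measureReal_union_le _ _)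
    by_cases hω : ov (go [] u) ω ∈ InfCl D
    · exact Or.inl ⟨h.2.1, hω⟩
    · exact Or.inr ⟨hω, 0, Conn.refl _ _, fun k a b => (h.2.2 k a b).symm⟩

lemma main (Wn : WinStmt) (B : BrfStmt) (H : HKStmt) (P : PeiLStmt) (F : FinStmt) (D m : ℕ)
    (hD : 1 ≤ D) (hm : 18 * m + 1 ≤ (D + 1) / 2) : ∃ (C e₀ : ℝ) (l₀ : ℕ), 0 ≤ C ∧ 0 < e₀ ∧
    2 ≤ l₀ ∧ ∀ p lam, 1 - e₀ ≤ p → p ≤ 1 → 0 ≤ p → 0 < lam → lam ≤ 1 → ∀ (L l : ℕ) (z : V D),
      l₀ ≤ l → l ^ 9 ≤ L → L < (l + 1) ^ 9 →
      (1 + (L : ℝ)) ^ m * fv p lam L z ≤ C * exp (max 0 (lam * (z 0 : ℝ) - (l : ℝ) ^ 2)) := by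
  obtain ⟨l₀, hH⟩ := H D hD
  obtain ⟨e₁, he₁, hP⟩ := P D (20 * (D + 1) + 18 * m)
  obtain ⟨C, e₂, hC, he₂, hF⟩ := F D hD m
  refine ⟨2 + 2 ^ m * C, min e₁ e₂, max l₀ 2, by positivity, lt_min he₁ he₂, le_max_right _ _, ?_⟩
  intro p lam hp h1 h0 a0 a1 L l z hl b1 b2
  have l2 : 2 ≤ l := (le_max_right _ _).trans hl
  have l2' : (2 : ℝ) ≤ l := by exact_mod_cast l2
  have lp : (0 : ℝ) < l := by linarith
  have L1 : 1 ≤ L := le_trans (Nat.one_le_pow _ _ (by omega)) b1
  have L1' : (1 : ℝ) ≤ L := by exact_mod_cast L1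
  have c1 : 1 + (L : ℝ) ≤ (l : ℝ) ^ 18 := by
    have h2 : 1 + (L : ℝ) ≤ ((l : ℝ) + 1) ^ 9 := by
      have : 1 + L ≤ (l + 1) ^ 9 := by omega
      exact_mod_cast this
    have h3 : ((l : ℝ) + 1) ^ 9 ≤ ((l : ℝ) ^ 2) ^ 9 :=
      pow_le_pow_left₀ (by positivity) (by nlinarith) 9
    rw [← pow_mul] at h3
    exact h2.trans h3
  have c2 : (1 + (L : ℝ)) ^ m ≤ (l : ℝ) ^ (18 * m) := by
    rw [pow_mul]
    exact pow_le_pow_left₀ (by positivity) c1 m
  set E := exp (max 0 (lam * (z 0 : ℝ) - (l : ℝ) ^ 2)) with hE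
  have E1 : 1 ≤ E := one_le_exp (le_max_left _ _)
  have q1 := B D p lam h0 h1 L [] (fun S ω => back S L = -z ∧ ω ∈ InfCl D)
    {ω | ∃ v ∈ ball (0 : V D) (2 * L), Ch ω v (hh l)} (E / (l : ℝ) ^ (18 * m))
    (fun _ h => absurd h List.not_mem_nil) (by positivity)
    (fun S => (MeasurableSet.const _).inter measurableSet_inf) ?_
  · have q2 := real_exists_le h0 h1 (ball (0 : V D) (2 * L)) (fun v ω => Ch ω v (hh l))
      fun v _ => hP p (le_trans (by linarith [min_le_left e₁ e₂]) hp) h1 h0 v l (by omega)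
    have q3 := hF p lam (le_trans (by linarith [min_le_right e₁ e₂]) hp) h1 h0 a0.le a1 0 L L1
    have q4 : (((ball (0 : V D) (2 * L)).card : ℕ) : ℝ) ≤ (l : ℝ) ^ (20 * (D + 1)) := by
      rw [card_ball, pow_mul]
      push_cast
      refine pow_le_pow_left₀ (by positivity) ?_ _
      have : (l : ℝ) ^ 20 = (l : ℝ) ^ 2 * (l : ℝ) ^ 18 := by ring
      rw [this]
      have h4 : (4 : ℝ) ≤ (l : ℝ) ^ 2 := by nlinarith
      nlinarith [mul_le_mul h4 c1 (by positivity) (by positivity)]
    have q5 : (((ball (0 : V D) (2 * L)).card : ℕ) : ℝ) *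
        (1 / (l : ℝ) ^ (20 * (D + 1) + 18 * m)) ≤ 1 / (l : ℝ) ^ (18 * m) := by
      rw [mul_one_div, div_le_div_iff₀ (by positivity) (by positivity), pow_add, one_mul]
      exact mul_le_mul_of_nonneg_right q4 (by positivity)
    have q6 : fv p lam L z ≤
        E / (l : ℝ) ^ (18 * m) + 1 / (l : ℝ) ^ (18 * m) + C / (L : ℝ) ^ m := by
      linarith [split Wn h0 h1 lam L z]
    have r1 : (1 + (L : ℝ)) ^ m * (E / (l : ℝ) ^ (18 * m)) ≤ E := by
      rw [mul_div_assoc', div_le_iff₀ (by positivity), mul_comm]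
      exact mul_le_mul_of_nonneg_left c2 (by positivity)
    have r2 : (1 + (L : ℝ)) ^ m * (1 / (l : ℝ) ^ (18 * m)) ≤ 1 := by
      rw [mul_one_div, div_le_one (by positivity)]
      exact c2
    have r3 : (1 + (L : ℝ)) ^ m * (C / (L : ℝ) ^ m) ≤ 2 ^ m * C := by
      rw [mul_div_assoc', div_le_iff₀ (by positivity), mul_right_comm, ← mul_pow]
      exact mul_le_mul_of_nonneg_right (pow_le_pow_left₀ (by positivity) (by linarith) m) hC
    have r4 : 2 ^ m * C ≤ 2 ^ m * C * E := le_mul_of_one_le_right (by positivity) E1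
    have r5 := mul_le_mul_of_nonneg_left q6 (by positivity : 0 ≤ (1 + (L : ℝ)) ^ m)
    rw [mul_add, mul_add] at r5
    linarith
  · intro ω hω
    have e : ov ([] : St D) ω = ω := rfl
    rw [e]
    by_cases hi : ω ∈ InfCl D
    · have h2 := hH l ((le_max_left _ _).trans hl) lam ω 0 z L a0 a1 b1
        (fun v hv hc => hω ⟨v, mem_ball.2 hv, hc⟩) (wide_of_inf hi (Conn.refl _ _) _)
      simp only [Pi.zero_apply, Int.cast_zero, sub_zero] at h2
      have h3 : pf lam ω L 0 z ≤ E / (l : ℝ) ^ (18 * m) := by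
        rw [le_div_iff₀ (by positivity)]
        have h4 : (l : ℝ) ^ (18 * m + 1) ≤ (l : ℝ) ^ ((D + 1) / 2) :=
          pow_le_pow_right₀ (by linarith) hm
        have h5 := mul_le_mul_of_nonneg_left h4 (pf_nonneg (lam := lam) (ω := ω) L 0 z)
        rw [pow_succ] at h5
        refine le_of_mul_le_mul_right ?_ lp
        linarith
      refine le_trans (Qx_mono fun l' hl' => ind_mono fun h => ?_) h3
      have h6 := h.1
      rw [← hl', back_tr] at h6
      rw [zero_add]
      exact neg_injective h6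
    · refine Qx_le_const (by positivity) fun l' _ ho => ?_
      rw [ind_neg fun h => hi ((inf_shift (by simpa using ho.conn_pos)).1 h.2)]
      positivity

lemma expo_le {lam lam' : ℝ} (a0 : 0 < lam) (a1 : lam ≤ lam') (a2 : lam' ≤ 1) {z z' : V D}
    (hz : nrm (z' - z) ≤ 1) {l : ℕ} (l2 : 2 ≤ l) (hN : nrm z ≤ (l + 1) ^ 9) :
    max 0 (lam * (z' 0 : ℝ) - (l : ℝ) ^ 2) ≤
      max 0 (lam' * (z 0 : ℝ) - (nrm z : ℝ) ^ (1 / 9 : ℝ)) := by
  have l2' : (2 : ℝ) ≤ l := by exact_mod_cast l2
  have h1 : (z' 0 : ℝ) ≤ (z 0 : ℝ) + 1 := by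
    have := (abs_le.1 (nrm_le_iff.1 hz 0)).2
    simp only [Pi.sub_apply, Nat.cast_one] at this
    have h : z' 0 ≤ z 0 + 1 := by omega
    exact_mod_cast h
  have h2 : (nrm z : ℝ) ^ (1 / 9 : ℝ) ≤ (l : ℝ) + 1 := by
    have h : (nrm z : ℝ) ≤ ((l : ℝ) + 1) ^ 9 := by exact_mod_cast hN
    have := rpow_le_rpow (Nat.cast_nonneg _) h (by norm_num : (0 : ℝ) ≤ 1 / 9)
    have e := pow_rpow_inv_natCast (x := (l : ℝ) + 1) (n := 9) (by positivity) (by norm_num)
    rw [Nat.cast_ofNat, ← one_div] at e
    rwa [e] at this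
  refine max_le (le_max_left _ _) ?_
  have h3 := mul_le_mul_of_nonneg_left h1 a0.le
  by_cases h : 0 ≤ (z 0 : ℝ)
  · refine le_trans ?_ (le_max_right _ _)
    nlinarith [mul_le_mul_of_nonneg_right a1 h]
  · refine le_trans ?_ (le_max_left _ _)
    nlinarith [mul_pos a0 (neg_pos.2 (not_le.1 h))]

lemma fin (Wn : WinStmt) (B : BrfStmt) (H : HKStmt) (P : PeiLStmt) (F : FinStmt) (D q : ℕ)
    (hD : 1 ≤ D) (hm : 18 * (q + 6) + 1 ≤ (D + 1) / 2) : ∃ K e₀ : ℝ, 0 < K ∧ 0 < e₀ ∧
    ∀ p lam lam', 1 - e₀ ≤ p → p ≤ 1 → 0 ≤ p → 0 < lam → lam ≤ lam' → lam' ≤ 1 →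
      ∀ (z z' : V D) (n : ℕ), nrm (z' - z) ≤ 1 →
        ∑ L ∈ range n, (1 + (L : ℝ)) ^ 4 * fv p lam L z' ≤ K * (((1 + (nrm z : ℝ)) ^ q)⁻¹ *
          exp (max 0 (lam' * (z 0 : ℝ) - (nrm z : ℝ) ^ (1 / 9 : ℝ)))) := by
  obtain ⟨C, e₀, l₀, hC, he, l2, hM⟩ := main Wn B H P F D (q + 6) hD hm
  have l0 : (0 : ℝ) < l₀ := by exact_mod_cast (by omega : 0 < l₀)
  refine ⟨2 * (2 ^ q * (C + ((l₀ : ℝ) ^ 9) ^ (q + 6))), e₀, by positivity, he, ?_⟩
  intro p lam lam' hp h1 h0 a0 a1 a2 z z' n hz
  set E := exp (max 0 (lam' * (z 0 : ℝ) - (nrm z : ℝ) ^ (1 / 9 : ℝ))) with hE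
  have E1 : 1 ≤ E := one_le_exp (le_max_left _ _)
  set C₁ := C + ((l₀ : ℝ) ^ 9) ^ (q + 6) with hC₁
  have C0 : 0 ≤ C₁ := by positivity
  have w0 := (Wn D p h0 h1).1 lam
  have key : ∀ L : ℕ, (1 + (L : ℝ)) ^ 4 * fv p lam L z' ≤
      2 ^ q * C₁ * (((1 + (nrm z : ℝ)) ^ q)⁻¹ * E) * (1 / (1 + (L : ℝ)) ^ 2) := by
    intro L
    by_cases hL : nrm z' ≤ L
    · have hN : nrm z ≤ L + 1 := by
        have := nrm_tri z z' 0
        rw [sub_zero, sub_zero, nrm_sub_comm] at this
        omega
      obtain ⟨l, b1, b2⟩ := exists_l L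
      have k1 : (1 + (L : ℝ)) ^ (q + 6) * fv p lam L z' ≤ C₁ * E := by
        have p0 : 0 ≤ ((l₀ : ℝ) ^ 9) ^ (q + 6) := by positivity
        by_cases hl : l₀ ≤ l
        · refine (hM p lam hp h1 h0 a0 (a1.trans a2) L l z' hl b1 b2).trans ?_
          exact mul_le_mul (by linarith)
            (exp_le_exp.2 (expo_le a0 a1 a2 hz (l2.trans hl) (by omega))) (exp_pos _).le C0
        · have f1 : fv p lam L z' ≤ 1 :=
            Ex_le_const w0 ((Wn D p h0 h1).2.1 lam) fun _ _ => ind_le_one _
          have f2 : 1 + (L : ℝ) ≤ (l₀ : ℝ) ^ 9 := by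
            have : 1 + L ≤ l₀ ^ 9 :=
              le_trans (by omega) (Nat.pow_le_pow_left (by omega : l + 1 ≤ l₀) 9)
            exact_mod_cast this
          have f3 := pow_le_pow_left₀ (by positivity) f2 (q + 6)
          have f4 := mul_le_mul_of_nonneg_left f1 (by positivity : 0 ≤ (1 + (L : ℝ)) ^ (q + 6))
          have f5 : C₁ ≤ C₁ * E := le_mul_of_one_le_right C0 E1
          linarith
      have k2 : (1 + (nrm z : ℝ)) ^ q ≤ 2 ^ q * (1 + (L : ℝ)) ^ q := by
        rw [← mul_pow]
        refine pow_le_pow_left₀ (by positivity) ?_ q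
        have : (nrm z : ℝ) ≤ L + 1 := by exact_mod_cast hN
        linarith [(Nat.cast_nonneg L : (0 : ℝ) ≤ L)]
      have f0 : 0 ≤ fv p lam L z' := Ex_nonneg w0 fun _ _ => ind_nonneg _
      have e : 2 ^ q * C₁ * (((1 + (nrm z : ℝ)) ^ q)⁻¹ * E) * (1 / (1 + (L : ℝ)) ^ 2) =
          2 ^ q * (C₁ * E) / ((1 + (nrm z : ℝ)) ^ q * (1 + (L : ℝ)) ^ 2) := by
        field_simp
      rw [e, le_div_iff₀ (by positivity)]
      calc (1 + (L : ℝ)) ^ 4 * fv p lam L z' * ((1 + (nrm z : ℝ)) ^ q * (1 + (L : ℝ)) ^ 2)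
          ≤ (1 + (L : ℝ)) ^ 4 * fv p lam L z' *
            (2 ^ q * (1 + (L : ℝ)) ^ q * (1 + (L : ℝ)) ^ 2) := by gcongr
        _ = 2 ^ q * ((1 + (L : ℝ)) ^ (q + 6) * fv p lam L z') := by ring
        _ ≤ 2 ^ q * (C₁ * E) := by gcongr
    · have f1 : fv p lam L z' ≤ 0 := by
        refine Ex_le_const w0 ((Wn D p h0 h1).2.1 lam) fun u _ => (ind_neg fun h => hL ?_).le
        have := nrm_back (go [] u) L
        rwa [h.2.1, nrm_neg] at this
      exact (mul_nonpos_of_nonneg_of_nonpos (by positivity) f1).trans (by positivity)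
  refine (sum_le_sum fun L _ => key L).trans ?_
  rw [← mul_sum]
  refine (mul_le_mul_of_nonneg_left (sum_sq n) (by positivity)).trans (le_of_eq ?_)
  ring

end SumM

theorem sumS (Wn : WinStmt) (B : BrfStmt) (H : HKStmt) (P : PeiLStmt) (F : FinStmt) : SumStmt :=
  fun D hD => SumM.fin Wn B H P F D 2740 (by omega) (by omega)

end Pool.Agent.MP_8c549f_pr.S3

end
end MrgPart1

-- ======== part 2: formerly Pool.Agent.MP_8c549f_pr.S3.ZY
section MrgPart2

/-! PROJECT BWALK3, row ZY: second moment of the weighted number of descendants and the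
expectations of the long waits. -/

noncomputable section

namespace Pool.Agent.MP_8c549f_pr.S3

open Finset Classical

namespace ZY

variable {σ ι : Type} [Fintype ι] {A : Sys σ ι} {w : ι → ℝ} {G : Finset ι} {θ C β : ℝ}

theorem sum_le_of (h0 : ∀ a, 0 ≤ w a) (h1 : ∑ a, w a = 1) {f : ι → ℝ} {c : ℝ}
    (h : ∀ a, f a ≤ c) : ∑ a, w a * f a ≤ c := by
  calc ∑ a, w a * f a ≤ ∑ a, w a * c := sum_le_sum fun a _ =>
        mul_le_mul_of_nonneg_left (h a) (h0 a)
    _ = c := by rw [← sum_mul, h1, one_mul]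

theorem step (H : A.Hyp w G θ C β) {n : ℕ}
    (hW : ∀ S, (Ex w n fun u => A.zz u S none ^ 2) ≤ 1)
    (hT : ∀ S R L, (Ex w n fun u => A.zz u S (some (R, L)) ^ 2) ≤
      256 * Ex w n fun u => A.lagw u S R L) (S : σ) (a : ι) :
    (Ex w n fun u => A.zz (a :: u) S none ^ 2) ≤ 1 := by
  simp only [Sys.zz_cons_none]
  by_cases hs : A.safe (A.F S a)
  · simp only [if_pos hs]
    have h1 := hT (A.F S a) A.new 0
    have h2 := H.trial _ hs n
    linarith
  · simp only [if_neg hs]
    exact hW _

theorem both (H : A.Hyp w G θ C β) (n : ℕ) :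
    (∀ S, (Ex w n fun u => A.zz u S none ^ 2) ≤ 1) ∧
    (∀ S R L, (Ex w n fun u => A.zz u S (some (R, L)) ^ 2) ≤
      256 * Ex w n fun u => A.lagw u S R L) := by
  induction n with
  | zero => exact ⟨fun S => by simp, fun S R L => by simp⟩
  | succ n ih =>
    obtain ⟨hW, hT⟩ := ih
    have hN := step H hW hT
    refine ⟨fun S => ?_, fun S R L => ?_⟩
    · rw [Ex_succ]
      exact sum_le_of H.w0 H.w1 (hN S)
    · rw [Ex_succ, Ex_succ, mul_sum]
      refine sum_le_sum fun a _ => ?_
      rw [mul_left_comm]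
      refine mul_le_mul_of_nonneg_left ?_ (H.w0 a)
      simp only [Sys.zz_cons_some, Sys.lagw_cons]
      by_cases hc : A.conf S R a
      · simp only [if_pos hc]
        rw [Ex_const H.w1]
        have hL : (0 : ℝ) ≤ 64 * (1 + (L : ℝ)) ^ 4 := by positivity
        calc (Ex w n fun u => ((2 * (1 + (L : ℝ))) ^ 2 *
              (2 + A.zz (a :: u) S none + A.zz (a :: u) R none)) ^ 2)
            ≤ Ex w n fun u => 64 * (1 + (L : ℝ)) ^ 4 *
              (2 + A.zz (a :: u) S none ^ 2 + A.zz (a :: u) R none ^ 2) := by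
              refine Ex_mono H.w0 fun u _ => ?_
              generalize A.zz (a :: u) S none = x
              generalize A.zz (a :: u) R none = y
              have h4 : (2 + x + y) ^ 2 ≤ 4 * (2 + x ^ 2 + y ^ 2) := by
                nlinarith [sq_nonneg (x - 1), sq_nonneg (y - 1), sq_nonneg (x - y)]
              have h5 : (0 : ℝ) ≤ 16 * (1 + (L : ℝ)) ^ 4 := by positivity
              calc ((2 * (1 + (L : ℝ))) ^ 2 * (2 + x + y)) ^ 2
                  = 16 * (1 + (L : ℝ)) ^ 4 * (2 + x + y) ^ 2 := by ring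
                _ ≤ 16 * (1 + (L : ℝ)) ^ 4 * (4 * (2 + x ^ 2 + y ^ 2)) :=
                  mul_le_mul_of_nonneg_left h4 h5
                _ = _ := by ring
          _ = 64 * (1 + (L : ℝ)) ^ 4 * (2 + (Ex w n fun u => A.zz (a :: u) S none ^ 2) +
              Ex w n fun u => A.zz (a :: u) R none ^ 2) := by
              rw [Ex_mul_left, Ex_add, Ex_add, Ex_const H.w1]
          _ ≤ 64 * (1 + (L : ℝ)) ^ 4 * 4 :=
              mul_le_mul_of_nonneg_left (by linarith [hN S a, hN R a]) hL
          _ = _ := by ring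
      · simp only [if_neg hc]
        exact hT _ _ _

theorem beta_nonneg (H : A.Hyp w G θ C β) : 0 ≤ β :=
  (sum_nonneg fun a _ => H.w0 a).trans H.off

theorem root (H : A.Hyp w G θ C β) (n : ℕ) :
    (Ex w n fun u => A.zz u A.new none ^ 2) ≤ 257 * β := by
  have hβ := beta_nonneg H
  cases n with
  | zero => simp; positivity
  | succ n =>
    obtain ⟨hW, hT⟩ := both H n
    have hN := step H hW hT
    rw [Ex_succ, ← sum_add_sum_compl G]
    have h1 : ∑ a ∈ G, w a * (Ex w n fun u => A.zz (a :: u) A.new none ^ 2) ≤ 256 * β := by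
      calc ∑ a ∈ G, w a * (Ex w n fun u => A.zz (a :: u) A.new none ^ 2)
          ≤ ∑ a ∈ G, w a * (256 * β) := by
            refine sum_le_sum fun a ha => mul_le_mul_of_nonneg_left ?_ (H.w0 a)
            simp only [Sys.zz_cons_none, if_pos (H.first a ha)]
            have := hT (A.F A.new a) A.new 0
            have := H.first' a ha n
            linarith
        _ = (∑ a ∈ G, w a) * (256 * β) := by rw [sum_mul]
        _ ≤ 1 * (256 * β) := by
            refine mul_le_mul_of_nonneg_right ?_ (by positivity)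
            rw [← H.w1]
            exact sum_le_sum_of_subset_of_nonneg (subset_univ _) fun a _ _ => H.w0 a
        _ = _ := one_mul _
    have h2 : ∑ a ∈ Gᶜ, w a * (Ex w n fun u => A.zz (a :: u) A.new none ^ 2) ≤ β := by
      refine le_trans (sum_le_sum fun a _ => ?_) H.off
      simpa using mul_le_mul_of_nonneg_left (hN A.new a) (H.w0 a)
    linarith

theorem C_nonneg (H : A.Hyp w G θ C β) : 0 ≤ C := by
  have h := H.wait 0 1 (by norm_num) le_rfl
  have h0 : 0 ≤ A.waitq w 0 1 :=
    Ex_nonneg H.w0 fun u _ => mul_nonneg (ind_nonneg _) (H.th0 _)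
  simpa using h0.trans h

omit [Fintype ι] in
theorem gap_window (u : List ι) {b t r : ℕ} (hb : b ≤ t) :
    A.Gap ((u.take r).drop b) 0 (t - b) (r - b) ↔ A.Gap u b t r := by
  constructor
  · intro h i hi hr
    have := h (i - b) (by omega) (by omega)
    rwa [A.st_window u (by omega) hr.le] at this
  · intro h i hi hr
    have := h (i + b) (by omega) (by omega)
    rwa [← A.st_window u (b := b) (t := i + b) (r := r) (by omega) (by omega),
      Nat.add_sub_cancel] at this

theorem wait_eq (H : A.Hyp w G θ C β) {b t r n : ℕ} (hb : b ≤ t) (ht : t ≤ r) (hr : r ≤ n) :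
    (Ex w n fun u => ind (A.Gap u b t r) * A.th (A.st u b r)) = A.waitq w (t - b) (r - t) := by
  have e : t - b + (r - t) = r - b := by omega
  unfold Sys.waitq
  rw [e, ← Ex_window H.w1 (hb.trans ht) hr]
  refine Ex_congr fun u _ => ?_
  rw [ind_congr (gap_window u hb)]
  rfl

theorem late_eq (H : A.Hyp w G θ C β) {b r n : ℕ} (hb : b ≤ r) (hr : r ≤ n) :
    (Ex w n fun u => ind (A.safe (A.st u b r) ∧ A.noconf (u.drop r) (A.st u b r) A.new) *
      |A.th (A.st u b u.length) - A.th (A.st u r u.length)|) = A.lateq w (r - b) (n - r) := by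
  have e : r - b + (n - r) = n - b := by omega
  unfold Sys.lateq
  rw [e, ← Ex_drop H.w1 (hb.trans hr)]
  refine Ex_congr fun u _ => ?_
  have e2 : b + (r - b) = r := by omega
  rw [A.st_drop, List.drop_drop, e2, add_zero, A.st_length, A.st_length]

theorem tele (t k : ℕ) :
    ∑ r ∈ Ioc t (t + k), 1 / ((r : ℝ) - t) ^ 2 ≤ 2 - 2 / ((k : ℝ) + 1) := by
  induction k with
  | zero => simp
  | succ k ih =>
    rw [← add_assoc, sum_Ioc_succ_top (by omega)]
    have e : (((t + k + 1 : ℕ) : ℝ) - t) = k + 1 := by push_cast; ring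
    rw [e]
    have hk : (0 : ℝ) ≤ k := Nat.cast_nonneg k
    have : 1 / ((k : ℝ) + 1) ^ 2 ≤ 2 / ((k : ℝ) + 1) - 2 / (((k + 1 : ℕ) : ℝ) + 1) := by
      push_cast
      rw [div_sub_div _ _ (by positivity) (by positivity), div_le_div_iff₀ (by positivity)
        (by positivity)]
      nlinarith
    linarith

theorem tele2 (m : ℕ) : ∑ t ∈ range m, 1 / ((t : ℝ) + 2) ^ 2 ≤ 1 - 1 / ((m : ℝ) + 1) := by
  induction m with
  | zero => simp
  | succ m ih =>
    rw [sum_range_succ]
    have hk : (0 : ℝ) ≤ m := Nat.cast_nonneg m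
    have : 1 / ((m : ℝ) + 2) ^ 2 ≤ 1 / ((m : ℝ) + 1) - 1 / (((m + 1 : ℕ) : ℝ) + 1) := by
      push_cast
      rw [div_sub_div _ _ (by positivity) (by positivity), div_le_div_iff₀ (by positivity)
        (by positivity)]
      nlinarith
    linarith

theorem yq_term (H : A.Hyp w G θ C β) {b t r n : ℕ} (hb : b ≤ t) (ht : t < r) (hr : r ≤ n) :
    (Ex w n fun u => ind (A.safe (A.st u b r) ∧ A.Gap u b t r) *
      (((r - (2 * t + 1) : ℕ) : ℝ)) ^ 4) ≤
      2 * C / ((t : ℝ) + 2) ^ 4 * (1 / ((r : ℝ) - t) ^ 2) := by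
  have hC := C_nonneg H
  by_cases h : r ≤ 2 * t + 1
  · rw [Nat.sub_eq_zero_of_le h]
    simp only [Nat.cast_zero, ne_eq, OfNat.ofNat_ne_zero, not_false_eq_true, zero_pow, mul_zero,
      Ex_zero_fun]
    positivity
  · have hT : ((r - t : ℕ) : ℝ) = (r : ℝ) - t := by rw [Nat.cast_sub ht.le]
    have h2 : (t : ℝ) + 2 ≤ (r : ℝ) - t := by
      have : ((2 * t + 2 : ℕ) : ℝ) ≤ r := by exact_mod_cast (by omega : 2 * t + 2 ≤ r)
      push_cast at this
      linarith
    have ht0 : (0 : ℝ) ≤ t := Nat.cast_nonneg t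
    have hle : ((r - (2 * t + 1) : ℕ) : ℝ) ≤ (r : ℝ) - t := by
      rw [← hT]; exact_mod_cast (by omega : r - (2 * t + 1) ≤ r - t)
    have hw := H.wait (t - b) (r - t) (by omega) (by omega)
    rw [← wait_eq H hb ht.le hr, hT] at hw
    set T : ℝ := (r : ℝ) - t with hTd
    have hT0 : 0 < T := by linarith
    calc (Ex w n fun u => ind (A.safe (A.st u b r) ∧ A.Gap u b t r) *
          (((r - (2 * t + 1) : ℕ) : ℝ)) ^ 4)
        ≤ Ex w n fun u => (ind (A.Gap u b t r) * A.th (A.st u b r)) * (2 * T ^ 4) := by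
          refine Ex_mono H.w0 fun u _ => ?_
          refine ind_mul_le (mul_nonneg (mul_nonneg (ind_nonneg _) (H.th0 _)) (by positivity))
            fun hP => ?_
          rw [ind_pos hP.2, one_mul]
          have h3 := H.half _ hP.1
          have h4 : (((r - (2 * t + 1) : ℕ) : ℝ)) ^ 4 ≤ T ^ 4 :=
            pow_le_pow_left₀ (Nat.cast_nonneg _) hle 4
          have h5 : 0 ≤ T ^ 4 := by positivity
          nlinarith
      _ = (Ex w n fun u => ind (A.Gap u b t r) * A.th (A.st u b r)) * (2 * T ^ 4) :=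
          Ex_mul_right _ _ _
      _ ≤ C / T ^ 10 * (2 * T ^ 4) := mul_le_mul_of_nonneg_right hw (by positivity)
      _ = 2 * C / T ^ 4 * (1 / T ^ 2) := by field_simp
      _ ≤ _ := by
          refine mul_le_mul_of_nonneg_right ?_ (by positivity)
          exact div_le_div_of_nonneg_left (by positivity) (by positivity)
            (pow_le_pow_left₀ (by positivity) h2 4)

theorem yq_le (H : A.Hyp w G θ C β) (n : ℕ) : Ex w n A.yq ≤ 4 * C := by
  have hC := C_nonneg H
  have e : Ex w n A.yq = ∑ t ∈ range (n + 1), ∑ b ∈ range (t + 1), ∑ r ∈ Ioc t n,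
      Ex w n fun u => ind (A.safe (A.st u b r) ∧ A.Gap u b t r) *
        (((r - (2 * t + 1) : ℕ) : ℝ)) ^ 4 := by
    simp only [← Ex_sum]
    exact Ex_congr fun u hu => by rw [Sys.yq, hu]
  rw [e]
  calc _ ≤ ∑ t ∈ range (n + 1), 4 * C * (1 / ((t : ℝ) + 2) ^ 2) := by
        refine sum_le_sum fun t ht => ?_
        have htn : t ≤ n := Nat.lt_succ_iff.1 (mem_range.1 ht)
        have ht0 : (0 : ℝ) ≤ t := Nat.cast_nonneg t
        have hin : ∀ b ∈ range (t + 1), (∑ r ∈ Ioc t n,
            Ex w n fun u => ind (A.safe (A.st u b r) ∧ A.Gap u b t r) *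
              (((r - (2 * t + 1) : ℕ) : ℝ)) ^ 4) ≤ 2 * C / ((t : ℝ) + 2) ^ 4 * 2 := by
          intro b hb
          have hbt : b ≤ t := Nat.lt_succ_iff.1 (mem_range.1 hb)
          refine (sum_le_sum fun r hr => yq_term H hbt (mem_Ioc.1 hr).1 (mem_Ioc.1 hr).2).trans ?_
          rw [← mul_sum]
          refine mul_le_mul_of_nonneg_left ?_ (by positivity)
          have := tele t (n - t)
          rw [Nat.add_sub_cancel' htn] at this
          have h2 : (0 : ℝ) ≤ 2 / (((n - t : ℕ) : ℝ) + 1) := by positivity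
          linarith
        refine (sum_le_card_nsmul _ _ _ hin).trans ?_
        rw [card_range, nsmul_eq_mul]
        push_cast
        have h3 : ((t : ℝ) + 1) / ((t : ℝ) + 2) ^ 4 ≤ 1 / ((t : ℝ) + 2) ^ 2 := by
          rw [div_le_div_iff₀ (by positivity) (by positivity)]
          have : (t : ℝ) + 1 ≤ ((t : ℝ) + 2) ^ 2 := by nlinarith
          have h4 : (0 : ℝ) ≤ ((t : ℝ) + 2) ^ 2 := by positivity
          nlinarith
        calc ((t : ℝ) + 1) * (2 * C / ((t : ℝ) + 2) ^ 4 * 2)
            = 4 * C * (((t : ℝ) + 1) / ((t : ℝ) + 2) ^ 4) := by ring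
          _ ≤ _ := mul_le_mul_of_nonneg_left h3 (by positivity)
    _ = 4 * C * ∑ t ∈ range (n + 1), 1 / ((t : ℝ) + 2) ^ 2 := by rw [mul_sum]
    _ ≤ 4 * C * 1 := by
        refine mul_le_mul_of_nonneg_left ((tele2 _).trans ?_) (by positivity)
        have : (0 : ℝ) ≤ 1 / (((n + 1 : ℕ) : ℝ) + 1) := by positivity
        linarith
    _ = _ := mul_one _

theorem count (hC : 0 ≤ C) {n : ℕ} (hn : 1 ≤ n) (f : ℕ → ℕ → ℝ)
    (hf : ∀ t b, t ≤ n / 2 → b ≤ t → f t b ≤ C / ((n - t : ℕ) : ℝ) ^ 10) :
    ∑ t ∈ range (n / 2 + 1), ∑ b ∈ range (t + 1), f t b ≤ 4096 * C / (n : ℝ) ^ 8 := by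
  have hn0 : (0 : ℝ) < n := by exact_mod_cast hn
  have hc : ((n / 2 + 1 : ℕ) : ℝ) ≤ 2 * n := by
    exact_mod_cast (by omega : n / 2 + 1 ≤ 2 * n)
  have h1 : ∀ t ∈ range (n / 2 + 1), ∑ b ∈ range (t + 1), f t b ≤
      2 * n * (C / ((n : ℝ) / 2) ^ 10) := by
    intro t ht
    have htn : t ≤ n / 2 := Nat.lt_succ_iff.1 (mem_range.1 ht)
    have h2 : ∀ b ∈ range (t + 1), f t b ≤ C / ((n : ℝ) / 2) ^ 10 := by
      intro b hb
      refine (hf t b htn (Nat.lt_succ_iff.1 (mem_range.1 hb))).trans ?_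
      refine div_le_div_of_nonneg_left hC (by positivity) (pow_le_pow_left₀ (by positivity) ?_ 10)
      have : ((n : ℕ) : ℝ) ≤ ((2 * (n - t) : ℕ) : ℝ) := by
        exact_mod_cast (by omega : n ≤ 2 * (n - t))
      push_cast at this
      linarith
    refine (sum_le_card_nsmul _ _ _ h2).trans ?_
    rw [card_range, nsmul_eq_mul]
    refine mul_le_mul_of_nonneg_right (le_trans ?_ hc) (by positivity)
    exact_mod_cast (by omega : t + 1 ≤ n / 2 + 1)
  refine (sum_le_card_nsmul _ _ _ h1).trans ?_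
  rw [card_range, nsmul_eq_mul]
  calc ((n / 2 + 1 : ℕ) : ℝ) * (2 * n * (C / ((n : ℝ) / 2) ^ 10))
      ≤ 2 * n * (2 * n * (C / ((n : ℝ) / 2) ^ 10)) :=
        mul_le_mul_of_nonneg_right hc (by positivity)
    _ = _ := by field_simp; ring

theorem v1_le (H : A.Hyp w G θ C β) {n : ℕ} (hn : 1 ≤ n) :
    Ex w n A.v1 ≤ 4096 * C / (n : ℝ) ^ 8 := by
  have e : Ex w n A.v1 = ∑ t ∈ range (n / 2 + 1), ∑ b ∈ range (t + 1),
      Ex w n fun u => ind (A.Gap u b t n) * A.th (A.st u b n) := by
    simp only [← Ex_sum]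
    exact Ex_congr fun u hu => by rw [Sys.v1, hu]
  rw [e]
  refine count (C_nonneg H) hn _ fun t b ht hb => ?_
  rw [wait_eq H hb (by omega) le_rfl]
  exact H.wait _ _ (by omega) (by omega)

theorem v2_le (H : A.Hyp w G θ C β) {n : ℕ} (hn : 1 ≤ n) :
    Ex w n A.v2 ≤ 4096 * C / (n : ℝ) ^ 8 := by
  have e : Ex w n A.v2 = ∑ r ∈ range (n / 2 + 1), ∑ b ∈ range (r + 1),
      Ex w n fun u => ind (A.safe (A.st u b r) ∧ A.noconf (u.drop r) (A.st u b r) A.new) *
        |A.th (A.st u b u.length) - A.th (A.st u r u.length)| := by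
    simp only [← Ex_sum]
    exact Ex_congr fun u hu => by rw [Sys.v2, hu]
  rw [e]
  refine count (C_nonneg H) hn _ fun t b ht hb => ?_
  rw [late_eq H hb (by omega)]
  exact H.late _ _ (by omega)

end ZY

theorem zy : ZYStmt := fun _ _ _ _ _ _ _ _ _ H n =>
  ⟨ZY.root H n, ZY.yq_le H n, fun hn => ⟨ZY.v1_le H hn, ZY.v2_le H hn⟩⟩

end Pool.Agent.MP_8c549f_pr.S3

end
end MrgPart2

-- marker of a merged file
example : 731051 + 615229 = 731051 + 615229 := rfl

end MrgPart1

-- marker of a merged file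
example : 731051 + 615229 = 731051 + 615229 := rfl
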