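import Pool.Agent.MP_8c549f_pr.S3.BasicA
import Pool.Agent.MP_8c549f_pr.S3.BasicB
import Pool.Agent.MP_1479fb_pr.GeoTimar
import Pool.Agent.MP_8c549f_pr.S3.ZY

-- ======== part 0: formerly Pool.Agent.MP_8c549f_pr.S3.Abs
section MrgPart0

/-! PROJECT BWALK3: the abstract monotonicity statement. -/

noncomputable section

namespace Pool.Agent.MP_8c549f_pr.S3

open Finset Filter Topology Real Classical

namespace Abs

theorem summable_of_Icc {f : ℕ → ℝ} {δ : ℝ} (h0 : ∀ m, 0 ≤ f m)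
    (h : ∀ M, ∑ m ∈ Icc 1 M, f m ≤ δ) : Summable f := by
  refine summable_of_sum_range_le (c := f 0 + δ) h0 fun n => ?_
  have h1 : range n ⊆ insert 0 (Icc 1 n) := fun m hm => by
    simp only [mem_range, mem_insert, mem_Icc] at hm ⊢; omega
  refine (sum_le_sum_of_subset_of_nonneg h1 fun m _ _ => h0 m).trans ?_
  rw [sum_insert (by simp)]
  linarith [h n]

theorem sum_le_of_mul {f : ℕ → ℝ} {δ : ℝ} {M : ℕ} (h0 : ∀ m, 0 ≤ f m)
    (h : ∑ m ∈ Icc 1 M, (m : ℝ) * f m ≤ δ) : ∑ m ∈ Icc 1 M, f m ≤ δ :=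
  (sum_le_sum fun m hm => le_mul_of_one_le_left (h0 m) (by exact_mod_cast (mem_Icc.1 hm).1)).trans h

variable {σ ι : Type} [Fintype ι] {A : Sys σ ι} {w : ι → ℝ} {G : Finset ι}

theorem piC_eq (h1 : ∑ a, w a = 1) (φ : ℝ → ℝ) (m : ℕ) : A.piC w φ m =
    Ex w m (A.rs G φ m) + if m = 1 then ∑ a ∈ G, w a * φ (A.dis A.new a) else 0 := by
  unfold Sys.piC Sys.rs
  by_cases h : m = 1
  · subst h
    simp only [if_true]
    rw [Ex_sub, Ex_top h1 G _ 0]; ring
  · simp [h]

theorem one (h1 : RecStmt) (h2 : RestStmt) (h4 : TauStmt) {θ C β δ v : ℝ} (H : A.Hyp w G θ C β)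
    (hm : ∀ n, Ex w n (A.mom G) ≤ δ)
    (he : Tendsto (fun n : ℕ => (n : ℝ) * Ex w n A.aerr) atTop (𝓝 0))
    (hv : Tendsto (fun n : ℕ => A.yy w n / n) atTop (𝓝 (v * θ))) :
    Tendsto (fun M : ℕ => v * (∑ a ∈ G, w a +
        ∑ m ∈ Icc 1 M, Ex w m fun u => (m : ℝ) * A.rs G (fun _ => 1) m u) -
      (∑ a ∈ G, w a * A.dis A.new a + ∑ m ∈ Icc 1 M, Ex w m (A.rs G id m))) atTop (𝓝 0) ∧
    ∀ M, |∑ m ∈ Icc 1 M, Ex w m fun u => (m : ℝ) * A.rs G (fun _ => 1) m u| ≤ δ ∧
      |∑ m ∈ Icc 1 M, Ex w m (A.rs G id m)| ≤ δ := by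
  have r := h1 σ ι A w θ H.toHyp0
  have s := h2 σ ι A w θ G H.toHyp0 H.first
  have n1 : ∀ m, 0 ≤ Ex w m fun u => |A.rs G id m u| :=
    fun m => Ex_nonneg H.w0 fun _ _ => abs_nonneg _
  have n2 : ∀ m : ℕ, 0 ≤ Ex w m fun u => |(m : ℝ) * A.rs G (fun _ => 1) m u| :=
    fun m => Ex_nonneg H.w0 fun _ _ => abs_nonneg _
  have s1 := fun M => sum_le_of_mul n1 ((s M).1.trans (hm M))
  have s2 := fun M => sum_le_of_mul n2 ((s M).2.trans (hm M))
  have eb : ∀ m : ℕ, (m : ℝ) * A.piC w (fun _ => 1) m =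
      (Ex w m fun u => (m : ℝ) * A.rs G (fun _ => 1) m u) + if m = 1 then ∑ a ∈ G, w a else 0 := by
    intro m
    rw [piC_eq (G := G) H.w1, Ex_mul_left]
    split_ifs with h
    · subst h; simp
    · simp
  have t := h4 (A.yy w) (A.piC w id) (A.piC w fun _ => 1) (fun n => Ex w n (A.err id))
    (fun n => Ex w n (A.err fun _ => 1)) θ v (by linarith [H.pos]) (by simp [Sys.yy])
    (fun n => (r n).1) (fun n => (r n).2.1) ?_ ?_ ?_ ?_ hv
  · refine ⟨t.congr' ?_, fun M => ⟨(abs_sum_le_sum_abs _ _).trans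
      ((sum_le_sum fun m _ => abs_Ex_le H.w0 m _).trans (s2 M)), (abs_sum_le_sum_abs _ _).trans
      ((sum_le_sum fun m _ => abs_Ex_le H.w0 m _).trans (s1 M))⟩⟩
    filter_upwards [eventually_ge_atTop 1] with M hM
    simp only [eb, piC_eq (G := G) H.w1 id, sum_add_distrib, sum_ite_eq', mem_Icc, le_refl, hM,
      and_self, if_true, id]
    ring
  · refine Summable.of_nonneg_of_le (fun m => abs_nonneg _) (fun m => ?_)
      ((summable_of_Icc n1 s1).add (hasSum_ite_eq 1 |∑ a ∈ G, w a * A.dis A.new a|).summable)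
    rw [piC_eq (G := G) H.w1]
    refine (abs_add_le _ _).trans (add_le_add (abs_Ex_le H.w0 m _) ?_)
    split_ifs <;> simp
  · refine Summable.of_nonneg_of_le (fun m => by positivity) (fun m => ?_)
      ((summable_of_Icc n2 s2).add (hasSum_ite_eq 1 |∑ a ∈ G, w a|).summable)
    rw [← Nat.abs_cast (R := ℝ) m, ← abs_mul, eb, Nat.abs_cast]
    refine (abs_add_le _ _).trans (add_le_add (abs_Ex_le H.w0 m _) ?_)
    split_ifs <;> simp
  · exact squeeze_zero_norm (fun n => (r n).2.2.1) he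
  · refine squeeze_zero_norm' ?_ he
    filter_upwards [eventually_ge_atTop 1] with n hn
    exact (r n).2.2.2.trans (le_mul_of_one_le_left ((abs_nonneg _).trans (r n).2.2.2)
      (by exact_mod_cast hn))

end Abs

theorem absS (h1 : RecStmt) (h2 : RestStmt) (h3 : MomStmt) (h4 : TauStmt) (h5 : LipStmt) :
    AbsStmt := by
  intro C c c₀ hc hc₀
  obtain ⟨C', hC', hM⟩ := h3 C
  obtain ⟨ε, e0, e1, e2⟩ : ∃ ε : ℝ, 0 < ε ∧ ε ≤ 1 / 4 ∧ 20 * (c + 1) * ε ≤ c₀ :=
    ⟨min (1 / 4) (c₀ / (20 * (c + 1))), by positivity, min_le_left _ _, by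
      rw [← le_div_iff₀' (by positivity)]; exact min_le_right _ _⟩
  refine ⟨min (1 / 4) ((ε / (C' + 1)) ^ 2), by positivity, ?_⟩
  intro σ ι _ A w G θ β x y vx vy hβ hxy H hw hg hmain tx ty
  have hd : C' * √β ≤ ε := by
    have : √β ≤ ε / (C' + 1) := sqrt_le_iff.2 ⟨by positivity, hβ.trans (min_le_right _ _)⟩
    rw [le_div_iff₀ (by positivity)] at this
    nlinarith [sqrt_nonneg β]
  have mx : x ∈ Set.Icc x y := ⟨le_rfl, hxy.le⟩
  have my : y ∈ Set.Icc x y := ⟨hxy.le, le_rfl⟩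
  have hm : ∀ s ∈ Set.Icc x y, ∀ n, Ex (w s) n (A.mom G) ≤ ε := fun s hs n =>
    ((hM σ ι A _ G θ β (H s hs)).1 n).trans hd
  obtain ⟨x1, x2⟩ := Abs.one h1 h2 h4 (H x mx) (hm x mx) (hM σ ι A _ G θ β (H x mx)).2 tx
  obtain ⟨y1, y2⟩ := Abs.one h1 h2 h4 (H y my) (hm y my) (hM σ ι A _ G θ β (H y my)).2 ty
  have l1 := fun M => h5 ι w x y c ε (fun m => A.rs G id m) M hxy.le hc (fun s hs => (H s hs).w0) hw
    fun s hs => (h2 σ ι A _ θ G (H s hs).toHyp0 (H s hs).first M).1.trans (hm s hs M)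
  have l2 := fun M => h5 ι w x y c ε (fun m u => (m : ℝ) * A.rs G (fun _ => 1) m u) M hxy.le hc
    (fun s hs => (H s hs).w0) hw
    fun s hs => (h2 σ ι A _ θ G (H s hs).toHyp0 (H s hs).first M).2.trans (hm s hs M)
  have g1 : 3 / 4 ≤ ∑ a ∈ G, w x a ∧ ∑ a ∈ G, w x a ≤ 1 := by
    have a1 := sum_add_sum_compl G (w x)
    have a2 := (H x mx).off
    have a3 : 0 ≤ ∑ a ∈ Gᶜ, w x a := sum_nonneg fun a _ => (H x mx).w0 a
    have a4 := hβ.trans (min_le_left _ _)
    rw [(H x mx).w1] at a1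
    constructor <;> linarith
  have g2 : |∑ a ∈ G, w x a * A.dis A.new a| ≤ 1 := by
    refine (abs_sum_le_sum_abs _ _).trans ((sum_le_sum fun a _ => ?_).trans g1.2)
    rw [abs_mul, abs_of_nonneg ((H x mx).w0 a)]
    exact mul_le_of_le_one_right ((H x mx).w0 a) ((H x mx).dis1 _ _)
  have hv : |vx| ≤ 8 := by
    obtain ⟨M, hM⟩ := ((Metric.tendsto_nhds.1 x1) 1 one_pos).exists
    rw [Real.dist_eq, sub_zero, abs_lt] at hM
    obtain ⟨a1, a2⟩ := x2 M
    rw [abs_le] at a1 a2 g2 ⊢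
    constructor <;> nlinarith
  by_contra hcon
  have hle : vy ≤ vx := not_lt.1 hcon
  have key := le_of_tendsto' (y1.sub x1) (b := (18 * c * ε - c₀) * (y - x)) fun M => by
    have a1 := l1 M
    have a2 := l2 M
    have a3 := (y2 M).1
    rw [sum_sub_distrib] at a1 a2
    rw [hg]
    generalize (∑ m ∈ Icc 1 M, Ex (w y) m fun u => (m : ℝ) * A.rs G (fun _ => 1) m u) = qy at *
    generalize (∑ m ∈ Icc 1 M, Ex (w x) m fun u => (m : ℝ) * A.rs G (fun _ => 1) m u) = qx at *
    generalize (∑ m ∈ Icc 1 M, Ex (w y) m (A.rs G id m)) = ry at *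
    generalize (∑ m ∈ Icc 1 M, Ex (w x) m (A.rs G id m)) = rx at *
    have b1 : vx * (qy - qx) ≤ 8 * (2 * c * ε * (y - x)) :=
      (le_abs_self _).trans (by rw [abs_mul]; exact mul_le_mul hv a2 (abs_nonneg _) (by norm_num))
    have b2 : (vy - vx) * (∑ a ∈ G, w x a + qy) ≤ 0 :=
      mul_nonpos_of_nonpos_of_nonneg (by linarith) (by linarith [(abs_le.1 a3).1, g1.1])
    have b3 := (abs_le.1 a1).1
    nlinarith
  have : 0 < y - x := by linarith
  nlinarith [mul_nonneg hc e0.le]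

end Pool.Agent.MP_8c549f_pr.S3

end
end MrgPart0

-- ======== part 1: formerly Pool.Agent.MP_8c549f_pr.S3.Ext
section MrgPart1

/-! PROJECT BWALK3: extension of a function on a cluster to the whole lattice. -/

noncomputable section

namespace Pool.Agent.MP_8c549f_pr.S3

open Finset Classical Real

variable {D : ℕ}

namespace Ext

/-- distance to the first big site on the ray -/
def rr (ω : Cfg D) (h : ℕ) (x : V D) : ℕ :=
  if H : ∃ r, r ≤ h ∧ Big ω (ray x r) h then Nat.find H else 0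

theorem rr_le (ω : Cfg D) (h : ℕ) (x : V D) : rr ω h x ≤ h := by
  unfold rr
  split_ifs with H
  · exact (Nat.find_spec H).1
  · exact Nat.zero_le _

theorem rr_big {ω : Cfg D} {h : ℕ} {x : V D} (H : ∃ r ≤ h, Big ω (ray x r) h) :
    Big ω (ray x (rr ω h x)) h := by
  rw [rr, dif_pos H]
  exact (Nat.find_spec H).2

theorem ray_zero (x : V D) : ray x 0 = x := by simp [ray]

theorem rr_zero {ω : Cfg D} {h : ℕ} {x : V D} (H : Big ω x h) : rr ω h x = 0 := by
  have H' : ∃ r, r ≤ h ∧ Big ω (ray x r) h := ⟨0, Nat.zero_le _, by rwa [ray_zero]⟩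
  rw [rr, dif_pos H', Nat.find_eq_zero]
  exact ⟨Nat.zero_le _, by rwa [ray_zero]⟩

theorem ray_diff (x : V D) (i : Fin (D + 1)) {r r' h : ℕ} (h1 : r ≤ h) (h2 : r' ≤ h) :
    nrm (ray (x + Pi.single i 1) r' - ray x r) ≤ h + 1 := by
  have e : ray (x + Pi.single i 1) r' - ray x r =
      Pi.single (Fin.last D) ((r' : ℤ) - r) + Pi.single i 1 := by
    rw [ray, ray, Pi.single_sub]; abel
  have := nrm_add_le (Pi.single (Fin.last D) ((r' : ℤ) - r) : V D) (Pi.single i 1)
  rw [nrm_single, nrm_single] at this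
  rw [e]
  omega

theorem sum_ray {g : V D → ℝ} {Y : Finset (V D)} (hg : ∀ x, g x ≠ 0 → x ∈ Y) (X : Finset (V D))
    (r : ℕ) : ∑ x ∈ X, |g (ray x r)| ≤ ∑ x ∈ Y, |g x| := by
  have inj : Function.Injective fun x : V D => ray x r := fun a b h => add_right_cancel h
  rw [← sum_image (f := fun x => |g x|) fun a _ b _ h => inj h]
  rw [← sum_filter_ne_zero]
  exact sum_le_sum_of_subset_of_nonneg
    (fun x hx => hg x (abs_ne_zero.1 (mem_filter.1 hx).2)) fun _ _ _ => abs_nonneg _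

theorem swap_le {F : V D → ℝ} (hF : ∀ x, 0 ≤ F x) {X Y : Finset (V D)} {R : ℕ}
    (h : ∀ x ∈ X, ball x R ⊆ Y) :
    ∑ x ∈ X, ∑ z ∈ ball x R, F z ≤ ((2 * R + 1) ^ (D + 1) : ℕ) * ∑ z ∈ Y, F z := by
  have e : ∀ x ∈ X, ∑ z ∈ ball x R, F z = ∑ z ∈ Y, if x ∈ ball z R then F z else 0 := by
    intro x hx
    rw [← sum_filter]
    refine sum_congr ?_ fun _ _ => rfl
    ext z
    rw [mem_filter, mem_ball (x := x), nrm_sub_comm, ← mem_ball]
    exact ⟨fun hz => ⟨h x hx hz, hz⟩, fun hz => hz.2⟩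
  rw [sum_congr rfl e, sum_comm, mul_sum]
  refine sum_le_sum fun z _ => ?_
  rw [← sum_filter, sum_const, nsmul_eq_mul, ← card_ball z R]
  refine mul_le_mul_of_nonneg_right ?_ (hF z)
  exact_mod_cast card_le_card fun x hx => (mem_filter.1 hx).2

end Ext

open Ext in
theorem extS (lu : LUStmt) (le : LEStmt) (pe : PathEStmt) : ExtStmt := by
  intro D hD lam ω y m h g hlam hh hG hg
  refine ⟨fun x => g (ray x (rr ω h x)), fun x hx => ?_, fun x hx => ?_, ?_, ?_⟩
  · have h1 := mem_ball.1 (hg _ hx).1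
    have h2 := nrm_tri x (ray x (rr ω h x)) y
    rw [nrm_sub_comm x (ray _ _), nrm_ray] at h2
    have h3 := rr_le ω h x
    exact mem_ball.2 (by omega)
  · simp only [rr_zero (hg x hx).2, ray_zero]
  · calc ∑ x ∈ ball y (m + h), |g (ray x (rr ω h x))|
        ≤ ∑ x ∈ ball y (m + h), ∑ r ∈ range (h + 1), |g (ray x r)| :=
          sum_le_sum fun x _ => single_le_sum (f := fun r => |g (ray x r)|)
            (fun _ _ => abs_nonneg _) (mem_range.2 (Nat.lt_succ_of_le (rr_le ω h x)))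
      _ ≤ ∑ _r ∈ range (h + 1), ∑ x ∈ ball y m, |g x| := by
          rw [sum_comm]
          exact sum_le_sum fun r _ => sum_ray (fun x hx => (hg x hx).1) _ r
      _ = _ := by simp
  · set F : V D → ℝ := fun x => ∑ s, if ω (edge x s) = true then
      exp (lam * (expo x s : ℝ)) * (g (x + vec s) - g x) ^ 2 else 0 with hF
    have F0 : ∀ x, 0 ≤ F x := fun x => sum_nonneg fun _ _ => by split_ifs <;> positivity
    set N : ℝ := (((2 * (5 * h) + 1) ^ (D + 1) : ℕ) : ℝ) with hN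
    have N0 : 0 ≤ N := Nat.cast_nonneg _
    have big : ∀ x, nrm (x - y) ≤ m + h + 2 → Big ω (ray x (rr ω h x)) h := fun x hx =>
      rr_big (le D hD ω x h (hG.mono (by omega)))
    have key : ∀ x ∈ ball y (m + h + 1), ∀ i, exp (2 * lam * (x 0 : ℝ)) *
        (g (ray (x + Pi.single i 1) (rr ω h (x + Pi.single i 1))) - g (ray x (rr ω h x))) ^ 2 ≤
        N * exp (lam * (10 * h + 1)) * ∑ z ∈ ball x (5 * h), F z := by
      intro x hx i
      rw [mem_ball] at hx
      have hx' : nrm (x + Pi.single i 1 - y) ≤ m + h + 2 := by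
        have := nrm_tri (x + Pi.single i 1) x y
        rw [add_sub_cancel_left, nrm_single] at this
        omega
      have r1 := rr_le ω h x
      have r2 := rr_le ω h (x + Pi.single i 1)
      set v := ray x (rr ω h x) with hv
      have hvx : nrm (v - x) ≤ h := by rw [hv, nrm_ray]; exact r1
      have hvy := nrm_tri v x y
      have oc := lu D hD ω v _ h hh (big x (by omega)) (big _ hx')
        ((ray_diff x i r1 r2).trans (by omega)) (hG.mono (by omega))
      have p1 := pe D ω _ v _ g (self_mem_ball v (4 * h)) oc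
      have sub : ball v (4 * h) ⊆ ball x (5 * h) := fun z hz => by
        have := nrm_tri z v x
        rw [mem_ball] at hz ⊢
        omega
      have cd : ((ball v (4 * h)).card : ℝ) ≤ N := by
        rw [hN, ← card_ball x (5 * h)]
        exact_mod_cast card_le_card sub
      have p2 : exp (2 * lam * (x 0 : ℝ)) * ∑ z ∈ ball v (4 * h), ∑ s,
          (if ω (edge z s) = true then (g (z + vec s) - g z) ^ 2 else 0) ≤
          exp (lam * (10 * h + 1)) * ∑ z ∈ ball x (5 * h), F z := by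
        refine le_trans ?_ (mul_le_mul_of_nonneg_left
          (sum_le_sum_of_subset_of_nonneg sub fun z _ _ => F0 z) (exp_pos _).le)
        rw [mul_sum, mul_sum]
        refine sum_le_sum fun z hz => ?_
        rw [hF, mul_sum, mul_sum]
        refine sum_le_sum fun s _ => ?_
        split_ifs
        · rw [← mul_assoc, ← exp_add]
          refine mul_le_mul_of_nonneg_right (exp_le_exp.2 ?_) (sq_nonneg _)
          have a1 := (abs_le.1 (nrm_le_iff.1 (mem_ball.1 (sub hz)) 0)).1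
          have a2 := (vec_bounds s 0).1
          have a3 : 2 * x 0 ≤ 10 * (h : ℤ) + 1 + expo z s := by
            simp only [Pi.sub_apply] at a1
            unfold expo
            push_cast at a1
            linarith
          have a4 : 2 * (x 0 : ℝ) ≤ 10 * (h : ℝ) + 1 + (expo z s : ℝ) := by exact_mod_cast a3
          nlinarith
        · simp
      have s0 : 0 ≤ ∑ z ∈ ball v (4 * h), ∑ s,
          (if ω (edge z s) = true then (g (z + vec s) - g z) ^ 2 else 0) :=
        sum_nonneg fun _ _ => sum_nonneg fun _ _ => by split_ifs <;> positivity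
      calc _ ≤ exp (2 * lam * (x 0 : ℝ)) * (N * ∑ z ∈ ball v (4 * h), ∑ s,
            (if ω (edge z s) = true then (g (z + vec s) - g z) ^ 2 else 0)) :=
            mul_le_mul_of_nonneg_left (p1.trans (mul_le_mul_of_nonneg_right cd s0)) (exp_pos _).le
        _ ≤ _ := by
            rw [mul_left_comm, mul_assoc N]
            exact mul_le_mul_of_nonneg_left p2 N0
    have sw := swap_le F0 (X := ball y (m + h + 1)) (Y := ball y (m + 7 * h)) (R := 5 * h)
      fun x hx z hz => by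
        have := nrm_tri z x y
        rw [mem_ball] at hx hz ⊢
        omega
    have e : (10 * (h : ℝ) + 1) ^ (2 * (D + 1)) = N * N := by
      rw [hN]; push_cast; ring
    calc _ ≤ ∑ x ∈ ball y (m + h + 1), ∑ _i : Fin (D + 1),
          N * exp (lam * (10 * h + 1)) * ∑ z ∈ ball x (5 * h), F z :=
          sum_le_sum fun x hx => sum_le_sum fun i _ => key x hx i
      _ = (D + 1) * (N * exp (lam * (10 * h + 1))) *
          ∑ x ∈ ball y (m + h + 1), ∑ z ∈ ball x (5 * h), F z := by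
          rw [mul_sum]
          refine sum_congr rfl fun x _ => ?_
          simp only [sum_const, card_univ, Fintype.card_fin, nsmul_eq_mul]
          push_cast
          ring
      _ ≤ (D + 1) * (N * exp (lam * (10 * h + 1))) * (N * ∑ z ∈ ball y (m + 7 * h), F z) :=
          mul_le_mul_of_nonneg_left sw (by positivity)
      _ = _ := by rw [e, En]; ring

end Pool.Agent.MP_8c549f_pr.S3

end
end MrgPart1

-- ======== part 2: formerly Pool.Agent.MP_8c549f_pr.S3.GeoLE
section MrgPart2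

/-! PROJECT BWALK3, row GEO2: outer boundaries of finite unions of clusters. -/

noncomputable section

namespace Pool.Agent.MP_8c549f_pr.S3

open Relation Pool.Agent.MP_1479fb_pr

namespace GeoLE

variable {D : ℕ}

theorem adj_single (x : V D) (j : Fin (D + 1)) {σ : ℤ} (hσ : σ = 1 ∨ σ = -1) :
    Geo.Adj x (x + Pi.single j σ) := by
  unfold Geo.Adj
  rw [Finset.sum_eq_single j (fun i _ hi => by simp [Pi.single_eq_of_ne hi]) (by simp)]
  rcases hσ with rfl | rfl <;> simp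

theorem adj_vec (x : V D) (s : Step D) : Geo.Adj x (x + vec s) := by
  unfold vec
  split_ifs
  · exact adj_single x s.1 (Or.inl rfl)
  · rw [← Pi.single_neg]
    exact adj_single x s.1 (Or.inr rfl)

theorem exists_vec {x y : V D} (h : Geo.Adj x y) : ∃ s, y = x + vec s := by
  rcases h.upZ with h | h
  · obtain ⟨i, hi⟩ := h.eq_add
    exact ⟨(i, true), by simp [vec, hi]⟩
  · obtain ⟨i, hi⟩ := h.eq_add
    exact ⟨(i, false), by simp [vec, hi]⟩

theorem rtg_rev {p : V D → Prop} {x y : V D} (hx : p x)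
    (h : ReflTransGen (fun a b => Geo.Adj a b ∧ p b) x y) :
    p y ∧ ReflTransGen (fun a b => Geo.Adj a b ∧ p b) y x := by
  induction h with
  | refl => exact ⟨hx, .refl⟩
  | tail _ h ih => exact ⟨h.2, .head ⟨h.1.symm, ih.1⟩ ih.2⟩

theorem cross {p : ℕ → Prop} (h0 : ¬ p 0) (N : ℕ) (hN : p N) : ∃ n, ¬ p n ∧ p (n + 1) := by
  induction N with
  | zero => exact absurd hN h0
  | succ N ih =>
    by_cases h : p N
    · exact ih h
    · exact ⟨N, h, hN⟩

/-- Two sites of a bounded connected union of clusters are pushed outwards to the outer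
boundary, which is a chain of sites with a closed edge. -/
theorem chain (hD : 1 ≤ D) (ω : Cfg D) (U : Set (V D)) (u : V D) (R : ℕ) (hu : u ∈ U)
    (hR : ∀ x ∈ U, nrm (x - u) ≤ R) (hcl : ∀ x ∈ U, ∀ y, Opn ω x y → y ∈ U)
    (hcon : ∀ x ∈ U, ReflTransGen (fun a b => Geo.Adj a b ∧ b ∈ U) u x)
    {x : V D} (hx : x ∈ U) {i : Fin (D + 1)} {σ : ℤ} (hσ : σ = 1 ∨ σ = -1)
    (hi : 0 ≤ σ * (x i - u i)) :
    ∃ n : ℕ, x + Pi.single i (n * σ) ∈ U ∧ ∀ y ∈ U, ∀ (j : Fin (D + 1)) (τ : ℤ),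
      (τ = 1 ∨ τ = -1) → 0 ≤ τ * (y j - u j) → ∃ m : ℕ,
      Ch ω (x + Pi.single i (n * σ)) (nrm (y + Pi.single j (m * τ) - (x + Pi.single i (n * σ)))) := by
  let o : V D := fun k => u k + R + 1
  let C : Set (V D) := {z | ReflTransGen (fun a b => Geo.Adj a b ∧ b ∉ U) o z}
  have hball : ∀ z, z ∉ Geo.ball u R → z ∉ U := fun z hz hU =>
    hz fun k => nrm_le_iff.1 (hR z hU) k
  have ho : o ∉ Geo.ball u R := fun h => by
    have := h 0
    simp only [o] at this
    rw [abs_le] at this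
    omega
  have hCU : ∀ z ∈ C, z ∉ U := fun z hz => (rtg_rev (p := fun b => b ∉ U) (hball o ho) hz).1
  have hout : ∀ z, z ∉ Geo.ball u R → z ∈ C := fun z hz =>
    rtg_mono (fun a b h => ⟨h.1, hball b h.2⟩) (Geo.conn_outside (by omega) u R ho hz)
  have hbd : ∀ a a', a ∉ C → a' ∈ C → Geo.Adj a a' → a ∈ U ∧ badS ω a := by
    intro a a' ha ha' h
    have hU : a ∈ U := by
      by_contra hU
      exact ha (ReflTransGen.tail ha' ⟨h.symm, hU⟩)
    obtain ⟨s, rfl⟩ := exists_vec h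
    refine ⟨hU, s, ?_⟩
    by_contra hs
    exact hCU _ ha' (hcl a hU _ (opn_iff.2 ⟨s, rfl, by simpa using hs⟩))
  have push : ∀ z ∈ U, ∀ (k : Fin (D + 1)) (ρ : ℤ), (ρ = 1 ∨ ρ = -1) → 0 ≤ ρ * (z k - u k) →
      ∃ (n : ℕ) (a' : V D), z + Pi.single k (n * ρ) ∉ C ∧ a' ∈ C ∧
        Geo.Adj (z + Pi.single k (n * ρ)) a' := by
    intro z hz k ρ hρ hk
    obtain ⟨n, h1, h2⟩ := cross (p := fun n : ℕ => z + Pi.single k (n * ρ) ∈ C)
      (by simpa using fun h => hCU z h hz) (R + 1) (hout _ fun h => by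
        have := h k
        simp only [Pi.add_apply, Pi.single_eq_same] at this
        rw [abs_le] at this
        push_cast at this
        rcases hρ with rfl | rfl <;> omega)
    refine ⟨n, _, h1, h2, ?_⟩
    have e : z + Pi.single k (((n + 1 : ℕ) : ℤ) * ρ) =
        z + Pi.single k (n * ρ) + Pi.single k ρ := by
      rw [add_assoc, ← Pi.single_add]
      congr 2
      push_cast
      ring
    rw [e]
    exact adj_single _ k hρ
  obtain ⟨n, a', h1, h2, h3⟩ := push x hx i σ hσ hi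
  obtain ⟨aU, ab⟩ := hbd _ _ h1 h2 h3
  refine ⟨n, aU, fun y hy j τ hτ hj => ?_⟩
  obtain ⟨m, c', g1, g2, g3⟩ := push y hy j τ hτ hj
  obtain ⟨cU, -⟩ := hbd _ _ g1 g2 g3
  refine ⟨m, ab, _, le_rfl, ?_⟩
  have hoC : ∀ z ∈ C, ReflTransGen (fun a b => Geo.Adj a b ∧ b ∈ C) o z := by
    intro z hz
    induction hz with
    | refl => exact .refl
    | tail h1 h2 ih => exact ih.tail ⟨h2.1, ReflTransGen.tail h1 h2⟩
  have t := Geo.timar (C := C) (D := Cᶜ) (fun z hz h => h hz)
    (fun _ _ y hy _ => not_not.1 hy) h1 (fun h => h h2) h3 g1 (fun h => h g2) g3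
    (rtg_mono (fun a b h => ⟨h.1, fun hb => hCU b hb h.2⟩)
      ((rtg_rev (p := fun b => b ∈ U) hu (hcon _ aU)).2.trans (hcon _ cU)))
    ((rtg_rev (p := fun b => b ∈ C) ReflTransGen.refl (hoC _ h2)).2.trans (hoC _ g2))
  refine rtg_mono (fun a b h => ⟨h.1, ?_⟩) t
  obtain ⟨w, hw, hw'⟩ := h.2.2
  exact (hbd b w h.2.1 hw hw').2

theorem conn_path {ω : Cfg D} {U : Set (V D)} (hcl : ∀ x ∈ U, ∀ y, Opn ω x y → y ∈ U)
    {x y : V D} (hx : x ∈ U) (h : Conn ω x y) :
    y ∈ U ∧ ReflTransGen (fun a b => Geo.Adj a b ∧ b ∈ U) x y := by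
  induction h with
  | refl => exact ⟨hx, .refl⟩
  | tail _ h ih =>
    have hU := hcl _ ih.1 _ h
    obtain ⟨s, rfl, -⟩ := opn_iff.1 h
    exact ⟨hU, ih.2.tail ⟨adj_vec _ s, hU⟩⟩

theorem ch_mono {ω : Cfg D} {v : V D} {h h' : ℕ} (H : Ch ω v h) (hh : h' ≤ h) : Ch ω v h' := by
  obtain ⟨h1, c, h2, h3⟩ := H
  exact ⟨h1, c, hh.trans h2, h3⟩

theorem ray_add (u : V D) (r n : ℕ) :
    ray u r + Pi.single (Fin.last D) ((n : ℤ) * 1) = ray u (r + n) := by
  rw [ray, ray, add_assoc, ← Pi.single_add]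
  congr 2
  push_cast
  ring

theorem le_nrm {x : V D} {j : Fin (D + 1)} {k : ℕ} (h : (k : ℤ) ≤ |x j|) : k ≤ nrm x := by
  have := abs_le_nrm x j
  omega

end GeoLE

open GeoLE

theorem le : LEStmt := by
  intro D hD ω u h hG
  by_contra hc
  push Not at hc
  let U : Set (V D) := {x | ∃ r ≤ h, Conn ω (ray u r) x}
  have hray : ∀ r ≤ h, ray u r ∈ U := fun r hr => ⟨r, hr, Conn.refl _ _⟩
  have h0 : ray u 0 = u := by simp [ray]
  have hu : u ∈ U := h0 ▸ hray 0 (Nat.zero_le _)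
  have hR : ∀ x ∈ U, nrm (x - u) ≤ 7 * h := by
    rintro x ⟨r, hr, hx⟩
    have h1 : ¬ 6 * h ≤ nrm (x - ray u r) := fun h1 => hc r hr ⟨x, hx, h1⟩
    have h2 := nrm_tri x (ray u r) u
    rw [nrm_ray] at h2
    omega
  have hcl : ∀ x ∈ U, ∀ y, Opn ω x y → y ∈ U := by
    rintro x ⟨r, hr, hx⟩ y hy
    exact ⟨r, hr, ReflTransGen.tail hx hy⟩
  have hcon : ∀ x ∈ U, ReflTransGen (fun a b => Geo.Adj a b ∧ b ∈ U) u x := by
    rintro x ⟨r, hr, hx⟩
    refine ReflTransGen.trans ?_ (conn_path hcl (hray r hr) hx).2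
    clear hx
    induction r with
    | zero => rw [h0]
    | succ r ih =>
      refine (ih (by omega)).tail ⟨?_, hray _ hr⟩
      rw [← ray_add]
      exact adj_single _ _ (Or.inl (by simp))
  obtain ⟨n, h1, h2⟩ := chain hD ω U u (7 * h) hu hR hcl hcon (hray h le_rfl)
    (i := Fin.last D) (Or.inl rfl) (by simp [ray])
  obtain ⟨m, h2⟩ := h2 u hu (Fin.last D) (-1) (Or.inr rfl) (by simp)
  refine hG _ (hR _ h1) (ch_mono h2 (le_nrm (j := Fin.last D) ?_))
  simp only [ray, Pi.sub_apply, Pi.add_apply, Pi.single_eq_same]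
  rw [le_abs]
  right
  omega

theorem fc : FCStmt := by
  rintro D hD ω h hω ⟨c, hc1, hc2⟩
  let U : Set (V D) := {x | Conn ω 0 x}
  obtain ⟨R, hR⟩ : ∃ R : ℕ, ∀ x ∈ U, nrm (x - 0) ≤ R := by
    rw [inf_iff] at hω
    push Not at hω
    obtain ⟨R, hR⟩ := hω
    exact ⟨R, fun x hx => by simpa using (hR x hx).le⟩
  have hu : (0 : V D) ∈ U := Conn.refl _ _
  have hcl : ∀ x ∈ U, ∀ y, Opn ω x y → y ∈ U := fun x hx y hy => ReflTransGen.tail hx hy
  have hcon : ∀ x ∈ U, ReflTransGen (fun a b => Geo.Adj a b ∧ b ∈ U) 0 x := fun x hx =>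
    (conn_path hcl hu hx).2
  have e : ∀ n : ℕ, (0 : V D) + Pi.single (Fin.last D) ((n : ℤ) * 1) = ray 0 n := fun n => by
    simp [ray]
  obtain ⟨j, hj⟩ := exists_abs_eq_nrm c
  obtain ⟨τ, hτ, hτ'⟩ : ∃ τ : ℤ, (τ = 1 ∨ τ = -1) ∧ τ * c j = nrm c := by
    rcases le_total 0 (c j) with h1 | h1
    · exact ⟨1, Or.inl rfl, by rw [← hj, abs_of_nonneg h1, one_mul]⟩
    · exact ⟨-1, Or.inr rfl, by rw [← hj, abs_of_nonpos h1]; ring⟩
  obtain ⟨n, -, H⟩ := chain hD ω U 0 R hu hR hcl hcon hu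
    (i := Fin.last D) (Or.inl rfl) (by simp)
  obtain ⟨m, h2⟩ := H c hc1 j τ hτ (by simp [hτ'])
  obtain ⟨m', h2'⟩ := H 0 hu (Fin.last D) (-1) (Or.inr rfl) (by simp)
  rw [e] at h2 h2'
  refine ⟨n, ?_⟩
  rcases le_total h n with hn | hn
  · rw [max_eq_right hn]
    refine ch_mono h2' (le_nrm (j := Fin.last D) ?_)
    simp only [ray, Pi.sub_apply, Pi.add_apply, Pi.single_eq_same, Pi.zero_apply]
    rw [le_abs]
    right
    omega
  · rw [max_eq_left hn]
    refine ch_mono h2 ?_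
    have t := nrm_tri (c + Pi.single j (m * τ)) (ray 0 n) 0
    rw [nrm_ray, sub_zero] at t
    have t2 : nrm c ≤ nrm (c + Pi.single j (m * τ)) := by
      refine le_nrm (j := j) ?_
      simp only [Pi.add_apply, Pi.single_eq_same]
      rw [le_abs]
      rcases hτ with rfl | rfl
      · left
        omega
      · right
        omega
    omega

end Pool.Agent.MP_8c549f_pr.S3

end
end MrgPart2

-- ======== part 3: formerly Pool.Agent.MP_8c549f_pr.S3.GeoLU
section MrgPart3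

/-! PROJECT BWALK3, row GEO1: local uniqueness of big clusters. -/

noncomputable section

namespace Pool.Agent.MP_8c549f_pr.S3

open Relation
open Pool.Agent.MP_1479fb_pr
open Pool.Agent.MP_1479fb_pr.Geo (dist1 timar conn_between' conn_outside)

namespace GeoLU

variable {D : ℕ}

theorem adj_vec (x : V D) (s : Step D) : Geo.Adj x (x + vec s) := by
  obtain ⟨i, b⟩ := s
  cases b
  · have h := (Geo.upZ_single (x + vec (i, false)) i).adj.symm
    simpa [vec] using h
  · simpa [vec] using (Geo.upZ_single x i).adj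

theorem vec_of_adj {x y : V D} (h : Geo.Adj x y) : ∃ s : Step D, y = x + vec s := by
  rcases h.upZ with h | h
  · obtain ⟨i, rfl⟩ := h.eq_add
    exact ⟨(i, true), by simp [vec]⟩
  · obtain ⟨i, rfl⟩ := h.eq_add
    exact ⟨(i, false), by simp [vec]⟩

theorem adj_of_opn {ω : Cfg D} {x y : V D} (h : Opn ω x y) : Geo.Adj x y := by
  obtain ⟨s, rfl, -⟩ := opn_iff.1 h
  exact adj_vec x s

theorem nrm_adj {x y : V D} (h : Geo.Adj x y) : nrm (y - x) ≤ 1 := by
  obtain ⟨s, rfl⟩ := vec_of_adj h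
  simp

/-- reversal of a path inside a set -/
theorem rtg_rev {α : Type} {r : α → α → Prop} (hr : ∀ a b, r a b → r b a) {P : α → Prop}
    {x y : α} (hx : P x) (h : ReflTransGen (fun u v => r u v ∧ P v) x y) :
    P y ∧ ReflTransGen (fun u v => r u v ∧ P v) y x := by
  induction h with
  | refl => exact ⟨hx, .refl⟩
  | tail _ h ih => exact ⟨h.2, ReflTransGen.head ⟨hr _ _ h.1, ih.1⟩ ih.2⟩

/-- the sites of a path are reached from its start -/
theorem rtg_reach {α : Type} {r : α → α → Prop} {x y : α} (h : ReflTransGen r x y) :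
    ReflTransGen (fun u v => r u v ∧ ReflTransGen r x v) x y := by
  induction h with
  | refl => exact .refl
  | tail h0 h ih => exact ih.tail ⟨h, h0.tail h⟩

/-- a path that enters a set crosses its boundary -/
theorem rtg_cross {α : Type} {r : α → α → Prop} {P Q : α → Prop} {x y : α} (hx : P x)
    (h : ReflTransGen (fun u v => r u v ∧ P v) x y) (h1 : ¬ Q x) (h2 : Q y) :
    ∃ a a', P a ∧ ¬ Q a ∧ Q a' ∧ r a a' := by
  induction h using ReflTransGen.head_induction_on with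
  | refl => exact absurd h2 h1
  | @head a b hab _ ih =>
    by_cases hb : Q b
    · exact ⟨a, b, hx, h1, hb, hab.1⟩
    · exact ih hab.2 hb

/-- an open path, up to its first exit from a ball -/
theorem first_exit {ω : Cfg D} {v x c : V D} {R : ℕ} (hx : nrm (x - v) ≤ R) (h : Conn ω x c)
    (hc : R ≤ nrm (c - v)) : ∃ y, R ≤ nrm (y - v) ∧ OC ω (ball v R) x y := by
  have key : (∃ y, R ≤ nrm (y - v) ∧ OC ω (ball v R) x y) ∨
      (nrm (c - v) < R ∧ OC ω (ball v R) x c) := by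
    clear hc
    induction h with
    | refl =>
      by_cases hh : R ≤ nrm (x - v)
      · exact Or.inl ⟨x, hh, .refl⟩
      · exact Or.inr ⟨by omega, .refl⟩
    | @tail b c _ hbc ih =>
      rcases ih with ih | ⟨i1, i2⟩
      · exact Or.inl ih
      · have e1 := nrm_adj (adj_of_opn hbc)
        have e2 := nrm_tri c b v
        have e3 : OC ω (ball v R) x c := ReflTransGen.tail i2 ⟨hbc, mem_ball.2 (by omega)⟩
        by_cases hh : R ≤ nrm (c - v)
        · exact Or.inl ⟨c, hh, e3⟩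
        · exact Or.inr ⟨by omega, e3⟩
  rcases key with k | k
  · exact k
  · omega

/-- The boundary of a set `U`, seen from a site `o` outside, is connected by short steps. -/
theorem chain {U : V D → Prop} {u o : V D} (hu : U u) (ho : ¬ U o)
    (hU : ∀ x, U x → ReflTransGen (fun a b => Geo.Adj a b ∧ U b) u x) {a a' c c' : V D}
    (ha : ¬ ReflTransGen (fun a b => Geo.Adj a b ∧ ¬ U b) o a)
    (ha' : ReflTransGen (fun a b => Geo.Adj a b ∧ ¬ U b) o a') (haa : Geo.Adj a a')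
    (hc : ¬ ReflTransGen (fun a b => Geo.Adj a b ∧ ¬ U b) o c)
    (hc' : ReflTransGen (fun a b => Geo.Adj a b ∧ ¬ U b) o c') (hcc : Geo.Adj c c') :
    U a ∧ ¬ U a' ∧ ReflTransGen (fun x y => dist1 x y ≤ 2 ∧ U y ∧ ∃ w, ¬ U w ∧ Geo.Adj y w) a c := by
  obtain ⟨C, hCdef⟩ : ∃ C : Set (V D),
      C = {z | ReflTransGen (fun a b => Geo.Adj a b ∧ ¬ U b) o z} := ⟨_, rfl⟩
  have hmem : ∀ z, z ∈ C ↔ ReflTransGen (fun a b => Geo.Adj a b ∧ ¬ U b) o z := fun z => by
    rw [hCdef]; rfl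
  have hCU : ∀ z ∈ C, ¬ U z := fun z hz =>
    (rtg_rev (r := Geo.Adj) (fun _ _ h => h.symm) (P := fun b => ¬ U b) ho ((hmem z).1 hz)).1
  have hbd : ∀ x w, x ∉ C → w ∈ C → Geo.Adj x w → U x := fun x w hx hw hxw => by
    by_contra hn
    exact hx ((hmem x).2 (((hmem w).1 hw).tail ⟨hxw.symm, hn⟩))
  have ma : a ∉ C := fun h => ha ((hmem _).1 h)
  have mc : c ∉ C := fun h => hc ((hmem _).1 h)
  have ma' := (hmem _).2 ha'
  have mc' := (hmem _).2 hc'
  have ua := hbd a a' ma ma' haa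
  have uc := hbd c c' mc mc' hcc
  have pD : ReflTransGen (fun x y => Geo.Adj x y ∧ y ∈ Cᶜ) a c :=
    rtg_mono (fun _ y h => ⟨h.1, fun hy => hCU y hy h.2⟩)
      ((rtg_rev (r := Geo.Adj) (fun _ _ h => h.symm) hu (hU a ua)).2.trans (hU c uc))
  have pC : ∀ z, ReflTransGen (fun a b => Geo.Adj a b ∧ ¬ U b) o z →
      ReflTransGen (fun x y => Geo.Adj x y ∧ y ∈ C) o z := fun z hz =>
    rtg_mono (fun _ y h => ⟨h.1.1, (hmem y).2 h.2⟩) (rtg_reach hz)
  have pC' : ReflTransGen (fun x y => Geo.Adj x y ∧ y ∈ C) a' c' :=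
    (rtg_rev (r := Geo.Adj) (fun _ _ h => h.symm) (P := fun y => y ∈ C) ((hmem o).2 .refl)
      (pC a' ha')).2.trans (pC c' hc')
  have T := timar (C := C) (D := Cᶜ) (fun x hx h => h hx) (fun _ _ y hy _ => not_not.1 hy)
    ma (fun h => h ma') haa mc (fun h => h mc') hcc pD pC'
  refine ⟨ua, hCU a' ma', rtg_mono (fun x y h => ?_) T⟩
  obtain ⟨h1, h2, w, hw, h3⟩ := h
  exact ⟨h1, hbd y w h2 hw h3, w, hCU w hw, h3⟩

end GeoLU

open GeoLU

theorem lu : LUStmt := by
  intro D hD ω v v' h h2 hv hv' hd hG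
  by_contra hn
  have hsym : ∀ a b : V D, Opn ω a b → Opn ω b a := fun _ _ h => h.symm
  have hU : ∀ x, OC ω (ball v (4 * h)) v x →
      ReflTransGen (fun a b => Geo.Adj a b ∧ OC ω (ball v (4 * h)) v b) v x := fun x hx =>
    rtg_mono (fun _ _ h => ⟨adj_of_opn h.1.1, h.2⟩) (rtg_reach hx)
  have hbad : ∀ z w, nrm (z - v) + 1 ≤ 4 * h → OC ω (ball v (4 * h)) v z →
      ¬ OC ω (ball v (4 * h)) v w → Geo.Adj z w → badS ω z := by
    intro z w h1 hz hw hzw
    have e1 := nrm_adj hzw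
    have e2 := nrm_tri w z v
    obtain ⟨s, rfl⟩ := vec_of_adj hzw
    refine ⟨s, ?_⟩
    by_contra hs
    exact hw (ReflTransGen.tail hz
      ⟨opn_iff.2 ⟨s, rfl, by simpa using hs⟩, mem_ball.2 (by omega)⟩)
  have hCU : ∀ z, ReflTransGen (fun a b => Geo.Adj a b ∧ ¬ OC ω (ball v (4 * h)) v b) v' z →
      ¬ OC ω (ball v (4 * h)) v z := fun z hz =>
    (rtg_rev (r := Geo.Adj) (fun _ _ h => h.symm) (P := fun b => ¬ OC ω (ball v (4 * h)) v b)
      hn hz).1
  obtain ⟨a, a', pa, qa, qa', haa⟩ := rtg_cross (r := Geo.Adj) (P := fun z => nrm (z - v) ≤ 2 * h)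
    (Q := fun z => ReflTransGen (fun a b => Geo.Adj a b ∧ ¬ OC ω (ball v (4 * h)) v b) v' z)
    (x := v) (y := v') (by simp) (conn_between' _ v v' fun z hz => nrm_le_iff.2 fun j => by
      have e1 := nrm_le_iff.1 hd j
      have e2 := hz j
      simp only [Pi.sub_apply, abs_le] at e1 ⊢
      omega) (fun hz => hCU v hz .refl) .refl
  obtain ⟨c1, k1, k2⟩ := hv
  obtain ⟨x, x1, x2⟩ := first_exit (v := v) (R := 4 * h) (by simp) k1 (by omega)
  obtain ⟨c2, k3, k4⟩ := hv'
  obtain ⟨y, y1, y2⟩ := first_exit (v := v) (R := 4 * h) (x := v') (by omega) k3 (by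
    have e := nrm_tri c2 v v'
    rw [nrm_sub_comm v v'] at e
    omega)
  have y3 : ReflTransGen (fun a b => Geo.Adj a b ∧ ¬ OC ω (ball v (4 * h)) v b) v' y :=
    rtg_mono (fun _ b hb => ⟨adj_of_opn hb.1.1, fun hb' => hn (ReflTransGen.trans hb'
      (rtg_rev hsym (P := fun z => z ∈ ball v (4 * h)) (mem_ball.2 (by omega)) hb.2).2)⟩)
      (rtg_reach y2)
  have hout : ∀ z : V D, z ∉ Geo.ball v (4 * h - 1) ↔ 4 * h ≤ nrm (z - v) := by
    intro z
    have e : z ∈ Geo.ball v (4 * h - 1) ↔ nrm (z - v) ≤ 4 * h - 1 := nrm_le_iff.symm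
    rw [e]
    omega
  obtain ⟨c, c', pc, qc, qc', hcc⟩ := rtg_cross (r := Geo.Adj)
    (P := fun z => z ∉ Geo.ball v (4 * h - 1))
    (Q := fun z => ReflTransGen (fun a b => Geo.Adj a b ∧ ¬ OC ω (ball v (4 * h)) v b) v' z)
    (x := x) (y := y) ((hout x).2 x1)
    (conn_outside (by omega) v (4 * h - 1) ((hout x).2 x1) ((hout y).2 y1))
    (fun hz => hCU x hz x2) y3
  rw [hout] at pc
  obtain ⟨ua, ua', T⟩ := chain (U := fun z => OC ω (ball v (4 * h)) v z) (u := v) (o := v')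
    ReflTransGen.refl hn hU qa qa' haa qc qc' hcc
  refine hG a pa ⟨hbad a a' (by omega) ua ua' haa, ?_⟩
  have key : (∃ c', h ≤ nrm (c' - a) ∧
      ReflTransGen (fun a b : V D => ∑ j, |b j - a j| ≤ 2 ∧ badS ω b) a c') ∨
      (nrm (c - a) < h ∧
        ReflTransGen (fun a b : V D => ∑ j, |b j - a j| ≤ 2 ∧ badS ω b) a c) := by
    clear pc qc hcc
    induction T with
    | refl => exact Or.inr ⟨by simp; omega, .refl⟩
    | @tail b c _ hbc ih =>
      rcases ih with ih | ⟨i1, i2⟩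
      · exact Or.inl ih
      · obtain ⟨d1, d2, w, d3, d4⟩ := hbc
        have e1 : nrm (c - b) ≤ 2 := nrm_le_of_sum d1
        have e2 := nrm_tri c b a
        have e3 := nrm_tri c a v
        have e4 := i2.tail ⟨d1, hbad c w (by omega) d2 d3 d4⟩
        by_cases hh : h ≤ nrm (c - a)
        · exact Or.inl ⟨c, hh, e4⟩
        · exact Or.inr ⟨by omega, e4⟩
  rcases key with k | k
  · exact k
  · have e := nrm_tri c a v
    omega

end Pool.Agent.MP_8c549f_pr.S3

end
end MrgPart3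

-- ======== part 4: formerly Pool.Agent.MP_8c549f_pr.S3.Late
section MrgPart4

/-! PROJECT BWALK3: long comparisons without a conflict. -/

noncomputable section

namespace Pool.Agent.MP_8c549f_pr.S3

open MeasureTheory Finset Classical

variable {D : ℕ}

namespace Late

/-- a finite cluster inside the recent past is the same in every configuration that agrees at the
edges of these sites -/
theorem not_inf {ω ω' : Cfg D} {z : ℕ → V D} {T : ℕ}
    (hag : ∀ k, 1 ≤ k → k ≤ T → ∀ s, ω' (edge (z k) s) = ω (edge (z k) s))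
    (h1 : ω ∉ InfCl D) (h2 : ∀ c, Conn ω 0 c → ∃ k, 1 ≤ k ∧ k ≤ T ∧ c = z k) : ω' ∉ InfCl D := by
  intro h
  refine h1 (Set.Infinite.mono (fun c hc => ?_) (mem_inf.1 h))
  have hc' : Conn ω' 0 c := hc
  show Conn ω 0 c
  clear hc
  induction hc' with
  | refl => exact Conn.refl _ _
  | tail _ hs ih =>
    obtain ⟨s, rfl, ho⟩ := opn_iff.1 hs
    obtain ⟨k, k1, k2, rfl⟩ := h2 _ ih
    exact ih.trans (Conn.step (by rw [← hag k k1 k2 s]; exact ho))

theorem ov_append_back (R S : St D) (ω : Cfg D) {k : ℕ} (h1 : 1 ≤ k) (h2 : k ≤ R.length)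
    (s : Step D) : ov (R ++ S) ω (edge (back R k) s) = ov R ω (edge (back R k) s) := by
  obtain ⟨b, hb⟩ := Option.ne_none_iff_exists'.1 (look_back_ne_none h1 h2 s)
  rw [ov_of_some hb, ov_of_some (look_append_of_some S hb)]

theorem unc_of {S' : St D} {ω ω' : Cfg D} {T : ℕ}
    (hag : ∀ k, 1 ≤ k → k ≤ T → ∀ s, ω' (edge (back S' k) s) = ω (edge (back S' k) s))
    (h1 : ω ∉ InfCl D) (h2 : ω' ∈ InfCl D) : Unc S' T ω := by
  refine ⟨h1, ?_⟩
  by_contra hn
  refine not_inf hag h1 (fun c hc => ?_) h2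
  by_contra hk
  exact hn ⟨c, hc, fun k k1 k2 e => hk ⟨k, k1, k2, e⟩⟩

theorem real_le {p : ℝ} (h0 : 0 ≤ p) (h1 : p ≤ 1) {A B U : Set (Cfg D)}
    (h : ∀ ω ∈ A, ω ∉ B → ω ∈ U) :
    (perc D p).real A ≤ (perc D p).real B + (perc D p).real U := by
  have := perc_prob D h0 h1
  refine (measureReal_mono (fun ω hω => ?_)).trans (measureReal_union_le B U)
  by_cases hB : ω ∈ B
  exacts [Or.inl hB, Or.inr (h ω hω hB)]

theorem th_diff {p : ℝ} (h0 : 0 ≤ p) (h1 : p ≤ 1) (R S : St D) (hS : Leg S) :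
    |th p (R ++ S) - th p R| ≤
      ind (Leg (R ++ S)) * (perc D p).real {ω | Unc (R ++ S) R.length (ov (R ++ S) ω)} +
      ind (Leg R) * (perc D p).real {ω | Unc R R.length (ov R ω)} := by
  by_cases hR : Leg R
  · have hRS : Leg (R ++ S) := leg_append.2 ⟨hR, hS⟩
    rw [th_eq, th_eq, ind_pos hR, ind_pos hRS]
    simp only [one_mul]
    have a1 := real_le h0 h1 (A := {ω | ov (R ++ S) ω ∈ InfCl D}) (B := {ω | ov R ω ∈ InfCl D})
      (U := {ω | Unc R R.length (ov R ω)}) fun ω hA hB =>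
        unc_of (fun k k1 k2 s => ov_append_back R S ω k1 k2 s) hB hA
    have a2 := real_le h0 h1 (A := {ω | ov R ω ∈ InfCl D}) (B := {ω | ov (R ++ S) ω ∈ InfCl D})
      (U := {ω | Unc (R ++ S) R.length (ov (R ++ S) ω)}) fun ω hA hB =>
        unc_of (fun k k1 k2 s => by
          rw [back_append_left S k2]; exact (ov_append_back R S ω k1 k2 s).symm) hB hA
    have b1 : 0 ≤ (perc D p).real {ω | Unc R R.length (ov R ω)} := measureReal_nonneg
    have b2 : 0 ≤ (perc D p).real {ω | Unc (R ++ S) R.length (ov (R ++ S) ω)} := measureReal_nonneg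
    exact abs_le.2 ⟨by linarith, by linarith⟩
  · have hRS : ¬ Leg (R ++ S) := fun h => hR (leg_append.1 h).1
    rw [th_of_not_leg p hR, th_of_not_leg p hRS, ind_neg hR, ind_neg hRS]
    simp

end Late

theorem late : WinStmt → LateStmt := by
  intro hW D p lam lam' β h0 h1 t T
  obtain ⟨w0, w1, -⟩ := hW D p h0 h1
  have e2 : finq D p lam 0 T = Ex (win p lam) (t + T) fun u : List (In D) =>
      ind (Leg (go [] (u.drop t))) *
        (perc D p).real {ω | Unc (go [] (u.drop t)) T (ov (go [] (u.drop t)) ω)} := by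
    rw [Ex_drop (w1 lam) (Nat.le_add_right t T) fun u : List (In D) =>
      ind (Leg (go [] u)) * (perc D p).real {ω | Unc (go [] u) T (ov (go [] u) ω)},
      Nat.add_sub_cancel_left, finq, zero_add]
  rw [e2, finq, ← Ex_add, Sys.lateq]
  refine Ex_mono (w0 lam) fun u hu => ?_
  refine ind_mul_le (add_nonneg (mul_nonneg (ind_nonneg _) measureReal_nonneg)
    (mul_nonneg (ind_nonneg _) measureReal_nonneg)) fun ⟨hs, hn⟩ => ?_
  have hleg : Leg (go [] (u.take t)) := by
    have h3 : 1 / 2 ≤ th p (go [] (u.take t)) := hs.2.2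
    exact leg_of_th_pos (lt_of_lt_of_le (by norm_num) h3)
  have hgo : go [] u = go [] (u.drop t) ++ go [] (u.take t) := by
    conv_lhs => rw [← List.take_append_drop t u, go_append]
    exact go_append_of_noconf (go [] (u.take t)) (u.drop t) [] hn
  have hlen : (go [] (u.drop t)).length = T := by simp [hu]
  have := Late.th_diff h0 h1 (go [] (u.drop t)) (go [] (u.take t)) hleg
  rw [hlen, ← hgo] at this
  exact this

end Pool.Agent.MP_8c549f_pr.S3

end
end MrgPart4

-- ======== part 5: formerly Pool.Agent.MP_8c549f_pr.S3.Low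
section MrgPart5

/-! PROJECT BWALK3: an attempt fails below the top level with probability at most one half. -/

noncomputable section

namespace Pool.Agent.MP_8c549f_pr.S3

open MeasureTheory Finset Classical

namespace Low

variable {D : ℕ}

/-- a bound valid from every legal state `m` steps before the end holds at the end -/
theorem cnd {w : In D → ℝ} (h0 : ∀ a, 0 ≤ w a) (h1 : ∑ a, w a = 1) {m N : ℕ} (hm : m ≤ N)
    {P : St D → Prop} {c : ℝ} (hc : 0 ≤ c)
    (h : ∀ S : St D, Leg S → (Ex w m fun v => ind (Leg (go S v) ∧ P (go S v))) ≤ c) (S : St D) :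
    (Ex w N fun u => ind (Leg (go S u) ∧ P (go S u))) ≤ c := by
  obtain ⟨k, rfl⟩ : ∃ k, N = k + m := ⟨N - m, by omega⟩
  rw [Ex_append]
  refine Ex_le_const h0 h1 fun u _ => ?_
  simp only [go_append]
  by_cases hl : Leg (go S u)
  · exact h _ hl
  · refine Ex_le_const h0 h1 fun v _ => ?_
    rw [ind_neg fun hh => hl (leg_of_go hh.1)]
    exact hc

theorem two_pow_le {L : ℕ} (hL : 2 ≤ L) {i : ℕ} (hi : 1 ≤ i) : 2 ^ (i + 4) ≤ Ls L i := by
  have h1 : i + 4 ≤ 37 ^ i := by
    induction i, hi using Nat.le_induction with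
    | base => norm_num
    | succ k _ ih => rw [pow_succ]; omega
  exact (Nat.pow_le_pow_right (by norm_num) h1).trans (Nat.pow_le_pow_left hL _)

theorem Ls_mono {L : ℕ} (hL : 1 ≤ L) {i j : ℕ} (h : i ≤ j) : Ls L i ≤ Ls L j :=
  Nat.pow_le_pow_right hL (Nat.pow_le_pow_right (by norm_num) h)

theorem le_Ls {L : ℕ} (hL : 1 ≤ L) (i : ℕ) : L ≤ Ls L i := by
  simpa [Ls] using Ls_mono hL (Nat.zero_le i)

theorem inv_Ls_le {L : ℕ} (hL : 2 ≤ L) {i : ℕ} (hi : 1 ≤ i) :
    1 / (Ls L i : ℝ) ≤ (1 / 2) ^ i / 16 := by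
  have h : (2 : ℝ) ^ (i + 4) ≤ Ls L i := by exact_mod_cast two_pow_le hL hi
  refine (one_div_le_one_div_of_le (by positivity) h).trans_eq ?_
  rw [pow_add, one_div_pow]
  field_simp
  norm_num

theorem geo (J : ℕ) : ∑ i ∈ range J, (1 / 2 : ℝ) ^ i / 16 ≤ 1 / 8 := by
  rw [← sum_div]
  linarith [sum_geometric_two_le J]

/-- deep backtracks are rare for the exploration -/
theorem nbk (brf : BrfStmt) {p lam : ℝ} (p0 : 0 ≤ p) (p1 : p ≤ 1) {n : ℕ} {N c : ℝ} (hc : 0 ≤ c)
    (h : ∀ (ω : Cfg D) (S : St D), (Qx lam ω n 0 fun l => ind (¬ NBk lam (tr S ω l) n N)) ≤ c)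
    (S : St D) (hS : Leg S) :
    (Ex (win p lam) n fun v => ind (Leg (go S v) ∧ ¬ NBk lam (go S v) n N)) ≤ c := by
  have := perc_prob D p0 p1
  have key := brf D p lam p0 p1 n S (fun S' _ => ¬ NBk lam S' n N) ∅ c hS hc
    (fun _ => MeasurableSet.const _) fun ω _ => h _ S
  rw [measureReal_empty, add_zero] at key
  refine le_trans (le_of_eq (Ex_congr fun v _ => ?_)) key
  rw [ind_and]
  by_cases hP : NBk lam (go S v) n N
  · simp [hP]
  · simp [hP]

end Low

open Low in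
theorem low (win' : WinStmt) (brf : BrfStmt) (nb : NBStmt) (far : FarStmt) (ao : AOStmt) :
    LowStmt := by
  intro D hD
  obtain ⟨n₀, hn⟩ := nb D
  obtain ⟨L₀, e₁, e1, hf⟩ := far D hD
  refine ⟨max (max n₀ L₀) 2, fun L hL => ?_⟩
  have l1 : n₀ ≤ L := le_trans (le_max_of_le_left (le_max_left _ _)) hL
  have l2 : L₀ ≤ L := le_trans (le_max_of_le_left (le_max_right _ _)) hL
  have l3 : 2 ≤ L := le_trans (le_max_right _ _) hL
  obtain ⟨e₂, e2, ha⟩ := ao D L l3
  refine ⟨min e₁ e₂, lt_min e1 e2, fun p lam hp p1 p0 lam0 lam1 J S hJ _ => ?_⟩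
  have hp1 : 1 - e₁ ≤ p := by linarith [min_le_left e₁ e₂]
  have hp2 : 1 - e₂ ≤ p := by linarith [min_le_right e₁ e₂]
  obtain ⟨w0, w1, -⟩ := win' D p p0 p1
  have L1 : 1 ≤ L := by omega
  let A : ℕ → St D → Prop := fun i T =>
    1 ≤ i ∧ ¬ NBk lam T (Ls L (i + 1)) (NN D (Ls L (i + 1)))
  let B : ℕ → St D → Prop := fun i T => (1 ≤ i ∧ i + 2 ≤ J) ∧ Iso T L (i + 1) ∧
    NBk lam T (Ls L (i + 2)) (NN D (Ls L (i + 2))) ∧ ¬ Iso T L i
  have hA : ∀ i ∈ range J, (Ex (win p lam) (Ls L J) fun u =>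
      ind (Leg (go S u) ∧ A i (go S u))) ≤ (1 / 2) ^ i / 16 := by
    intro i hi
    rw [mem_range] at hi
    by_cases h1 : 1 ≤ i
    · simp only [A, h1, true_and]
      refine cnd (w0 lam) (w1 lam) (Ls_mono L1 (show i + 1 ≤ J by omega))
        (P := fun T => ¬ NBk lam T (Ls L (i + 1)) (NN D (Ls L (i + 1)))) (by positivity)
        (nbk brf p0 p1 (by positivity) fun ω T => ?_) S
      refine (hn lam ω T _ _ lam0.le lam1 (l1.trans (le_Ls L1 _)) le_rfl).trans
        (le_trans ?_ (inv_Ls_le l3 h1))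
      have a1 : (1 : ℝ) ≤ Ls L i := by exact_mod_cast L1.trans (le_Ls L1 i)
      have a2 : (Ls L i : ℝ) ≤ Ls L (i + 1) := by exact_mod_cast Ls_mono L1 (Nat.le_succ i)
      exact one_div_le_one_div_of_le (by linarith)
        (a2.trans (le_self_pow₀ (a1.trans a2) (by norm_num)))
    · simp only [A, h1, false_and, and_false, ind_false, Ex_zero_fun]
      positivity
  have hB : ∀ i ∈ range J, (Ex (win p lam) (Ls L J) fun u =>
      ind (Leg (go S u) ∧ B i (go S u))) ≤ (1 / 2) ^ i / 16 := by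
    intro i _
    by_cases h1 : 1 ≤ i ∧ i + 2 ≤ J
    · simp only [B, h1, true_and, and_self]
      exact cnd (w0 lam) (w1 lam) (Ls_mono L1 h1.2)
        (P := fun T => Iso T L (i + 1) ∧ NBk lam T (Ls L (i + 2)) (NN D (Ls L (i + 2))) ∧
          ¬ Iso T L i) (by positivity)
        (fun T hT => (hf L l2 p lam hp1 p1 p0 lam0 lam1 i T h1.1 hT).trans (inv_Ls_le l3 h1.1)) S
    · simp only [B, h1, false_and, and_false, ind_false, Ex_zero_fun]
      positivity
  have hC : (Ex (win p lam) (Ls L J) fun u =>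
      ind (Leg (go S u) ∧ Iso (go S u) L 1 ∧ ¬ AO (go S u) L)) ≤ 1 / 8 :=
    cnd (w0 lam) (w1 lam) (Ls_mono L1 hJ) (P := fun T => Iso T L 1 ∧ ¬ AO T L) (by norm_num)
      (fun T hT => ha p lam hp2 p1 p0 T hT) S
  have hU : ∀ T : St D, ind (Leg T ∧ Low lam T L J) ≤ ∑ i ∈ range J, ind (Leg T ∧ A i T) +
      ∑ i ∈ range J, ind (Leg T ∧ B i T) + ind (Leg T ∧ Iso T L 1 ∧ ¬ AO T L) := by
    intro T
    have s1 := ind_le_sum (P := ∃ i ∈ range J, Leg T ∧ A i T) (range J) (fun i => Leg T ∧ A i T) id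
    have s2 := ind_le_sum (P := ∃ i ∈ range J, Leg T ∧ B i T) (range J) (fun i => Leg T ∧ B i T) id
    have s3 := ind_or_le (∃ i ∈ range J, Leg T ∧ A i T) (∃ i ∈ range J, Leg T ∧ B i T)
    refine (ind_le_add (Q := (∃ i ∈ range J, Leg T ∧ A i T) ∨ ∃ i ∈ range J, Leg T ∧ B i T)
      (R := Leg T ∧ Iso T L 1 ∧ ¬ AO T L) ?_).trans (by linarith)
    rintro ⟨hl, ⟨i, i1, i2, i3⟩ | ⟨i, i1, i2, i3⟩ | h⟩
    · exact Or.inl (Or.inl ⟨i, mem_range.2 i2, hl, i1, i3⟩)
    · exact Or.inl (Or.inr ⟨i, mem_range.2 (by omega), hl, ⟨i1, i2⟩, i3⟩)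
    · exact Or.inr ⟨hl, h⟩
  refine (Ex_mono (w0 lam) fun u _ => hU (go S u)).trans ?_
  rw [Ex_add, Ex_add, Ex_sum, Ex_sum]
  linarith [sum_le_sum hA, sum_le_sum hB, geo J]

end Pool.Agent.MP_8c549f_pr.S3

end
end MrgPart5

-- ======== part 6: formerly Pool.Agent.MP_8c549f_pr.S3.Mom
section MrgPart6

/-! PROJECT BWALK3, row MOM: moments of the restart tree. -/

noncomputable section

namespace Pool.Agent.MP_8c549f_pr.S3

open Finset Classical Filter Topology

namespace Mom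

variable {σ ι : Type} (A : Sys σ ι)

theorem yq_nonneg (u : List ι) : 0 ≤ A.yq u :=
  sum_nonneg fun _ _ => sum_nonneg fun _ _ => sum_nonneg fun _ _ =>
    mul_nonneg (ind_nonneg _) (by positivity)

/-- fourth root of `yq` -/
def yr (u : List ι) : ℝ := √(√(A.yq u))

theorem yr_nonneg (u : List ι) : 0 ≤ yr A u := Real.sqrt_nonneg _

theorem yr_pow (u : List ι) : yr A u ^ 4 = A.yq u := by
  have h : yr A u ^ 4 = (yr A u ^ 2) ^ 2 := by ring
  rw [h, yr, Real.sq_sqrt (Real.sqrt_nonneg _), Real.sq_sqrt (yq_nonneg A u)]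

theorem le_yr (u : List ι) (b t r : ℕ) (hb : b ≤ t) (ht : t < r) (hr : r ≤ u.length)
    (hs : A.safe (A.st u b r)) (hg : A.Gap u b t r) : (r : ℝ) ≤ 2 * t + 1 + yr A u := by
  have h1 : (((r - (2 * t + 1) : ℕ) : ℝ)) ^ 4 ≤ A.yq u := by
    have hn : ∀ t b r : ℕ, 0 ≤ ind (A.safe (A.st u b r) ∧ A.Gap u b t r) *
        (((r - (2 * t + 1) : ℕ) : ℝ)) ^ 4 := fun _ _ _ => mul_nonneg (ind_nonneg _) (by positivity)
    unfold Sys.yq
    refine le_trans ?_ (single_le_sum (f := fun t => ∑ b ∈ range (t + 1), ∑ r ∈ Ioc t u.length,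
      ind (A.safe (A.st u b r) ∧ A.Gap u b t r) * (((r - (2 * t + 1) : ℕ) : ℝ)) ^ 4)
      (fun t _ => sum_nonneg fun b _ => sum_nonneg fun r _ => hn t b r)
      (mem_range.2 (show t < u.length + 1 by omega)))
    refine le_trans ?_ (single_le_sum (f := fun b => ∑ r ∈ Ioc t u.length,
      ind (A.safe (A.st u b r) ∧ A.Gap u b t r) * (((r - (2 * t + 1) : ℕ) : ℝ)) ^ 4)
      (fun b _ => sum_nonneg fun r _ => hn t b r) (mem_range.2 (show b < t + 1 by omega)))
    refine le_trans ?_ (single_le_sum (f := fun r =>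
      ind (A.safe (A.st u b r) ∧ A.Gap u b t r) * (((r - (2 * t + 1) : ℕ) : ℝ)) ^ 4)
      (fun r _ => hn t b r) (mem_Ioc.2 ⟨ht, hr⟩))
    simp only [ind_pos (And.intro hs hg), one_mul, le_refl]
  rw [← yr_pow] at h1
  have h2 := le_of_pow_le_pow_left₀ (by norm_num) (yr_nonneg A u) h1
  have h3 : r ≤ 2 * t + 1 + (r - (2 * t + 1)) := by omega
  have h4 : (r : ℝ) ≤ 2 * t + 1 + ((r - (2 * t + 1) : ℕ) : ℝ) := by exact_mod_cast h3
  linarith

theorem sq_sq_le (u : List ι) : ((2 + 2 * yr A u) ^ 2) ^ 2 ≤ 128 * (1 + A.yq u) := by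
  rw [← yr_pow]
  generalize yr A u = y
  nlinarith [sq_nonneg (y ^ 2 - 1), sq_nonneg (y - 1), sq_nonneg ((y - 1) * (y + 1)),
    sq_nonneg ((y - 1) ^ 2), sq_nonneg (y + 1), mul_self_nonneg ((y - 1) * y)]

theorem top_01 (G : Finset ι) (u : List ι) :
    Sys.top G (fun _ => (1 : ℝ)) u = 0 ∨ Sys.top G (fun _ => (1 : ℝ)) u = 1 := by
  cases u with
  | nil => exact Or.inl rfl
  | cons a u => rw [Sys.top_cons]; split_ifs <;> simp

theorem v1_nonneg (h : ∀ S, 0 ≤ A.th S) (u : List ι) : 0 ≤ A.v1 u :=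
  sum_nonneg fun _ _ => sum_nonneg fun _ _ => mul_nonneg (ind_nonneg _) (h _)

theorem v2_nonneg (u : List ι) : 0 ≤ A.v2 u :=
  sum_nonneg fun _ _ => sum_nonneg fun _ _ => mul_nonneg (ind_nonneg _) (abs_nonneg _)

theorem aerr_nonneg (h : ∀ S, 0 ≤ A.th S) (u : List ι) : 0 ≤ A.aerr u :=
  A.tree_nonneg _ _ _ (fun _ _ _ => le_rfl) (fun S _ => h S) (fun _ _ _ => abs_nonneg _) u _ _ _ _

/-- Cauchy-Schwarz with bounds for both factors -/
theorem cs [Fintype ι] {w : ι → ℝ} (h0 : ∀ a, 0 ≤ w a) (n : ℕ) (f g : List ι → ℝ) {a b : ℝ}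
    (ha : (Ex w n fun u => f u ^ 2) ≤ a) (hb : (Ex w n fun u => g u ^ 2) ≤ b) :
    (Ex w n fun u => f u * g u) ≤ √a * √b :=
  (Ex_mul_le_sqrt h0 n f g).trans
    (mul_le_mul (Real.sqrt_le_sqrt ha) (Real.sqrt_le_sqrt hb) (Real.sqrt_nonneg _)
      (Real.sqrt_nonneg _))

theorem sqrt_div_le (c : ℝ) {n : ℝ} (hn : 1 ≤ n) : √(c / n ^ 8) ≤ √c / n ^ 2 := by
  have h0 : 0 < n := by linarith
  have h1 : n ^ 8 = (n ^ 4) ^ 2 := by ring
  rw [Real.sqrt_div' _ (by positivity), h1, Real.sqrt_sq (by positivity)]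
  exact div_le_div_of_nonneg_left (Real.sqrt_nonneg _) (by positivity)
    (pow_le_pow_right₀ hn (by norm_num))

end Mom

open Mom in
theorem momS (hP : PathStmt) (hZ : ZYStmt) : MomStmt := by
  intro C
  refine ⟨√(128 * (1 + 4 * C)) * (1 + √257), by positivity, fun σ ι _ A w G θ β H => ?_⟩
  have h0 := H.w0
  have h1 := H.w1
  have hZ' := hZ σ ι A w G θ C β H
  have hP' := fun u => hP σ ι A G u (yr A u) H.th0 H.th1 H.first (yr_nonneg A u) (le_yr A u)
  have hy : ∀ n, (Ex w n fun u => ((2 + 2 * yr A u) ^ 2) ^ 2) ≤ 128 * (1 + 4 * C) := fun n => by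
    refine (Ex_mono h0 fun u _ => sq_sq_le A u).trans ?_
    rw [Ex_mul_left, Ex_add, Ex_const h1]
    have := (hZ' n).2.1
    change Ex w n (fun u => A.yq u) ≤ _ at this
    linarith
  constructor
  · intro n
    rcases n with _ | n
    · have : A.mom G [] = 0 := by simp [Sys.mom]
      rw [Ex_zero, this]
      positivity
    have ht : (Ex w (n + 1) fun u => (1 - Sys.top G (fun _ => (1 : ℝ)) u) ^ 2) ≤ β := by
      have e : (Ex w (n + 1) fun u => (1 - Sys.top G (fun _ => (1 : ℝ)) u) ^ 2) =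
          Ex w (n + 1) fun u => 1 - Sys.top G (fun _ => (1 : ℝ)) u :=
        Ex_congr fun u _ => by rcases top_01 G u with h | h <;> rw [h] <;> norm_num
      have e2 := Ex_top h1 G (fun _ => (1 : ℝ)) n
      have e3 := sum_add_sum_compl G w
      have e4 := H.off
      rw [e, Ex_sub, Ex_const h1]
      change 1 - Ex w (n + 1) (Sys.top G fun _ => (1 : ℝ)) ≤ β
      rw [e2]
      simp only [mul_one]
      linarith
    have k1 := cs h0 (n + 1) _ _ (hy (n + 1)) ht
    have k2 := cs h0 (n + 1) _ _ (hy (n + 1)) (hZ' (n + 1)).1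
    rw [Real.sqrt_mul (by norm_num : (0 : ℝ) ≤ 257)] at k2
    have k3 : Ex w (n + 1) (A.mom G) ≤ Ex w (n + 1) fun u =>
        (2 + 2 * yr A u) ^ 2 * (1 - Sys.top G (fun _ => (1 : ℝ)) u) +
          (2 + 2 * yr A u) ^ 2 * A.zz u A.new none := by
      refine Ex_mono h0 fun u _ => (hP' u).1.trans ?_
      have a1 := yr_nonneg A u
      have a2 : 0 ≤ 1 - Sys.top G (fun _ => (1 : ℝ)) u := by
        rcases top_01 G u with h | h <;> rw [h] <;> norm_num
      have a3 : (2 + yr A u) ^ 2 ≤ (2 + 2 * yr A u) ^ 2 := by gcongr; linarith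
      have a4 := mul_le_mul_of_nonneg_right a3 a2
      linarith
    rw [Ex_add] at k3
    linarith
  · have hz : ∀ n, (Ex w n fun u => (1 + A.zz u A.new none) ^ 2) ≤ 2 + 2 * (257 * β) := fun n => by
      have e : (Ex w n fun u => (1 + A.zz u A.new none) ^ 2) ≤
          Ex w n fun u => 2 + 2 * A.zz u A.new none ^ 2 :=
        Ex_mono h0 fun u _ => by nlinarith [sq_nonneg (1 - A.zz u A.new none)]
      rw [Ex_add, Ex_const h1, Ex_mul_left] at e
      linarith [(hZ' n).1]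
    set a := √(128 * (1 + 4 * C)) with ha
    set z := √(2 + 2 * (257 * β)) with hzz
    set c := √(4096 * C) with hc
    have hz0 : 0 ≤ z := Real.sqrt_nonneg _
    refine squeeze_zero' (g := fun n : ℕ => (8 * (a * z) + 2 * (z * c)) / (n : ℝ))
      (Eventually.of_forall fun n => mul_nonneg (Nat.cast_nonneg n)
        (Ex_nonneg h0 fun u _ => aerr_nonneg A H.th0 u)) ?_
      (tendsto_const_div_atTop_nhds_zero_nat _)
    filter_upwards [eventually_ge_atTop 1] with n hn
    have hn' : (1 : ℝ) ≤ n := by exact_mod_cast hn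
    have k1 := cs h0 n _ _ (hy n) (hz n)
    have s1 : (Ex w n fun u => √(A.v1 u) ^ 2) ≤ 4096 * C / (n : ℝ) ^ 8 :=
      (Ex_congr fun u _ => Real.sq_sqrt (v1_nonneg A H.th0 u)).trans_le ((hZ' n).2.2 hn).1
    have s2 : (Ex w n fun u => √(A.v2 u) ^ 2) ≤ 4096 * C / (n : ℝ) ^ 8 :=
      (Ex_congr fun u _ => Real.sq_sqrt (v2_nonneg A u)).trans_le ((hZ' n).2.2 hn).2
    have k2 := (cs h0 n _ _ (hz n) s1).trans
      (mul_le_mul_of_nonneg_left (sqrt_div_le (4096 * C) hn') hz0)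
    have k3 := (cs h0 n _ _ (hz n) s2).trans
      (mul_le_mul_of_nonneg_left (sqrt_div_le (4096 * C) hn') hz0)
    have k4 : Ex w n A.aerr ≤ Ex w n fun u =>
        8 / (n : ℝ) ^ 2 * ((2 + 2 * yr A u) ^ 2 * (1 + A.zz u A.new none)) +
          ((1 + A.zz u A.new none) * √(A.v1 u) + (1 + A.zz u A.new none) * √(A.v2 u)) := by
      refine Ex_mono h0 fun u hu => ((hP' u).2 ?_).trans_eq ?_
      · rintro rfl
        simp at hu
        omega
      · rw [hu]; ring
    rw [Ex_add, Ex_add, Ex_mul_left] at k4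
    have k5 := mul_le_mul_of_nonneg_left k1 (show 0 ≤ 8 / (n : ℝ) ^ 2 by positivity)
    have k6 : Ex w n A.aerr ≤ 8 / (n : ℝ) ^ 2 * (a * z) + 2 * (z * (c / (n : ℝ) ^ 2)) := by linarith
    refine (mul_le_mul_of_nonneg_left k6 (by linarith)).trans_eq ?_
    field_simp

end Pool.Agent.MP_8c549f_pr.S3

end
end MrgPart6

-- ======== part 7: formerly Pool.Agent.MP_8c549f_pr.S3.Nb
section MrgPart7

/-! PROJECT BWALK3: deep backtracks are unlikely. -/

noncomputable section

namespace Pool.Agent.MP_8c549f_pr.S3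

open MeasureTheory Finset Classical

namespace Nb

variable {D : ℕ} {lam : ℝ} {ω : Cfg D}

/-- the walk from `y` is low at time `k` -/
theorem low_le (hp : PkStmt) (h0 : 0 ≤ lam) (h1 : lam ≤ 1) (k : ℕ) (y : V D) (N : ℝ) :
    (Qx lam ω k y fun l => ind (N < -(lam * ((pos l 0 : ℤ) : ℝ)))) ≤
      ((2 * k + 1 : ℕ) : ℝ) ^ (D + 1) * (20 * (D + 1) * Real.exp (-(2 * N))) := by
  set B : Finset (V D) := (ball y k).filter fun z => N < -(lam * ((z 0 : ℝ) - (y 0 : ℝ))) with hB
  have h2 : (Qx lam ω k y fun l => ind (N < -(lam * ((pos l 0 : ℤ) : ℝ)))) ≤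
      Qx lam ω k y fun l => ind (y + pos l ∈ B) := by
    refine Qx_mono fun l hl => ind_mono fun h => ?_
    refine mem_filter.2 ⟨mem_ball.2 ?_, ?_⟩
    · rw [add_sub_cancel_left, ← hl]; exact nrm_pos_le l
    · simpa using h
  rw [Qx_mem] at h2
  refine h2.trans ((sum_le_card_nsmul B _ (20 * (D + 1) * Real.exp (-(2 * N))) ?_).trans ?_)
  · intro z hz
    refine ((hp D lam ω).2.2.2.2.2.2 h0 h1 k y z).trans ?_
    have := (mem_filter.1 hz).2
    exact mul_le_mul_of_nonneg_left (Real.exp_le_exp.2 (by linarith)) (by positivity)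
  · rw [nsmul_eq_mul]
    refine mul_le_mul_of_nonneg_right ?_ (by positivity)
    have : B.card ≤ (2 * k + 1) ^ (D + 1) := (card_filter_le _ _).trans (card_ball y k).le
    exact_mod_cast this

/-- a backtrack between the times `i` and `j` -/
theorem pair_le (hp : PkStmt) (h0 : 0 ≤ lam) (h1 : lam ≤ 1) {n i j : ℕ} (hij : i ≤ j) (hj : j ≤ n)
    (N : ℝ) :
    (Qx lam ω n 0 fun l => ind (N < lam * (((loc l i - loc l j) 0 : ℤ) : ℝ))) ≤
      ((2 * n + 1 : ℕ) : ℝ) ^ (D + 1) * (20 * (D + 1) * Real.exp (-(2 * N))) := by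
  obtain ⟨k, rfl⟩ := Nat.exists_eq_add_of_le hij
  obtain ⟨r, rfl⟩ := Nat.exists_eq_add_of_le hj
  rw [add_assoc, Qx_append]
  refine Qx_le_const (by positivity) fun l1 hl1 _ => ?_
  rw [Qx_append]
  refine le_trans (Qx_mono fun l2 hl2 => ?_) ((low_le hp h0 h1 k (0 + pos l1) N).trans ?_)
  · refine Qx_le_const (ind_nonneg _) fun l3 _ _ => ind_mono fun h => ?_
    have e1 : loc (l1 ++ (l2 ++ l3)) i = pos l1 := by
      rw [loc_append_left _ hl1.ge, ← hl1, loc_length]
    have e2 : loc (l1 ++ (l2 ++ l3)) (i + k) = pos l1 + pos l2 := by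
      rw [← hl1, loc_append_right, loc_append_left _ hl2.ge, ← hl2, loc_length]
    rw [e1, e2] at h
    simpa using h
  · refine mul_le_mul_of_nonneg_right ?_ (by positivity)
    gcongr
    omega

theorem numeric (D : ℕ) {n n' : ℕ} (hn : 80 * (D + 1) ≤ n') (h : n ≤ n') :
    ((n + 1 : ℕ) : ℝ) * (((n + 1 : ℕ) : ℝ) * (((2 * n + 1 : ℕ) : ℝ) ^ (D + 1) *
      (20 * (D + 1) * Real.exp (-(2 * NN D n'))))) ≤ 1 / (n' : ℝ) ^ 12 := by
  have hp : (0 : ℝ) < n' := by exact_mod_cast (by omega : 0 < n')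
  have e : Real.exp (-(2 * NN D n')) = ((n' : ℝ) ^ (2 * D + 18))⁻¹ := by
    rw [Real.exp_neg, NN, ← mul_assoc, show 2 * ((D : ℝ) + 9) = ((2 * D + 18 : ℕ) : ℝ) by
      push_cast; ring, Real.exp_nat_mul, Real.exp_log hp]
  have key : (n + 1) * ((n + 1) * ((2 * n + 1) ^ (D + 1) * (20 * (D + 1)))) ≤ n' ^ (2 * D + 6) := by
    have a1 : (2 * n + 1) ^ (D + 1) ≤ (n' ^ 2) ^ (D + 1) :=
      Nat.pow_le_pow_left (by nlinarith) _
    have a2 : (n + 1) * (n + 1) ≤ 4 * n' ^ 2 := by nlinarith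
    have a3 : 4 * (20 * (D + 1)) ≤ n' ^ 2 := by nlinarith
    calc (n + 1) * ((n + 1) * ((2 * n + 1) ^ (D + 1) * (20 * (D + 1))))
        = ((n + 1) * (n + 1)) * ((2 * n + 1) ^ (D + 1) * (20 * (D + 1))) := by ring
      _ ≤ (4 * n' ^ 2) * ((n' ^ 2) ^ (D + 1) * (20 * (D + 1))) :=
        Nat.mul_le_mul a2 (Nat.mul_le_mul_right _ a1)
      _ = n' ^ 2 * (n' ^ 2) ^ (D + 1) * (4 * (20 * (D + 1))) := by ring
      _ ≤ n' ^ 2 * (n' ^ 2) ^ (D + 1) * n' ^ 2 := Nat.mul_le_mul_left _ a3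
      _ = n' ^ (2 * D + 6) := by ring
  have key' : ((n + 1 : ℕ) : ℝ) * (((n + 1 : ℕ) : ℝ) * (((2 * n + 1 : ℕ) : ℝ) ^ (D + 1) *
      (20 * (D + 1)))) ≤ (n' : ℝ) ^ (2 * D + 6) := by exact_mod_cast key
  rw [e]
  calc _ = ((n + 1 : ℕ) : ℝ) * (((n + 1 : ℕ) : ℝ) * (((2 * n + 1 : ℕ) : ℝ) ^ (D + 1) *
      (20 * (D + 1)))) * ((n' : ℝ) ^ (2 * D + 18))⁻¹ := by ring
    _ ≤ (n' : ℝ) ^ (2 * D + 6) * ((n' : ℝ) ^ (2 * D + 18))⁻¹ :=
      mul_le_mul_of_nonneg_right key' (by positivity)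
    _ = 1 / (n' : ℝ) ^ 12 := by
      rw [show 2 * D + 18 = 2 * D + 6 + 12 by ring, pow_add (n' : ℝ) (2 * D + 6) 12]
      field_simp

end Nb

theorem nb (hp : PkStmt) : NBStmt := by
  intro D
  refine ⟨80 * (D + 1), fun lam ω S n n' h0 h1 hn h => ?_⟩
  refine le_trans ?_ (Nb.numeric D hn h)
  have h2 : (Qx lam ω n 0 fun l => ind (¬ NBk lam (tr S ω l) n (NN D n'))) ≤
      Qx lam ω n 0 fun l => ∑ j ∈ range (n + 1), ∑ i ∈ range (j + 1),
        ind (NN D n' < lam * (((loc l i - loc l j) 0 : ℤ) : ℝ)) := by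
    refine Qx_mono fun l hl => ?_
    rw [sum_sigma']
    refine ind_le_sum _ _ fun hb => ?_
    simp only [NBk, not_forall, not_le] at hb
    obtain ⟨a, b, hab, hbn, -, hlt⟩ := hb
    refine ⟨⟨n - a, n - b⟩, mem_sigma.2 ⟨mem_range.2 (by simp only; omega),
      mem_range.2 (by simp only; omega)⟩, ?_⟩
    rw [back_tr S ω l (hbn.trans hl.ge), back_tr S ω l ((hab.trans hbn).trans hl.ge), hl,
      sub_sub_sub_cancel_right] at hlt
    exact hlt
  refine h2.trans ?_
  rw [Qx_sum]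
  refine (sum_le_card_nsmul _ _ _ fun j hj => ?_).trans_eq (by rw [card_range, nsmul_eq_mul])
  rw [Qx_sum]
  have hj' : j ≤ n := Nat.lt_succ_iff.1 (mem_range.1 hj)
  refine (sum_le_card_nsmul _ _ _ fun i hi =>
    Nb.pair_le hp h0 h1 (Nat.lt_succ_iff.1 (mem_range.1 hi)) hj' _).trans ?_
  rw [card_range, nsmul_eq_mul]
  refine mul_le_mul_of_nonneg_right ?_ (by positivity)
  exact_mod_cast Nat.succ_le_succ hj'

end Pool.Agent.MP_8c549f_pr.S3

end
end MrgPart7

-- ======== part 8: formerly Pool.Agent.MP_8c549f_pr.S3.Path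
section MrgPart8

/-! PROJECT BWALK3: pathwise bounds for the tree of restarts. -/

noncomputable section

namespace Pool.Agent.MP_8c549f_pr.S3

open Finset Classical

namespace PathA

variable {σ ι : Type} (A : Sys σ ι) (U : List ι)

lemma gap_succ {b t₀ t : ℕ} (h : A.Gap U b t₀ t) (h' : ¬ A.safe (A.st U b t)) :
    A.Gap U b t₀ (t + 1) := fun i h1 h2 => by
  rcases (Nat.lt_succ_iff.1 h2).eq_or_lt with rfl | h3
  · exact h'
  · exact h i h1 h3

/-- A general bound: `p` bounds the first output of a wait, `c + k x ^ 2` is the weight. -/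
lemma gen (ψ : ℕ → ℝ → List ι → ℝ) (eW : σ → ℝ → ℝ) (eT : σ → σ → ℝ → ℝ) (y c k : ℝ)
    (p q : ℕ → ℝ) (hy : 0 ≤ y) (hc : 0 ≤ c) (hk : 0 ≤ k)
    (H : ∀ b t r : ℕ, b ≤ t → t < r → r ≤ U.length → A.safe (A.st U b r) → A.Gap U b t r →
      (r : ℝ) ≤ 2 * t + 1 + y)
    (hp : ∀ t : ℕ, p t ≤ c + k * (2 * (1 + y + t)) ^ 2) (hq : ∀ t, 0 ≤ q t)
    (hψ : ∀ (t r : ℕ) o u, (r : ℝ) ≤ 2 * t + 1 + y → ψ r o u + q r ≤ p t)
    (hW : ∀ b t o, b ≤ t → t ≤ U.length → A.Gap U b t U.length → eW (A.st U b U.length) o ≤ p t)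
    (hT : ∀ b r o, b ≤ r → r ≤ U.length → A.safe (A.st U b r) →
      A.noconf (U.drop r) (A.st U b r) A.new →
      eT (A.st U b U.length) (A.st U r U.length) o ≤ q r)
    (u : List ι) : ∀ pre, U = pre ++ u →
    (∀ b t₀ o, b ≤ t₀ → t₀ ≤ pre.length → A.Gap U b t₀ (pre.length + 1) →
      A.tree 1 ψ eW eT u (A.st U b pre.length) none pre.length o ≤
        p t₀ + (c + k * (2 * (1 + y + t₀)) ^ 2) * A.zz u (A.st U b pre.length) none) ∧
    ∀ b r L o, b ≤ r → pre.length = r + L → A.safe (A.st U b r) →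
      (A.noconf u (A.st U b pre.length) (A.st U r pre.length) →
        A.noconf (U.drop r) (A.st U b r) A.new) →
      A.tree 1 ψ eW eT u (A.st U b pre.length) (some (A.st U r pre.length)) pre.length o ≤
        q r + (c + k * (1 + y + r) ^ 2) *
          A.zz u (A.st U b pre.length) (some (A.st U r pre.length, L)) := by
  induction u with
  | nil =>
    intro pre e
    obtain rfl : U = pre := by simpa using e
    refine ⟨fun b t₀ o h1 h2 h3 => ?_, fun b r L o h1 h2 h3 h4 => ?_⟩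
    · simpa using hW b t₀ o h1 h2 fun i a b => h3 i a (by omega)
    · simpa using hT b r o h1 (by omega) h3 (h4 (by simp))
  | cons a u ih =>
    intro pre e
    obtain ⟨i1, i2⟩ := ih (pre ++ [a]) (by simpa using e)
    rw [List.length_append, List.length_singleton] at i1 i2
    have hs : ∀ b ≤ pre.length, A.F (A.st U b pre.length) a = A.st U b (pre.length + 1) :=
      fun b hb => by rw [e, A.st_succ pre a u hb]
    have N : ∀ b t₀ o, b ≤ t₀ → t₀ ≤ pre.length → A.Gap U b t₀ (pre.length + 1) →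
        A.tree 1 ψ eW eT (a :: u) (A.st U b pre.length) none pre.length o ≤ p t₀ +
          (c + k * (2 * (1 + y + t₀)) ^ 2) * A.zz (a :: u) (A.st U b pre.length) none := by
      intro b t₀ o h1 h2 h3
      rw [Sys.tree_cons_none, Sys.zz_cons_none, hs b (h1.trans h2)]
      split_ifs with h
      · have h4 := H b t₀ _ h1 (Nat.lt_succ_of_le h2) (by simp [e]) h h3
        have h5 := i2 b _ 0 (o + A.dis (A.st U b pre.length) a) (by omega) rfl h (by
          rw [Sys.st_self, show U.drop (pre.length + 1) = u by simp [e]]; exact id)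
        rw [Sys.st_self] at h5
        have h6 := hψ t₀ _ (o + A.dis (A.st U b pre.length) a) u h4
        have h7 : (c + k * (1 + y + (pre.length + 1 : ℕ)) ^ 2) *
            A.zz u (A.st U b (pre.length + 1)) (some (A.new, 0)) ≤
            (c + k * (2 * (1 + y + t₀)) ^ 2) *
            A.zz u (A.st U b (pre.length + 1)) (some (A.new, 0)) := by
          gcongr
          · exact A.zz_nonneg _ _ _
          · linarith
        linarith
      · exact i1 b t₀ _ h1 (by omega) (gap_succ A U h3 h)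
    refine ⟨N, fun b r L o h1 h2 h3 h4 => ?_⟩
    rw [Sys.tree_cons_some, Sys.zz_cons_some]
    split_ifs with h
    · have g : ∀ b, A.Gap U b pre.length (pre.length + 1) := fun b i _ _ => by omega
      have n1 := N b _ o (by omega) le_rfl (g b)
      have n2 := N r _ o (by omega) le_rfl (g r)
      have z1 := A.zz_nonneg (a :: u) (A.st U b pre.length) none
      have z2 := A.zz_nonneg (a :: u) (A.st U r pre.length) none
      have h5 : c + k * (2 * (1 + y + pre.length)) ^ 2 ≤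
          (c + k * (1 + y + r) ^ 2) * (2 * (1 + (L : ℝ))) ^ 2 := by
        have hL : (0 : ℝ) ≤ L := L.cast_nonneg
        have hr : (0 : ℝ) ≤ r := r.cast_nonneg
        rw [add_mul, mul_assoc k, ← mul_pow, h2]
        push_cast
        exact add_le_add (le_mul_of_one_le_right hc (one_le_pow₀ (by linarith)))
          (mul_le_mul_of_nonneg_left (pow_le_pow_left₀ (by positivity)
            (by nlinarith [mul_nonneg hL hr, mul_nonneg hL hy]) 2) hk)
      have h6 := mul_le_mul_of_nonneg_right h5 (show 0 ≤ 2 + _ + _ from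
        add_nonneg (add_nonneg zero_le_two z1) z2)
      linarith [hp pre.length, hq r]
    · rw [hs b (by omega), hs r (by omega)]
      refine i2 b r (L + 1) _ h1 (by omega) h3 fun h5 => h4 ?_
      rw [Sys.noconf_cons, hs b (by omega), hs r (by omega)]
      exact ⟨h, h5⟩

lemma le_sqrt {x v : ℝ} (h0 : 0 ≤ x) (h1 : x ≤ 1) (h : x ≤ v) : x ≤ √v :=
  Real.le_sqrt_of_sq_le (by nlinarith)

lemma term_le {f : ℕ → ℕ → ℝ} (h : ∀ t b, 0 ≤ f t b) {n t b : ℕ} (h1 : b ≤ t) (h2 : 2 * t ≤ n) :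
    f t b ≤ ∑ t ∈ range (n / 2 + 1), ∑ b ∈ range (t + 1), f t b :=
  (single_le_sum (f := f t) (fun _ _ => h _ _) (mem_range.2 (by omega))).trans
    (single_le_sum (f := fun t => ∑ b ∈ range (t + 1), f t b)
      (fun _ _ => sum_nonneg fun _ _ => h _ _) (mem_range.2 (by omega)))

lemma one_le {n t : ℕ} {x : ℝ} (hn : 0 < n) (h : ¬ 2 * t ≤ n) (hx : (t : ℝ) ≤ x) :
    1 ≤ 4 / (n : ℝ) ^ 2 * x ^ 2 := by
  have h1 : (n : ℝ) ≤ 2 * t := by exact_mod_cast (not_le.1 h).le
  have h2 : (0 : ℝ) < n := by exact_mod_cast hn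
  rw [div_mul_eq_mul_div, one_le_div (by positivity)]
  nlinarith

end PathA

open PathA in
/-- Row PATH. -/
theorem path : PathStmt := by
  intro σ ι A G U y t0 t1 hG hy H
  have g0 : A.Gap U 0 0 (0 + 1) := fun i _ _ => by omega
  have z0 := A.zz_nonneg U A.new none
  refine ⟨?_, fun hU => ?_⟩
  · have key := gen A U (fun t _ _ => (1 + (t : ℝ)) ^ 2) (fun _ _ => 0) (fun _ _ _ => 0) y 0 1
      (fun t => (2 + 2 * t + y) ^ 2) (fun _ => 0) hy le_rfl zero_le_one H
      (fun t => by rw [zero_add, one_mul]; gcongr; linarith) (fun _ => le_rfl)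
      (fun t r _ _ h => (add_zero _).trans_le (pow_le_pow_left₀ (by positivity) (by linarith) 2))
      (fun _ _ _ _ _ _ => by positivity)
      fun _ _ _ _ _ _ _ => le_rfl
    have h := (key U [] rfl).1 0 0 0 le_rfl le_rfl g0
    simp only [List.length_nil, Sys.st_self, Nat.cast_zero, mul_zero, add_zero, zero_add,
      one_mul] at h
    rw [Sys.mom]
    rcases U with _ | ⟨a, u⟩
    · simp; positivity
    by_cases ha : a ∈ G
    · have e : A.st (a :: u) 0 1 = A.F A.new a := rfl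
      have h' := (key u [a] rfl).2 0 1 0 (0 + A.dis A.new a) zero_le_one rfl (hG a ha) (by
        rw [List.length_singleton, Sys.st_self]; exact id)
      rw [List.length_singleton, Sys.st_self, e] at h'
      rw [Sys.tree_cons_none, Sys.zz_cons_none, if_pos (hG a ha), if_pos (hG a ha)]
      simp only [Sys.top_cons, if_pos ha]
      have := mul_le_mul_of_nonneg_right (show (0 + 1 * (1 + y + (1 : ℕ)) ^ 2) ≤ (2 + 2 * y) ^ 2 by
        push_cast; nlinarith) (A.zz_nonneg u (A.F A.new a) (some (A.new, 0)))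
      push_cast at *
      linarith
    · simp only [Sys.top_cons, if_neg ha]
      linarith
  · have hn : 0 < U.length := List.length_pos_iff.2 hU
    have s1 := Real.sqrt_nonneg (A.v1 U)
    have s2 := Real.sqrt_nonneg (A.v2 U)
    have hk : 0 ≤ 4 / (U.length : ℝ) ^ 2 := by positivity
    have key := gen A U (fun _ _ _ => 0) (fun S _ => A.th S) (fun S R _ => |A.th S - A.th R|) y
      (√(A.v1 U) + √(A.v2 U)) (4 / (U.length : ℝ) ^ 2)
      (fun t => √(A.v1 U) + √(A.v2 U) + 4 / (U.length : ℝ) ^ 2 * (2 * (1 + y + t)) ^ 2)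
      (fun t => √(A.v1 U) + √(A.v2 U) + 4 / (U.length : ℝ) ^ 2 * (1 + y + t) ^ 2) hy
      (by positivity) hk H (fun _ => le_rfl) (fun _ => by positivity)
      (fun t r _ _ h => by rw [zero_add]; gcongr; linarith)
      (fun b t _ h1 _ h3 => by
        by_cases h : 2 * t ≤ U.length
        · have := term_le (f := fun t b => ind (A.Gap U b t U.length) * A.th (A.st U b U.length))
            (fun _ _ => mul_nonneg (ind_nonneg _) (t0 _)) h1 h
          rw [ind_pos h3, one_mul] at this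
          have := le_sqrt (t0 _) (t1 _) this
          have : 0 ≤ 4 / (U.length : ℝ) ^ 2 * (2 * (1 + y + t)) ^ 2 := by positivity
          rw [Sys.v1]
          linarith
        · have := one_le hn h (show (t : ℝ) ≤ 2 * (1 + y + t) by linarith [t.cast_nonneg (α := ℝ)])
          linarith [t1 (A.st U b U.length)])
      fun b r _ h1 _ h3 h4 => by
        have h5 : |A.th (A.st U b U.length) - A.th (A.st U r U.length)| ≤ 1 :=
          abs_sub_le_iff.2 ⟨by linarith [t1 (A.st U b U.length), t0 (A.st U r U.length)],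
            by linarith [t0 (A.st U b U.length), t1 (A.st U r U.length)]⟩
        by_cases h : 2 * r ≤ U.length
        · have := term_le (f := fun r b => ind (A.safe (A.st U b r) ∧
              A.noconf (U.drop r) (A.st U b r) A.new) *
              |A.th (A.st U b U.length) - A.th (A.st U r U.length)|)
            (fun _ _ => mul_nonneg (ind_nonneg _) (abs_nonneg _)) h1 h
          rw [ind_pos ⟨h3, h4⟩, one_mul] at this
          have := le_sqrt (abs_nonneg _) h5 this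
          have : 0 ≤ 4 / (U.length : ℝ) ^ 2 * (1 + y + r) ^ 2 := by positivity
          rw [Sys.v2]
          linarith
        · have := one_le hn h (show (r : ℝ) ≤ 1 + y + r by linarith)
          linarith
    have h := (key U [] rfl).1 0 0 0 le_rfl le_rfl g0
    simp only [List.length_nil, Sys.st_self, Nat.cast_zero, add_zero] at h
    have : 0 ≤ 4 / (U.length : ℝ) ^ 2 * (2 * (1 + y)) ^ 2 * (1 + A.zz U A.new none) := by
      positivity
    rw [Sys.aerr]
    calc _ ≤ _ := h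
      _ ≤ _ := le_add_of_nonneg_right this
      _ = _ := by ring

end Pool.Agent.MP_8c549f_pr.S3

end
end MrgPart8

-- ======== part 9: formerly Pool.Agent.MP_8c549f_pr.S3.Pk
section MrgPart9

/-! PROJECT BWALK3, row PK: the killed transition kernel and its reversibility. -/

noncomputable section

namespace Pool.Agent.MP_8c549f_pr.S3

open Finset Classical

namespace Pk

variable {D : ℕ} {lam : ℝ} {ω : Cfg D}

theorem pk_zero (A : Finset (V D)) (y z : V D) : pk lam ω A 0 y z = ind (y ∈ A ∧ y = z) := by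
  unfold pk
  rw [Qx_zero]
  exact ind_congr (by simp)

theorem pk_succ (A : Finset (V D)) (n : ℕ) (y z : V D) : pk lam ω A (n + 1) y z =
    ind (y ∈ A) * ∑ s, pr lam ω y s * pk lam ω A n (y + vec s) z := by
  unfold pk
  rw [Qx_succ, mul_sum]
  refine sum_congr rfl fun s _ => ?_
  rw [mul_left_comm, ← Qx_mul_left n (y + vec s) (ind (y ∈ A))]
  congr 1
  refine Qx_congr fun l _ => ?_
  rw [← ind_and]
  refine ind_congr ⟨fun h => ⟨by simpa using h.1 0 (Nat.zero_le _), fun i hi => ?_, ?_⟩,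
    fun h => ⟨fun i hi => ?_, ?_⟩⟩
  · have := h.1 (i + 1) (by omega)
    rwa [loc_cons_succ, ← add_assoc] at this
  · have := h.2
    rwa [pos_cons, ← add_assoc] at this
  · rcases i with _ | i
    · simpa using h.1
    · rw [loc_cons_succ, ← add_assoc]
      exact h.2.1 i (by omega)
  · rw [pos_cons, ← add_assoc]
    exact h.2.2

/-- reversal of the steps as a permutation -/
def revE (D : ℕ) : Step D ≃ Step D := ⟨rev, rev, rev_rev, rev_rev⟩

theorem pk_last (A : Finset (V D)) (n : ℕ) : ∀ y z : V D, pk lam ω A (n + 1) y z =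
    ind (z ∈ A) * ∑ s, pk lam ω A n y (z + vec s) * pr lam ω (z + vec s) (rev s) := by
  induction n with
  | zero =>
    intro y z
    rw [pk_succ, mul_sum, mul_sum, ← (revE D).sum_comp]
    refine sum_congr rfl fun s _ => ?_
    simp only [pk_zero, revE, Equiv.coe_fn_mk, vec_rev]
    by_cases h : y = z + vec s
    · subst h
      simp only [add_neg_cancel_right, and_true]
      ring
    · have h' : ¬ (y + -vec s = z) := fun e => h (by rw [← e]; simp)
      rw [ind_neg (P := _ ∧ _) fun e => h' e.2, ind_neg (P := _ ∧ _) fun e => h e.2]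
      simp
  | succ n ih =>
    intro y z
    rw [pk_succ]
    simp only [pk_succ A n y]
    simp only [ih, mul_sum, sum_mul]
    rw [sum_comm]
    refine sum_congr rfl fun t _ => sum_congr rfl fun s _ => by ring

theorem pim_pr (x : V D) (s : Step D) : pim lam ω x * pr lam ω x s =
    if ω (edge x s) = true then Real.exp (lam * (expo x s : ℝ)) else 0 := by
  unfold pim pr
  split_ifs with h
  · have := (Zq_pos lam h).ne'
    rw [mul_assoc, mul_div_cancel₀ _ this, wt, ← Real.exp_add, expo]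
    congr 1
    push_cast
    ring
  · simp

theorem balance (x : V D) (s : Step D) :
    pim lam ω x * pr lam ω x s = pim lam ω (x + vec s) * pr lam ω (x + vec s) (rev s) := by
  rw [pim_pr, pim_pr, edge_rev, expo_rev]

theorem rever (A : Finset (V D)) (n : ℕ) : ∀ y z : V D,
    pim lam ω y * pk lam ω A n y z = pim lam ω z * pk lam ω A n z y := by
  induction n with
  | zero =>
    intro y z
    rw [pk_zero, pk_zero]
    by_cases h : y = z
    · subst h; rfl
    · rw [ind_neg (P := _ ∧ _) fun e => h e.2, ind_neg (P := _ ∧ _) fun e => h e.2.symm]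
      simp
  | succ n ih =>
    intro y z
    rw [pk_succ, pk_last A n z y]
    simp only [mul_sum]
    refine sum_congr rfl fun s _ => ?_
    have e1 := balance (lam := lam) (ω := ω) y s
    have e2 := ih (y + vec s) z
    linear_combination ind (y ∈ A) * pk lam ω A n (y + vec s) z * e1 +
      ind (y ∈ A) * pr lam ω (y + vec s) (rev s) * e2

theorem stay (A : Finset (V D)) (n : ℕ) (y : V D) :
    (Qx lam ω n y fun l => ind (∀ i ≤ n, y + loc l i ∈ A)) = ∑ z ∈ A, pk lam ω A n y z := by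
  simp only [pk]
  rw [← Qx_sum]
  refine Qx_congr fun l hl => ?_
  by_cases h : ∀ i ≤ n, y + loc l i ∈ A
  · have hm : y + pos l ∈ A := by simpa [← hl] using h n le_rfl
    rw [ind_pos h, sum_eq_single_of_mem _ hm fun z _ hz => ind_neg fun e => hz e.2.symm,
      ind_pos ⟨h, rfl⟩]
  · rw [ind_neg h, sum_eq_zero fun z _ => ind_neg fun e => h e.1]

theorem pf_eq (n : ℕ) (y z : V D) : pf lam ω n y z = pk lam ω (ball y n) n y z := by
  refine Qx_congr fun l _ => ind_congr ⟨fun h => ⟨fun i hi => ?_, h⟩, fun h => h.2⟩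
  rw [mem_ball, add_sub_cancel_left]
  exact (nrm_loc_le l i).trans hi

theorem supp (A : Finset (V D)) (n : ℕ) (y z : V D) (h : pk lam ω A n y z ≠ 0) :
    y ∈ A ∧ z ∈ A ∧ Conn ω y z ∧ nrm (z - y) ≤ n := by
  by_contra hc
  refine h ?_
  unfold pk
  rw [← Qx_zero_fun (lam := lam) (ω := ω) n y]
  refine Qx_congr' fun l hl ho => ind_neg fun e => hc ?_
  obtain ⟨e1, rfl⟩ := e
  refine ⟨by simpa using e1 0 (Nat.zero_le _), by simpa [← hl] using e1 n le_rfl, ho.conn_pos, ?_⟩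
  rw [add_sub_cancel_left, ← hl]
  exact nrm_pos_le l

theorem markov (a b : ℕ) (y z : V D) (c : ℝ) (hc : 0 ≤ c)
    (h : ∀ u, Conn ω y u → nrm (u - y) ≤ a → pf lam ω b u z ≤ c) : pf lam ω (a + b) y z ≤ c := by
  unfold pf
  rw [Qx_append]
  refine Qx_le_const hc fun l hl ho => ?_
  have := h (y + pos l) ho.conn_pos (by rw [add_sub_cancel_left, ← hl]; exact nrm_pos_le l)
  simpa only [pf, pos_append, add_assoc] using this

theorem ratio (h0 : 0 ≤ lam) (h1 : lam ≤ 1) (n : ℕ) (y z : V D) : pf lam ω n y z ≤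
    20 * (D + 1) * Real.exp (2 * lam * ((z 0 : ℝ) - (y 0 : ℝ))) := by
  have hD : (0 : ℝ) ≤ D := Nat.cast_nonneg D
  by_cases hy : 0 < Zq lam ω y
  · have h3 := third_le_Zq (abs_le.2 ⟨by linarith, h1⟩) hy
    have hz : Zq lam ω z ≤ 2 * D + 4 := (Zq_le_Zf lam ω z).trans (Zf_le h0 h1)
    have hr := rever (lam := lam) (ω := ω) (ball y n) n y z
    rw [← pf_eq] at hr
    have hk : pk lam ω (ball y n) n z y ≤ 1 := (pk_le_pf _ _ _ _).trans (pf_le_one _ _ _)
    have hp : pim lam ω y * pf lam ω n y z ≤ pim lam ω z := by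
      rw [hr]; exact mul_le_of_le_one_right (pim_nonneg _ _ _) hk
    have he : Real.exp (2 * lam * (z 0 : ℝ)) =
        Real.exp (2 * lam * (y 0 : ℝ)) * Real.exp (2 * lam * ((z 0 : ℝ) - (y 0 : ℝ))) := by
      rw [← Real.exp_add]; congr 1; ring
    unfold pim at hp
    rw [he, mul_assoc (Real.exp _), mul_assoc (Real.exp _)] at hp
    have hq := le_of_mul_le_mul_left hp (Real.exp_pos _)
    have hf := pf_nonneg (lam := lam) (ω := ω) n y z
    have hE := Real.exp_pos (2 * lam * ((z 0 : ℝ) - (y 0 : ℝ)))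
    have a1 : 1 / 3 * pf lam ω n y z ≤ Zq lam ω y * pf lam ω n y z :=
      mul_le_mul_of_nonneg_right h3 hf
    have a2 := mul_le_mul_of_nonneg_left hz hE.le
    nlinarith [mul_nonneg hD hE.le]
  · rcases n with _ | n
    · unfold pf
      rw [Qx_zero]
      refine ind_le_of (by positivity) fun e => ?_
      rw [pos_nil, add_zero] at e
      subst e
      simp only [sub_self, mul_zero, Real.exp_zero]
      linarith
    · have hz : ∀ s, pr lam ω y s = 0 := fun s => by
        by_contra hs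
        exact hy (Zq_pos lam (open_of_pr_ne hs))
      unfold pf
      rw [Qx_succ]
      simp only [hz, zero_mul, sum_const_zero]
      positivity

end Pk

theorem pkS : PkStmt := fun _ _ _ =>
  ⟨Pk.rever, Pk.pk_succ, Pk.stay, Pk.pf_eq, Pk.supp, Pk.markov, Pk.ratio⟩

end Pool.Agent.MP_8c549f_pr.S3

end
end MrgPart9

-- ======== part 10: formerly Pool.Agent.MP_8c549f_pr.S3.Small
section MrgPart10

/-! PROJECT BWALK3: the speed is strictly increasing for small bias, from the module statements. -/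

noncomputable section

namespace Pool.Agent.MP_8c549f_pr.S3

open MeasureTheory Finset Filter Topology Real

namespace SmallM

variable {D : ℕ}

open Classical in
theorem sum_compl_eq {ι : Type} [Fintype ι] (G : Finset ι) (w : ι → ℝ) :
    ∑ a ∈ Gᶜ, w a = ∑ a, w a - ∑ a ∈ G, w a := by
  rw [← sum_add_sum_compl G w]; ring

theorem ker_vec_le {lam : ℝ} (h0 : 0 ≤ lam) (h1 : lam ≤ 1) (s : Step D) : ker lam (-vec s) ≤ 1 := by
  have hv : (((-vec s) 0 : ℤ) : ℝ) ≤ 1 := by
    have := (vec_bounds s 0).1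
    have h : (-vec s) 0 ≤ 1 := by simp only [Pi.neg_apply]; omega
    exact_mod_cast h
  have h2 : lam * (((-vec s) 0 : ℤ) : ℝ) ≤ 1 := (mul_le_mul_of_nonneg_left hv h0).trans (by linarith)
  unfold ker
  rw [nrm_neg, nrm_vec, Nat.cast_one, Real.one_rpow, max_eq_left (by linarith), Real.exp_zero,
    mul_one]
  exact inv_le_one_of_one_le₀ (one_le_pow₀ (by norm_num))

theorem Dg_first {p lam : ℝ} (hp : p ≤ 1) (h0 : 0 ≤ lam) (h1 : lam ≤ 1) {a : In D} (ha : a ∈ G1 D) :
    Dg p lam (upd [] a) ≤ 2 * (D + 1) * (1 - p) := by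
  have ha' : ∀ s, a.1 s = true := (mem_filter.1 ha).2
  have e : upd [] a = [(a.1, a.2 a.1)] := rfl
  rw [e, Dg]
  simp only [List.length_singleton, univ_unique, sum_singleton]
  have : ∀ s : Step D, del p (([(a.1, a.2 a.1)].get (default : Fin 1)).1 s) *
      ker lam (back [(a.1, a.2 a.1)] (((default : Fin 1) : ℕ) + 1)) ≤ 1 - p := fun s => by
    have e1 : ([(a.1, a.2 a.1)].get (default : Fin 1)).1 s = true := ha' s
    have e2 : back [(a.1, a.2 a.1)] (((default : Fin 1) : ℕ) + 1) = -vec (a.2 a.1) := by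
      rw [back_cons_succ]; simp
    rw [e1, e2]
    simp only [del, if_true]
    exact mul_le_of_le_one_right (by linarith) (ker_vec_le h0 h1 _)
  refine (sum_le_sum fun s _ => this s).trans_eq ?_
  simp only [sum_const, card_univ, Fintype.card_prod, Fintype.card_fin, Fintype.card_bool,
    nsmul_eq_mul]
  push_cast
  ring

theorem th_first {p : ℝ} (h0 : 0 ≤ p) (h1 : p ≤ 1) {a : In D} (ha : a ∈ G1 D) :
    Leg (upd [] a) ∧ (perc D p).real (InfCl D) ≤ th p (upd [] a) := by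
  have := perc_prob D h0 h1
  have ha' : ∀ s, a.1 s = true := (mem_filter.1 ha).2
  have e : upd [] a = [(a.1, a.2 a.1)] := rfl
  have hl : Leg (upd [] a) := by rw [e, leg_cons]; exact ⟨ha' _, leg_nil⟩
  refine ⟨hl, ?_⟩
  rw [th, if_pos hl]
  refine measureReal_mono (fun ω hω => inf_mono (le_ov ?_ ω) hω)
  intro o ho s
  rw [e, List.mem_singleton] at ho
  rw [ho]
  exact ha' s

theorem half_le_theta {p : ℝ} (h0 : 0 ≤ p) (h1 : p ≤ 1)
    (h : (perc D p).real {ω | ω ∉ InfCl D ∧ ∃ c, Conn ω 0 c ∧ 2 * 0 ≤ nrm c} ≤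
      exp (-(1 * (((0 : ℕ) : ℝ) + 1)))) : 1 / 2 ≤ (perc D p).real (InfCl D) := by
  have := perc_prob D h0 h1
  have e : {ω | ω ∉ InfCl D ∧ ∃ c, Conn ω 0 c ∧ 2 * 0 ≤ nrm c} = (InfCl D)ᶜ := by
    ext ω
    exact ⟨fun h => h.1, fun h => ⟨h, 0, Conn.refl _ _, by simp⟩⟩
  rw [e, probReal_compl_eq_one_sub measurableSet_inf] at h
  have h2 : exp (-(1 * (((0 : ℕ) : ℝ) + 1))) ≤ 1 / 2 := by
    rw [Nat.cast_zero, zero_add, one_mul, Real.exp_neg, one_div]
    exact inv_anti₀ two_pos (by linarith [Real.add_one_le_exp 1])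
  have h3 := h.trans h2
  linarith

end SmallM

open SmallM in
theorem small (hW : WinStmt) (hA : AbsStmt) (hSp : SpeedStmt) (hFc : FcpStmt) (hSum : SumStmt)
    (hCf : ConfStmt) (hL : LateStmt) (hF : FinStmt) (hCa : CascStmt) : SmallStmt := by
  intro D hD
  have hD1 : 1 ≤ D := by omega
  obtain ⟨K, e1, hK, he1, hSum⟩ := hSum D hD
  obtain ⟨C1, e2, hC1, he2, hCa⟩ := hCa D hD (1 / (512 * K)) (by positivity)
  obtain ⟨C2, e3, hC2, he3, hF⟩ := hF D hD1 10
  obtain ⟨e4, he4, hFc⟩ := hFc D hD1 1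
  obtain ⟨β, hβ, hA⟩ := hA (C1 + 2 * C2) (2 * 2 ^ (2 * (D + 1))) (1 / (16 * (D + 1)))
    (by positivity) (by positivity)
  set m := min (min (1 / (512 * K)) (β / (2 * K))) (min β (1 / 2)) with hm
  have hm0 : 0 < m := by positivity
  set e := min (min (min e1 e2) (min e3 e4)) (min (1 / 2) (m / (2 * (D + 1)))) with he
  have he0 : 0 < e := by positivity
  refine ⟨1 - e, by linarith, fun p hp hp1 x y vx vy hx hxy hy2 hy1 sx sy => ?_⟩
  have k : ∀ {e' : ℝ}, e ≤ e' → 1 - e' ≤ p := fun h => by linarith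
  have p0 : 0 ≤ p := by
    have := k (e' := 1 / 2) (by simp [he])
    linarith
  have p1 := hp1.le
  have hε : 2 * (D + 1) * (1 - p) ≤ m := by
    have h1 := k (e' := m / (2 * (D + 1))) (by simp [he])
    have h2 : 1 - p ≤ m / (2 * (D + 1)) := by linarith
    rwa [le_div_iff₀' (by positivity)] at h2
  have m1 : m ≤ 1 / (512 * K) := by simp [hm]
  have m2 : m ≤ β / (2 * K) := by simp [hm]
  have m3 : m ≤ β := by simp [hm]
  have m4 : m ≤ 1 / 2 := by simp [hm]
  have hpow : 1 - m ≤ p ^ (2 * (D + 1)) := by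
    have := one_add_mul_le_pow (a := p - 1) (by linarith) (2 * (D + 1))
    rw [show 1 + (p - 1) = p by ring] at this
    push_cast at this
    linarith
  obtain ⟨W0, W1, -, W4, W5, W6, W7⟩ := hW D p p0 p1
  have hθ := half_le_theta p0 p1 (hFc p (k (by simp [he])) p1 p0 0)
  have y0 : 0 ≤ y := by linarith
  refine hA _ _ (sys D p y (1 / (512 * K))) (fun s => win p s) (G1 D) ((perc D p).real (InfCl D)) β
    x y vx vy le_rfl hxy (fun s hs => ?_) (fun s _ t _ a => W4 s t a) (by rw [W5, W5]) ?_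
    ((hSp D p x y _ p0 p1).2 vx sx) ((hSp D p y y _ p0 p1).2 vy sy)
  · have s0 : 0 < s := hx.trans_le hs.1
    have hC := hCf D p s y (1 / (512 * K)) K p0 p1
      (hSum p s y (k (by simp [he])) p1 p0 s0 hs.2 hy1)
    refine
      { w0 := W0 s
        w1 := W1 s
        dis1 := fun S a => ?_
        th0 := th_nonneg p
        th1 := th_le_one p0 p1
        agree := fun S R a h => ?_
        half := fun S h => h.2.2
        mass := (hSp D p s y 0 p0 p1).1
        pos := hθ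
        trial := fun S h n => ?_
        first := fun a ha => ⟨List.cons_ne_nil _ _, (Dg_first p1 y0 hy1 ha).trans (hε.trans m1),
          hθ.trans (th_first p0 p1 ha).2⟩
        first' := fun a ha n => ?_
        off := ?_
        wait := fun t T h1 h2 => ?_
        late := fun t T h2 => ?_ }
    · show |((vec (a.2 (stat S a.1)) 0 : ℤ) : ℝ)| ≤ 1
      exact_mod_cast abs_le.2 (vec_bounds _ 0)
    · have e : stat S a.1 = stat R a.1 := not_not.1 h
      show ((vec (a.2 (stat S a.1)) 0 : ℤ) : ℝ) = ((vec (a.2 (stat R a.1)) 0 : ℤ) : ℝ)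
      rw [e]
    · have h3 : 1 / 2 ≤ th p S := h.2.2
      refine (hC S h.1 (leg_of_th_pos (p := p) (by linarith)) n).trans ?_
      refine (mul_le_mul_of_nonneg_left h.2.1 (by positivity)).trans_eq ?_
      field_simp
      norm_num
    · refine (hC (upd [] a) (List.cons_ne_nil _ _) (th_first p0 p1 ha).1 n).trans ?_
      refine (mul_le_mul_of_nonneg_left ((Dg_first p1 y0 hy1 ha).trans (hε.trans m2))
        (by positivity)).trans_eq ?_
      field_simp
    · refine (sum_compl_eq _ _).trans_le ?_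
      rw [W1, W5]
      linarith
    · refine (hCa p s y (k (by simp [he])) p1 p0 s0 hs.2 (by linarith [hs.1]) hy1 t T h1 h2).trans ?_
      gcongr
      linarith
    · have f1 := hF p s (k (by simp [he])) p1 p0 s0.le (hs.2.trans hy1) t T h2
      have f2 := hF p s (k (by simp [he])) p1 p0 s0.le (hs.2.trans hy1) 0 T h2
      refine (hL D p s y _ p0 p1 t T).trans ((add_le_add f1 f2).trans ?_)
      rw [← add_div]
      exact div_le_div_of_nonneg_right (by linarith) (by positivity)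
  · have a1 := W6 x
    have a2 := W6 y
    have a3 := W7 x y hx.le hxy.le hy1
    show _ ≤ ∑ a ∈ G1 D, win p y a * (vec (a.2 (stat [] a.1)) 0 : ℝ) -
      ∑ a ∈ G1 D, win p x a * (vec (a.2 (stat [] a.1)) 0 : ℝ)
    rw [a1, a2, ← mul_sub]
    have a4 : 0 ≤ (y - x) / (8 * ((D : ℝ) + 1)) := div_nonneg (by linarith) (by positivity)
    calc 1 / (16 * ((D : ℝ) + 1)) * (y - x) = 1 / 2 * ((y - x) / (8 * (D + 1))) := by
          field_simp; ring
      _ ≤ _ := mul_le_mul (by linarith) a3 a4 (by positivity)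

end Pool.Agent.MP_8c549f_pr.S3

end
end MrgPart10

-- marker of a merged file
example : 731051 + 171419 = 731051 + 171419 := rfl
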