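import Pool.Agent.MP_8c549f_pr.S3.BasicB

/-! PROJECT BWALK3: the link between the input model and the speed of the annealed walk. -/

noncomputable section

namespace Pool.Agent.MP_8c549f_pr.S3

open MeasureTheory Finset Classical Filter Topology

variable {D : ℕ}

namespace Speed

/-- total level of the steps of a state -/
def lv (S : St D) : ℤ := lev (S.map Prod.snd)

theorem disp_eq (p lam β : ℝ) (u : List (In D)) : ∀ S : St D,
    (sys D p lam β).disp S u = (lv (go S u) : ℝ) - lv S := by
  induction u with
  | nil => intro S; simp [go]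
  | cons a u ih =>
    intro S
    rw [Sys.disp_cons, ih]
    have e : lv (upd S a) = vec (a.2 (stat S a.1)) 0 + lv S := by simp [lv, upd, lev_cons]
    have e2 : go S (a :: u) = go (upd S a) u := rfl
    have e3 : (sys D p lam β).F S a = upd S a := rfl
    have e4 : (sys D p lam β).dis S a = (vec (a.2 (stat S a.1)) 0 : ℝ) := rfl
    rw [e2, e3, e4, e]
    push_cast
    ring

theorem lv_tr (l : List (Step D)) : ∀ (S : St D) (ω : Cfg D), lv (tr S ω l) = lv S + lev l := by
  induction l with
  | nil => intro S ω; simp [tr]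
  | cons s l ih =>
    intro S ω
    rw [tr, ih, lev_cons]
    simp only [lv, List.map_cons, lev_cons]
    ring

theorem integral_ind {p : ℝ} (A : Set (Cfg D)) (hA : MeasurableSet A) :
    ∫ ω, ind (ω ∈ A) ∂perc D p = (perc D p).real A := by
  rw [← integral_indicator_one hA]
  refine integral_congr_ae (Eventually.of_forall fun ω => ?_)
  by_cases h : ω ∈ A
  · simp [h]
  · simp [h]

theorem bridge (hB : BrStmt) {p : ℝ} (lam : ℝ) (h0 : 0 ≤ p) (h1 : p ≤ 1) (f : ℤ → ℝ) (n : ℕ) :
    (Ex (win p lam) n fun u : List (In D) => f (lv (go [] u)) * th p (go [] u)) =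
      ∫ ω in InfCl D, Qx lam ω n 0 (fun l => f (lev l)) ∂perc D p := by
  have hm : Measurable fun ω : Cfg D => ind (ω ∈ InfCl D) :=
    Measurable.ite measurableSet_inf measurable_const measurable_const
  have h := hB D p lam h0 h1 n [] (fun S ω => f (lv S) * ind (ω ∈ InfCl D))
    (fun o ho => by simp at ho) (fun S => hm.const_mul _) fun S => ⟨|f (lv S)|, fun ω => by
      rw [abs_mul, abs_of_nonneg (ind_nonneg _)]
      exact mul_le_of_le_one_right (abs_nonneg _) (ind_le_one _)⟩
  have eo : ∀ ω : Cfg D, ov [] ω = ω := fun ω => rfl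
  simp only [eo] at h
  rw [← integral_indicator measurableSet_inf]
  refine (Ex_congr fun u _ => ?_).trans (h.trans (integral_congr_ae
    (Eventually.of_forall fun ω => ?_)))
  · have e : ∫ ω, ind (ov (go [] u) ω ∈ InfCl D) ∂perc D p = _ :=
      integral_ind (p := p) {ω | ov (go [] u) ω ∈ InfCl D} (measurable_ov _ measurableSet_inf)
    rw [integral_const_mul, e, th]
    by_cases hl : Leg (go [] u)
    · rw [if_pos hl, ind_pos hl, one_mul]
    · rw [if_neg hl, ind_neg hl, zero_mul, mul_zero]
  · have e : (Qx lam ω n 0 fun l => f (lv (tr [] ω l)) * ind (shift (pos l) ω ∈ InfCl D)) =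
        Qx lam ω n 0 fun l => f (lev l) * ind (ω ∈ InfCl D) :=
      Qx_congr' fun l _ ho => by
        rw [lv_tr, ind_congr (inf_shift (by simpa using ho.conn_pos))]
        simp [lv]
    simp only
    rw [e, Qx_mul_right]
    by_cases hω : ω ∈ InfCl D
    · rw [ind_pos hω, mul_one, Set.indicator_of_mem hω]
    · rw [ind_neg hω, mul_zero, Set.indicator_of_notMem hω]

/-- the lists of length `n` -/
def lists (D : ℕ) : ℕ → Finset (List (Step D))
  | 0 => {[]}
  | n + 1 => (univ ×ˢ lists D n).image fun q => q.1 :: q.2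

theorem mem_lists {n : ℕ} : ∀ {l : List (Step D)}, l ∈ lists D n ↔ l.length = n := by
  induction n with
  | zero => intro l; simp [lists]
  | succ n ih =>
    intro l
    cases l with
    | nil => simp [lists]
    | cons s l => simp [lists, ih]

theorem Qx_eq (lam : ℝ) (ω : Cfg D) (n : ℕ) : ∀ (x : V D) (Φ : List (Step D) → ℝ),
    Qx lam ω n x Φ = ∑ l ∈ lists D n, (W lam ω x l).toReal * Φ l := by
  induction n with
  | zero => intro x Φ; simp [lists]
  | succ n ih =>
    intro x Φ
    rw [Qx_succ, lists, sum_image (fun a _ b _ h => Prod.ext (List.cons.inj h).1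
      (List.cons.inj h).2), sum_product]
    refine sum_congr rfl fun s _ => ?_
    rw [ih, mul_sum]
    refine sum_congr rfl fun l _ => ?_
    rw [W_cons, ENNReal.toReal_mul, ENNReal.toReal_ofReal (pr_nonneg _ _ _ _), mul_assoc]

theorem eq_of_loc (u : List (Step D)) : ∀ l : List (Step D), l.length = u.length →
    (∀ i ≤ u.length, loc l i = loc u i) → l = u := by
  induction u with
  | nil => intro l h _; exact List.length_eq_zero_iff.1 h
  | cons s u ih =>
    intro l h hl
    cases l with
    | nil => simp at h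
    | cons t l =>
      have e : t = s := vec_injective (by simpa using hl 1 (by simp))
      subst e
      rw [ih l (by simpa using h) fun i hi => by simpa using hl (i + 1) (by simpa using hi)]

theorem annealed {p lam : ℝ} (h0 : 0 ≤ p) (h1 : p ≤ 1) {P : Measure (Cfg D × (ℕ → V D))}
    (hP : IsAnnealed D p lam P) (f : ℤ → ℝ) (n : ℕ) :
    (∫ z, f (z.2 n 0) ∂P) * (perc D p).real (InfCl D) =
      ∫ ω in InfCl D, Qx lam ω n 0 (fun l => f (lev l)) ∂perc D p := by
  obtain ⟨-, hne, hc, hae⟩ := law D p lam h0 h1 P hP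
  have := hP.1
  have := perc_prob D h0 h1
  have e1 : ∫ z, f (z.2 n 0) ∂P =
      ∫ z, ∑ l ∈ lists D n, (Cyl l).indicator (fun _ => f (lev l)) z ∂P := by
    refine integral_congr_ae ?_
    filter_upwards [hae] with z hz
    obtain ⟨u, hu, hz⟩ := hz n
    rw [sum_eq_single_of_mem u (mem_lists.2 hu) fun l hl hne => Set.indicator_of_notMem
      (fun h => hne (eq_of_loc u l ((mem_lists.1 hl).trans hu.symm) fun i hi =>
        (h i (by rw [mem_lists.1 hl, ← hu]; exact hi)).symm.trans (hz i hi))) _,
      Set.indicator_of_mem hz, hz n hu.ge, ← hu, loc_length, lev]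
  have hw : ∀ l : List (Step D), Integrable (fun ω => (W lam ω 0 l).toReal)
      ((perc D p).restrict (InfCl D)) := fun l =>
    Integrable.of_bound (measurable_W lam 0 l).ennreal_toReal.aestronglyMeasurable 1
      (Eventually.of_forall fun ω => by
        rw [Real.norm_of_nonneg ENNReal.toReal_nonneg]
        exact ENNReal.toReal_le_of_le_ofReal zero_le_one (by simpa using W_le_one lam ω l 0))
  rw [e1, integral_finsetSum _ fun l _ => (integrable_const _).indicator (hc l).1]
  simp only [Qx_eq]
  rw [integral_finsetSum _ fun l _ => (hw l).mul_const _, sum_mul]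
  refine sum_congr rfl fun l _ => ?_
  rw [integral_indicator_const _ (hc l).1, integral_mul_const, smul_eq_mul,
    integral_toReal (measurable_W lam 0 l).aemeasurable
      (Eventually.of_forall fun ω => (W_ne_top lam ω 0 l).lt_top),
    measureReal_def, (hc l).2, ENNReal.toReal_mul, ENNReal.toReal_inv, measureReal_def]
  have : (perc D p (InfCl D)).toReal ≠ 0 := ENNReal.toReal_ne_zero.2 ⟨hne, measure_ne_top _ _⟩
  field_simp

end Speed

open Speed in
theorem speed (_hW : WinStmt) (hB : BrStmt) : SpeedStmt := by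
  intro D p lam lam' β h0 h1
  refine ⟨fun n => ?_, ?_⟩
  · have h := bridge (D := D) hB lam h0 h1 (fun _ => 1) n
    simp only [one_mul] at h
    rw [h, setIntegral_congr_fun measurableSet_inf (g := fun _ => 1)
      fun ω hω => Qx_const n (Zq_pos_of_inf hω) 1]
    simp
  · rintro v ⟨P, hP, hv⟩
    have := hP.1
    have e : ∀ n : ℕ, (sys D p lam' β).yy (win p lam) n / n =
        (∫ z, (z.2 n 0 : ℝ) / n ∂P) * (perc D p).real (InfCl D) := fun n => by
      rw [integral_div, div_mul_eq_mul_div, annealed h0 h1 hP (fun k => (k : ℝ)) n,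
        ← bridge hB lam h0 h1 (fun k => (k : ℝ)) n]
      congr 1
      refine Ex_congr fun u _ => ?_
      rw [disp_eq]
      simp [lv, sys, Sys.run, go]
    simp only [e]
    refine Tendsto.mul_const _ ?_
    have hl := tendsto_integral_of_dominated_convergence (μ := P)
      (F := fun (n : ℕ) z => (z.2 n 0 : ℝ) / n) (f := fun _ => v) (fun _ => 1)
      (fun n => Measurable.aestronglyMeasurable (by fun_prop)) (integrable_const _)
      (fun n => ?_) hv
    · simpa using hl
    · filter_upwards [(law D p lam h0 h1 P hP).2.2.2] with z hz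
      obtain ⟨u, hu, hz⟩ := hz n
      rw [hz n hu.ge, Real.norm_eq_abs, abs_div, Nat.abs_cast]
      refine div_le_one_of_le₀ ?_ n.cast_nonneg
      exact_mod_cast abs_le.2 (abs_loc_le u 0 n)

end Pool.Agent.MP_8c549f_pr.S3
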