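import Mathlib.Algebra.Order.Chebyshev
import Pool.Agent.MP_8c549f_pr.S3.BasicA

/-! PROJECT BWALK3: the inequalities of Nash and Hardy, and the energy along a path. -/

noncomputable section

namespace Pool.Agent.MP_8c549f_pr.S3

open Finset Real

namespace Nash

variable {D : ℕ}

lemma sum_inj {α β : Type} [DecidableEq β] (T : Finset α) (B : Finset β) (φ : α → β)
    (hφ : Function.Injective φ) (f : β → ℝ) (h0 : ∀ x, 0 ≤ f x) (hs : ∀ x, f x ≠ 0 → x ∈ B) :
    ∑ t ∈ T, f (φ t) ≤ ∑ x ∈ B, f x := by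
  rw [← sum_image (s := T) (f := f) (g := φ) fun a _ b _ h => hφ h]
  rw [← sum_filter_ne_zero]
  exact sum_le_sum_of_subset_of_nonneg (fun x hx => hs x (mem_filter.1 hx).2) fun x _ _ => h0 x

lemma ball_mono {y x : V D} {R : ℕ} (h : x ∈ ball y R) : x ∈ ball y (R + 1) := by
  simp only [ball, Fintype.mem_piFinset, mem_Icc] at *
  intro j
  have := h j
  push_cast
  omega

lemma ball_step {y x : V D} {R : ℕ} {i : Fin (D + 1)} (h : x + Pi.single i 1 ∈ ball y R) :
    x ∈ ball y (R + 1) := by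
  simp only [ball, Fintype.mem_piFinset, mem_Icc] at *
  intro j
  have := h j
  simp only [Pi.add_apply, Pi.single_apply] at this
  push_cast
  split_ifs at this <;> omega

lemma tri {α : Type} (T : Finset α) (a b : α → ℝ) :
    √(∑ x ∈ T, (a x + b x) ^ 2) ≤ √(∑ x ∈ T, a x ^ 2) + √(∑ x ∈ T, b x ^ 2) := by
  have ha : 0 ≤ ∑ x ∈ T, a x ^ 2 := sum_nonneg fun _ _ => sq_nonneg _
  have hb : 0 ≤ ∑ x ∈ T, b x ^ 2 := sum_nonneg fun _ _ => sq_nonneg _
  have h := sum_mul_le_sqrt_mul_sqrt T a b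
  refine sqrt_le_iff.2 ⟨by positivity, ?_⟩
  have e : ∑ x ∈ T, (a x + b x) ^ 2 =
      ∑ x ∈ T, a x ^ 2 + 2 * ∑ x ∈ T, a x * b x + ∑ x ∈ T, b x ^ 2 := by
    rw [mul_sum, ← sum_add_distrib, ← sum_add_distrib]
    exact sum_congr rfl fun _ _ => by ring
  rw [e, add_sq, sq_sqrt ha, sq_sqrt hb]
  linarith

lemma shiftb (g : V D → ℝ) (T : Finset (V D)) (s : Fin (D + 1) → ℝ)
    (hs : ∀ i (a : V D), √(∑ x ∈ T, (g (x + a + Pi.single i 1) - g (x + a)) ^ 2) ≤ s i)
    (k : Fin (D + 1) → ℕ) : ∀ a : V D,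
    √(∑ x ∈ T, (g (x + a + fun j => (k j : ℤ)) - g (x + a)) ^ 2) ≤ ∑ i, (k i : ℝ) * s i := by
  have add : ∀ k k' : Fin (D + 1) → ℕ,
      (∀ a : V D, √(∑ x ∈ T, (g (x + a + fun j => (k j : ℤ)) - g (x + a)) ^ 2) ≤
        ∑ i, (k i : ℝ) * s i) →
      (∀ a : V D, √(∑ x ∈ T, (g (x + a + fun j => (k' j : ℤ)) - g (x + a)) ^ 2) ≤
        ∑ i, (k' i : ℝ) * s i) →
      ∀ a : V D, √(∑ x ∈ T, (g (x + a + fun j => ((k + k') j : ℤ)) - g (x + a)) ^ 2) ≤
        ∑ i, ((k + k') i : ℝ) * s i := by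
    intro k k' h h' a
    have h1 := h a
    have h2 := h' (a + fun j => (k j : ℤ))
    have h3 := tri T
      (fun x => g (x + (a + fun j => (k j : ℤ)) + fun j => (k' j : ℤ)) -
        g (x + (a + fun j => (k j : ℤ))))
      (fun x => g (x + a + fun j => (k j : ℤ)) - g (x + a))
    have e : ∑ i, ((k + k') i : ℝ) * s i = ∑ i, (k' i : ℝ) * s i + ∑ i, (k i : ℝ) * s i := by
      rw [← sum_add_distrib]
      exact sum_congr rfl fun i _ => by simp only [Pi.add_apply]; push_cast; ring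
    rw [e]
    refine le_trans (le_of_eq ?_) (h3.trans (add_le_add h2 h1))
    congr 1
    refine sum_congr rfl fun x _ => ?_
    have e1 : (x + a + fun j => ((k + k') j : ℤ)) =
        x + (a + fun j => (k j : ℤ)) + fun j => (k' j : ℤ) := by
      funext j
      simp only [Pi.add_apply]
      push_cast
      ring
    rw [e1, ← add_assoc x a]
    ring
  have zero : ∀ a : V D, √(∑ x ∈ T, (g (x + a + fun j => ((0 : Fin (D + 1) → ℕ) j : ℤ)) -
      g (x + a)) ^ 2) ≤ ∑ i, ((0 : Fin (D + 1) → ℕ) i : ℝ) * s i := by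
    intro a
    have : (fun j => ((0 : Fin (D + 1) → ℕ) j : ℤ)) = 0 := by funext j; simp
    rw [this]
    simp
  induction k using Pi.single_induction with
  | zero => exact zero
  | add k k' h h' => exact add k k' h h'
  | single i m =>
    induction m with
    | zero => rw [Pi.single_zero]; exact zero
    | succ m ih =>
      rw [Pi.single_add]
      refine add _ _ ih fun a => ?_
      have e1 : (fun j => (((Pi.single i 1 : Fin (D + 1) → ℕ) j : ℕ) : ℤ)) = Pi.single i 1 := by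
        funext j
        simp only [Pi.single_apply]
        split_ifs <;> simp
      have e2 : ∑ j, (((Pi.single i 1 : Fin (D + 1) → ℕ) j : ℕ) : ℝ) * s j = s i := by
        simp [Pi.single_apply]
      rw [e1, e2]
      exact hs i a

lemma last {ω : Cfg D} {B : Finset (V D)} {a b : V D} (h : OC ω B a b) :
    b = a ∨ ∃ a', Opn ω a a' ∧ a' ∈ B.erase a ∧ OC ω (B.erase a) a' b := by
  induction h with
  | refl => exact Or.inl rfl
  | @tail u v _ huv ih =>
    by_cases hv : v = a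
    · exact Or.inl hv
    · rcases ih with rfl | ⟨a', h1, h2, h3⟩
      · exact Or.inr ⟨v, huv.1, mem_erase.2 ⟨hv, huv.2⟩, Relation.ReflTransGen.refl⟩
      · exact Or.inr ⟨a', h1, h2, h3.tail ⟨huv.1, mem_erase.2 ⟨hv, huv.2⟩⟩⟩

end Nash

open Nash

theorem nash : NashStmt := by
  intro D g y R l hl hg
  set E : Fin (D + 1) → ℝ := fun i => ∑ x ∈ ball y (R + 1), (g (x + Pi.single i 1) - g x) ^ 2
    with hE
  have E0 : ∀ i, 0 ≤ E i := fun i => sum_nonneg fun _ _ => sq_nonneg _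
  set S := ∑ x ∈ ball y R, |g x| with hS
  set N := ∑ x ∈ ball y R, g x ^ 2 with hN
  have hs : ∀ i (a : V D),
      √(∑ x ∈ ball y R, (g (x + a + Pi.single i 1) - g (x + a)) ^ 2) ≤ √(E i) := by
    intro i a
    have h : ∀ x, (g (x + Pi.single i 1) - g x) ^ 2 ≠ 0 → x ∈ ball y (R + 1) := by
      intro x hx
      by_contra hn
      have h1 : g x = 0 := by_contra fun h => hn (ball_mono (hg x h))
      have h2 : g (x + Pi.single i 1) = 0 := by_contra fun h => hn (ball_step (hg _ h))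
      simp [h1, h2] at hx
    have h' := sum_inj (ball y R) (ball y (R + 1)) (fun x => x + a) (add_left_injective a)
      (fun x => (g (x + Pi.single i 1) - g x) ^ 2) (fun _ => sq_nonneg _) h
    exact Real.sqrt_le_sqrt h'
  set Q : Finset (Fin (D + 1) → ℕ) := Fintype.piFinset fun _ => range l with hQ
  have key : ∀ k ∈ Q, N ≤ (D + 1) * (l : ℝ) ^ 2 * ∑ i, E i +
      2 * ∑ x ∈ ball y R, |g x| * |g (x + fun j => (k j : ℤ))| := by
    intro k hk
    have h1 := shiftb g _ _ hs k 0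
    simp only [add_zero] at h1
    have h2 : ∑ i, (k i : ℝ) * √(E i) ≤ l * ∑ i, √(E i) := by
      rw [mul_sum]
      refine sum_le_sum fun i _ => mul_le_mul_of_nonneg_right ?_ (sqrt_nonneg _)
      have := Fintype.mem_piFinset.1 hk i
      exact_mod_cast (mem_range.1 this).le
    have h3 : (∑ i, √(E i)) ^ 2 ≤ (D + 1) * ∑ i, E i := by
      have := sq_sum_le_card_mul_sum_sq (s := (univ : Finset (Fin (D + 1)))) (f := fun i => √(E i))
      simpa [sq_sqrt (E0 _)] using this
    have h4 := (sqrt_le_iff.1 (h1.trans h2)).2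
    have h5 : N ≤ ∑ x ∈ ball y R, (g (x + fun j => (k j : ℤ)) - g x) ^ 2 +
        2 * ∑ x ∈ ball y R, |g x| * |g (x + fun j => (k j : ℤ))| := by
      rw [mul_sum, ← sum_add_distrib]
      refine sum_le_sum fun x _ => ?_
      have := le_abs_self (g x * g (x + fun j => (k j : ℤ)))
      rw [abs_mul] at this
      nlinarith [sq_nonneg (g (x + fun j => (k j : ℤ)))]
    have h6 : ((l : ℝ) * ∑ i, √(E i)) ^ 2 ≤ (D + 1) * (l : ℝ) ^ 2 * ∑ i, E i := by
      rw [mul_pow]
      nlinarith [mul_le_mul_of_nonneg_left h3 (sq_nonneg (l : ℝ))]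
    linarith
  have hsum := sum_le_sum key
  have hc : (Q.card : ℝ) = (l : ℝ) ^ (D + 1) := by simp [hQ]
  have h7 : ∑ k ∈ Q, ∑ x ∈ ball y R, |g x| * |g (x + fun j => (k j : ℤ))| ≤ S ^ 2 := by
    rw [sum_comm, sq, hS, sum_mul]
    refine sum_le_sum fun x _ => ?_
    rw [← mul_sum]
    refine mul_le_mul_of_nonneg_left ?_ (abs_nonneg _)
    refine sum_inj Q _ (fun k : Fin (D + 1) → ℕ => x + fun j => (k j : ℤ)) ?_ (fun x => |g x|)
      (fun _ => abs_nonneg _) fun x hx => hg x (by simpa using hx)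
    intro k k' h
    funext j
    have := congrFun h j
    simpa using this
  rw [sum_add_distrib, sum_const, sum_const, nsmul_eq_mul, nsmul_eq_mul, hc, ← mul_sum] at hsum
  have hl' : (0 : ℝ) < (l : ℝ) ^ (D + 1) := by positivity
  have hE' : 0 ≤ (D + 1) * (l : ℝ) ^ 2 * ∑ i, E i := by
    have := sum_nonneg fun i (_ : i ∈ univ) => E0 i
    positivity
  rw [sum_comm]
  have h8 : N - (D + 1) * (l : ℝ) ^ 2 * ∑ i, E i ≤ 2 * S ^ 2 / (l : ℝ) ^ (D + 1) := by
    rw [le_div_iff₀ hl']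
    nlinarith
  have : 2 * ((D : ℝ) + 1) * (l : ℝ) ^ 2 * ∑ i, E i = 2 * ((D + 1) * (l : ℝ) ^ 2 * ∑ i, E i) := by
    ring
  rw [this]
  linarith

theorem hardy : HardyStmt := by
  intro D g y R lam h0 h1 hg
  set F : V D → ℝ := fun x => exp (2 * lam * (x 0 : ℝ)) * g x ^ 2 with hF
  have F0 : ∀ x, 0 ≤ F x := fun x => by positivity
  have Fs : ∀ x, F x ≠ 0 → x ∈ ball y R := fun x hx => hg x fun h => hx (by simp [hF, h])
  set q := exp (-lam) with hq
  have q0 : 0 < q := exp_pos _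
  have q1 : q ≤ 1 - lam / 2 := by
    have h2 : q * exp lam = 1 := by rw [hq, ← exp_add]; simp
    have h3 := add_one_le_exp lam
    by_contra hn
    push Not at hn
    nlinarith [mul_le_mul_of_nonneg_left h3 q0.le]
  have a1 : ∑ x ∈ ball y R, F x ≤ ∑ x ∈ ball y (R + 1), F x :=
    sum_le_sum_of_subset_of_nonneg (fun x hx => ball_mono hx) fun x _ _ => F0 x
  have a2 : ∑ x ∈ ball y (R + 1), F (x + Pi.single 0 1) ≤ ∑ x ∈ ball y R, F x :=
    sum_inj _ _ (fun x => x + Pi.single 0 1) (add_left_injective _) F F0 Fs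
  have a3 : (1 - q) * ∑ x ∈ ball y (R + 1), F x -
      q * (1 - q) * ∑ x ∈ ball y (R + 1), F (x + Pi.single 0 1) ≤
      ∑ x ∈ ball y (R + 1), exp (2 * lam * (x 0 : ℝ)) * (g (x + Pi.single 0 1) - g x) ^ 2 := by
    rw [mul_sum, mul_sum, ← sum_sub_distrib]
    refine sum_le_sum fun x _ => ?_
    have e : exp (2 * lam * (x 0 : ℝ)) =
        q ^ 2 * exp (2 * lam * (((x + Pi.single 0 1 : V D) 0 : ℤ) : ℝ)) := by
      rw [hq, sq, ← exp_add, ← exp_add]
      simp only [Pi.add_apply, Pi.single_eq_same]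
      push_cast
      ring_nf
    simp only [hF]
    rw [e]
    have := mul_nonneg (mul_nonneg q0.le
      (exp_pos (2 * lam * (((x + Pi.single 0 1 : V D) 0 : ℤ) : ℝ))).le)
      (sq_nonneg (q * g x - g (x + Pi.single 0 1)))
    nlinarith
  have S0 : 0 ≤ ∑ x ∈ ball y R, F x := sum_nonneg fun x _ => F0 x
  have hq' : 0 ≤ 1 - q := by linarith
  have a4 : (1 - q) ^ 2 * ∑ x ∈ ball y R, F x ≤
      ∑ x ∈ ball y (R + 1), exp (2 * lam * (x 0 : ℝ)) * (g (x + Pi.single 0 1) - g x) ^ 2 := by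
    nlinarith [mul_le_mul_of_nonneg_left a1 hq',
      mul_le_mul_of_nonneg_left a2 (mul_nonneg q0.le hq')]
  have a5 : lam ^ 2 / 4 ≤ (1 - q) ^ 2 := by nlinarith
  rw [div_mul_eq_mul_div, le_div_iff₀ (by positivity)]
  nlinarith [mul_le_mul_of_nonneg_right a5 S0]

theorem pathE : PathEStmt := by
  intro D ω B a b g ha h
  set e : V D → ℝ := fun x =>
    ∑ s, if ω (edge x s) = true then (g (x + vec s) - g x) ^ 2 else 0 with he
  have t0 : ∀ x s, 0 ≤ (if ω (edge x s) = true then (g (x + vec s) - g x) ^ 2 else 0 : ℝ) :=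
    fun x s => by split_ifs <;> positivity
  have e0 : ∀ x, 0 ≤ e x := fun x => sum_nonneg fun s _ => t0 x s
  have key : ∀ B : Finset (V D), ∀ a ∈ B, OC ω B a b → |g b - g a| ≤ ∑ x ∈ B, √(e x) := by
    intro B
    induction B using Finset.strongInduction with
    | H B ih =>
      intro a ha h
      rcases last h with rfl | ⟨a', h1, h2, h3⟩
      · simpa using sum_nonneg fun x _ => sqrt_nonneg (e x)
      · have h4 := ih _ (erase_ssubset ha) a' h2 h3
        obtain ⟨s, rfl, hs⟩ := opn_iff.1 h1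
        have h5 : |g (a + vec s) - g a| ≤ √(e a) := by
          refine abs_le_sqrt ?_
          have := single_le_sum (fun s _ => t0 a s) (mem_univ s)
          simpa only [hs, if_true] using this
        rw [← add_sum_erase _ _ ha]
        have := abs_sub_le (g b) (g (a + vec s)) (g a)
        linarith
  have h1 := key B a ha h
  have h2 := sq_sum_le_card_mul_sum_sq (s := B) (f := fun x => √(e x))
  simp only [sq_sqrt (e0 _)] at h2
  exact (sq_le_sq' (by linarith [neg_abs_le (g b - g a)]) ((le_abs_self _).trans h1)).trans h2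

end Pool.Agent.MP_8c549f_pr.S3
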