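import Mathlib.MeasureTheory.Measure.RegularityCompacts
import Mathlib.Topology.UniformSpace.Uniformizable
import Pool.Agent.MP_8c549f_pr.S3.BasicB

/-! PROJECT BWALK3: the bridge between the inputs and the annealed law. -/

noncomputable section

namespace Pool.Agent.MP_8c549f_pr.S3

open MeasureTheory ProbabilityTheory Finset Classical

variable {D : ℕ}

namespace Br

theorem eq_of_stepOf {e : Edge D} {s : Step D} (h : stepOf e = some s) : e = edge 0 s := by
  obtain ⟨x, i⟩ := e
  unfold stepOf at h
  split_ifs at h with h1 h2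
  · obtain rfl := Option.some.inj h
    simpa using h1
  · obtain rfl := Option.some.inj h
    simpa using h2

theorem stepOf_edge (s : Step D) : stepOf (edge 0 s) = some s := by
  obtain ⟨i, g⟩ := s
  cases g
  · have : ¬ (Pi.single i 1 : V D) = 0 := fun h => by simpa using congrFun h i
    simp [stepOf, this]
  · simp [stepOf]

theorem shift_ov (S : St D) (ω : Cfg D) (s : Step D) :
    shift (vec s) (ov S ω) =
      ov ((fun s' => ov S ω (edge 0 s'), s) :: S) (shift (vec s) ω) := by
  funext e
  simp only [shift, ov, look]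
  cases h : stepOf (e.1 + vec s, e.2) with
  | none => rfl
  | some t => rw [eq_of_stepOf h]; rfl

theorem ov_dep (S : St D) (τ : Sv D) (s : Step D) :
    Dep (fun ω => ov ((τ, s) :: S) (shift (vec s) ω)) (Set.range (edge (0 : V D)))ᶜ := by
  intro ω ω' hω
  funext e
  simp only [shift, ov, look]
  cases h : stepOf (e.1 + vec s, e.2) with
  | none =>
    rw [hω]
    rintro ⟨t, ht⟩
    rw [← ht, stepOf_edge] at h
    cases h
  | some t => rfl

theorem leg_of_go (u : List (In D)) : ∀ S : St D, Leg (go S u) → Leg S := by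
  induction u with
  | nil => exact fun _ h => h
  | cons a u ih => exact fun S h o ho => ih (upd S a) h o (List.mem_cons_of_mem _ ho)

theorem meas_sig {F : Cfg D → ℝ} {S : Set (Edge D)} (hF : Measurable F) (h : Dep F S) :
    Measurable[Fac.sig S] F := by
  have e : F = F ∘ fun (ω : Cfg D) e => if e ∈ S then ω e else false := by
    funext ω
    exact h _ _ fun e he => by simp [he]
  rw [e]
  refine hF.comp (@measurable_pi_lambda _ _ _ (Fac.sig S) _ _ fun e => ?_)
  by_cases he : e ∈ S
  · simp only [if_pos he]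
    exact Measurable.of_comap_le (le_iSup₂_of_le e he le_rfl)
  · simp only [if_neg he]
    exact measurable_const

/-- independence for real functions -/
theorem int_mul {p : ℝ} (h0 : 0 ≤ p) (h1 : p ≤ 1) {F G : Cfg D → ℝ} {S T : Set (Edge D)}
    (hF : Measurable F) (hG : Measurable G) (dF : Dep F S) (dG : Dep G T) (hST : Disjoint S T) :
    ∫ ω, F ω * G ω ∂perc D p = (∫ ω, F ω ∂perc D p) * ∫ ω, G ω ∂perc D p := by
  have := ber_prob h0 h1
  have hi : iIndepFun (fun (e : Edge D) (ω : Cfg D) => ω e) (perc D p) :=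
    iIndepFun_infinitePi (X := fun _ b => b) fun _ => measurable_id
  have h2 : Indep (Fac.sig S) (Fac.sig T) (perc D p) :=
    indep_iSup_of_disjoint (fun e => (measurable_pi_apply e).comap_le) hi.iIndep hST
  have h3 : IndepFun F G (perc D p) :=
    (IndepFun_iff_Indep _ _ _).2 (indep_of_indep_of_le_right
      (indep_of_indep_of_le_left h2 (meas_sig hF dF).comap_le) (meas_sig hG dG).comap_le)
  exact h3.integral_fun_mul_eq_mul_integral hF.aestronglyMeasurable hG.aestronglyMeasurable

theorem int_shift {p : ℝ} (h0 : 0 ≤ p) (h1 : p ≤ 1) {F : Cfg D → ℝ} (hF : Measurable F)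
    (x : V D) : ∫ ω, F (shift x ω) ∂perc D p = ∫ ω, F ω ∂perc D p := by
  have := ber_prob h0 h1
  have hm : (perc D p).map (shift x) = perc D p :=
    Measure.map_infinitePi_infinitePi_of_inj (P := fun _ : Edge D => ber p)
      (f := fun e : Edge D => (e.1 + x, e.2)) fun a b h => by
        simp only [Prod.mk.injEq, add_left_inj] at h
        exact Prod.ext h.1 h.2
  conv_rhs => rw [← hm]
  rw [integral_map (measurable_shift x).aemeasurable hF.aestronglyMeasurable]

/-- the statuses at the origin -/
def star (ω : Cfg D) : Sv D := fun s => ω (edge 0 s)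

theorem measurable_star : Measurable (star : Cfg D → Sv D) :=
  measurable_pi_lambda _ fun _ => measurable_pi_apply _

theorem measurable_ind {P : Cfg D → Prop} (h : MeasurableSet {ω | P ω}) :
    Measurable fun ω => ind (P ω) := Measurable.ite h measurable_const measurable_const

theorem int_ind (μ : Measure (Cfg D)) {P : Cfg D → Prop} (h : MeasurableSet {ω | P ω}) :
    ∫ ω, ind (P ω) ∂μ = μ.real {ω | P ω} := by
  rw [← integral_indicator_one h]
  refine integral_congr_ae (Filter.Eventually.of_forall fun ω => ?_)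
  by_cases hω : P ω <;> simp [ind, hω]

theorem measurableSet_star (σ : Sv D) : MeasurableSet {ω : Cfg D | star ω = σ} :=
  measurable_star (measurableSet_singleton σ)

theorem star_law {p : ℝ} (h0 : 0 ≤ p) (h1 : p ≤ 1) (σ : Sv D) :
    (perc D p).real {ω | star ω = σ} = ∏ s, if σ s = true then p else 1 - p := by
  have := ber_prob h0 h1
  have hm : (perc D p).map star = Measure.infinitePi fun _ : Step D => ber p :=
    Measure.map_infinitePi_infinitePi_of_inj (P := fun _ : Edge D => ber p)
      (f := fun s : Step D => edge 0 s) fun a b h => by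
        have := stepOf_edge a
        rw [show edge 0 a = edge 0 b from h, stepOf_edge] at this
        exact (Option.some.inj this).symm
  have e : perc D p {ω | star ω = σ} = ∏ s, ber p {σ s} := by
    have := Measure.map_apply (μ := perc D p) measurable_star (measurableSet_singleton σ)
    rw [hm, Measure.infinitePi_eq_pi, Measure.pi_singleton] at this
    exact this.symm
  rw [Measure.real, e, ENNReal.toReal_prod]
  refine prod_congr rfl fun s _ => ?_
  cases σ s
  · simp [ber, h1]
  · simp [ber, h0]

theorem split_star (H : Sv D → Cfg D → ℝ) (ω : Cfg D) :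
    H (star ω) ω = ∑ σ, ind (star ω = σ) * H σ ω := by
  rw [sum_eq_single (star ω) (fun σ _ h => by rw [ind_neg (Ne.symm h), zero_mul]) (by simp),
    ind_pos rfl, one_mul]

theorem measurable_star_fun {H : Sv D → Cfg D → ℝ} (hm : ∀ σ, Measurable (H σ)) :
    Measurable fun ω => H (star ω) ω := by
  simp only [split_star H]
  exact Finset.measurable_sum _ fun σ _ => (measurable_ind (measurableSet_star σ)).mul (hm σ)

theorem integrable_of_bdd {p : ℝ} (h0 : 0 ≤ p) (h1 : p ≤ 1) {F : Cfg D → ℝ} (hm : Measurable F)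
    {M : ℝ} (hb : ∀ ω, |F ω| ≤ M) : Integrable F (perc D p) := by
  have := perc_prob D h0 h1
  exact Integrable.of_bound hm.aestronglyMeasurable M (Filter.Eventually.of_forall hb)

theorem star_int {p : ℝ} (h0 : 0 ≤ p) (h1 : p ≤ 1) {H : Sv D → Cfg D → ℝ}
    (hm : ∀ σ, Measurable (H σ)) (hi : ∀ σ, Integrable (H σ) (perc D p))
    (hd : ∀ σ, Dep (H σ) (Set.range (edge (0 : V D)))ᶜ) :
    ∫ ω, H (star ω) ω ∂perc D p =
      ∑ σ : Sv D, (∏ s, if σ s = true then p else 1 - p) * ∫ ω, H σ ω ∂perc D p := by
  simp only [split_star H]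
  rw [integral_finsetSum _ fun σ _ => ?_]
  · refine sum_congr rfl fun σ _ => ?_
    rw [int_mul h0 h1 (measurable_ind (measurableSet_star σ)) (hm σ)
      (S := Set.range (edge (0 : V D))) ?_ (hd σ) disjoint_compl_right,
      int_ind _ (measurableSet_star σ), star_law h0 h1]
    intro ω ω' h
    have : star ω = star ω' := funext fun s => h _ ⟨s, rfl⟩
    simp only [this]
  · refine (hi σ).bdd_mul (c := 1) (measurable_ind (measurableSet_star σ)).aestronglyMeasurable
      (Filter.Eventually.of_forall fun ω => ?_)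
    rw [Real.norm_eq_abs, abs_of_nonneg (ind_nonneg _)]
    exact ind_le_one _

/-- the quenched expectation seen from the state `S` -/
def Ph (lam : ℝ) (G : St D → Cfg D → ℝ) (n : ℕ) (S : St D) (ω : Cfg D) : ℝ :=
  Qx lam (ov S ω) n 0 fun l => G (tr S (ov S ω) l) (shift (pos l) (ov S ω))

def cf (lam : ℝ) (τ : Sv D) (s : Step D) : ℝ := if τ s = true then rho lam τ s else 0

def Ks (lam : ℝ) (G : St D → Cfg D → ℝ) (n : ℕ) (S : St D) (σ : Sv D) (ω : Cfg D) : ℝ :=
  ∑ s, cf lam (stat S σ) s * Ph lam G n ((stat S σ, s) :: S) (shift (vec s) ω)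

theorem pr_eq (lam : ℝ) (ω : Cfg D) (s : Step D) : pr lam ω 0 s = cf lam (star ω) s := by
  unfold pr cf rho
  by_cases h : ω (edge 0 s) = true
  · rw [if_pos h, if_pos (show star ω s = true from h), if_pos ⟨s, h⟩,
      if_pos (show star ω s = true from h)]
    rfl
  · rw [if_neg h, if_neg (show ¬ star ω s = true from h)]

theorem Ph_zero (lam : ℝ) (G : St D → Cfg D → ℝ) (S : St D) (ω : Cfg D) :
    Ph lam G 0 S ω = G S (ov S ω) := by
  simp [Ph, tr]

theorem Ph_succ (lam : ℝ) (G : St D → Cfg D → ℝ) (n : ℕ) (S : St D) (ω : Cfg D) :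
    Ph lam G (n + 1) S ω = Ks lam G n S (star ω) ω := by
  unfold Ks
  rw [Ph, Qx_succ]
  refine sum_congr rfl fun s _ => ?_
  have e : (fun s' => ov S ω (edge 0 s')) = stat S (star ω) := rfl
  rw [pr_eq, ← Qx_shift]
  congr 1
  rw [Ph, ← e, ← shift_ov]
  refine Qx_congr fun l _ => ?_
  rw [tr, pos_cons, shift_shift]

theorem Ph_good (lam : ℝ) {G : St D → Cfg D → ℝ} (hm : ∀ S, Measurable (G S))
    (hb : ∀ S, ∃ M, ∀ ω, |G S ω| ≤ M) (n : ℕ) :
    ∀ S, Measurable (Ph lam G n S) ∧ ∃ M, ∀ ω, |Ph lam G n S ω| ≤ M := by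
  induction n with
  | zero =>
    intro S
    obtain ⟨M, hM⟩ := hb S
    refine ⟨?_, M, fun ω => by rw [Ph_zero]; exact hM _⟩
    rw [show Ph lam G 0 S = fun ω => G S (ov S ω) from funext (Ph_zero lam G S)]
    exact (hm S).comp (measurable_ov S)
  | succ n ih =>
    intro S
    choose M hM using fun S => (ih S).2
    refine ⟨?_, ∑ σ : Sv D, ∑ s, |cf lam (stat S σ) s| * M ((stat S σ, s) :: S), fun ω => ?_⟩
    · rw [show Ph lam G (n + 1) S = fun ω => Ks lam G n S (star ω) ω from
        funext (Ph_succ lam G n S)]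
      exact measurable_star_fun fun σ => Finset.measurable_sum _ fun s _ =>
        ((ih _).1.comp (measurable_shift _)).const_mul _
    · rw [Ph_succ]
      refine le_trans ?_ (single_le_sum (f := fun σ : Sv D =>
        ∑ s, |cf lam (stat S σ) s| * M ((stat S σ, s) :: S)) (fun σ _ => sum_nonneg fun s _ =>
          mul_nonneg (abs_nonneg _) ((abs_nonneg _).trans (hM _ ω))) (mem_univ (star ω)))
      refine (abs_sum_le_sum_abs _ _).trans (sum_le_sum fun s _ => ?_)
      rw [abs_mul]
      exact mul_le_mul_of_nonneg_left (hM _ _) (abs_nonneg _)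

end Br

open Br

theorem br (hW : WinStmt) : BrStmt := by
  intro D p lam h0 h1 n S G hS hm hb
  change _ = ∫ ω, Ph lam G n S ω ∂perc D p
  induction n generalizing S with
  | zero =>
    simp only [Ph_zero, Ex_zero]
    rw [show go S [] = S from rfl, ind_pos hS, one_mul]
  | succ n ih =>
    have hi : ∀ (S' : St D) (x : V D),
        Integrable (fun ω => Ph lam G n S' (shift x ω)) (perc D p) := fun S' x => by
      obtain ⟨a, M, hM⟩ := Ph_good lam hm hb n S'
      exact integrable_of_bdd h0 h1 (a.comp (measurable_shift x)) fun ω => hM _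
    simp only [Ph_succ]
    rw [star_int h0 h1 (H := Ks lam G n S)
      (fun σ => Finset.measurable_sum _ fun s _ =>
        ((Ph_good lam hm hb n _).1.comp (measurable_shift _)).const_mul _)
      (fun σ => integrable_finsetSum _ fun s _ => (hi _ _).const_mul _)
      (fun σ ω ω' h => sum_congr rfl fun s _ => by
        have := ov_dep S (stat S σ) s ω ω' h
        simp only [Ph]
        rw [show ov ((stat S σ, s) :: S) (shift (vec s) ω) =
          ov ((stat S σ, s) :: S) (shift (vec s) ω') from this]), Ex_succ]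
    refine ((hW D p h0 h1).2.2.1 lam (stat S) fun σ s => Ex (win p lam) n fun u =>
      ind (Leg (go ((stat S σ, s) :: S) u)) * ∫ ω, G (go ((stat S σ, s) :: S) u)
        (ov (go ((stat S σ, s) :: S) u) ω) ∂perc D p).trans ?_
    refine sum_congr rfl fun σ _ => ?_
    congr 1
    unfold Ks
    rw [integral_finsetSum _ fun s _ => (hi _ _).const_mul _]
    refine sum_congr rfl fun s _ => ?_
    rw [integral_const_mul, int_shift h0 h1 (Ph_good lam hm hb n _).1, cf]
    split_ifs with h
    · rw [ih _ fun o ho => ?_]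
      rcases List.mem_cons.1 ho with rfl | ho
      exacts [h, hS o ho]
    · rw [zero_mul, Ex_congr (Ψ := fun _ => 0) fun u _ => ?_, Ex_zero_fun, mul_zero]
      rw [ind_neg fun hl => h (leg_of_go u _ hl _ List.mem_cons_self), zero_mul]

theorem brf (hB : BrStmt) : BrfStmt := by
  intro D p lam h0 h1 n S G Bad c hS hc hG hBad
  have := perc_prob D h0 h1
  have hm : ∀ S', Measurable fun ω => ind (G S' ω) := fun S' => measurable_ind (hG S')
  have hb : ∀ S', ∃ M, ∀ ω, |ind (G S' ω)| ≤ M := fun S' =>
    ⟨1, fun ω => by rw [abs_of_nonneg (ind_nonneg _)]; exact ind_le_one _⟩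
  have key := hB D p lam h0 h1 n S (fun S' ω => ind (G S' ω)) hS hm hb
  have e : ∀ S', (perc D p).real {ω | G S' (ov S' ω)} = ∫ ω, ind (G S' (ov S' ω)) ∂perc D p :=
    fun S' => (int_ind _ (measurable_ov S' (hG S'))).symm
  simp only [e]
  rw [key]
  obtain ⟨a, M, hM⟩ := Ph_good lam hm hb n S
  have hT := measurableSet_toMeasurable (perc D p) Bad
  have hi : Integrable (fun ω => ind (ω ∈ toMeasurable (perc D p) Bad)) (perc D p) :=
    integrable_of_bdd h0 h1 (measurable_ind hT) (M := 1) fun ω => by
      rw [abs_of_nonneg (ind_nonneg _)]; exact ind_le_one _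
  refine (integral_mono (g := fun ω => c + ind (ω ∈ toMeasurable (perc D p) Bad))
    (integrable_of_bdd h0 h1 a hM) ((integrable_const c).add hi) fun ω => ?_).trans_eq ?_
  · by_cases hω : ω ∈ Bad
    · have := Qx_ind_le_one (lam := lam) (ω := ov S ω) n 0
        fun l => G (tr S (ov S ω) l) (shift (pos l) (ov S ω))
      simp only [ind_pos (subset_toMeasurable _ _ hω), Ph]
      linarith
    · simp only [Ph]
      linarith [hBad ω hω, ind_nonneg (ω ∈ toMeasurable (perc D p) Bad)]
  · rw [integral_add (integrable_const c) hi,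
      int_ind (P := fun ω => ω ∈ toMeasurable (perc D p) Bad) _ hT]
    simp [Measure.real, measure_toMeasurable]

end Pool.Agent.MP_8c549f_pr.S3
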