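import Pool.Agent.MP_8c549f_pr.S3.ZY
import Pool.Agent.MP_8c549f_pr.S3.BasicA
import Pool.Agent.MP_8c549f_pr.S3.BasicB

-- ======== part 0: formerly Pool.Agent.MP_8c549f_pr.S3.Casc
section MrgPart0

/-! PROJECT BWALK3: the cascade bound on the waiting time for a safe state. -/

noncomputable section

namespace Pool.Agent.MP_8c549f_pr.S3

open MeasureTheory Finset Classical Filter Topology

namespace Casc

variable {D : ℕ}

theorem pow_geo (k : ℕ) {r : ℝ} (h0 : 0 ≤ r) (h1 : r < 1) :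
    ∃ C : ℝ, 0 ≤ C ∧ ∀ n : ℕ, (n : ℝ) ^ k * r ^ n ≤ C := by
  obtain ⟨C, hC⟩ := (tendsto_pow_const_mul_const_pow_of_abs_lt_one k
    (by rwa [abs_of_nonneg h0])).bddAbove_range
  exact ⟨max C 0, le_max_right _ _, fun n => (hC ⟨n, rfl⟩).trans (le_max_left _ _)⟩

theorem Ls_succ (L i : ℕ) : Ls L (i + 1) = Ls L i ^ 37 := by
  rw [Ls, Ls, pow_succ, pow_mul]

theorem le_Ls (L i : ℕ) : L ≤ Ls L i :=
  Nat.le_self_pow (by positivity) L

theorem Ls_mono {L : ℕ} (hL : 1 ≤ L) {i j : ℕ} (h : i ≤ j) : Ls L i ≤ Ls L j :=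
  Nat.pow_le_pow_right hL (Nat.pow_le_pow_right (by norm_num) h)

theorem lt_Ls {L : ℕ} (hL : 2 ≤ L) (i : ℕ) : i < Ls L i :=
  (Nat.lt_pow_self (by norm_num : 1 < 37)).trans (Nat.lt_pow_self (by omega))

theorem exists_scale {L T : ℕ} (hL : 2 ≤ L) (hT : Ls L 2 ^ 2 ≤ T) :
    ∃ j, 1 ≤ j ∧ Ls L (j + 1) ^ 2 ≤ T ∧ T < Ls L (j + 2) ^ 2 := by
  have ex : ∃ i, T < Ls L (i + 2) ^ 2 := ⟨T, by
    have h1 := lt_Ls hL (T + 2)
    have h2 : Ls L (T + 2) ≤ Ls L (T + 2) ^ 2 := Nat.le_self_pow (by norm_num) _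
    omega⟩
  have h1 := Nat.find_spec ex
  have h2 : Nat.find ex ≠ 0 := fun h => by rw [h] at h1; simp at h1; omega
  refine ⟨Nat.find ex, by omega, ?_, h1⟩
  have h3 := Nat.find_min ex (m := Nat.find ex - 1) (by omega)
  rw [show Nat.find ex - 1 + 2 = Nat.find ex + 1 by omega] at h3
  omega

theorem nbk_drop {lam N : ℝ} {S : St D} {n : ℕ} (h : NBk lam S n N) (m : ℕ) :
    NBk lam (S.drop m) (n - m) N := by
  intro a b hab hb hl
  rcases Nat.eq_zero_or_pos b with rfl | hb0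
  · obtain rfl : a = 0 := by omega
    simpa using h 0 0 le_rfl (Nat.zero_le _) (Nat.zero_le _)
  rw [List.length_drop] at hl
  have := h (m + a) (m + b) (by omega) (by omega) (by omega)
  rw [back_drop, back_drop, sub_sub_sub_cancel_right]
  exact this

theorem real_const {p : ℝ} (h0 : 0 ≤ p) (h1 : p ≤ 1) (P : Prop) :
    (perc D p).real {_ω | P} = ind P := by
  have := perc_prob D h0 h1
  by_cases h : P
  · simp [h]
  · simp [h]

/-- deep backtracks are unlikely -/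
theorem term1 (hB : BrfStmt) {p lam : ℝ} (h0 : 0 ≤ p) (h1 : p ≤ 1) (n : ℕ) (N c : ℝ) (hc : 0 ≤ c)
    (h : ∀ ω : Cfg D, (Qx lam ω n 0 fun l => ind (¬ NBk lam (tr [] ω l) n N)) ≤ c) :
    (Ex (win p lam) n fun u : List (In D) =>
      ind (Leg (go [] u) ∧ ¬ NBk lam (go [] u) n N)) ≤ c := by
  have := hB D p lam h0 h1 n [] (fun S' _ => ¬ NBk lam S' n N) ∅ c leg_nil hc
    (fun _ => MeasurableSet.const _) (fun ω _ => h ω)
  simp only [real_const h0 h1, measureReal_empty, add_zero] at this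
  simpa only [ind_and] using this

/-- an isolated position is rarely in a finite cluster -/
theorem term3 (hB : BrfStmt) {p lam : ℝ} (h0 : 0 ≤ p) (h1 : p ≤ 1)
    (hw : ∀ a : In D, 0 ≤ win p lam a) {L j s : ℕ} (hL : 1 ≤ L) (hs : Ls L (j + 1) ≤ s) :
    (Ex (win p lam) s fun u : List (In D) =>
      ind (Leg (go [] u) ∧ Iso (go [] u) L j ∧ th p (go [] u) < 1 / 2)) ≤
      2 * (perc D p).real {ω | ω ∉ InfCl D ∧ ∃ c, Conn ω 0 c ∧ 2 * Ls L j ≤ nrm c} := by
  have hP := perc_prob D h0 h1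
  have key := hB D p lam h0 h1 s [] (fun S' ω => Iso S' L j ∧ ω ∉ InfCl D)
    {ω | ω ∉ InfCl D ∧ ∃ c, Conn ω 0 c ∧ 2 * Ls L j ≤ nrm c} 0 leg_nil le_rfl
    (fun _ => (MeasurableSet.const _).inter measurableSet_inf.compl) (by
      intro ω hω
      refine Qx_le_const le_rfl fun l hl ho => (ind_neg ?_).le
      rw [ov_nil] at ho ⊢
      rintro ⟨hI, hn⟩
      have hc : Conn ω 0 (pos l) := by simpa using ho.conn_pos
      have hj : Ls L j ≤ l.length := by have := Ls_mono hL (Nat.le_add_right j 1); omega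
      have h3 := hI l.length (by omega) (by simp)
      rw [back_tr_length, back_tr _ _ _ hj] at h3
      refine hω ⟨fun hi => hn ((inf_shift hc).2 hi), loc l (l.length - Ls L j),
        by simpa using ho.conn _, ?_⟩
      rw [show -pos l - (loc l (l.length - Ls L j) - pos l) = -loc l (l.length - Ls L j) by abel,
        nrm_neg] at h3
      omega)
  rw [zero_add] at key
  refine le_trans ?_ (mul_le_mul_of_nonneg_left key zero_le_two)
  rw [← Ex_mul_left]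
  refine Ex_mono hw fun u _ => ind_le_of
    (mul_nonneg zero_le_two (mul_nonneg (ind_nonneg _) measureReal_nonneg)) ?_
  rintro ⟨a1, a2, a3⟩
  rw [th_eq, ind_pos a1, one_mul] at a3
  have e : {ω | Iso (go [] u) L j ∧ ov (go [] u) ω ∉ InfCl D} =
      {ω | ov (go [] u) ω ∈ InfCl D}ᶜ := by ext ω; simp [a2]
  have h4 := measureReal_union_le (μ := perc D p) {ω | ov (go [] u) ω ∈ InfCl D}
    {ω | ov (go [] u) ω ∈ InfCl D}ᶜ
  rw [Set.union_compl_self, probReal_univ] at h4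
  rw [ind_pos a1, one_mul, e]
  linarith

/-- independent attempts -/
theorem term4 {p lam : ℝ} (hw : ∀ a : In D, 0 ≤ win p lam a) (hw1 : ∑ a : In D, win p lam a = 1)
    (P : St D → Prop) (m t : ℕ)
    (h : ∀ S : St D, Leg S → (Ex (win p lam) m fun u => ind (Leg (go S u) ∧ P (go S u))) ≤ 1 / 2)
    (K : ℕ) : (Ex (win p lam) (t + K * m) fun u : List (In D) => ind (∀ k, 1 ≤ k → k ≤ K →
      Leg (go [] (u.take (t + k * m))) ∧ P (go [] (u.take (t + k * m))))) ≤ (1 / 2) ^ K := by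
  induction K with
  | zero => exact Ex_le_const hw hw1 fun u _ => by simpa using ind_le_one _
  | succ K ih =>
    rw [show t + (K + 1) * m = t + K * m + m by ring]
    refine le_trans (Ex_append_le hw (Ψ := fun u => ind (∀ k, 1 ≤ k → k ≤ K →
      Leg (go [] (u.take (t + k * m))) ∧ P (go [] (u.take (t + k * m)))) * (1 / 2))
      fun u hu => ?_) ?_
    · have hS : (Ex (win p lam) m fun v => ind (Leg (go (go [] u) v) ∧ P (go (go [] u) v))) ≤
          1 / 2 := by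
        by_cases hl : Leg (go [] u)
        · exact h _ hl
        · exact Ex_le_const hw hw1 fun v _ =>
            (ind_neg fun hv => hl (leg_of_go hv.1)).trans_le (by norm_num)
      refine le_trans ?_ (mul_le_mul_of_nonneg_left hS (ind_nonneg _))
      rw [← Ex_mul_left]
      refine Ex_mono hw fun v hv => ?_
      rw [← ind_and]
      refine ind_mono fun H => ⟨fun k k1 k2 => ?_, ?_⟩
      · have := H k k1 (by omega)
        rwa [List.take_append_of_le_length (by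
          have := Nat.mul_le_mul_right m k2; omega)] at this
      · have := H (K + 1) (by omega) le_rfl
        rwa [List.take_of_length_le (by rw [List.length_append, hu, hv]; ring_nf; omega),
          go_append] at this
    · rw [Ex_mul_right, pow_succ]
      exact mul_le_mul_of_nonneg_right ih (by norm_num)

/-- the pathwise decomposition -/
theorem pathwise {p lam lam' β N : ℝ} (h0 : 0 ≤ p) (h1 : p ≤ 1) {L j m t T K : ℕ} (hm : 1 ≤ m)
    (hK : K * m < T) (P : St D → Prop)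
    (hD : ∀ S : St D, S.length ≤ t + T → ¬ P S → Iso S L j → NBk lam S S.length N →
      Dg p lam' S ≤ β) (u : List (In D)) (hu : u.length = t + T) :
    ind ((sys D p lam' β).Gap u 0 t (t + T)) * th p (go [] u) ≤
      ind (Leg (go [] u) ∧ ¬ NBk lam (go [] u) (t + T) N) +
      ∑ k ∈ Icc 1 K, th p (go [] u) * ind (NBk lam (go [] (u.take (t + k * m))) (t + k * m) N ∧
        ¬ Iso (go [] (u.take (t + k * m))) L j) +
      ∑ k ∈ Icc 1 K, ind (Leg (go [] (u.take (t + k * m))) ∧ Iso (go [] (u.take (t + k * m))) L j ∧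
        th p (go [] (u.take (t + k * m))) < 1 / 2) +
      ind (∀ k, 1 ≤ k → k ≤ K →
        Leg (go [] (u.take (t + k * m))) ∧ P (go [] (u.take (t + k * m)))) := by
  have t0 := th_nonneg p (go [] u)
  have t1 := th_le_one h0 h1 (go [] u)
  have n1 := ind_nonneg (Leg (go [] u) ∧ ¬ NBk lam (go [] u) (t + T) N)
  have n2 : ∀ k ∈ Icc 1 K, 0 ≤ th p (go [] u) *
      ind (NBk lam (go [] (u.take (t + k * m))) (t + k * m) N ∧
        ¬ Iso (go [] (u.take (t + k * m))) L j) := fun _ _ => mul_nonneg t0 (ind_nonneg _)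
  have n3 : ∀ k ∈ Icc 1 K, 0 ≤ ind (Leg (go [] (u.take (t + k * m))) ∧
      Iso (go [] (u.take (t + k * m))) L j ∧ th p (go [] (u.take (t + k * m))) < 1 / 2) :=
    fun _ _ => ind_nonneg _
  have n4 := ind_nonneg (∀ k, 1 ≤ k → k ≤ K →
    Leg (go [] (u.take (t + k * m))) ∧ P (go [] (u.take (t + k * m))))
  have s2 := sum_nonneg n2
  have s3 := sum_nonneg n3
  refine ind_mul_le (by linarith) fun hG => ?_
  by_cases hl : Leg (go [] u)
  swap
  · rw [th_of_not_leg p hl] at *; linarith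
  by_cases hn : NBk lam (go [] u) (t + T) N
  swap
  · rw [ind_pos (And.intro hl hn)]; linarith
  have hs : ∀ k, k ≤ K → t + k * m < t + T := fun k hk => by
    have := Nat.mul_le_mul_right m hk; omega
  have hnb : ∀ k, k ≤ K → NBk lam (go [] (u.take (t + k * m))) (t + k * m) N := fun k hk => by
    have := nbk_drop hn (u.length - (t + k * m))
    rw [← go_take, show t + T - (u.length - (t + k * m)) = t + k * m by
      have := hs k hk; omega] at this
    exact this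
  by_cases h2 : ∃ k ∈ Icc 1 K, ¬ Iso (go [] (u.take (t + k * m))) L j
  · obtain ⟨k, hk, h2⟩ := h2
    have := single_le_sum n2 hk
    rw [ind_pos (And.intro (hnb k (mem_Icc.1 hk).2) h2), mul_one] at this
    linarith
  push Not at h2
  by_cases h3 : ∃ k ∈ Icc 1 K, th p (go [] (u.take (t + k * m))) < 1 / 2
  · obtain ⟨k, hk, h3⟩ := h3
    have := single_le_sum n3 hk
    rw [ind_pos (And.intro (leg_go_take hl _) (And.intro (h2 k hk) h3))] at this
    linarith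
  push Not at h3
  have h4 : ∀ k, 1 ≤ k → k ≤ K →
      Leg (go [] (u.take (t + k * m))) ∧ P (go [] (u.take (t + k * m))) := fun k k1 k2 => by
    refine ⟨leg_go_take hl _, by_contra fun hP => ?_⟩
    have hk : k ∈ Icc 1 K := mem_Icc.2 ⟨k1, k2⟩
    have h5 := hs k k2
    have h6 : 1 * 1 ≤ k * m := Nat.mul_le_mul k1 hm
    have hlen : (go ([] : St D) (u.take (t + k * m))).length = t + k * m := by
      simp; omega
    refine hG (t + k * m) (by omega) h5 ⟨fun he => ?_, ?_, h3 k hk⟩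
    · have he' : go ([] : St D) (u.take (t + k * m)) = [] := he
      rw [he'] at hlen
      simp at hlen
      omega
    · exact hD (go [] (u.take (t + k * m))) (by omega) hP (h2 k hk)
        (by rw [hlen]; exact hnb k k2)
  rw [ind_pos h4]
  linarith

theorem numeric {b K M T : ℕ} {C₃ C₄ x : ℝ} (hM : 1 ≤ M) (b2 : T < M ^ 2)
    (e1 : ((K + 1 : ℕ) : ℝ) = (b : ℝ) ^ 37) (e2 : (M : ℝ) = ((K + 1 : ℕ) : ℝ) ^ 37)
    (H₃ : (b : ℝ) ^ 27417 * Real.exp (-1) ^ b ≤ C₃)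
    (H₄ : ((K + 1 : ℕ) : ℝ) ^ 740 * (1 / 2) ^ (K + 1) ≤ C₄)
    (key2 : x ≤ 1 / ((2 * M ^ 2 : ℕ) : ℝ) ^ 12 +
      K * (1 / (M : ℝ) ^ 24) + K * (2 * Real.exp (-1) ^ b) + (1 / 2) ^ K) :
    x * (T : ℝ) ^ 10 ≤ 2 + 2 * C₃ + 2 * C₄ := by
  have M1 : (1 : ℝ) ≤ M := Nat.one_le_cast.2 hM
  have TM : (T : ℝ) ^ 10 ≤ (M : ℝ) ^ 20 := by
    have : (T : ℝ) ≤ (M : ℝ) ^ 2 := by exact_mod_cast b2.le
    exact (pow_le_pow_left₀ (Nat.cast_nonneg _) this _).trans_eq (pow_mul _ 2 10).symm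
  have K1 : (K : ℝ) ≤ ((K + 1 : ℕ) : ℝ) := Nat.cast_le.2 K.le_succ
  have KM : (K : ℝ) ≤ M :=
    K1.trans (e2 ▸ le_self_pow₀ (Nat.one_le_cast.2 K.succ_pos) (by norm_num))
  have Kb : (K : ℝ) ≤ (b : ℝ) ^ 37 := e1 ▸ K1
  have Mm : (M : ℝ) ^ 20 = ((K + 1 : ℕ) : ℝ) ^ 740 := by rw [e2, ← pow_mul]
  have Mb : (M : ℝ) ^ 20 = (b : ℝ) ^ 27380 := by rw [Mm, e1, ← pow_mul]
  rw [show 27417 = 37 + 27380 from rfl, pow_add, ← Mb] at H₃
  rw [← Mm, pow_succ (1 / 2 : ℝ)] at H₄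
  clear e1 e2 Mm Mb
  have s0 : 0 ≤ 1 / ((2 * M ^ 2 : ℕ) : ℝ) ^ 12 +
      K * (1 / (M : ℝ) ^ 24) + K * (2 * Real.exp (-1) ^ b) + (1 / 2) ^ K := by positivity
  have q1 : 1 / ((2 * M ^ 2 : ℕ) : ℝ) ^ 12 * (M : ℝ) ^ 20 ≤ 1 := by
    rw [one_div, inv_mul_le_iff₀ (by positivity), mul_one]
    push_cast
    calc (M : ℝ) ^ 20 ≤ (M : ℝ) ^ 24 := pow_le_pow_right₀ M1 (by norm_num)
      _ = ((M : ℝ) ^ 2) ^ 12 := pow_mul _ 2 12
      _ ≤ _ := pow_le_pow_left₀ (by positivity) (le_mul_of_one_le_left (by positivity) one_le_two) _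
  have q2 : K * (1 / (M : ℝ) ^ 24) * (M : ℝ) ^ 20 ≤ 1 := by
    rw [mul_one_div, div_mul_eq_mul_div, div_le_one (by positivity)]
    calc (K : ℝ) * (M : ℝ) ^ 20 ≤ M * (M : ℝ) ^ 20 := mul_le_mul_of_nonneg_right KM (by positivity)
      _ = (M : ℝ) ^ 21 := (pow_succ' _ 20).symm
      _ ≤ _ := pow_le_pow_right₀ M1 (by norm_num)
  have y0 : 0 ≤ (M : ℝ) ^ 20 * Real.exp (-1) ^ b := by positivity
  have q3 := mul_le_mul_of_nonneg_right Kb y0
  refine (mul_le_mul_of_nonneg_right key2 (by positivity)).trans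
    ((mul_le_mul_of_nonneg_left TM s0).trans ?_)
  rw [add_mul, add_mul, add_mul]
  linarith

end Casc

open Casc in
theorem casc : WinStmt → BrfStmt → NBStmt → FcpStmt → DgStmt → TopStmt → LowStmt → CascStmt := by
  intro hW hB hN hF hD hT hL D hD0 β hβ
  obtain ⟨n₀, hN⟩ := hN D
  obtain ⟨e₁, he₁, hF⟩ := hF D (by omega) 1
  obtain ⟨L₁, hD⟩ := hD D β hβ
  obtain ⟨L₂, e₂, he₂, hT⟩ := hT D hD0
  obtain ⟨L₃, hL⟩ := hL D hD0
  obtain ⟨L, a0, a1, a2, a3, a4⟩ : ∃ L, n₀ ≤ L ∧ L₁ ≤ L ∧ L₂ ≤ L ∧ L₃ ≤ L ∧ 2 ≤ L :=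
    ⟨n₀ + L₁ + L₂ + L₃ + 2, by omega, by omega, by omega, by omega, by omega⟩
  obtain ⟨e₃, he₃, hD⟩ := hD L a1
  obtain ⟨e₄, he₄, hL⟩ := hL L a3
  have hT := hT L a2
  obtain ⟨C₃, hC₃, H₃⟩ := pow_geo 27417 (Real.exp_pos (-1)).le
    (Real.exp_lt_one_iff.2 (by norm_num : (-1 : ℝ) < 0))
  obtain ⟨C₄, hC₄, H₄⟩ := pow_geo 740 (r := 1 / 2) (by norm_num) (by norm_num)
  obtain ⟨C₀, hC₀, H₀⟩ : ∃ C₀ : ℝ, 0 ≤ C₀ ∧ ∀ T : ℕ, T < Ls L 2 ^ 2 → (T : ℝ) ^ 10 ≤ C₀ :=
    ⟨((Ls L 2 ^ 2 : ℕ) : ℝ) ^ 10, by positivity, fun T h =>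
      pow_le_pow_left₀ (Nat.cast_nonneg _) (Nat.cast_le.2 h.le) _⟩
  refine ⟨C₀ + 2 + 2 * C₃ + 2 * C₄, min (min e₁ e₂) (min e₃ e₄), by positivity, by positivity, ?_⟩
  intro p lam lam' hp h1 h0 l0 l1 l2 l3 t T htT hT1
  have p1 : 1 - e₁ ≤ p := by linarith [min_le_left (min e₁ e₂) (min e₃ e₄), min_le_left e₁ e₂]
  have p2 : 1 - e₂ ≤ p := by linarith [min_le_left (min e₁ e₂) (min e₃ e₄), min_le_right e₁ e₂]
  have p3 : 1 - e₃ ≤ p := by linarith [min_le_right (min e₁ e₂) (min e₃ e₄), min_le_left e₃ e₄]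
  have p4 : 1 - e₄ ≤ p := by linarith [min_le_right (min e₁ e₂) (min e₃ e₄), min_le_right e₃ e₄]
  obtain ⟨hw, hw1, -⟩ := hW D p h0 h1
  have hw := hw lam
  have hw1 := hw1 lam
  have l4 : lam ≤ 1 := l1.trans l3
  have hTp : (0 : ℝ) < (T : ℝ) ^ 10 := by positivity
  rw [le_div_iff₀ hTp]
  by_cases hs : T < Ls L 2 ^ 2
  · have : (sys D p lam' β).waitq (win p lam) t T ≤ 1 :=
      Ex_le_const hw hw1 fun u _ => ind_mul_le zero_le_one fun _ => th_le_one h0 h1 _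
    have := mul_le_mul_of_nonneg_right this hTp.le
    linarith [H₀ T hs]
  obtain ⟨j, hj, b1, b2⟩ := exists_scale a4 (not_lt.1 hs)
  have hL1 : 1 ≤ L := by omega
  have m2 : 2 ≤ Ls L (j + 1) := a4.trans (le_Ls _ _)
  have hM : L ≤ Ls L (j + 2) := le_Ls _ _
  have hM2 : Ls L (j + 2) ≤ Ls L (j + 2) ^ 2 := Nat.le_self_pow (by norm_num) _
  have e1 : (Ls L (j + 1) : ℝ) = (Ls L j : ℝ) ^ 37 := by rw [Ls_succ, Nat.cast_pow]
  have e2 : (Ls L (j + 2) : ℝ) = (Ls L (j + 1) : ℝ) ^ 37 := by rw [Ls_succ L (j + 1), Nat.cast_pow]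
  have hF := hF p p1 h1 h0 (Ls L j)
  have hT := fun s => hT p lam p2 h1 h0 l0 l4 (j + 1) s (t + T) (by omega)
  have hL := fun S => hL p lam p4 h1 h0 l0 l4 (j + 1) S (by omega)
  have hD := fun S => hD p lam lam' (j + 1) S p3 h1 l0 l1 l2 l3 (by omega)
  have hN := fun ω => hN lam ω [] (t + T) (2 * Ls L (j + 2) ^ 2) l0.le l4 (by omega) (by omega)
  have h3 := fun s (hs : Ls L (j + 1) ≤ s) => term3 hB h0 h1 hw hL1 hs
  simp only [Nat.add_sub_cancel, show j + 1 + 1 = j + 2 from rfl] at hT hD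
  generalize Ls L (j + 2) = M at *
  generalize hm : Ls L (j + 1) = m at *
  generalize Ls L j = b at *
  obtain ⟨K, rfl⟩ : ∃ K, m = K + 1 := ⟨m - 1, by omega⟩
  have hK : K * (K + 1) < T :=
    lt_of_lt_of_le (by rw [pow_two]; exact Nat.mul_lt_mul_of_pos_right K.lt_succ_self K.succ_pos) b1
  have hs' : ∀ k, k ≤ K → t + k * (K + 1) ≤ t + T := fun k hk => by
    have := Nat.mul_le_mul_right (K + 1) hk; omega
  have key := Ex_mono hw (pathwise (lam := lam) (lam' := lam') (β := β)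
    (N := NN D (2 * M ^ 2)) h0 h1 (L := L) (j := j) (m := K + 1) (t := t) (by omega) hK
    (fun S => Low lam S L (j + 1)) fun S hS => hD S (by omega))
  rw [Ex_add, Ex_add, Ex_add, Ex_sum, Ex_sum] at key
  have k1 := term1 hB h0 h1 (t + T) _ _ (by positivity) hN
  have k2 := sum_le_card_nsmul (Icc 1 K) _ _ fun k hk => hT (t + k * (K + 1))
    (by have := Nat.mul_le_mul_right (K + 1) (mem_Icc.1 hk).1; omega) (hs' k (mem_Icc.1 hk).2)
    (by omega)
  have k3 := sum_le_card_nsmul (Icc 1 K) (fun k => Ex (win p lam) (t + T) fun u : List (In D) =>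
      ind (Leg (go [] (u.take (t + k * (K + 1)))) ∧ Iso (go [] (u.take (t + k * (K + 1)))) L j ∧
        th p (go [] (u.take (t + k * (K + 1)))) < 1 / 2)) (2 * Real.exp (-1) ^ b) fun k hk => by
    rw [Ex_take hw1 (hs' k (mem_Icc.1 hk).2)
      fun u => ind (Leg (go [] u) ∧ Iso (go [] u) L j ∧ th p (go [] u) < 1 / 2)]
    refine (h3 _ (by have := Nat.mul_le_mul_right (K + 1) (mem_Icc.1 hk).1; omega)).trans
      (mul_le_mul_of_nonneg_left (hF.trans ?_) zero_le_two)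
    rw [← Real.exp_nat_mul]
    exact Real.exp_le_exp.2 (by linarith)
  have k4 : (Ex (win p lam) (t + T) fun u : List (In D) => ind (∀ k, 1 ≤ k → k ≤ K →
      Leg (go [] (u.take (t + k * (K + 1)))) ∧
        Low lam (go [] (u.take (t + k * (K + 1)))) L (j + 1))) ≤ (1 / 2) ^ K := by
    refine le_trans (le_of_eq ?_)
      (term4 hw hw1 (fun S => Low lam S L (j + 1)) (K + 1) t hL K)
    rw [← Ex_take hw1 (hs' K le_rfl)]
    refine Ex_congr fun u _ => ind_congr (forall₃_congr fun k _ hk => ?_)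
    rw [List.take_take, min_eq_left (by have := Nat.mul_le_mul_right (K + 1) hk; omega)]
  simp only [Nat.card_Icc, Nat.add_sub_cancel, nsmul_eq_mul] at k2 k3
  have key2 : (sys D p lam' β).waitq (win p lam) t T ≤ 1 / ((2 * M ^ 2 : ℕ) : ℝ) ^ 12 +
      K * (1 / (M : ℝ) ^ 24) + K * (2 * Real.exp (-1) ^ b) + (1 / 2) ^ K :=
    le_trans key (by linarith)
  have := numeric (by omega) b2 e1 e2 (H₃ b) (H₄ (K + 1)) key2
  linarith

end Pool.Agent.MP_8c549f_pr.S3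

end
end MrgPart0

-- ======== part 1: formerly Pool.Agent.MP_8c549f_pr.S3.Far
section MrgPart1

/-! PROJECT BWALK3: rows FAR and TOP. -/

noncomputable section

namespace Pool.Agent.MP_8c549f_pr.S3

open MeasureTheory Finset Classical

namespace Far

variable {D : ℕ}

/-- the heat kernel bound at the scale `b ^ 4` -/
def HB (D b : ℕ) : Prop := ∀ (lam : ℝ) (ω : Cfg D) (y z : V D) (j : ℕ), 0 < lam → lam ≤ 1 →
  (b ^ 4) ^ 9 ≤ j → Gd ω y (2 * j) (hh (b ^ 4)) → Wide ω y (hh (b ^ 4)) →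
  pf lam ω j y z * ((b ^ 4 : ℕ) : ℝ) ^ ((D + 1) / 2) ≤
    ((b ^ 4 : ℕ) : ℝ) * Real.exp (max 0 (lam * ((z 0 : ℝ) - (y 0 : ℝ)) - ((b ^ 4 : ℕ) : ℝ) ^ 2))

theorem jbig {b : ℕ} (hb : 2 ≤ b) : (b ^ 4) ^ 9 ≤ b ^ 37 - b := by
  have h1 : b ≤ b ^ 36 := Nat.le_self_pow (by norm_num) b
  have h2 : b ^ 37 = b * b ^ 36 := by ring
  have h3 : (b ^ 4) ^ 9 = b ^ 36 := by ring
  have h4 : 2 * b ^ 36 ≤ b * b ^ 36 := Nat.mul_le_mul_right _ hb
  omega

theorem num1 (hD : 100000 ≤ D) {b m : ℕ} (h7 : 2 * 7 ^ (D + 1) ≤ b) (hm : m + 1 ≤ b ^ 2740) :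
    2 * b ^ 32856 * ((m + 1) * (2 * (3 * b) + 1) ^ (D + 1) * b ^ 4) ≤ (b ^ 4) ^ ((D + 1) / 2) := by
  have hb : 1 ≤ b := by have := Nat.one_le_pow (D + 1) 7 (by norm_num); omega
  have h1 : (2 * (3 * b) + 1) ^ (D + 1) ≤ 7 ^ (D + 1) * b ^ (D + 1) := by
    rw [← mul_pow]; exact Nat.pow_le_pow_left (by omega) _
  calc 2 * b ^ 32856 * ((m + 1) * (2 * (3 * b) + 1) ^ (D + 1) * b ^ 4)
      ≤ 2 * b ^ 32856 * (b ^ 2740 * (7 ^ (D + 1) * b ^ (D + 1)) * b ^ 4) := by gcongr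
    _ = (2 * 7 ^ (D + 1)) * b ^ (32856 + 2740 + (D + 1) + 4) := by
        simp only [pow_add]; ac_rfl
    _ ≤ b * b ^ (32856 + 2740 + (D + 1) + 4) := by gcongr
    _ = b ^ (32856 + 2740 + (D + 1) + 4 + 1) := (pow_succ' _ _).symm
    _ ≤ b ^ (4 * ((D + 1) / 2)) := Nat.pow_le_pow_right hb (by omega)
    _ = _ := pow_mul _ _ _

theorem quench (hD : 100000 ≤ D) {b : ℕ} (hk : HB D b) (h7 : 2 * 7 ^ (D + 1) ≤ b) {lam : ℝ}
    (hl0 : 0 < lam) (hl1 : lam ≤ 1) (ω : Cfg D) (m r : ℕ) {N : ℝ}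
    (hN : N + 3 * b ≤ ((b ^ 4 : ℕ) : ℝ) ^ 2) (hm : m + 1 ≤ b ^ 2740) (P : List (Step D) → Prop)
    (hP : ∀ l, l.length = m + (b ^ 37 - b + r) → OpenP ω 0 l → P l →
      Gd ω (loc l m) (2 * (b ^ 37 - b)) (hh (b ^ 4)) ∧ Wide ω (loc l m) (hh (b ^ 4)) ∧
      ∃ k ≤ m, lam * (((loc l k - loc l m) 0 : ℤ) : ℝ) ≤ N ∧
        nrm (loc l k - loc l (m + (b ^ 37 - b))) ≤ 3 * b) :
    (Qx lam ω (m + (b ^ 37 - b + r)) 0 fun l => ind (P l)) ≤ 1 / (2 * (b : ℝ) ^ 32856) := by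
  have hb : 2 ≤ b := by have := Nat.one_le_pow (D + 1) 7 (by norm_num); omega
  have hbr : (0 : ℝ) < b := by exact_mod_cast (by omega : 0 < b)
  have hj := jbig hb
  generalize b ^ 37 - b = j at *
  have hc : (0 : ℝ) ≤ 1 / (2 * (b : ℝ) ^ 32856) := by positivity
  refine (Qx_mono' fun l hl ho => ind_mono (hP l hl ho)).trans ?_
  rw [Qx_append]
  refine Qx_le_const hc fun la hla _ => ?_
  rw [zero_add]
  have e1 : ∀ l', loc (la ++ l') m = pos la := fun l' => by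
    rw [loc_append_left _ hla.ge, ← hla, loc_length]
  simp only [e1]
  by_cases hg : Gd ω (pos la) (2 * j) (hh (b ^ 4)) ∧ Wide ω (pos la) (hh (b ^ 4))
  swap
  · refine Qx_le_const hc fun l' _ _ => ?_
    rw [ind_neg fun h => hg ⟨h.1, h.2.1⟩]
    exact hc
  rw [Qx_append]
  set K := (range (m + 1)).filter fun k => lam * (((loc la k - pos la) 0 : ℤ) : ℝ) ≤ N with hK
  have hc' : (0 : ℝ) < ((b ^ 4 : ℕ) : ℝ) ^ ((D + 1) / 2) := by positivity
  calc _ ≤ Qx lam ω j (pos la) fun lb => ∑ k ∈ K, ind (pos la + pos lb ∈ ball (loc la k) (3 * b)) := by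
        refine Qx_mono fun lb hlb => Qx_le_const
          (sum_nonneg fun _ _ => ind_nonneg _) fun lc _ _ => ind_le_sum _ _ ?_
        rintro ⟨-, -, k, hk1, hk2, hk3⟩
        rw [loc_append_left _ (hk1.trans hla.ge)] at hk2 hk3
        refine ⟨k, mem_filter.2 ⟨mem_range.2 (by omega), hk2⟩, mem_ball.2 ?_⟩
        rw [← hla, loc_append_right, loc_append_left _ hlb.ge, ← hlb, loc_length] at hk3
        rwa [nrm_sub_comm]
    _ = ∑ k ∈ K, ∑ z ∈ ball (loc la k) (3 * b), pf lam ω j (pos la) z := by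
        rw [Qx_sum]; exact sum_congr rfl fun k _ => Qx_mem _ _ _
    _ ≤ ∑ k ∈ K, ∑ z ∈ ball (loc la k) (3 * b),
          ((b ^ 4 : ℕ) : ℝ) / ((b ^ 4 : ℕ) : ℝ) ^ ((D + 1) / 2) := by
        refine sum_le_sum fun k hk' => sum_le_sum fun z hz => ?_
        have h1 := hk lam ω (pos la) z j hl0 hl1 hj hg.1 hg.2
        have h2 := (mem_filter.1 hk').2
        have h3 := (abs_le.1 (nrm_le_iff.1 (mem_ball.1 hz) 0)).2
        simp only [Pi.sub_apply] at h2 h3
        have h4 : ((z 0 : ℤ) : ℝ) - (loc la k 0 : ℤ) ≤ 3 * b := by exact_mod_cast h3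
        push_cast at h2
        have h5 : lam * ((z 0 : ℝ) - (loc la k 0 : ℤ)) ≤ 3 * b := by
          rcases le_total ((z 0 : ℝ) - (loc la k 0 : ℤ)) 0 with h | h
          · nlinarith
          · nlinarith
        rw [max_eq_left (by nlinarith), Real.exp_zero, mul_one] at h1
        rwa [le_div_iff₀ hc']
    _ ≤ ((m + 1 : ℕ) : ℝ) * (((2 * (3 * b) + 1) ^ (D + 1) : ℕ) *
          (((b ^ 4 : ℕ) : ℝ) / ((b ^ 4 : ℕ) : ℝ) ^ ((D + 1) / 2))) := by
        simp only [sum_const, card_ball, nsmul_eq_mul]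
        gcongr
        exact (card_filter_le _ _).trans (card_range _).le
    _ ≤ _ := by
        have := num1 hD h7 hm
        rw [← mul_div_assoc, ← mul_div_assoc, div_le_div_iff₀ hc' (by positivity), one_mul, mul_comm]
        have h2 : ((2 * b ^ 32856 * ((m + 1) * (2 * (3 * b) + 1) ^ (D + 1) * b ^ 4) : ℕ) : ℝ) ≤
          (((b ^ 4) ^ ((D + 1) / 2) : ℕ) : ℝ) := Nat.cast_le.2 this
        rw [Nat.cast_pow (b ^ 4), Nat.cast_mul, Nat.cast_mul, Nat.cast_mul, Nat.cast_mul,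
          Nat.cast_pow b 32856, mul_assoc ((m + 1 : ℕ) : ℝ)] at h2
        exact h2

theorem bad {p : ℝ} (h0 : 0 ≤ p) (h1 : p ≤ 1) {b R : ℕ} (hb : 2 ≤ b) (hR : 2 * R + 1 ≤ b ^ 2741)
    (hp : ∀ (v : V D) (l : ℕ), 1 ≤ l →
      (perc D p).real {ω | Ch ω v (hh l)} ≤ 1 / (l : ℝ) ^ (700 * (D + 1) + 9000)) :
    (perc D p).real {ω | ∃ v ∈ ball (0 : V D) R, Ch ω v (hh (b ^ 4))} ≤
      1 / (2 * (b : ℝ) ^ 32856) := by
  have hb1 : 1 ≤ b := by omega
  have hbr : (0 : ℝ) < b := by exact_mod_cast (by omega : 0 < b)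
  refine (real_exists_le h0 h1 _ _ fun v _ => hp v (b ^ 4) (Nat.one_le_pow _ _ hb1)).trans ?_
  rw [card_ball, mul_one_div, div_le_div_iff₀ (by positivity) (by positivity), one_mul]
  have h : (2 * R + 1) ^ (D + 1) * (2 * b ^ 32856) ≤ (b ^ 4) ^ (700 * (D + 1) + 9000) :=
    calc (2 * R + 1) ^ (D + 1) * (2 * b ^ 32856) ≤ (b ^ 2741) ^ (D + 1) * (b * b ^ 32856) := by
          gcongr
      _ = b ^ (2741 * (D + 1) + (32856 + 1)) := by rw [pow_add b, pow_mul, pow_succ' b 32856]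
      _ ≤ b ^ (4 * (700 * (D + 1) + 9000)) := Nat.pow_le_pow_right hb1 (by omega)
      _ = _ := pow_mul _ _ _
  have h2 := (Nat.cast_le (α := ℝ)).2 h
  rw [Nat.cast_pow (b ^ 4), Nat.cast_mul, Nat.cast_mul, Nat.cast_pow b 32856] at h2
  exact h2

theorem NN_le {b n : ℕ} (hb : (D + 9) * 2740 + 3 ≤ b) (h0 : 1 ≤ n) (hn : n ≤ b ^ 2740) :
    NN D n + 3 * b ≤ ((b ^ 4 : ℕ) : ℝ) ^ 2 := by
  have hb1 : 1 ≤ b := by omega
  have hbr : (1 : ℝ) ≤ b := by exact_mod_cast hb1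
  have h1 : Real.log n ≤ 2740 * b := by
    have h2 : Real.log n ≤ Real.log ((b : ℝ) ^ 2740) :=
      Real.log_le_log (by exact_mod_cast h0) (by rw [← Nat.cast_pow]; exact Nat.cast_le.2 hn)
    rw [Real.log_pow] at h2
    have h3 := Real.log_le_sub_one_of_pos (by linarith : (0 : ℝ) < b)
    push_cast at h2
    linarith
  have h4 : ((D : ℝ) + 9) * 2740 + 3 ≤ b := by exact_mod_cast hb
  have h5 : (b : ℝ) ^ 2 ≤ ((b ^ 4 : ℕ) : ℝ) ^ 2 := by
    gcongr
    exact Nat.le_self_pow (by norm_num) b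
  have h6 : ((D : ℝ) + 9) * Real.log n ≤ ((D : ℝ) + 9) * (2740 * b) := by gcongr
  unfold NN
  nlinarith

theorem Ls_succ (L i : ℕ) : Ls L (i + 1) = Ls L i ^ 37 := by
  unfold Ls; rw [pow_succ, pow_mul]

theorem le_Ls (L i : ℕ) : L ≤ Ls L i := Nat.le_self_pow (by positivity) L

theorem hh_le {b : ℕ} (hb : 2 ≤ b) : 4 * hh (b ^ 4) ≤ b ^ 37 ∧ hh (b ^ 4) + 2 ≤ b ^ 37 := by
  have h1 : hh (b ^ 4) ≤ b ^ 4 := (Nat.div_le_self _ _).trans (Nat.log_le_self _ _)
  have h2 : 2 ^ 2 ≤ b ^ 33 :=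
    (Nat.pow_le_pow_left hb 2).trans (Nat.pow_le_pow_right (by omega) (by norm_num))
  have h3 : b ^ 37 = b ^ 33 * b ^ 4 := by rw [← pow_add]
  have h4 : 2 ^ 2 * b ^ 4 ≤ b ^ 33 * b ^ 4 := Nat.mul_le_mul_right _ h2
  have h5 : 1 ≤ b ^ 4 := Nat.one_le_pow _ _ (by omega)
  omega

theorem pows {b : ℕ} (hb : 7 ≤ b) : b ≤ b ^ 37 ∧ b ^ 37 ≤ (b ^ 37) ^ 37 ∧
    (b ^ 37) ^ 37 ≤ ((b ^ 37) ^ 37) ^ 2 ∧ 7 * ((b ^ 37) ^ 37) ^ 2 ≤ b ^ 2740 ∧
    7 * b ^ 2740 ≤ b ^ 2741 ∧ 1 ≤ b ^ 37 := by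
  refine ⟨Nat.le_self_pow (by norm_num) _, Nat.le_self_pow (by norm_num) _,
    Nat.le_self_pow (by norm_num) _, ?_, ?_, Nat.one_le_pow _ _ (by omega)⟩
  · rw [← pow_mul, ← pow_mul]
    refine (Nat.mul_le_mul_right _ hb).trans ?_
    rw [← pow_succ']
    exact Nat.pow_le_pow_right (by omega) (by omega)
  · rw [pow_succ' b 2740]
    exact Nat.mul_le_mul_right _ hb

/-- the constants -/
theorem setup (hk : HKStmt) (hp : PeiLStmt) (hD : 100000 ≤ D) : ∃ (L₀ : ℕ) (e₀ : ℝ), 0 < e₀ ∧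
    (∀ b, L₀ ≤ b → HB D b ∧ 2 * 7 ^ (D + 1) ≤ b ∧ (D + 9) * 2740 + 3 ≤ b) ∧
    ∀ p, 1 - e₀ ≤ p → p ≤ 1 → 0 ≤ p → ∀ (v : V D) (l : ℕ), 1 ≤ l →
      (perc D p).real {ω | Ch ω v (hh l)} ≤ 1 / (l : ℝ) ^ (700 * (D + 1) + 9000) := by
  obtain ⟨l₀, h1⟩ := hk D (by omega)
  obtain ⟨e₀, h2, h3⟩ := hp D (700 * (D + 1) + 9000)
  refine ⟨l₀ + 2 * 7 ^ (D + 1) + ((D + 9) * 2740 + 3), e₀, h2, fun b hb => ⟨?_, by omega, by omega⟩,
    h3⟩
  exact h1 (b ^ 4) (le_trans (by omega) (Nat.le_self_pow (by norm_num) b))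

theorem real_const {p : ℝ} (h0 : 0 ≤ p) (h1 : p ≤ 1) (P : Prop) :
    (perc D p).real {_ω : Cfg D | P} = ind P := by
  have := perc_prob D h0 h1
  by_cases h : P <;> simp [ind, h]

end Far

open Far

theorem far : BrfStmt → HKStmt → PeiLStmt → FarStmt := by
  intro hbr hk hp D hD
  obtain ⟨L₀, e₀, he, hL, hP⟩ := setup hk hp hD
  refine ⟨L₀, e₀, he, fun L hL0 p lam hp0 hp1 hp2 hl0 hl1 i S _ hS => ?_⟩
  obtain ⟨hb1, hb2, hb3⟩ := hL (Ls L i) (hL0.trans (le_Ls L i))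
  have e1 : Ls L (i + 1) = Ls L i ^ 37 := Ls_succ L i
  have e2 : Ls L (i + 1 + 1) = (Ls L i ^ 37) ^ 37 := by rw [Ls_succ, e1]
  have e3 : Ls L (i + 2) = (Ls L i ^ 37) ^ 37 := e2
  simp only [Iso, e1, e2]
  generalize Ls L i = b at *
  clear e1 e2 e3
  have hb : 7 ≤ b := by omega
  obtain ⟨p1, p2, p3, p4, p5, p6⟩ := pows hb
  obtain ⟨q1, q2⟩ := hh_le (by omega : 2 ≤ b)
  obtain ⟨m, hm⟩ : ∃ m, (b ^ 37) ^ 37 = m + (b ^ 37 - b + b) := ⟨(b ^ 37) ^ 37 - b ^ 37, by omega⟩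
  have hN := NN_le (n := (b ^ 37) ^ 37) hb3 (by omega) (by omega)
  generalize (b ^ 37) ^ 37 = n at *
  have hbr0 : (1 : ℝ) ≤ b := by exact_mod_cast (by omega : 1 ≤ b)
  have key := hbr D p lam hp2 hp1 n S
    (fun S' _ => (∀ k, n ≤ k → k ≤ S'.length → 3 * b ^ 37 < nrm (back S' k - back S' (b ^ 37))) ∧
      NBk lam S' n (NN D n) ∧
      ¬ ∀ k, b ^ 37 ≤ k → k ≤ S'.length → 3 * b < nrm (back S' k - back S' b))
    {ω | ∃ v ∈ ball (0 : V D) (n + 2 * b ^ 37), Ch ω v (hh (b ^ 4))} (1 / (2 * (b : ℝ) ^ 32856))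
    hS (by positivity) (fun _ => MeasurableSet.const _) ?_
  · simp only [real_const hp2 hp1, ← ind_and] at key
    have h2 := bad hp2 hp1 (b := b) (R := n + 2 * b ^ 37) (by omega) (by omega) (hP p hp0 hp1 hp2)
    have h3 : 1 / (2 * (b : ℝ) ^ 32856) ≤ 1 / (2 * b) := by
      gcongr
      exact le_self_pow₀ hbr0 (by norm_num)
    have h4 : 1 / (2 * (b : ℝ)) + 1 / (2 * b) = 1 / b := by field_simp; norm_num
    linarith
  intro ω hω
  subst hm
  refine quench hD hb1 hb2 hl0 hl1 _ m b hN (by omega) _ ?_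
  rintro l hl ho ⟨h1, h2, h3⟩
  have f1 : back (tr S (ov S ω) l) (b ^ 37) = loc l m - pos l := by
    rw [back_tr _ _ _ (by omega)]; congr 2; omega
  have f2 : back (tr S (ov S ω) l) b = loc l (m + (b ^ 37 - b)) - pos l := by
    rw [back_tr _ _ _ (by omega)]; congr 2; omega
  have hfar : ∀ k ≤ S.length, 3 * b ^ 37 < nrm (back S k - loc l m) := fun k hk' => by
    have := h1 (l.length + k) (by omega) (by rw [length_tr]; omega)
    rwa [back_tr_add, f1, sub_sub_sub_cancel_right] at this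
  have hc : Conn (ov S ω) 0 (loc l m) := by simpa using ho.conn m
  refine ⟨fun v hv hch => hω ⟨v, mem_ball.2 ?_, Ch_local (fun x hx s => ?_) hch⟩,
    ⟨0, loc l m, hc.symm, Conn.refl _ _, ?_⟩, ?_⟩
  · have := nrm_tri v (loc l m) 0
    have := nrm_loc_le l m
    simp only [sub_zero] at *
    omega
  · refine ov_eq_of_far (fun k _ hk' => ?_) ω s
    have := hfar k hk'
    have := nrm_tri (back S k) x (loc l m)
    have := nrm_tri x v (loc l m)
    omega
  · have := hfar 0 (Nat.zero_le _)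
    rw [back_zero] at this
    omega
  · push Not at h3
    obtain ⟨k, k1, k2, k3⟩ := h3
    have k4 : k ≤ l.length := by
      by_contra hn
      have a1 := h1 k (by omega) k2
      have a2 := nrm_tri (back (tr S (ov S ω) l) k) (back (tr S (ov S ω) l) b)
        (back (tr S (ov S ω) l) (b ^ 37))
      have a3 := nrm_back_sub (tr S (ov S ω) l) p1
      rw [nrm_sub_comm] at a3
      omega
    have a4 := h2 (b ^ 37) k k1 (by omega) k2
    rw [back_tr _ _ _ k4, f1, sub_sub_sub_cancel_right] at a4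
    rw [back_tr _ _ _ k4, f2, sub_sub_sub_cancel_right] at k3
    exact ⟨l.length - k, by omega, a4, k3⟩

theorem top : BrfStmt → HKStmt → PeiLStmt → TopStmt := by
  intro hbr hk hp D hD
  obtain ⟨L₀, e₀, he, hL, hP⟩ := setup hk hp hD
  refine ⟨L₀, e₀, he, fun L hL0 p lam hp0 hp1 hp2 hl0 hl1 J s n hJ hs1 hs2 hn => ?_⟩
  obtain ⟨i, rfl⟩ : ∃ i, J = i + 1 := ⟨J - 1, by omega⟩
  obtain ⟨hb1, hb2, hb3⟩ := hL (Ls L i) (hL0.trans (le_Ls L i))
  have e1 : Ls L (i + 1) = Ls L i ^ 37 := Ls_succ L i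
  have e2 : Ls L (i + 1 + 1) = (Ls L i ^ 37) ^ 37 := by rw [Ls_succ, e1]
  simp only [Iso, Nat.add_sub_cancel, e1, e2] at hs1 hn ⊢
  generalize Ls L i = b at *
  clear e1 e2
  have hb : 7 ≤ b := by omega
  obtain ⟨p1, p2, p3, p4, p5, p6⟩ := pows hb
  obtain ⟨m, hm⟩ : ∃ m, s = m + b ^ 37 := ⟨s - b ^ 37, by omega⟩
  obtain ⟨r, hr⟩ : ∃ r, n = m + (b ^ 37 - b + r) := ⟨n - m - (b ^ 37 - b), by omega⟩
  have hN := NN_le (n := 2 * ((b ^ 37) ^ 37) ^ 2) hb3 (by omega) (by omega)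
  have hc : (((b ^ 37) ^ 37 : ℕ) : ℝ) ^ 24 = (b : ℝ) ^ 32856 := by
    rw [← pow_mul b, Nat.cast_pow, ← pow_mul]
  rw [hc]
  generalize NN D (2 * ((b ^ 37) ^ 37) ^ 2) = N at *
  generalize (b ^ 37) ^ 37 = n' at *
  have hbr0 : (1 : ℝ) ≤ b := by exact_mod_cast (by omega : 1 ≤ b)
  set E : St D → Prop := fun S' => NBk lam S' s N ∧
      ¬ ∀ k, b ^ 37 ≤ k → k ≤ S'.length → 3 * b < nrm (back S' k - back S' b) with hE
  have key := hbr D p lam hp2 hp1 n [] (fun S' ω => ω ∈ InfCl D ∧ E (S'.drop (n - s)))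
    {ω | ∃ v ∈ ball (0 : V D) (n + 2 * b ^ 37), Ch ω v (hh (b ^ 4))} (1 / (2 * (b : ℝ) ^ 32856))
    leg_nil (by positivity) (fun _ => measurableSet_inf.inter (MeasurableSet.const _)) ?_
  · have h2 := bad hp2 hp1 (b := b) (R := n + 2 * b ^ 37) (by omega) (by omega) (hP p hp0 hp1 hp2)
    have h4 : 1 / (2 * (b : ℝ) ^ 32856) + 1 / (2 * (b : ℝ) ^ 32856) = 1 / (b : ℝ) ^ 32856 := by
      generalize (b : ℝ) ^ 32856 = x
      ring
    refine le_trans (le_of_eq (Ex_congr fun u hu => ?_)) (key.trans (by linarith))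
    change th p (go [] u) * ind (E (go [] (u.take s))) = _
    rw [go_take, hu, th_eq, mul_assoc]
    by_cases h : E ((go [] u).drop (n - s))
    · simp [h]
    · simp [h]
  intro ω hω
  simp only [ov_nil]
  have hq := quench hD hb1 hb2 hl0 hl1 ω m r hN (by omega)
    fun l => shift (pos l) ω ∈ InfCl D ∧ E ((tr [] ω l).drop (n - s))
  rw [← hr] at hq
  refine hq ?_
  rintro l hl ho ⟨h0, h2, h3⟩
  have hc : Conn ω 0 (loc l m) := by simpa using ho.conn m
  have hinf : ω ∈ InfCl D := (inf_shift (by simpa using ho.conn_pos)).1 h0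
  have f0 : ∀ k ≤ s, back ((tr [] ω l).drop (n - s)) k = loc l (s - k) - loc l s := fun k hk' => by
    rw [back_drop, back_tr _ _ _ (by omega), back_tr _ _ _ (by omega), sub_sub_sub_cancel_right]
    congr 2 <;> omega
  refine ⟨fun v hv hch => hω ⟨v, mem_ball.2 ?_, hch⟩, wide_of_inf hinf hc _, ?_⟩
  · have := nrm_tri v (loc l m) 0
    have := nrm_loc_le l m
    simp only [sub_zero] at *
    omega
  · push Not at h3
    obtain ⟨k, k1, k2, k3⟩ := h3
    have k4 : k ≤ s := by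
      simp only [List.length_drop, length_tr, List.length_nil] at k2
      omega
    have a4 := h2 (b ^ 37) k k1 k4 k2
    rw [f0 k k4, f0 _ (by omega), sub_sub_sub_cancel_right,
      show s - b ^ 37 = m by omega] at a4
    rw [f0 k k4, f0 _ (by omega), sub_sub_sub_cancel_right,
      show s - b = m + (b ^ 37 - b) by omega] at k3
    exact ⟨s - k, by omega, a4, k3⟩

end Pool.Agent.MP_8c549f_pr.S3

end
end MrgPart1

-- ======== part 2: formerly Pool.Agent.MP_8c549f_pr.S3.Fin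
section MrgPart2

/-! PROJECT BWALK3, row FIN: finite clusters are covered fast. -/

noncomputable section

namespace Pool.Agent.MP_8c549f_pr.S3

open MeasureTheory Finset Real Classical

namespace FinA

variable {D : ℕ}

theorem ov_nil (ω : Cfg D) : ov [] ω = ω := by funext e; simp [ov, look]

theorem tr_snd (l : List (Step D)) : ∀ (S : St D) (ω : Cfg D),
    (tr S ω l).map Prod.snd = l.reverse ++ S.map Prod.snd := by
  induction l with
  | nil => intro S ω; simp [tr]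
  | cons s l ih => intro S ω; simp [tr, ih]

theorem pos_reverse (l : List (Step D)) : pos l.reverse = pos l := by
  simp [pos, List.map_reverse, List.sum_reverse]

theorem back_tr (S : St D) (ω : Cfg D) (l : List (Step D)) {k : ℕ} (hk : k ≤ l.length) :
    back (tr S ω l) k = loc l (l.length - k) - pos l := by
  have h1 : ((tr S ω l).take k).map Prod.snd = (l.drop (l.length - k)).reverse := by
    rw [List.map_take, tr_snd, List.take_append_of_le_length (by simpa using hk),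
      List.take_reverse]
  have h2 : pos l = loc l (l.length - k) + pos (l.drop (l.length - k)) := by
    rw [loc, ← pos_append, List.take_append_drop]
  rw [back, h1, pos_reverse, h2]
  abel

/-- the cluster of the origin inside a ball -/
def cl (ω : Cfg D) (R : ℕ) : Finset (V D) := (ball 0 R).filter fun y => Conn ω 0 y

theorem mem_cl {ω : Cfg D} {R : ℕ} (hR : ∀ c, Conn ω 0 c → nrm c ≤ R) {y : V D} :
    y ∈ cl ω R ↔ Conn ω 0 y := by
  rw [cl, mem_filter, mem_ball, sub_zero]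
  exact ⟨fun h => h.2, fun h => ⟨hR y h, h⟩⟩

theorem oc_cl {ω : Cfg D} {R : ℕ} (hR : ∀ c, Conn ω 0 c → nrm c ≤ R) {a b : V D}
    (ha : Conn ω 0 a) (h : Conn ω a b) : OC ω (cl ω R) a b := by
  induction h with
  | refl => exact Relation.ReflTransGen.refl
  | tail h1 h2 ih =>
    exact Relation.ReflTransGen.tail ih ⟨h2, (mem_cl hR).2 (ha.trans (Relation.ReflTransGen.tail h1 h2))⟩

theorem card_cl (ω : Cfg D) (R : ℕ) : ((cl ω R).card : ℝ) ≤ exp (2 * R * (D + 1)) := by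
  have h1 : (cl ω R).card ≤ (2 * R + 1) ^ (D + 1) :=
    (card_filter_le _ _).trans (card_ball 0 R).le
  have h2 : (2 * (R : ℝ) + 1) ≤ exp (2 * R) := add_one_le_exp _
  calc ((cl ω R).card : ℝ) ≤ ((2 * R + 1) ^ (D + 1) : ℕ) := by exact_mod_cast h1
    _ = (2 * (R : ℝ) + 1) ^ (D + 1) := by push_cast; ring
    _ ≤ exp (2 * R) ^ (D + 1) := pow_le_pow_left₀ (by positivity) h2 _
    _ = exp (2 * R * (D + 1)) := by rw [← exp_nat_mul]; congr 1; push_cast; ring

theorem pim_le {lam : ℝ} (h0 : 0 ≤ lam) (h1 : lam ≤ 1) (ω : Cfg D) {x : V D} {R : ℕ}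
    (hx : nrm x ≤ R) : pim lam ω x ≤ exp (2 * R) * (2 * D + 4) := by
  have hx0 : (x 0 : ℝ) ≤ R := by
    have := (abs_le.1 (nrm_le_iff.1 hx 0)).2
    exact_mod_cast this
  have hR : (0 : ℝ) ≤ R := Nat.cast_nonneg R
  refine mul_le_mul (exp_le_exp.2 ?_) ((Zq_le_Zf lam ω x).trans (Zf_le h0 h1)) (Zq_nonneg _ _ _)
    (exp_pos _).le
  nlinarith [mul_le_mul_of_nonneg_left hx0 h0, mul_le_mul_of_nonneg_right h1 hR]

theorem le_pim {lam : ℝ} (h0 : 0 ≤ lam) (h1 : lam ≤ 1) (ω : Cfg D) {x : V D} {R : ℕ}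
    (hx : nrm x ≤ R) (hZ : 0 < Zq lam ω x) : exp (-(2 * R)) * (1 / 3) ≤ pim lam ω x := by
  have hx0 : -(R : ℝ) ≤ x 0 := by
    have := (abs_le.1 (nrm_le_iff.1 hx 0)).1
    exact_mod_cast this
  have hR : (0 : ℝ) ≤ R := Nat.cast_nonneg R
  refine mul_le_mul (exp_le_exp.2 ?_) (third_le_Zq (by rw [abs_of_nonneg h0]; exact h1) hZ)
    (by norm_num) (exp_pos _).le
  nlinarith [mul_le_mul_of_nonneg_left hx0 h0, mul_le_mul_of_nonneg_right h1 hR]

theorem raw_le {lam : ℝ} (h0 : 0 ≤ lam) (h1 : lam ≤ 1) (ω : Cfg D) (R : ℕ) (g : V D → ℝ) :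
    (∑ x ∈ cl ω R, ∑ s, if ω (edge x s) = true then (g (x + vec s) - g x) ^ 2 else 0) ≤
      exp (2 * R + 1) * En lam ω (cl ω R) g := by
  rw [En, mul_sum]
  refine sum_le_sum fun x hx => ?_
  rw [mul_sum]
  refine sum_le_sum fun s _ => ?_
  split_ifs
  · have hx' : nrm x ≤ R := by simpa using mem_ball.1 (mem_filter.1 hx).1
    have hx0 : -(R : ℝ) ≤ x 0 := by
      have := (abs_le.1 (nrm_le_iff.1 hx' 0)).1
      exact_mod_cast this
    have hv : (-1 : ℝ) ≤ vec s 0 := by exact_mod_cast (vec_bounds s 0).1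
    have he : -(2 * (R : ℝ) + 1) ≤ (expo x s : ℝ) := by
      rw [expo]; push_cast; linarith
    have hR : (0 : ℝ) ≤ 2 * R + 1 := by positivity
    have : 1 ≤ exp (2 * R + 1) * exp (lam * (expo x s : ℝ)) := by
      rw [← exp_add]
      refine one_le_exp ?_
      nlinarith [mul_le_mul_of_nonneg_left he h0, mul_le_mul_of_nonneg_right h1 hR]
    rw [← mul_assoc]
    exact le_mul_of_one_le_left (sq_nonneg _) this
  · simp

/-- the walk avoids a site of a small cluster with small probability -/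
theorem avoid (P : PkStmt) (Sp : SpecStmt) (E : PathEStmt) {lam : ℝ} (h0 : 0 ≤ lam) (h1 : lam ≤ 1)
    {ω : Cfg D} {R : ℕ} (hR : ∀ c, Conn ω 0 c → nrm c ≤ R) {α : ℝ}
    (hα : (2 * D + 4) * exp (4 * R * (D + 2) + 1) ≤ α) {c : V D} (hc : Conn ω 0 c) (n : ℕ)
    (y : V D) :
    (Qx lam ω n y fun l => ind (∀ i ≤ n, y + loc l i ∈ (cl ω R).erase c)) ≤
      3 * α * exp (-(n / (8 * α))) := by
  obtain ⟨-, -, P3, -, P5, -, -⟩ := P D lam ω
  set A := (cl ω R).erase c with hA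
  have hD : (4 : ℝ) ≤ 2 * D + 4 := by have : (0 : ℝ) ≤ D := Nat.cast_nonneg D; linarith
  have hα1 : 1 ≤ α := by
    have : 1 ≤ exp (4 * R * (D + 2) + 1) := one_le_exp (by positivity)
    nlinarith
  rw [P3]
  by_cases hy : y ∈ A
  swap
  · rw [sum_eq_zero fun z _ => by
      by_contra h
      exact hy (P5 A n y z h).1]
    positivity
  have hyc : y ≠ c := (mem_erase.1 hy).1
  have hy0 : Conn ω 0 y := (mem_cl hR).1 (mem_erase.1 hy).2
  have hZ : 0 < Zq lam ω y := Zq_pos_of_ne (hy0.symm.trans hc) hyc.symm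
  have hN := card_cl ω R
  have hNA : (A.card : ℝ) ≤ exp (2 * R * (D + 1)) :=
    le_trans (by exact_mod_cast card_le_card (erase_subset _ _)) hN
  have hsum : ∑ x ∈ A, pim lam ω x ≤ exp (2 * R * (D + 1)) * (exp (2 * R) * (2 * D + 4)) := by
    refine (sum_le_card_nsmul A _ _ fun x hx =>
      pim_le h0 h1 ω (hR x ((mem_cl hR).1 (mem_erase.1 hx).2))).trans ?_
    rw [nsmul_eq_mul]
    exact mul_le_mul_of_nonneg_right hNA (by positivity)
  have hsp := Sp D lam ω A (cl ω R) y α 0 hZ hα1 le_rfl (fun g _ hg _ => ?_) n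
  swap
  · have hgc : g c = 0 := by
      by_contra h
      exact (mem_erase.1 (hg c h).1).1 rfl
    have hE := En_nonneg (lam := lam) (ω := ω) (cl ω R) g
    have hx : ∀ x ∈ A, g x ^ 2 ≤
        exp (2 * R * (D + 1)) * (exp (2 * R + 1) * En lam ω (cl ω R) g) := fun x hx => by
      have := E D ω (cl ω R) c x g ((mem_cl hR).2 hc)
        (oc_cl hR hc (hc.symm.trans ((mem_cl hR).1 (mem_erase.1 hx).2)))
      rw [hgc, sub_zero] at this
      refine this.trans (mul_le_mul hN (raw_le h0 h1 ω R g) ?_ (exp_pos _).le)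
      exact sum_nonneg fun _ _ => sum_nonneg fun _ _ => by split_ifs <;> positivity
    calc ∑ x ∈ A, pim lam ω x * g x ^ 2
        ≤ ∑ x ∈ A, pim lam ω x *
            (exp (2 * R * (D + 1)) * (exp (2 * R + 1) * En lam ω (cl ω R) g)) :=
          sum_le_sum fun x hx' => mul_le_mul_of_nonneg_left (hx x hx') (pim_nonneg _ _ _)
      _ ≤ exp (2 * R * (D + 1)) * (exp (2 * R) * (2 * D + 4)) *
            (exp (2 * R * (D + 1)) * (exp (2 * R + 1) * En lam ω (cl ω R) g)) := by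
          rw [← sum_mul]
          exact mul_le_mul_of_nonneg_right hsum (by positivity)
      _ = (2 * D + 4) * exp (4 * R * (D + 2) + 1) * En lam ω (cl ω R) g := by
          have : exp (4 * R * (D + 2) + 1) = exp (2 * R * (D + 1)) * exp (2 * R) *
              exp (2 * R * (D + 1)) * exp (2 * R + 1) := by
            simp only [← exp_add]; congr 1; ring
          rw [this]; ring
      _ ≤ α * En lam ω (cl ω R) g + 0 := by
          rw [add_zero]; exact mul_le_mul_of_nonneg_right hα hE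
  have hpy := le_pim h0 h1 ω (hR y hy0) hZ
  have hpos : ∀ z ∈ A, 0 < pim lam ω z := fun z hz =>
    mul_pos (exp_pos _) (Zq_pos_of_conn (hy0.symm.trans ((mem_cl hR).1 (mem_erase.1 hz).2)) hZ)
  have hcs : (∑ z ∈ A, pk lam ω A n y z) ^ 2 ≤
      (∑ z ∈ A, pk lam ω A n y z ^ 2 / pim lam ω z) * ∑ z ∈ A, pim lam ω z := by
    have := sum_sq_le_sum_mul_sum_of_sq_le_mul A (r := fun z => pk lam ω A n y z)
      (f := fun z => pk lam ω A n y z ^ 2 / pim lam ω z) (g := fun z => pim lam ω z)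
      (fun z hz => div_nonneg (sq_nonneg _) (hpos z hz).le) (fun z hz => (hpos z hz).le)
      (fun z hz => (div_mul_cancel₀ _ (hpos z hz).ne').ge)
    exact this
  have he : exp (-(n / (4 * α))) = exp (-(n / (8 * α))) ^ 2 := by
    rw [← exp_nat_mul]; congr 1; push_cast; field_simp; ring
  have hb : exp (-(n / (4 * α))) / pim lam ω y ≤ exp (-(n / (4 * α))) * (3 * exp (2 * R)) := by
    rw [div_eq_mul_inv]
    refine mul_le_mul_of_nonneg_left ?_ (exp_pos _).le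
    refine (inv_anti₀ (by positivity) hpy).trans (le_of_eq ?_)
    rw [exp_neg]; field_simp
  have hfin : (∑ z ∈ A, pk lam ω A n y z) ^ 2 ≤ (3 * α * exp (-(n / (8 * α)))) ^ 2 := by
    refine hcs.trans ?_
    rw [zero_add] at hsp
    refine (mul_le_mul (hsp.trans hb) hsum (sum_nonneg fun z hz => (hpos z hz).le)
      (by positivity)).trans ?_
    have h3 : exp (2 * R) * (exp (2 * R * (D + 1)) * exp (2 * R)) ≤ exp (4 * R * (D + 2) + 1) := by
      simp only [← exp_add]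
      refine exp_le_exp.2 ?_
      have : (0 : ℝ) ≤ R * D := by positivity
      have : (0 : ℝ) ≤ R := by positivity
      nlinarith
    have h4 : (2 * D + 4) * (exp (2 * R) * (exp (2 * R * (D + 1)) * exp (2 * R))) ≤ α :=
      (mul_le_mul_of_nonneg_left h3 (by positivity)).trans hα
    rw [he]
    have h5 : 0 ≤ exp (-(n / (8 * α))) ^ 2 := by positivity
    have h6 : 3 * α ≤ (3 * α) ^ 2 := by nlinarith
    calc exp (-(n / (8 * α))) ^ 2 * (3 * exp (2 * R)) *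
          (exp (2 * R * (D + 1)) * (exp (2 * R) * (2 * D + 4)))
        = exp (-(n / (8 * α))) ^ 2 *
          (3 * ((2 * D + 4) * (exp (2 * R) * (exp (2 * R * (D + 1)) * exp (2 * R))))) := by ring
      _ ≤ exp (-(n / (8 * α))) ^ 2 * (3 * α) ^ 2 :=
          mul_le_mul_of_nonneg_left (by linarith) h5
      _ = _ := by ring
  exact (pow_le_pow_iff_left₀ (sum_nonneg fun z _ => pk_nonneg _ _ _ _) (by positivity)
    two_ne_zero).1 hfin

/-- the quenched bound -/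
theorem quenched (P : PkStmt) (Sp : SpecStmt) (E : PathEStmt) {lam : ℝ} (h0 : 0 ≤ lam)
    (h1 : lam ≤ 1) {ω : Cfg D} {R : ℕ} (hR : ∀ c, Conn ω 0 c → nrm c ≤ R) {α : ℝ}
    (hα : (2 * D + 4) * exp (4 * R * (D + 2) + 1) ≤ α) (t n : ℕ) :
    (Qx lam ω (t + (n + 1)) 0 fun l => ind (Unc (tr [] ω l) (n + 1) (shift (pos l) ω))) ≤
      α * (3 * α * exp (-(n / (8 * α)))) := by
  have hD : (4 : ℝ) ≤ 2 * D + 4 := by have : (0 : ℝ) ≤ D := Nat.cast_nonneg D; linarith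
  have hα0 : 0 ≤ α := le_trans (by positivity) hα
  have hN : ((cl ω R).card : ℝ) ≤ α := by
    refine (card_cl ω R).trans (le_trans ?_ hα)
    have : exp (2 * R * (D + 1)) ≤ exp (4 * R * (D + 2) + 1) := by
      refine exp_le_exp.2 ?_
      have : (0 : ℝ) ≤ R * D := by positivity
      have : (0 : ℝ) ≤ R := by positivity
      nlinarith
    nlinarith [exp_pos (4 * (R : ℝ) * (D + 2) + 1)]
  have h2 : (Qx lam ω (t + (n + 1)) 0 fun l =>
      ind (Unc (tr [] ω l) (n + 1) (shift (pos l) ω))) ≤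
      Qx lam ω (t + (n + 1)) 0 fun l => ∑ c ∈ cl ω R,
        ind (∀ i ≤ n, loc l (t + i) ∈ (cl ω R).erase c) := by
    refine Qx_mono' fun l hl ho => ind_le_sum _ _ fun hU => ?_
    obtain ⟨-, c, hc, hk⟩ := hU
    have hc' : Conn ω 0 (c + pos l) := by
      have h3 := ho.conn_pos
      have h4 := hc.shift
      rw [zero_add] at h3 h4
      exact h3.trans h4
    refine ⟨c + pos l, (mem_cl hR).2 hc', fun i hi => mem_erase.2 ⟨fun h => ?_, ?_⟩⟩
    · refine hk (n + 1 - i) (by omega) (by omega) ?_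
      rw [back_tr _ _ _ (by omega), hl, show t + (n + 1) - (n + 1 - i) = t + i by omega, h]
      abel
    · have := ho.conn (t + i)
      rw [zero_add] at this
      exact (mem_cl hR).2 this
  refine h2.trans ?_
  rw [Qx_sum]
  refine (sum_le_card_nsmul _ _ (3 * α * exp (-(n / (8 * α)))) fun c hc => ?_).trans ?_
  · rw [Qx_append]
    refine Qx_le_const (by positivity) fun l hl _ => ?_
    refine le_trans ?_ (avoid P Sp E h0 h1 hR hα ((mem_cl hR).1 hc) n (0 + pos l))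
    rw [Qx_append]
    refine Qx_mono fun l' hl' => Qx_le_const (ind_nonneg _) fun l'' _ _ => ind_mono fun h i hi => ?_
    have := h i hi
    rw [← hl, loc_append_right, loc_append_left _ (by omega)] at this
    rwa [zero_add]
  · rw [nsmul_eq_mul]
    exact mul_le_mul_of_nonneg_right hN (by positivity)

theorem numeric {a s : ℝ} (ha : 1 ≤ a) (hs : 1 ≤ s) (k : ℕ) :
    a * s * (3 * (a * s) * exp (-((s ^ 2 - 1) / (8 * (a * s))))) ≤
      3 * a ^ 2 * exp 1 * (2 * k + 2).factorial * (8 * a) ^ (2 * k + 2) / (s ^ 2) ^ k := by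
  have hx : 0 < s / (8 * a) := by positivity
  have h1 : -((s ^ 2 - 1) / (8 * (a * s))) ≤ 1 + -(s / (8 * a)) := by
    have e : (s ^ 2 - 1) / (8 * (a * s)) = s / (8 * a) - 1 / (8 * (a * s)) := by
      field_simp
    have : 1 / (8 * (a * s)) ≤ 1 := by
      rw [div_le_one (by positivity)]; nlinarith
    rw [e]; linarith
  have h2 := pow_div_factorial_le_exp _ hx.le (2 * k + 2)
  have hf : (0 : ℝ) < (2 * k + 2).factorial := by exact_mod_cast Nat.factorial_pos _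
  have h3 : exp (-(s / (8 * a))) ≤ (2 * k + 2).factorial * (8 * a) ^ (2 * k + 2) / s ^ (2 * k + 2) := by
    rw [exp_neg]
    refine (inv_anti₀ (by positivity) h2).trans (le_of_eq ?_)
    rw [div_pow]; field_simp
  have h4 : exp (-((s ^ 2 - 1) / (8 * (a * s)))) ≤
      exp 1 * ((2 * k + 2).factorial * (8 * a) ^ (2 * k + 2) / s ^ (2 * k + 2)) :=
    (exp_le_exp.2 h1).trans (by rw [exp_add]; exact mul_le_mul_of_nonneg_left h3 (exp_pos _).le)
  calc a * s * (3 * (a * s) * exp (-((s ^ 2 - 1) / (8 * (a * s)))))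
      ≤ a * s * (3 * (a * s) * (exp 1 *
        ((2 * k + 2).factorial * (8 * a) ^ (2 * k + 2) / s ^ (2 * k + 2)))) := by gcongr
    _ = _ := by rw [← pow_mul]; field_simp; ring

end FinA

open FinA in
theorem fin (B : BrfStmt) (P : PkStmt) (Sp : SpecStmt) (E : PathEStmt) (F : FcpStmt) : FinStmt := by
  intro D hD k
  obtain ⟨e₀, he₀, hF⟩ := F D hD (16 * (D + 2) * k)
  set a : ℝ := (2 * D + 4) * exp 1 with ha
  have hD4 : (4 : ℝ) ≤ 2 * D + 4 := by have : (0 : ℝ) ≤ D := Nat.cast_nonneg D; linarith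
  have ha1 : 1 ≤ a := by nlinarith [one_le_exp (zero_le_one (α := ℝ))]
  refine ⟨3 * a ^ 2 * exp 1 * (2 * k + 2).factorial * (8 * a) ^ (2 * k + 2) + 1, e₀,
    by positivity, he₀, fun p lam hp hp1 hp0 h0 h1 t T hT => ?_⟩
  obtain ⟨n, rfl⟩ : ∃ n, T = n + 1 := ⟨T - 1, by omega⟩
  set s : ℝ := √((n + 1 : ℕ) : ℝ) with hs
  have hs2 : s ^ 2 = ((n + 1 : ℕ) : ℝ) := sq_sqrt (Nat.cast_nonneg _)
  have hs1 : 1 ≤ s := by
    rw [hs, one_le_sqrt]; exact_mod_cast hT
  have hl0 : 0 ≤ log s := log_nonneg hs1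
  have hDp : (0 : ℝ) < 8 * (D + 2) := by positivity
  set h : ℕ := ⌊log s / (8 * (D + 2))⌋₊ with hh
  have hh1 : (h : ℝ) * (8 * (D + 2)) ≤ log s :=
    (le_div_iff₀ hDp).1 (Nat.floor_le (div_nonneg hl0 hDp.le))
  have hh2 : log s < (h + 1 : ℝ) * (8 * (D + 2)) := (div_lt_iff₀ hDp).1 (Nat.lt_floor_add_one _)
  have hα : (2 * D + 4) * exp (4 * (2 * h : ℕ) * (D + 2) + 1) ≤ a * s := by
    have : exp (4 * (2 * h : ℕ) * (D + 2)) ≤ s := by
      rw [← exp_log (zero_lt_one.trans_le hs1)]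
      refine exp_le_exp.2 (le_trans (le_of_eq ?_) hh1)
      push_cast; ring
    rw [exp_add, ha, mul_comm (exp _) (exp 1), ← mul_assoc]
    exact mul_le_mul_of_nonneg_left this (by positivity)
  have hb := B D p lam hp0 hp1 (t + (n + 1)) [] (fun S ω => Unc S (n + 1) ω)
    {ω | ω ∉ InfCl D ∧ ∃ c, Conn ω 0 c ∧ 2 * h ≤ nrm c}
    (a * s * (3 * (a * s) * exp (-(n / (8 * (a * s)))))) (fun _ ho => by simp at ho)
    (by positivity) (fun S => measurableSet_unc S _) fun ω hω => by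
      rw [ov_nil]
      by_cases hI : ω ∈ InfCl D
      · refine Qx_le_const (by positivity) fun l _ ho => ?_
        have h3 := ho.conn_pos
        rw [zero_add] at h3
        rw [ind_neg fun hU => hU.1 ((inf_shift h3).2 hI)]
        positivity
      · refine quenched P Sp E h0 h1 (R := 2 * h) (fun c hc => ?_) hα t n
        by_contra hn
        exact hω ⟨hI, c, hc, by omega⟩
  have hn : (n : ℝ) = s ^ 2 - 1 := by rw [hs2]; push_cast; ring
  have hq := numeric ha1 hs1 k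
  rw [← hn, hs2] at hq
  have hf := hF p hp hp1 hp0 h
  have hg : exp (-(16 * (D + 2) * k * (h + 1))) ≤ 1 / ((n + 1 : ℕ) : ℝ) ^ k := by
    rw [← hs2, ← pow_mul, one_div, ← exp_log (zero_lt_one.trans_le hs1), ← exp_nat_mul, ← exp_neg]
    refine exp_le_exp.2 (neg_le_neg ?_)
    have hk : (0 : ℝ) ≤ 2 * k := by positivity
    have := mul_le_mul_of_nonneg_left hh2.le hk
    push_cast
    linarith
  rw [add_div]
  exact hb.trans (add_le_add hq (hf.trans hg))

end Pool.Agent.MP_8c549f_pr.S3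

end
end MrgPart2

-- ======== part 3: formerly Pool.Agent.MP_8c549f_pr.S3.Hk
section MrgPart3

/-! PROJECT BWALK3, row HK: the heat kernel bound. -/

noncomputable section

namespace Pool.Agent.MP_8c549f_pr.S3

open MeasureTheory Finset Real Filter Topology

namespace Hk

variable {D : ℕ}

/-- the constant of the extension lemma -/
def Wc (D h : ℕ) : ℝ := (D + 1) * (10 * (h : ℝ) + 1) ^ (2 * (D + 1)) * exp (10 * h + 1)

theorem le_Wc (D h : ℕ) : (h : ℝ) + 1 ≤ Wc D h := by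
  have h0 : (0 : ℝ) ≤ h := Nat.cast_nonneg h
  have h1 : (10 * (h : ℝ) + 1) ≤ (10 * (h : ℝ) + 1) ^ (2 * (D + 1)) :=
    le_self_pow₀ (by linarith) (by omega)
  have h2 : (1 : ℝ) ≤ exp (10 * h + 1) := one_le_exp (by linarith)
  have h3 : (1 : ℝ) ≤ (D : ℝ) + 1 := by linarith [Nat.cast_nonneg (α := ℝ) D]
  unfold Wc
  calc (h : ℝ) + 1 ≤ 1 * (10 * (h : ℝ) + 1) * 1 := by linarith
    _ ≤ _ := by gcongr

theorem one_le_Wc (D h : ℕ) : 1 ≤ Wc D h := by
  linarith [le_Wc D h, Nat.cast_nonneg (α := ℝ) h]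

theorem exp_two_le : exp 2 ≤ 8 := by
  have h : exp 1 ≤ 2.72 := exp_one_lt_d9.le.trans (by norm_num)
  have e : exp 2 = exp 1 * exp 1 := by rw [← exp_add]; norm_num
  rw [e]
  nlinarith [exp_pos 1]

theorem exp_four_le : exp 4 ≤ 64 := by
  have e : exp 4 = exp 2 * exp 2 := by rw [← exp_add]; norm_num
  rw [e]
  nlinarith [exp_pos 2, exp_two_le]

theorem pim_le {lam : ℝ} (h0 : 0 ≤ lam) (h1 : lam ≤ 1) (ω : Cfg D) (x : V D) :
    pim lam ω x ≤ (2 * D + 4) * exp (2 * lam * (x 0 : ℝ)) := by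
  rw [pim, mul_comm]
  exact mul_le_mul_of_nonneg_right ((Zq_le_Zf lam ω x).trans (Zf_le h0 h1)) (exp_pos _).le

theorem le_pim {lam : ℝ} (h0 : 0 ≤ lam) (h1 : lam ≤ 1) {ω : Cfg D} {x : V D}
    (hx : 0 < Zq lam ω x) : exp (2 * lam * (x 0 : ℝ)) ≤ 3 * pim lam ω x := by
  have := third_le_Zq (lam := lam) (abs_le.2 ⟨by linarith, h1⟩) hx
  rw [pim]
  nlinarith [exp_pos (2 * lam * (x 0 : ℝ))]

theorem pim_pos {lam : ℝ} {ω : Cfg D} {x : V D} (hx : 0 < Zq lam ω x) : 0 < pim lam ω x :=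
  mul_pos (exp_pos _) hx

/-- comparison of the weights of two close sites -/
theorem wgt_le {lam c : ℝ} (h0 : 0 ≤ lam) {x u : V D} {R : ℕ} (hx : nrm (x - u) ≤ R)
    (hc : 2 * lam * R ≤ c) :
    exp (2 * lam * (x 0 : ℝ)) ≤ exp c * exp (2 * lam * (u 0 : ℝ)) := by
  rw [← exp_add]
  refine exp_le_exp.2 ?_
  have h1 := (abs_le.1 (nrm_le_iff.1 hx 0)).2
  rw [Pi.sub_apply] at h1
  have h2 : (x 0 : ℝ) - u 0 ≤ R := by exact_mod_cast h1
  nlinarith

theorem zq_of_wide {lam : ℝ} {ω : Cfg D} {y : V D} {h : ℕ} (hh : 2 ≤ h) (hw : Wide ω y h) :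
    0 < Zq lam ω y := by
  obtain ⟨c, h1, h2⟩ := hw.big
  refine Zq_pos_of_ne h1 fun e => ?_
  rw [e, sub_self, nrm_zero] at h2
  omega

/-- pointwise form of the spectral bound -/
theorem sq_le (hP : PkStmt) (hS : SpecStmt) {lam : ℝ} {ω : Cfg D} {B : Finset (V D)} {y : V D}
    {α κ : ℝ} {n : ℕ} (hy : 0 < Zq lam ω y) (hα : 1 ≤ α) (hκ : 0 ≤ κ)
    (H : ∀ g : V D → ℝ, (∀ x, 0 ≤ g x) → (∀ x, g x ≠ 0 → x ∈ ball y n ∧ Conn ω y x) →
      ∑ x ∈ ball y n, pim lam ω x * g x ≤ 2 →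
      ∑ x ∈ ball y n, pim lam ω x * g x ^ 2 ≤ α * En lam ω B g + κ) (z : V D) :
    pf lam ω n y z = 0 ∨ (nrm (z - y) ≤ n ∧
      pf lam ω n y z ^ 2 ≤ pim lam ω z * (κ + exp (-(n / (4 * α))) / pim lam ω y)) := by
  obtain ⟨-, -, -, p4, p5, -, -⟩ := hP D lam ω
  rw [p4]
  by_cases h0 : pk lam ω (ball y n) n y z = 0
  · exact Or.inl h0
  obtain ⟨-, hz, hc, hn⟩ := p5 _ _ _ _ h0
  refine Or.inr ⟨hn, ?_⟩
  have hz0 : 0 < pim lam ω z := pim_pos (Zq_pos_of_conn hc hy)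
  have h1 := hS D lam ω (ball y n) B y α κ hy hα hκ H n
  have h2 := single_le_sum (f := fun z => pk lam ω (ball y n) n y z ^ 2 / pim lam ω z)
    (fun x _ => div_nonneg (sq_nonneg _) (pim_nonneg _ _ _)) hz
  have h3 := h2.trans h1
  rwa [div_le_iff₀ hz0, mul_comm] at h3

/-- the extension lemma in the form used here -/
theorem ext' (hE : ExtStmt) (hD : 1 ≤ D) {lam : ℝ} (h0 : 0 ≤ lam) (h1 : lam ≤ 1) {ω : Cfg D}
    {u : V D} {m h : ℕ} (hh : 2 ≤ h) (hG : Gd ω u (m + 9 * h) h) (hw : Wide ω u h)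
    {g : V D → ℝ} (hg : ∀ x, g x ≠ 0 → x ∈ ball u m ∧ Conn ω u x) :
    ∃ g' : V D → ℝ, (∀ x, g' x ≠ 0 → x ∈ ball u (m + h)) ∧
      (∀ f : V D → ℝ, (∀ x, 0 ≤ f x) →
        ∑ x ∈ ball u m, f x * g x ^ 2 ≤ ∑ x ∈ ball u (m + h), f x * g' x ^ 2) ∧
      ∑ x ∈ ball u (m + h), |g' x| ≤ (h + 1) * ∑ x ∈ ball u m, |g x| ∧
      ∑ x ∈ ball u (m + h + 1), ∑ i,
        exp (2 * lam * (x 0 : ℝ)) * (g' (x + Pi.single i 1) - g' x) ^ 2 ≤
          Wc D h * En lam ω (ball u (m + 7 * h)) g := by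
  obtain ⟨g', a1, a2, a3, a4⟩ := hE D hD lam ω u m h g h0 hh hG
    fun x hx => ⟨(hg x hx).1, (hw.of_conn (hg x hx).2).big⟩
  refine ⟨g', a1, fun f hf => ?_, a3, a4.trans ?_⟩
  · refine le_trans (sum_le_sum fun x _ => ?_) (sum_le_sum_of_subset_of_nonneg
      (ball_mono u (Nat.le_add_right m h)) fun x _ _ => mul_nonneg (hf x) (sq_nonneg _))
    by_cases hx : g x = 0
    · rw [hx]
      simpa using mul_nonneg (hf x) (sq_nonneg (g' x))
    · rw [a2 x hx]
  · refine mul_le_mul_of_nonneg_right ?_ (En_nonneg _ _)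
    unfold Wc
    have : lam * (10 * h + 1) ≤ 10 * (h : ℝ) + 1 :=
      mul_le_of_le_one_left (by positivity) h1
    gcongr

/-- functional inequality for a large drift -/
theorem funA (hH : HardyStmt) (hE : ExtStmt) (hD : 1 ≤ D) {lam : ℝ} (h0 : 0 < lam) (h1 : lam ≤ 1)
    {ω : Cfg D} {u : V D} {m h : ℕ} (hh : 2 ≤ h) (hG : Gd ω u (m + 9 * h) h) (hw : Wide ω u h)
    {g : V D → ℝ} (hg : ∀ x, g x ≠ 0 → x ∈ ball u m ∧ Conn ω u x) :
    ∑ x ∈ ball u m, pim lam ω x * g x ^ 2 ≤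
      (2 * D + 4) * (4 / lam ^ 2) * Wc D h * En lam ω (ball u (m + 7 * h)) g := by
  obtain ⟨g', a1, a2, -, a4⟩ := ext' hE hD h0.le h1 hh hG hw hg
  have b1 := hH D g' u (m + h) lam h0 h1 a1
  have b2 := a2 (fun x => exp (2 * lam * (x 0 : ℝ))) fun x => (exp_pos _).le
  have b3 : ∑ x ∈ ball u (m + h + 1), exp (2 * lam * (x 0 : ℝ)) *
      (g' (x + Pi.single 0 1) - g' x) ^ 2 ≤ ∑ x ∈ ball u (m + h + 1), ∑ i,
        exp (2 * lam * (x 0 : ℝ)) * (g' (x + Pi.single i 1) - g' x) ^ 2 :=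
    sum_le_sum fun x _ => single_le_sum
      (f := fun i => exp (2 * lam * (x 0 : ℝ)) * (g' (x + Pi.single i 1) - g' x) ^ 2)
      (fun i _ => by positivity) (mem_univ 0)
  have b4 : ∑ x ∈ ball u m, pim lam ω x * g x ^ 2 ≤
      (2 * D + 4) * ∑ x ∈ ball u m, exp (2 * lam * (x 0 : ℝ)) * g x ^ 2 := by
    rw [mul_sum]
    refine sum_le_sum fun x _ => ?_
    rw [← mul_assoc]
    exact mul_le_mul_of_nonneg_right (pim_le h0.le h1 ω x) (sq_nonneg _)
  refine b4.trans ?_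
  rw [mul_assoc, mul_assoc]
  refine mul_le_mul_of_nonneg_left (b2.trans (b1.trans ?_)) (by positivity)
  exact mul_le_mul_of_nonneg_left (b3.trans a4) (by positivity)

/-- functional inequality for a small drift -/
theorem funB (hN : NashStmt) (hE : ExtStmt) (hD : 1 ≤ D) {lam : ℝ} (h0 : 0 ≤ lam) (h1 : lam ≤ 1)
    {ω : Cfg D} {u : V D} {m h l : ℕ} (hl : 1 ≤ l) (hm : lam * m ≤ 1) (hhm : h + 1 ≤ m)
    (hh : 2 ≤ h) (hG : Gd ω u (m + 9 * h) h) (hw : Wide ω u h)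
    {g : V D → ℝ} (hg0 : ∀ x, 0 ≤ g x) (hg : ∀ x, g x ≠ 0 → x ∈ ball u m ∧ Conn ω u x)
    (hs : ∑ x ∈ ball u m, pim lam ω x * g x ≤ 2) :
    ∑ x ∈ ball u m, pim lam ω x * g x ^ 2 ≤
      1024 * (2 * D + 4) * (D + 1) * (l : ℝ) ^ 2 * Wc D h * En lam ω (ball u (m + 7 * h)) g +
        36864 * (2 * D + 4) * ((h : ℝ) + 1) ^ 2 /
          (exp (2 * lam * (u 0 : ℝ)) * (l : ℝ) ^ (D + 1)) := by
  obtain ⟨g', a1, a2, a3, a4⟩ := ext' hE hD h0 h1 hh hG hw hg
  have hu : 0 < Zq lam ω u := zq_of_wide hh hw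
  set E := exp (2 * lam * (u 0 : ℝ)) with hE'
  have hE0 : 0 < E := exp_pos _
  have hl0 : (0 : ℝ) < l := by exact_mod_cast hl
  have b1 := hN D g' u (m + h) l hl a1
  have b2 := a2 (fun _ => 1) fun _ => zero_le_one
  simp only [one_mul] at b2
  have b3 : ∑ x ∈ ball u m, pim lam ω x * g x ^ 2 ≤
      8 * (2 * D + 4) * E * ∑ x ∈ ball u m, g x ^ 2 := by
    rw [mul_sum]
    refine sum_le_sum fun x hx => mul_le_mul_of_nonneg_right ?_ (sq_nonneg _)
    have c1 := wgt_le (c := 2) h0 (mem_ball.1 hx) (by linarith)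
    have c2 : exp 2 * E ≤ 8 * E := mul_le_mul_of_nonneg_right exp_two_le hE0.le
    have c3 := pim_le h0 h1 ω x
    have c4 : (2 * (D : ℝ) + 4) * exp (2 * lam * (x 0 : ℝ)) ≤ (2 * D + 4) * (8 * E) :=
      mul_le_mul_of_nonneg_left (c1.trans c2) (by positivity)
    linarith
  have b4 : E * ∑ x ∈ ball u (m + h + 1), ∑ i, (g' (x + Pi.single i 1) - g' x) ^ 2 ≤
      64 * (Wc D h * En lam ω (ball u (m + 7 * h)) g) := by
    refine le_trans ?_ (mul_le_mul_of_nonneg_left a4 (by norm_num))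
    rw [mul_sum, mul_sum]
    refine sum_le_sum fun x hx => ?_
    rw [mul_sum, mul_sum]
    refine sum_le_sum fun i _ => ?_
    rw [← mul_assoc]
    refine mul_le_mul_of_nonneg_right ?_ (sq_nonneg _)
    have c0 : ((m + h + 1 : ℕ) : ℝ) ≤ 2 * m := by exact_mod_cast (by omega : m + h + 1 ≤ 2 * m)
    have c1 := wgt_le (c := 4) (x := u) (u := x) (R := m + h + 1) h0
      (by rw [nrm_sub_comm]; exact mem_ball.1 hx) (by nlinarith)
    exact c1.trans (mul_le_mul_of_nonneg_right exp_four_le (exp_pos _).le)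
  have b5 : E * ∑ x ∈ ball u m, |g x| ≤ 48 := by
    have : E * ∑ x ∈ ball u m, |g x| ≤ 24 * ∑ x ∈ ball u m, pim lam ω x * g x := by
      rw [mul_sum, mul_sum]
      refine sum_le_sum fun x hx => ?_
      rw [abs_of_nonneg (hg0 x)]
      by_cases hx0 : g x = 0
      · simp [hx0]
      rw [← mul_assoc]
      refine mul_le_mul_of_nonneg_right ?_ (hg0 x)
      have c1 := wgt_le (c := 2) (x := u) (u := x) (R := m) h0
        (by rw [nrm_sub_comm]; exact mem_ball.1 hx) (by linarith)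
      have c2 := le_pim h0 h1 (Zq_pos_of_conn (hg x hx0).2 hu)
      have c3 : exp 2 * exp (2 * lam * (x 0 : ℝ)) ≤ 8 * exp (2 * lam * (x 0 : ℝ)) :=
        mul_le_mul_of_nonneg_right exp_two_le (exp_pos _).le
      linarith
    linarith
  have b6 : E * ∑ x ∈ ball u (m + h), |g' x| ≤ 48 * ((h : ℝ) + 1) := by
    have c1 := mul_le_mul_of_nonneg_left a3 hE0.le
    have c2 := mul_le_mul_of_nonneg_left b5 (show (0 : ℝ) ≤ h + 1 by positivity)
    linarith
  have b7 : E * (∑ x ∈ ball u (m + h), |g' x|) ^ 2 ≤ 2304 * ((h : ℝ) + 1) ^ 2 / E := by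
    rw [le_div_iff₀ hE0]
    have c0 : 0 ≤ E * ∑ x ∈ ball u (m + h), |g' x| :=
      mul_nonneg hE0.le (sum_nonneg fun _ _ => abs_nonneg _)
    have := pow_le_pow_left₀ c0 b6 2
    linarith
  set T1 := ∑ x ∈ ball u (m + h + 1), ∑ i, (g' (x + Pi.single i 1) - g' x) ^ 2
  set T2 := (∑ x ∈ ball u (m + h), |g' x|) ^ 2
  set N := En lam ω (ball u (m + 7 * h)) g
  have hp : (0 : ℝ) < (l : ℝ) ^ (D + 1) := by positivity
  calc _ ≤ 8 * (2 * D + 4) * E * ∑ x ∈ ball u m, g x ^ 2 := b3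
    _ ≤ 8 * (2 * D + 4) * E * (2 * (D + 1) * (l : ℝ) ^ 2 * T1 + 2 * T2 / (l : ℝ) ^ (D + 1)) :=
      mul_le_mul_of_nonneg_left (b2.trans b1) (by positivity)
    _ = 16 * (2 * D + 4) * (D + 1) * (l : ℝ) ^ 2 * (E * T1) +
        16 * (2 * D + 4) / (l : ℝ) ^ (D + 1) * (E * T2) := by ring
    _ ≤ 16 * (2 * D + 4) * (D + 1) * (l : ℝ) ^ 2 * (64 * (Wc D h * N)) +
        16 * (2 * D + 4) / (l : ℝ) ^ (D + 1) * (2304 * ((h : ℝ) + 1) ^ 2 / E) := by gcongr
    _ = _ := by field_simp; ring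

/-- the size constant -/
def KK (D : ℕ) : ℝ := 4096 * (2 * (D : ℝ) + 4) ^ 2 * (2 * (D + 1)).factorial

theorem le_KK (D : ℕ) : 4096 * (2 * (D : ℝ) + 4) ^ 2 ≤ KK D := by
  have : (1 : ℝ) ≤ (2 * (D + 1)).factorial := by exact_mod_cast Nat.factorial_pos _
  exact le_mul_of_one_le_right (by positivity) this

theorem size (D : ℕ) : ∃ l₀ : ℕ, ∀ l, l₀ ≤ l → 2 ≤ hh l ∧ 200 * hh l ≤ l ∧
    (KK D * Wc D (hh l)) ^ 2 ≤ l := by
  have ht := tendsto_pow_const_div_const_pow_of_one_lt (4 * (D + 1)) (show (1 : ℝ) < 2 by norm_num)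
  set C : ℝ := (KK D * (D + 1) * 4) ^ 2 * 11 ^ (4 * (D + 1)) with hC
  have hK : 0 < KK D := lt_of_lt_of_le (by positivity) (le_KK D)
  have hC0 : 0 < C := by positivity
  obtain ⟨h₀, hh₀⟩ := eventually_atTop.1 (ht.eventually (gt_mem_nhds (one_div_pos.2 hC0)))
  refine ⟨2 ^ (200 * (h₀ + 2)), fun l hl => ?_⟩
  have hl0 : l ≠ 0 := by
    have := Nat.two_pow_pos (200 * (h₀ + 2))
    omega
  have e1 : 200 * (h₀ + 2) ≤ Nat.log 2 l := Nat.le_log_of_pow_le (by norm_num) hl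
  have e2 : h₀ + 2 ≤ hh l := by unfold hh; omega
  have e3 : 200 * hh l ≤ Nat.log 2 l := by unfold hh; omega
  have e4 : 2 ^ (200 * hh l) ≤ l :=
    (Nat.pow_le_pow_right (by norm_num) e3).trans (Nat.pow_log_le_self 2 hl0)
  refine ⟨by omega, e3.trans (Nat.log_le_self 2 l), ?_⟩
  set h := hh l
  have e5 : ((2 : ℝ)) ^ (200 * h) ≤ l := by exact_mod_cast e4
  have e6 := hh₀ h (by omega)
  rw [div_lt_div_iff₀ (by positivity) hC0, one_mul] at e6
  have h1 : (1 : ℝ) ≤ h := by exact_mod_cast (by omega : 1 ≤ h)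
  have e7 : exp (10 * (h : ℝ) + 1) ≤ 4 * 2 ^ (20 * h) := by
    have c1 : exp 1 ≤ 4 := exp_one_lt_d9.le.trans (by norm_num)
    have c2 : exp (10 * (h : ℝ) + 1) = exp 1 ^ (10 * h) * exp 1 := by
      rw [← exp_nat_mul, ← exp_add]; push_cast; ring_nf
    have c3 : exp 1 ^ (10 * h) ≤ 4 ^ (10 * h) := pow_le_pow_left₀ (exp_pos 1).le c1 _
    have c4 : (4 : ℝ) ^ (10 * h) = 2 ^ (20 * h) := by
      rw [show (4 : ℝ) = 2 ^ 2 by norm_num, ← pow_mul]; ring_nf
    rw [c2, ← c4, mul_comm]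
    gcongr
  have e8 : (10 * (h : ℝ) + 1) ^ (2 * (D + 1)) ≤ (11 * (h : ℝ)) ^ (2 * (D + 1)) :=
    pow_le_pow_left₀ (by positivity) (by linarith) _
  have e9 : KK D * Wc D h ≤ KK D * ((D + 1) * (11 * (h : ℝ)) ^ (2 * (D + 1)) * (4 * 2 ^ (20 * h))) := by
    unfold Wc
    gcongr
  have e10 := pow_le_pow_left₀ (mul_nonneg hK.le (by linarith [one_le_Wc D h])) e9 2
  refine e10.trans (le_trans ?_ e5)
  calc _ = (h : ℝ) ^ (4 * (D + 1)) * C * 2 ^ (40 * h) := by rw [hC]; ring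
    _ ≤ 2 ^ h * 2 ^ (40 * h) := by gcongr
    _ ≤ 2 ^ (200 * h) := by
      rw [← pow_add]
      exact pow_le_pow_right₀ (by norm_num) (by omega)

/-- the numerical consequences of the size condition -/
theorem nums {D h : ℕ} {l : ℝ} (H : (KK D * Wc D h) ^ 2 ≤ l) :
    KK D * Wc D h ≤ l ∧ KK D ≤ l ∧ 4096 * (2 * (D : ℝ) + 4) ^ 2 * Wc D h ≤ KK D * Wc D h := by
  have h0 : (0 : ℝ) ≤ D := Nat.cast_nonneg D
  have h1 := le_KK D
  have h2 := one_le_Wc D h
  have h3 : 1 ≤ KK D := by nlinarith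
  have h4 : 1 ≤ KK D * Wc D h := by nlinarith
  have h5 : KK D * Wc D h ≤ l := by nlinarith
  exact ⟨h5, by nlinarith, by gcongr⟩

theorem caseA (hP : PkStmt) (hS : SpecStmt) (hH : HardyStmt) (hE : ExtStmt) (hD : 1 ≤ D)
    {lam : ℝ} (h0 : 0 < lam) (h1 : lam ≤ 1) {ω : Cfg D} {y : V D} {j h l : ℕ}
    (hlam : 1 ≤ lam * (l : ℝ) ^ 3) (hj : l ^ 9 ≤ j) (hh : 2 ≤ h) (hl : 200 * h ≤ l)
    (H : (KK D * Wc D h) ^ 2 ≤ l) (hG : Gd ω y (2 * j) h) (hw : Wide ω y h) (z : V D) :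
    pf lam ω j y z ^ 2 * (l : ℝ) ^ (D + 1) ≤
      exp (lam * ((z 0 : ℝ) - (y 0 : ℝ)) - (l : ℝ) ^ 2) ^ 2 := by
  obtain ⟨n1, n2, n3⟩ := nums H
  have hy : 0 < Zq lam ω y := zq_of_wide hh hw
  have hD0 : (0 : ℝ) ≤ D := Nat.cast_nonneg D
  have hW := one_le_Wc D h
  have hK := le_KK D
  have hl1 : (1 : ℝ) ≤ l := by exact_mod_cast (by omega : 1 ≤ l)
  have hlj : l ≤ j := (Nat.le_self_pow (by norm_num) l).trans hj
  set c : ℝ := 2 * D + 4 with hc
  have hc4 : 4 ≤ c := by linarith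
  have a0 : 4 / lam ^ 2 ≤ 4 * (l : ℝ) ^ 6 := by
    rw [div_le_iff₀ (by positivity)]
    have := pow_le_pow_left₀ zero_le_one hlam 2
    linarith
  have hα : 1 ≤ c * (4 * (l : ℝ) ^ 6) * Wc D h := by
    have : (1 : ℝ) ≤ (l : ℝ) ^ 6 := one_le_pow₀ hl1
    have : 1 ≤ c * (4 * (l : ℝ) ^ 6) := by nlinarith
    nlinarith
  have key := sq_le hP hS (B := ball y (j + 7 * h)) (n := j) hy hα le_rfl (fun g _ hg _ => by
    rw [add_zero]
    refine (funA hH hE hD h0 h1 hh (hG.mono (by rw [sub_self, nrm_zero]; omega)) hw hg).trans ?_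
    have := En_nonneg (lam := lam) (ω := ω) (ball y (j + 7 * h)) g
    gcongr) z
  rcases key with e | ⟨-, key⟩
  · rw [e]
    simpa using sq_nonneg (exp (lam * ((z 0 : ℝ) - (y 0 : ℝ)) - (l : ℝ) ^ 2))
  rw [zero_add] at key
  have b1 : 3 * (l : ℝ) ^ 2 ≤ j / (4 * (c * (4 * (l : ℝ) ^ 6) * Wc D h)) := by
    rw [le_div_iff₀ (by positivity)]
    have c1 : ((l : ℝ)) ^ 9 ≤ j := by exact_mod_cast hj
    have c2 : 48 * c * Wc D h ≤ l := by
      refine le_trans ?_ (n3.trans n1)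
      have : 48 * c ≤ 4096 * c ^ 2 := by nlinarith
      gcongr
    calc _ = (l : ℝ) ^ 8 * (48 * c * Wc D h) := by ring
      _ ≤ (l : ℝ) ^ 8 * l := by gcongr
      _ ≤ j := by linarith
  have b2 : 3 * c * (l : ℝ) ^ (D + 1) ≤ exp ((l : ℝ) ^ 2) := by
    have c1 : 3 * c ≤ exp (3 * c) := by linarith [add_one_le_exp (3 * c)]
    have c2 : (l : ℝ) ≤ exp l := by linarith [add_one_le_exp (l : ℝ)]
    have c3 : (l : ℝ) ^ (D + 1) ≤ exp l ^ (D + 1) := pow_le_pow_left₀ (by linarith) c2 _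
    have c4 : 4 * c ≤ l := by nlinarith
    calc _ ≤ exp (3 * c) * exp l ^ (D + 1) := by gcongr
      _ = exp (3 * c + (D + 1) * l) := by
        rw [← exp_nat_mul, ← exp_add]; push_cast; ring_nf
      _ ≤ _ := exp_le_exp.2 (by nlinarith)
  have b3 : pim lam ω z * (exp (-(j / (4 * (c * (4 * (l : ℝ) ^ 6) * Wc D h)))) / pim lam ω y) ≤
      c * exp (2 * lam * (z 0 : ℝ)) *
        (exp (-(3 * (l : ℝ) ^ 2)) * (3 / exp (2 * lam * (y 0 : ℝ)))) := by
    have c1 := pim_le h0.le h1 ω z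
    have c2 : 1 / pim lam ω y ≤ 3 / exp (2 * lam * (y 0 : ℝ)) := by
      rw [div_le_div_iff₀ (pim_pos hy) (exp_pos _), one_mul]
      exact le_pim h0.le h1 hy
    have c3 := pim_pos hy
    rw [div_eq_mul_one_div]
    gcongr
  calc _ ≤ c * exp (2 * lam * (z 0 : ℝ)) *
        (exp (-(3 * (l : ℝ) ^ 2)) * (3 / exp (2 * lam * (y 0 : ℝ)))) * (l : ℝ) ^ (D + 1) :=
      mul_le_mul_of_nonneg_right (key.trans b3) (by positivity)
    _ = exp (2 * lam * (z 0 : ℝ)) * exp (-(3 * (l : ℝ) ^ 2)) / exp (2 * lam * (y 0 : ℝ)) *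
        (3 * c * (l : ℝ) ^ (D + 1)) := by ring
    _ ≤ exp (2 * lam * (z 0 : ℝ)) * exp (-(3 * (l : ℝ) ^ 2)) / exp (2 * lam * (y 0 : ℝ)) *
        exp ((l : ℝ) ^ 2) := by gcongr
    _ = _ := by
      rw [← exp_add, ← exp_sub, ← exp_add, ← exp_nat_mul]; push_cast; ring_nf

theorem caseB (hP : PkStmt) (hS : SpecStmt) (hN : NashStmt) (hE : ExtStmt) (hD : 1 ≤ D)
    {lam : ℝ} (h0 : 0 ≤ lam) (h1 : lam ≤ 1) {ω : Cfg D} {u : V D} {h l : ℕ}
    (hlam : lam * (l : ℝ) ^ 3 ≤ 1) (hh : 2 ≤ h) (hl : 200 * h ≤ l)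
    (H : (KK D * Wc D h) ^ 2 ≤ l) (hG : Gd ω u (l ^ 3 + 9 * h) h) (hw : Wide ω u h) (z : V D) :
    pf lam ω (l ^ 3) u z ^ 2 * (l : ℝ) ^ (D + 1) ≤ (l : ℝ) ^ 2 := by
  obtain ⟨n1, n2, n3⟩ := nums H
  have hu : 0 < Zq lam ω u := zq_of_wide hh hw
  have hD0 : (0 : ℝ) ≤ D := Nat.cast_nonneg D
  have hW := one_le_Wc D h
  have hW' := le_Wc D h
  have hK := le_KK D
  have hl1 : (1 : ℝ) ≤ l := by exact_mod_cast (by omega : 1 ≤ l)
  have hl3 : l ≤ l ^ 3 := Nat.le_self_pow (by norm_num) l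
  have hlam' : lam * ((l ^ 3 : ℕ) : ℝ) ≤ 1 := by push_cast; exact hlam
  have hα : 1 ≤ 1024 * (2 * D + 4) * (D + 1) * (l : ℝ) ^ 2 * Wc D h := by
    have c1 : (1 : ℝ) ≤ (l : ℝ) ^ 2 := one_le_pow₀ hl1
    have c2 : (1 : ℝ) ≤ 1024 * (2 * D + 4) * (D + 1) := by nlinarith
    exact one_le_mul_of_one_le_of_one_le (one_le_mul_of_one_le_of_one_le c2 c1) hW
  have key := sq_le hP hS (B := ball u (l ^ 3 + 7 * h)) (n := l ^ 3) hu hα (by positivity)
    (fun g hg0 hg hs => funB hN hE hD h0 h1 (l := l) (by omega) hlam' (by omega) hh hG hw hg0 hg hs)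
    z
  rcases key with e | ⟨hz, key⟩
  · rw [e]
    simp
  set c : ℝ := 2 * D + 4 with hc
  have hc4 : 4 ≤ c := by linarith
  set E := exp (2 * lam * (u 0 : ℝ)) with hE'
  have hE0 : 0 < E := exp_pos _
  set X : ℝ := ((l ^ 3 : ℕ) : ℝ) / (4 * (1024 * c * (D + 1) * (l : ℝ) ^ 2 * Wc D h)) with hX
  have b1 : pim lam ω z ≤ c * (8 * E) := by
    have c1 := wgt_le (c := 2) h0 hz (by linarith)
    have c2 : exp 2 * E ≤ 8 * E := mul_le_mul_of_nonneg_right exp_two_le hE0.le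
    exact (pim_le h0 h1 ω z).trans (mul_le_mul_of_nonneg_left (c1.trans c2) (by positivity))
  have b2 : exp (-X) / pim lam ω u ≤ exp (-X) * (3 / E) := by
    rw [div_eq_mul_one_div]
    refine mul_le_mul_of_nonneg_left ?_ (exp_pos _).le
    rw [div_le_div_iff₀ (pim_pos hu) hE0, one_mul]
    exact le_pim h0 h1 hu
  have b3 : (l : ℝ) ≤ X ^ 2 := by
    have c1 : X = l / (4096 * c * (D + 1) * Wc D h) := by
      rw [hX]; push_cast; field_simp; ring
    have c2 : 4096 * c * (D + 1) * Wc D h ≤ KK D * Wc D h := by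
      refine le_trans ?_ n3
      have : 4096 * c * (D + 1) ≤ 4096 * c ^ 2 := by nlinarith
      gcongr
    have c3 := (pow_le_pow_left₀ (by positivity) c2 2).trans H
    rw [c1, div_pow, le_div_iff₀ (by positivity)]
    nlinarith
  have hX0 : 0 ≤ X := by positivity
  have b4 : exp (-X) * (l : ℝ) ^ (D + 1) ≤ (2 * (D + 1)).factorial := by
    have c1 := pow_div_factorial_le_exp X hX0 (2 * (D + 1))
    have c2 : (l : ℝ) ^ (D + 1) ≤ X ^ (2 * (D + 1)) := by
      rw [pow_mul]; exact pow_le_pow_left₀ (by positivity) b3 _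
    rw [div_le_iff₀ (by positivity)] at c1
    rw [exp_neg, inv_mul_le_iff₀ (exp_pos _)]
    exact c2.trans c1
  have b5 : 768 * c * ((h : ℝ) + 1) ≤ l := by
    refine le_trans ?_ (n3.trans n1)
    have : 768 * c ≤ 4096 * c ^ 2 := by nlinarith
    gcongr
  have b6 : 48 * c * (2 * (D + 1)).factorial ≤ (l : ℝ) ^ 2 := by
    have c1 : 48 * c * (2 * (D + 1)).factorial ≤ KK D := by
      have : 48 * c ≤ 4096 * c ^ 2 := by nlinarith
      unfold KK
      gcongr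
    nlinarith
  have b7 := pow_le_pow_left₀ (by positivity) b5 2
  have hp : (0 : ℝ) < (l : ℝ) ^ (D + 1) := by positivity
  have c3 := pim_pos hu
  calc _ ≤ c * (8 * E) * (36864 * c * ((h : ℝ) + 1) ^ 2 / (E * (l : ℝ) ^ (D + 1)) +
        exp (-X) * (3 / E)) * (l : ℝ) ^ (D + 1) := by
        refine mul_le_mul_of_nonneg_right (key.trans ?_) hp.le
        gcongr
    _ = (768 * c * ((h : ℝ) + 1)) ^ 2 / 2 + 24 * c * (exp (-X) * (l : ℝ) ^ (D + 1)) := by
        field_simp; ring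
    _ ≤ (l : ℝ) ^ 2 / 2 + 24 * c * (2 * (D + 1)).factorial := by gcongr
    _ ≤ _ := by linarith

theorem root {x l b : ℝ} {D : ℕ} (hl : 1 ≤ l) (hb : 0 ≤ b) (H : x ^ 2 * l ^ (D + 1) ≤ b ^ 2) :
    x * l ^ ((D + 1) / 2) ≤ b := by
  refine (abs_le_of_sq_le_sq' ?_ hb).2
  rw [mul_pow, ← pow_mul]
  exact (mul_le_mul_of_nonneg_left (pow_le_pow_right₀ hl (by omega)) (sq_nonneg _)).trans H

end Hk

open Hk in
theorem hk (hP : PkStmt) (hS : SpecStmt) (hN : NashStmt) (hH : HardyStmt) (hE : ExtStmt) :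
    HKStmt := by
  intro D hD
  obtain ⟨l₀, hl₀⟩ := size D
  refine ⟨l₀, fun l hl lam ω y z j h0 h1 hj hG hw => ?_⟩
  obtain ⟨s1, s2, s3⟩ := hl₀ l hl
  have hl1 : (1 : ℝ) ≤ l := by exact_mod_cast (by omega : 1 ≤ l)
  rcases le_total 1 (lam * (l : ℝ) ^ 3) with hlam | hlam
  · refine (root hl1 (exp_pos _).le (caseA hP hS hH hE hD h0 h1 hlam hj s1 s2 s3 hG hw z)).trans ?_
    exact (exp_le_exp.2 (le_max_right 0 _)).trans (le_mul_of_one_le_left (exp_pos _).le hl1)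
  · have e1 : l ^ 3 ≤ j := (Nat.pow_le_pow_right (by omega) (by norm_num)).trans hj
    have e2 : l ≤ l ^ 3 := Nat.le_self_pow (by norm_num) l
    have hp : (0 : ℝ) < (l : ℝ) ^ ((D + 1) / 2) := by positivity
    have key := (hP D lam ω).2.2.2.2.2.1 (j - l ^ 3) (l ^ 3) y z (l / (l : ℝ) ^ ((D + 1) / 2))
      (by positivity) fun u hu hn => by
        rw [le_div_iff₀ hp]
        exact root hl1 (by positivity) (caseB hP hS hN hE hD h0.le h1 hlam s1 s2 s3
          (hG.mono (by omega)) (hw.of_conn hu) z)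
    rw [Nat.sub_add_cancel e1, le_div_iff₀ hp] at key
    exact key.trans (le_mul_of_one_le_right (by positivity) (one_le_exp (le_max_left 0 _)))

end Pool.Agent.MP_8c549f_pr.S3

end
end MrgPart3

-- ======== part 4: formerly Pool.Agent.MP_8c549f_pr.S3.Rec
section MrgPart4

/-! PROJECT BWALK3: the renewal equation and the size of the restart terms. -/

noncomputable section

namespace Pool.Agent.MP_8c549f_pr.S3

open Finset Classical

namespace Rec

variable {σ ι : Type} (A : Sys σ ι)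

/-- the value of a state -/
def vl (φ : ℝ → ℝ) (S : σ) (o : ℝ) (u : List ι) : ℝ :=
  φ (o + A.disp S u) * A.th (A.run S u)

theorem val_cons (φ : ℝ → ℝ) (S : σ) (o : ℝ) (a : ι) (u : List ι) :
    vl A φ S o (a :: u) = vl A φ (A.F S a) (o + A.dis S a) u := by
  simp only [vl, Sys.disp_cons, Sys.run_cons, add_assoc]

theorem tree_val (hag : ∀ S R a, ¬ A.conf S R a → A.dis S a = A.dis R a) (φ : ℝ → ℝ)
    (u : List ι) : ∀ (S : σ) (t : ℕ) (o : ℝ),
    A.tree (-1) (fun _ o u => vl A φ A.new o u) (fun S o => φ o * A.th S)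
      (fun S R o => φ o * (A.th S - A.th R)) u S none t o = vl A φ S o u ∧
    ∀ R, A.tree (-1) (fun _ o u => vl A φ A.new o u) (fun S o => φ o * A.th S)
      (fun S R o => φ o * (A.th S - A.th R)) u S (some R) t o =
        vl A φ S o u - vl A φ R o u := by
  induction u with
  | nil => intro S t o; simp [vl, mul_sub]
  | cons a u ih =>
    have hn : ∀ (S : σ) (t : ℕ) (o : ℝ),
        A.tree (-1) (fun _ o u => vl A φ A.new o u) (fun S o => φ o * A.th S)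
          (fun S R o => φ o * (A.th S - A.th R)) (a :: u) S none t o = vl A φ S o (a :: u) := by
      intro S t o
      rw [Sys.tree_cons_none, val_cons]
      split_ifs
      · rw [(ih _ _ _).2]; ring
      · exact (ih _ _ _).1
    refine fun S t o => ⟨hn S t o, fun R => ?_⟩
    rw [Sys.tree_cons_some]
    split_ifs with h
    · rw [hn, hn]; ring
    · rw [(ih _ _ _).2, val_cons, val_cons, hag S R a h]

theorem tree_sum {α : Type} (s : Finset α) (c : α → ℝ) (sg : ℝ) (ψ : α → ℕ → ℝ → List ι → ℝ)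
    (eW : α → σ → ℝ → ℝ) (eT : α → σ → σ → ℝ → ℝ) (u : List ι) :
    ∀ (S : σ) (md : Option σ) (t : ℕ) (o : ℝ),
    A.tree sg (fun t o u => ∑ i ∈ s, c i * ψ i t o u) (fun S o => ∑ i ∈ s, c i * eW i S o)
      (fun S R o => ∑ i ∈ s, c i * eT i S R o) u S md t o =
      ∑ i ∈ s, c i * A.tree sg (ψ i) (eW i) (eT i) u S md t o := by
  induction u with
  | nil => rintro S (_ | R) t o <;> simp
  | cons a u ih =>
    have hn : ∀ (S : σ) (t : ℕ) (o : ℝ),
        A.tree sg (fun t o u => ∑ i ∈ s, c i * ψ i t o u) (fun S o => ∑ i ∈ s, c i * eW i S o)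
          (fun S R o => ∑ i ∈ s, c i * eT i S R o) (a :: u) S none t o =
          ∑ i ∈ s, c i * A.tree sg (ψ i) (eW i) (eT i) (a :: u) S none t o := by
      intro S t o
      simp only [Sys.tree_cons_none]
      split_ifs
      · simp only [ih, mul_add, sum_add_distrib]
      · exact ih _ _ _ _
    rintro S (_ | R) t o
    · exact hn S t o
    · simp only [Sys.tree_cons_some]
      split_ifs
      · simp only [hn, mul_add, sum_add_distrib, mul_sum, mul_left_comm sg]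
      · exact ih _ _ _ _

theorem tree_smul (c sg : ℝ) (ψ : ℕ → ℝ → List ι → ℝ) (eW : σ → ℝ → ℝ) (eT : σ → σ → ℝ → ℝ)
    (u : List ι) (S : σ) (md : Option σ) (t : ℕ) (o : ℝ) :
    A.tree sg (fun t o u => c * ψ t o u) (fun S o => c * eW S o) (fun S R o => c * eT S R o)
      u S md t o = c * A.tree sg ψ eW eT u S md t o := by
  simpa using tree_sum A {()} (fun _ => c) sg (fun _ => ψ) (fun _ => eW) (fun _ => eT) u S md t o

theorem tree_split (sg : ℝ) (ψ : ℕ → ℝ → List ι → ℝ) (eW : σ → ℝ → ℝ) (eT : σ → σ → ℝ → ℝ)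
    (u : List ι) (S : σ) (md : Option σ) (t : ℕ) (o : ℝ) :
    A.tree sg ψ eW eT u S md t o =
      A.tree sg ψ (fun _ _ => 0) (fun _ _ _ => 0) u S md t o +
        A.tree sg (fun _ _ _ => 0) eW eT u S md t o := by
  simpa using tree_sum A (univ : Finset Bool) (fun _ => 1) sg
    (fun b => if b then ψ else fun _ _ _ => 0) (fun b => if b then fun _ _ => 0 else eW)
    (fun b => if b then fun _ _ _ => 0 else eT) u S md t o

/-- the tree of a function of the time and the displacement -/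
def T0 (sg : ℝ) (g : ℕ → ℝ → ℝ) (u : List ι) (S : σ) (md : Option σ) (t : ℕ) (o : ℝ) : ℝ :=
  A.tree sg (fun t o _ => g t o) (fun _ _ => 0) (fun _ _ _ => 0) u S md t o

theorem T0_sum {α : Type} (s : Finset α) (c : α → ℝ) (sg : ℝ) (g : α → ℕ → ℝ → ℝ)
    (u : List ι) (S : σ) (md : Option σ) (t : ℕ) (o : ℝ) :
    T0 A sg (fun t o => ∑ i ∈ s, c i * g i t o) u S md t o =
      ∑ i ∈ s, c i * T0 A sg (g i) u S md t o := by
  simpa [T0] using tree_sum A s c sg (fun i t o _ => g i t o) (fun _ _ _ => 0)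
    (fun _ _ _ _ => 0) u S md t o

theorem T0_congr (sg : ℝ) {g g' : ℕ → ℝ → ℝ} (u : List ι) :
    ∀ (S : σ) (md : Option σ) (t : ℕ) (o : ℝ),
    (∀ r x, t < r → r ≤ t + u.length → g r x = g' r x) →
    T0 A sg g u S md t o = T0 A sg g' u S md t o := by
  induction u with
  | nil => rintro S (_ | R) t o - <;> simp [T0]
  | cons a u ih =>
    have hi : ∀ S md t o, (∀ r x, t < r → r ≤ t + (a :: u).length → g r x = g' r x) →
        T0 A sg g u S md (t + 1) o = T0 A sg g' u S md (t + 1) o := fun S md t o h =>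
      ih _ _ _ _ fun r x h1 h2 => h r x (by omega) (by rw [List.length_cons]; omega)
    have hn : ∀ S t o, (∀ r x, t < r → r ≤ t + (a :: u).length → g r x = g' r x) →
        T0 A sg g (a :: u) S none t o = T0 A sg g' (a :: u) S none t o := by
      intro S t o h
      simp only [T0, Sys.tree_cons_none]
      split_ifs
      · rw [h (t + 1) _ (by omega) (by rw [List.length_cons]; omega)]
        exact congrArg _ (hi _ _ _ _ h)
      · exact hi _ _ _ _ h
    rintro S (_ | R) t o h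
    · exact hn S t o h
    · have h1 := hn S t o h
      have h2 := hn R t o h
      simp only [T0, Sys.tree_cons_some] at h1 h2 ⊢
      split_ifs
      · rw [h1, h2]
      · exact hi _ _ _ _ h

theorem T0_zero (sg : ℝ) {g : ℕ → ℝ → ℝ} (u : List ι) (S : σ) (md : Option σ) (t : ℕ) (o : ℝ)
    (h : ∀ r x, t < r → g r x = 0) : T0 A sg g u S md t o = 0 := by
  rw [T0_congr A sg (g' := fun _ _ => 0) u S md t o fun r x h1 _ => h r x h1]
  simpa using T0_sum A (∅ : Finset Unit) (fun _ => 0) sg (fun _ _ _ => 0) u S md t o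

theorem T0_take (sg : ℝ) {g : ℕ → ℝ → ℝ} (u : List ι) :
    ∀ (k : ℕ) (S : σ) (md : Option σ) (t : ℕ) (o : ℝ), (∀ r x, t + k < r → g r x = 0) →
    T0 A sg g (u.take k) S md t o = T0 A sg g u S md t o := by
  induction u with
  | nil => intro k S md t o _; rw [List.take_nil]
  | cons a u ih =>
    rintro (_ | k) S md t o h
    · rw [T0_zero A sg _ S md t o h, T0_zero A sg _ S md t o h]
    have hi : ∀ S md o, T0 A sg g (u.take k) S md (t + 1) o = T0 A sg g u S md (t + 1) o :=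
      fun S md o => ih _ _ _ _ _ fun r x h1 => h r x (by omega)
    have hn : ∀ S, T0 A sg g (a :: u.take k) S none t o = T0 A sg g (a :: u) S none t o := by
      intro S
      simp only [T0, Sys.tree_cons_none]
      split_ifs
      · exact congrArg _ (hi _ _ _)
      · exact hi _ _ _
    rw [List.take_succ_cons]
    rcases md with _ | R
    · exact hn S
    · have h1 := hn S
      have h2 := hn R
      simp only [T0, Sys.tree_cons_some] at h1 h2 ⊢
      split_ifs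
      · rw [h1, h2]
      · exact hi _ _ _

theorem abs_tree_le (hd : ∀ S a, |A.dis S a| ≤ 1) {ψ ψ' : ℕ → ℝ → List ι → ℝ}
    {eW eW' : σ → ℝ → ℝ} {eT eT' : σ → σ → ℝ → ℝ} {N : ℕ}
    (h1 : ∀ (t : ℕ) (o : ℝ) u, |o| ≤ t → |ψ t o u| ≤ ψ' t o u)
    (h2 : ∀ S (o : ℝ), |o| ≤ N → |eW S o| ≤ eW' S o)
    (h3 : ∀ S R (o : ℝ), |o| ≤ N → |eT S R o| ≤ eT' S R o) (u : List ι) :
    ∀ (S : σ) (md : Option σ) (t : ℕ) (o : ℝ), |o| ≤ t → t + u.length = N →
    |A.tree (-1) ψ eW eT u S md t o| ≤ A.tree 1 ψ' eW' eT' u S md t o := by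
  induction u with
  | nil =>
    rintro S (_ | R) t o ho rfl
    · simpa using h2 S o (by simpa using ho)
    · simpa using h3 S R o (by simpa using ho)
  | cons a u ih =>
    have ho' : ∀ S (t : ℕ) (o : ℝ), |o| ≤ t → |o + A.dis S a| ≤ (t + 1 : ℕ) := by
      intro S t o ho
      push_cast; linarith [abs_add_le o (A.dis S a), hd S a]
    have hn : ∀ S (t : ℕ) (o : ℝ), |o| ≤ t → t + (a :: u).length = N →
        |A.tree (-1) ψ eW eT (a :: u) S none t o| ≤ A.tree 1 ψ' eW' eT' (a :: u) S none t o := by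
      intro S t o ho hN
      rw [List.length_cons] at hN
      simp only [Sys.tree_cons_none]
      split_ifs
      · exact (abs_add_le _ _).trans
          (add_le_add (h1 _ _ _ (ho' S t o ho)) (ih _ _ _ _ (ho' S t o ho) (by omega)))
      · exact ih _ _ _ _ (ho' S t o ho) (by omega)
    rintro S (_ | R) t o ho hN
    · exact hn S t o ho hN
    · simp only [Sys.tree_cons_some]
      split_ifs
      · refine (abs_add_le _ _).trans (add_le_add (hn S t o ho hN) ?_)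
        rw [neg_one_mul, abs_neg, one_mul]
        exact hn R t o ho hN
      · exact ih _ _ _ _ (ho' S t o ho) (by rw [List.length_cons] at hN; omega)

theorem out_eq (φ : ℝ → ℝ) (m : ℕ) (u : List ι) :
    A.out φ m u = T0 A (-1) (fun t o => if t = m then φ o else 0) u A.new none 0 0 := rfl

theorem out_take (φ : ℝ → ℝ) (m : ℕ) (u : List ι) : A.out φ m (u.take m) = A.out φ m u :=
  T0_take A (-1) u m _ _ _ _ fun r x h => if_neg (by omega)

theorem rs_take (G : Finset ι) (φ : ℝ → ℝ) (m : ℕ) (u : List ι) :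
    A.rs G φ m (u.take m) = A.rs G φ m u := by
  rw [Sys.rs, Sys.rs, out_take]
  split_ifs with h
  · subst h; cases u <;> rfl
  · rfl

/-- the pathwise form of the bound on the restart terms -/
theorem sum_rs_le (hd : ∀ S a, |A.dis S a| ≤ 1) {G : Finset ι}
    (hG : ∀ a ∈ G, A.safe (A.F A.new a)) {φ : ℝ → ℝ} {c : ℕ → ℝ} (hc : ∀ m, 0 ≤ c m)
    (h : ∀ (m : ℕ) (o : ℝ), |o| ≤ m → c m * |φ o| ≤ (1 + (m : ℝ)) ^ 2) (u : List ι) :
    ∑ m ∈ Icc 1 u.length, c m * |A.rs G φ m u| ≤ A.mom G u := by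
  have e1 : T0 A 1 (fun t _ => (1 + (t : ℝ)) ^ 2) u A.new none 0 0 = ∑ m ∈ Icc 1 u.length,
      1 * T0 A 1 (fun t _ => if t = m then (1 + (t : ℝ)) ^ 2 else 0) u A.new none 0 0 := by
    rw [← T0_sum]
    refine T0_congr A 1 u _ _ _ _ fun r x h1 h2 => ?_
    simp only [one_mul, sum_ite_eq, mem_Icc]
    rw [if_pos ⟨h1, by omega⟩]
  have e2 : ∀ m, c m * |A.out φ m u| ≤
      T0 A 1 (fun t _ => if t = m then (1 + (t : ℝ)) ^ 2 else 0) u A.new none 0 0 := by
    intro m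
    rw [← abs_of_nonneg (hc m), ← abs_mul, Sys.out, ← tree_smul]
    refine abs_tree_le A hd (fun t o _ ho => ?_) (fun _ _ _ => by simp) (fun _ _ _ _ => by simp)
      u _ _ _ _ (by simp) rfl
    beta_reduce
    split_ifs with h1
    · subst h1; rw [abs_mul, abs_of_nonneg (hc t)]; exact h t o ho
    · simp
  rcases u with _ | ⟨a, u⟩
  · simp [Sys.mom]
  have e3 : Sys.top G (fun _ => (4 : ℝ)) (a :: u) =
      ∑ m ∈ Icc 1 (a :: u).length, if m = 1 then Sys.top G (fun _ => (4 : ℝ)) (a :: u) else 0 := by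
    simp
  rw [Sys.mom, e3]
  refine le_of_le_of_eq ?_ (congrArg (· - _) e1.symm)
  rw [← sum_sub_distrib]
  refine sum_le_sum fun m _ => ?_
  rw [Sys.rs, one_mul]
  split_ifs with h1
  · subst h1
    by_cases ha : a ∈ G
    · have z : ∀ sg (g : ℕ → ℝ → ℝ), T0 A sg (fun t o => if t = 1 then g t o else 0) (a :: u)
          A.new none 0 0 = g 1 (A.dis A.new a) := by
        intro sg g
        have := T0_zero A sg (g := fun t o => if t = 1 then g t o else 0) u (A.F A.new a)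
          (some A.new) 1 (0 + A.dis A.new a) fun r x h => if_neg (by omega)
        rw [T0] at this
        rw [T0, Sys.tree_cons_none, if_pos (hG a ha), zero_add 1, this]
        simp
      rw [out_eq, z (-1) fun _ o => φ o, z 1 fun t _ => (1 + (t : ℝ)) ^ 2]
      simp only [Sys.top_cons, if_pos ha]
      norm_num
    · simpa [Sys.top_cons, ha] using e2 1
  · simpa using e2 m

variable [Fintype ι] {w : ι → ℝ}

theorem Ex_tree (h1 : ∑ a, w a = 1) (sg : ℝ) {ψ : ℕ → ℝ → List ι → ℝ} {g : ℕ → ℝ → ℝ} {N : ℕ}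
    (h : ∀ t o, Ex w (N - t) (ψ t o) = g t o) (n : ℕ) :
    ∀ (S : σ) (md : Option σ) (t : ℕ) (o : ℝ), t + n = N →
    (Ex w n fun u => A.tree sg ψ (fun _ _ => 0) (fun _ _ _ => 0) u S md t o) =
      Ex w n fun u => T0 A sg g u S md t o := by
  induction n with
  | zero => rintro S (_ | R) t o - <;> simp [T0]
  | succ n ih =>
    have hn : ∀ a S t o, t + (n + 1) = N →
        (Ex w n fun u => A.tree sg ψ (fun _ _ => 0) (fun _ _ _ => 0) (a :: u) S none t o) =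
          Ex w n fun u => T0 A sg g (a :: u) S none t o := by
      intro a S t o hN
      simp only [T0, Sys.tree_cons_none]
      split_ifs
      · rw [Ex_add, Ex_add, Ex_const h1, ih _ _ _ _ (by omega), ← h,
          show N - (t + 1) = n by omega]
        rfl
      · exact ih _ _ _ _ (by omega)
    rintro S (_ | R) t o hN <;> rw [Ex_succ, Ex_succ] <;> refine sum_congr rfl fun a _ => ?_
    · rw [hn a S t o hN]
    · have e1 := hn a S t o hN
      have e2 := hn a R t o hN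
      simp only [T0, Sys.tree_cons_some] at e1 e2 ⊢
      split_ifs
      · rw [Ex_add, Ex_add, Ex_mul_left, Ex_mul_left, e1, e2]
      · rw [ih _ _ _ _ (by omega)]; rfl

theorem Ex_out (h1 : ∑ a, w a = 1) (φ : ℝ → ℝ) {m n : ℕ} (h : m ≤ n) :
    Ex w n (A.out φ m) = A.piC w φ m := by
  rw [Sys.piC, ← Ex_take h1 h]
  exact Ex_congr fun u _ => (out_take A φ m u).symm

theorem Ex_val {θ : ℝ} (H : A.Hyp0 w θ) (φ : ℝ → ℝ) (n : ℕ) (c d : ℕ → ℝ)
    (h : ∀ t o, Ex w (n - t) (vl A φ A.new o) = c t * o + d t) :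
    Ex w n (vl A φ A.new 0) = ∑ m ∈ Icc 1 n,
      (c m * A.piC w id m + d m * A.piC w (fun _ => 1) m) + Ex w n (A.err φ) := by
  have e : ∀ u, vl A φ A.new 0 u = A.tree (-1) (fun _ o u => vl A φ A.new o u) (fun _ _ => 0)
      (fun _ _ _ => 0) u A.new none 0 0 + A.err φ u := fun u => by
    rw [← (tree_val A H.agree φ u A.new 0 0).1, tree_split]; rfl
  rw [funext e, Ex_add, Ex_tree A H.w1 (-1) (g := fun t o => c t * o + d t) h n _ _ _ _
    (zero_add n)]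
  congr 1
  have e2 : ∀ u : List ι, u.length = n →
      T0 A (-1) (fun t o => c t * o + d t) u A.new none 0 0 =
        ∑ m ∈ Icc 1 n, (c m * A.out id m u + d m * A.out (fun _ => 1) m u) := by
    intro u hu
    have e3 := T0_sum A (Icc 1 n ×ˢ (univ : Finset Bool)) (fun q => if q.2 then c q.1 else d q.1)
      (-1) (fun q t o => if t = q.1 then (if q.2 then o else 1) else 0) u A.new none 0 0
    simp only [sum_product, Fintype.sum_bool, if_true, Bool.false_eq_true, if_false] at e3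
    refine Eq.trans (T0_congr A _ u _ _ _ _ fun r x h1 h2 => ?_) e3
    simp only [mul_ite, mul_zero, mul_one, sum_add_distrib, sum_ite_eq, mem_Icc]
    rw [if_pos ⟨h1, by omega⟩, if_pos ⟨h1, by omega⟩]
  rw [Ex_congr e2, Ex_sum]
  refine sum_congr rfl fun m hm => ?_
  rw [Ex_add, Ex_mul_left, Ex_mul_left, Ex_out A H.w1 _ (mem_Icc.1 hm).2,
    Ex_out A H.w1 _ (mem_Icc.1 hm).2]

theorem abs_err_le {θ : ℝ} (H : A.Hyp0 w θ) (φ : ℝ → ℝ) (n : ℕ) {c : ℝ}
    (h : ∀ o : ℝ, |o| ≤ n → |φ o| ≤ c) : |Ex w n (A.err φ)| ≤ c * Ex w n A.aerr := by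
  rw [← Ex_mul_left]
  refine (abs_Ex_le H.w0 n _).trans (Ex_mono H.w0 fun u hu => ?_)
  rw [Sys.aerr, ← tree_smul]
  refine abs_tree_le A H.dis1 (N := n) (fun _ _ _ _ => by simp) (fun S o ho => ?_)
    (fun S R o ho => ?_) u _ _ _ _ (by simp) (by simp [hu])
  · rw [abs_mul, abs_of_nonneg (H.th0 S)]
    exact mul_le_mul_of_nonneg_right (h o ho) (H.th0 S)
  · rw [abs_mul]
    exact mul_le_mul_of_nonneg_right (h o ho) (abs_nonneg _)

theorem Ex_rs_le {θ : ℝ} (H : A.Hyp0 w θ) {G : Finset ι}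
    (hG : ∀ a ∈ G, A.safe (A.F A.new a)) {φ : ℝ → ℝ} {c : ℕ → ℝ} (hc : ∀ m, 0 ≤ c m)
    (h : ∀ (m : ℕ) (o : ℝ), |o| ≤ m → c m * |φ o| ≤ (1 + (m : ℝ)) ^ 2) (M : ℕ) :
    ∑ m ∈ Icc 1 M, c m * Ex w m (fun u => |A.rs G φ m u|) ≤ Ex w M (A.mom G) := by
  refine le_trans (le_of_eq ?_) (Ex_mono H.w0
    (Φ := fun u => ∑ m ∈ Icc 1 M, c m * |A.rs G φ m u|) fun u hu => by
    rw [← hu]; exact sum_rs_le A H.dis1 hG hc h u)
  rw [Ex_sum]
  refine sum_congr rfl fun m hm => ?_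
  rw [Ex_mul_left, ← Ex_take H.w1 (mem_Icc.1 hm).2]
  simp only [rs_take]

end Rec

open Rec

theorem recS : RecStmt := by
  intro σ ι _ A w θ H n
  refine ⟨?_, ?_, abs_err_le A H id n fun o h => h, ?_⟩
  · have := Ex_val A H id n (fun _ => θ) (fun t => A.yy w (n - t)) fun t o => by
      rw [← H.mass (n - t), Sys.yy, ← Ex_mul_right, ← Ex_add]
      exact Ex_congr fun u _ => by simp only [vl, id]; ring
    rw [← this, Sys.yy]
    exact Ex_congr fun u _ => by simp [vl]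
  · have e : ∀ k o, Ex w k (vl A (fun _ => 1) A.new o) = θ := fun k o => by
      rw [← H.mass k]
      exact Ex_congr fun u _ => by simp [vl]
    have := Ex_val A H (fun _ => 1) n (fun _ => 0) (fun _ => θ) fun t o => by rw [e]; simp
    simpa [e] using this
  · simpa using abs_err_le A H (fun _ => 1) n (c := 1) fun o _ => by simp

theorem rest : RestStmt := by
  intro σ ι _ A w θ G H hG M
  refine ⟨Ex_rs_le A H hG (fun m => Nat.cast_nonneg m) (fun m o h => ?_) M, ?_⟩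
  · have : (0 : ℝ) ≤ m := Nat.cast_nonneg m
    simp only [id]
    nlinarith
  · refine le_trans (le_of_eq (sum_congr rfl fun m _ => ?_))
      (Ex_rs_le A H hG (φ := fun _ => 1) (c := fun m => (m : ℝ) * m) (fun m => by positivity)
        (fun m o _ => ?_) M)
    · simp only [abs_mul, Nat.abs_cast, Ex_mul_left, mul_assoc]
    · have : (0 : ℝ) ≤ m := Nat.cast_nonneg m
      rw [abs_one]
      nlinarith

end Pool.Agent.MP_8c549f_pr.S3

end
end MrgPart4

-- marker of a merged file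
example : 731051 + 502625 = 731051 + 502625 := rfl
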