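import Mathlib.Algebra.Ring.IsFormallyReal
import Pool.Agent.MP_8c549f_pr.S3.ZY
import Pool.Agent.MP_8c549f_pr.S3.BasicB

-- ======== part 0: formerly Pool.Agent.MP_8c549f_pr.S3.Conf
section MrgPart0

/-! PROJECT BWALK3: the fourth moment of the lag of the first conflict. -/

noncomputable section

namespace Pool.Agent.MP_8c549f_pr.S3

open MeasureTheory Finset Classical

namespace Conf

variable {D : ℕ}

/-- weight of the fresh statuses -/
def bw (p : ℝ) (σ : Sv D) : ℝ := ∏ s, if σ s = true then p else 1 - p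

theorem bw_nonneg {p : ℝ} (h0 : 0 ≤ p) (h1 : p ≤ 1) (σ : Sv D) : 0 ≤ bw p σ :=
  prod_nonneg fun s _ => by split_ifs <;> linarith

theorem sum_bw_coord (p : ℝ) (s : Step D) (f : Bool → ℝ) :
    ∑ σ : Sv D, bw p σ * f (σ s) = p * f true + (1 - p) * f false := by
  have h := Fintype.prod_sum (fun (t : Step D) (b : Bool) =>
    (if b = true then p else 1 - p) * if t = s then f b else 1)
  have e : ∀ σ : Sv D, (∏ t, (if σ t = true then p else 1 - p) * if t = s then f (σ t) else 1) =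
      bw p σ * f (σ s) := fun σ => by
    rw [prod_mul_distrib, bw]
    congr 1
    rw [Fintype.prod_ite_eq']
  simp only [e] at h
  rw [← h, prod_eq_single s]
  · simp
  · intro t _ ht
    simp [ht]
  · simp

theorem sum_bw_ne {p : ℝ} (h1 : p ≤ 1) (s : Step D) (b : Bool) :
    ∑ σ : Sv D, bw p σ * ind (b ≠ σ s) ≤ del p b := by
  rw [sum_bw_coord p s fun c => ind (b ≠ c)]
  cases b
  · simp [del, h1]
  · simp [del]

theorem sum_rho (lam : ℝ) (τ : Sv D) : ∑ s, rho lam τ s = 1 := by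
  by_cases h : ∃ s', τ s' = true
  · have hZ : 0 < ∑ s', if τ s' = true then wt lam s' else 0 := by
      obtain ⟨s, hs⟩ := h
      refine sum_pos' (fun t _ => ?_) ⟨s, mem_univ _, by rw [if_pos hs]; exact wt_pos _ _⟩
      split_ifs
      exacts [(wt_pos _ _).le, le_rfl]
    have e : ∀ s, rho lam τ s = (if τ s = true then wt lam s else 0) /
        ∑ s', if τ s' = true then wt lam s' else 0 := fun s => by
      rw [rho, if_pos h]
      split_ifs <;> simp
    simp only [e]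
    rw [← sum_div, div_self hZ.ne']
  · simp only [rho, if_neg h]
    rw [← sum_div, sum_wt, div_self (Zf_pos D lam).ne']

theorem open_of_win {p lam : ℝ} {a : In D} (h : win p lam a ≠ 0) {τ : Sv D}
    (hτ : ∃ s, τ s = true) : τ (a.2 τ) = true := by
  by_contra hn
  refine h ?_
  rw [win, prod_eq_zero (f := fun τ => rho lam τ (a.2 τ)) (mem_univ τ), mul_zero]
  rw [rho, if_pos hτ, if_neg hn]

/-- probability of a conflict at the next input -/
def cp (p : ℝ) (S R : St D) : ℝ := ∑ σ : Sv D, bw p σ * ind (stat (R ++ S) σ ≠ stat R σ)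

theorem cp_nonneg {p : ℝ} (h0 : 0 ≤ p) (h1 : p ≤ 1) (S R : St D) : 0 ≤ cp p S R :=
  sum_nonneg fun σ _ => mul_nonneg (bw_nonneg h0 h1 σ) (ind_nonneg _)

theorem sum_conf (hW : WinStmt) {p : ℝ} (h0 : 0 ≤ p) (h1 : p ≤ 1) (lam : ℝ) (S R : St D) :
    ∑ a : In D, win p lam a * ind (stat (R ++ S) a.1 ≠ stat R a.1) = cp p S R := by
  rw [(hW D p h0 h1).2.2.1 lam id fun σ _ => ind (stat (R ++ S) σ ≠ stat R σ)]
  refine sum_congr rfl fun σ _ => ?_
  rw [← sum_mul, sum_rho, one_mul]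
  rfl

theorem lag_le (hW : WinStmt) {p : ℝ} (h0 : 0 ≤ p) (h1 : p ≤ 1) (lam lam' β : ℝ) {S : St D}
    (hS : S ≠ []) (hL : Leg S) (n : ℕ) : ∀ (R : St D) (L : ℕ), Leg R →
    (Ex (win p lam) n fun u => (sys D p lam' β).lagw u (R ++ S) R L) ≤
      ∑ j ∈ range n, (1 + ((L : ℝ) + j)) ^ 4 *
        Ex (win p lam) j fun u => ind (Leg (go R u)) * cp p S (go R u) := by
  have w0 := (hW D p h0 h1).1 lam
  have w1 := (hW D p h0 h1).2.1 lam
  induction n with
  | zero => intro R L _; simp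
  | succ n ih =>
    intro R L hR
    have hT : ∀ (R' : St D) (L' : ℕ), 0 ≤ ∑ j ∈ range n, (1 + ((L' : ℝ) + j)) ^ 4 *
        Ex (win p lam) j fun u => ind (Leg (go R' u)) * cp p S (go R' u) := fun R' L' =>
      sum_nonneg fun j _ => mul_nonneg (by positivity)
        (Ex_nonneg w0 fun u _ => mul_nonneg (ind_nonneg _) (cp_nonneg h0 h1 _ _))
    have key : ∀ a : In D, win p lam a *
        (Ex (win p lam) n fun u => (sys D p lam' β).lagw (a :: u) (R ++ S) R L) ≤
        (1 + (L : ℝ)) ^ 4 * (win p lam a * ind (stat (R ++ S) a.1 ≠ stat R a.1)) +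
          ∑ j ∈ range n, (1 + ((L : ℝ) + (j + 1 : ℕ))) ^ 4 * (win p lam a *
            Ex (win p lam) j fun u => ind (Leg (go R (a :: u))) * cp p S (go R (a :: u))) := by
      intro a
      have e : (∑ j ∈ range n, (1 + ((L : ℝ) + (j + 1 : ℕ))) ^ 4 * (win p lam a *
          Ex (win p lam) j fun u => ind (Leg (go R (a :: u))) * cp p S (go R (a :: u)))) =
          win p lam a * ∑ j ∈ range n, (1 + (((L + 1 : ℕ) : ℝ) + j)) ^ 4 *
            Ex (win p lam) j fun u => ind (Leg (go (upd R a) u)) * cp p S (go (upd R a) u) := by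
        rw [mul_sum]
        refine sum_congr rfl fun j _ => ?_
        simp only [go_cons]
        push_cast
        ring
      rw [e, mul_left_comm, ← mul_add]
      by_cases ha : win p lam a = 0
      · simp [ha]
      refine mul_le_mul_of_nonneg_left ?_ (w0 a)
      simp only [Sys.lagw_cons]
      by_cases hc : stat (R ++ S) a.1 = stat R a.1
      · have hc' : ¬ (sys D p lam' β).conf (R ++ S) R a := fun h => h hc
        have e' : (sys D p lam' β).F (R ++ S) a = upd R a ++ S := by simp [sys, upd, hc]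
        have hR' : Leg (upd R a) := by
          refine leg_cons.2 ⟨open_of_win ha ?_, hR⟩
          rw [← hc]
          exact (leg_append.2 ⟨hR, hL⟩).stat_open (by simp [hS]) _
        simp only [if_neg hc', e']
        rw [ind_neg (not_not.2 hc), mul_zero, zero_add]
        exact ih (upd R a) (L + 1) hR'
      · have hc' : (sys D p lam' β).conf (R ++ S) R a := hc
        simp only [if_pos hc']
        rw [Ex_const w1, ind_pos hc, mul_one]
        linarith [hT (upd R a) (L + 1)]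
    rw [Ex_succ, sum_range_succ']
    refine (sum_le_sum fun a _ => key a).trans (le_of_eq ?_)
    rw [sum_add_distrib, ← mul_sum, sum_conf hW h0 h1, sum_comm, add_comm]
    congr 1
    · refine sum_congr rfl fun j _ => ?_
      rw [← mul_sum, Ex_succ]
    · simp [ind_pos hR]

/-- the present position was not visited before -/
def New (R : St D) : Prop := ∀ k, 1 ≤ k → k ≤ R.length → back R k ≠ 0

theorem coord_le {p : ℝ} (h1 : p ≤ 1) (S R : St D) (s : Step D) :
    ∑ σ : Sv D, bw p σ * ind (stat (R ++ S) σ s ≠ stat R σ s) ≤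
      ∑ k : Fin S.length, (del p ((S.get k).1 s) *
          ind (back R R.length = -back S (k + 1) ∧ New R) +
        del p ((S.get k).1 (rev s)) *
          ind (back R R.length = -(back S (k + 1) + vec (rev s)) ∧ New R)) := by
  have hn : ∀ k : Fin S.length, 0 ≤ del p ((S.get k).1 s) *
      ind (back R R.length = -back S (k + 1) ∧ New R) := fun k =>
    mul_nonneg (del_nonneg h1 _) (ind_nonneg _)
  have hn' : ∀ k : Fin S.length, 0 ≤ del p ((S.get k).1 (rev s)) *
      ind (back R R.length = -(back S (k + 1) + vec (rev s)) ∧ New R) := fun k =>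
    mul_nonneg (del_nonneg h1 _) (ind_nonneg _)
  have triv : (∀ σ : Sv D, stat (R ++ S) σ s = stat R σ s) →
      ∑ σ : Sv D, bw p σ * ind (stat (R ++ S) σ s ≠ stat R σ s) ≤
      ∑ k : Fin S.length, (del p ((S.get k).1 s) *
          ind (back R R.length = -back S (k + 1) ∧ New R) +
        del p ((S.get k).1 (rev s)) *
          ind (back R R.length = -(back S (k + 1) + vec (rev s)) ∧ New R)) := fun h => by
    rw [sum_eq_zero fun σ _ => by rw [ind_neg (not_not.2 (h σ)), mul_zero]]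
    exact sum_nonneg fun k _ => add_nonneg (hn k) (hn' k)
  cases hR : look R (edge 0 s) with
  | some b => exact triv fun σ => by simp [stat, look_append_of_some S hR, hR]
  | none =>
    cases hS : look S ((edge 0 s).1 - back R R.length, (edge 0 s).2) with
    | none => exact triv fun σ => by simp [stat, look_append_of_none S hR, hR, hS]
    | some b =>
      have e : ∀ σ : Sv D, ind (stat (R ++ S) σ s ≠ stat R σ s) = ind (b ≠ σ s) := fun σ => by
        simp [stat, look_append_of_none S hR, hR, hS]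
      simp only [e]
      refine (sum_bw_ne h1 s b).trans ?_
      obtain ⟨k, t, hk, hb⟩ := look_some hS
      have hN : New R := fun i i1 i2 hi => look_none.1 hR i i1 i2 s (by rw [hi])
      rw [sub_eq_add_neg, add_eq_edge, sub_neg_eq_add] at hk
      refine le_trans ?_ (single_le_sum (fun k _ => add_nonneg (hn k) (hn' k)) (mem_univ k))
      rcases edge_eq_iff.1 hk with ⟨e1, rfl⟩ | ⟨e1, rfl⟩
      · rw [ind_pos ⟨eq_neg_of_add_eq_zero_right e1, hN⟩, mul_one, hb]
        linarith [hn' k]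
      · have e2 : back R R.length = -(back S (k + 1) + vec (rev s)) := by
          rw [vec_rev, ← zero_add (vec s), ← e1]; abel
        rw [ind_pos (P := _ = -(_ + _) ∧ _) ⟨e2, hN⟩, mul_one, hb]
        linarith [hn k]

theorem cp_le {p : ℝ} (h0 : 0 ≤ p) (h1 : p ≤ 1) (S R : St D) :
    cp p S R ≤ ∑ k : Fin S.length, ∑ s, del p ((S.get k).1 s) *
      (ind (back R R.length = -back S (k + 1) ∧ New R) +
        ind (back R R.length = -(back S (k + 1) + vec s) ∧ New R)) := by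
  have h : cp p S R ≤ ∑ s, ∑ σ : Sv D, bw p σ * ind (stat (R ++ S) σ s ≠ stat R σ s) := by
    rw [sum_comm]
    refine sum_le_sum fun σ _ => ?_
    rw [← mul_sum]
    refine mul_le_mul_of_nonneg_left (ind_le_sum univ _ fun h => ?_) (bw_nonneg h0 h1 σ)
    obtain ⟨s, hs⟩ := Function.ne_iff.1 h
    exact ⟨s, mem_univ _, hs⟩
  refine h.trans ((sum_le_sum fun s _ => coord_le h1 S R s).trans (le_of_eq ?_))
  rw [sum_comm]
  refine sum_congr rfl fun k _ => ?_
  simp only [mul_add, sum_add_distrib]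
  congr 1
  exact Function.Bijective.sum_comp (Function.Involutive.bijective rev_rev) fun s =>
    del p ((S.get k).1 s) * ind (back R R.length = -(back S (k + 1) + vec s) ∧ New R)

theorem Ex_cp_le (hW : WinStmt) {p : ℝ} (h0 : 0 ≤ p) (h1 : p ≤ 1) (lam : ℝ) (S : St D) (j : ℕ) :
    (Ex (win p lam) j fun u => ind (Leg (go [] u)) * cp p S (go [] u)) ≤
      ∑ k : Fin S.length, ∑ s, del p ((S.get k).1 s) *
        (fv p lam j (back S (k + 1)) + fv p lam j (back S (k + 1) + vec s)) := by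
  have w0 := (hW D p h0 h1).1 lam
  simp only [fv, ← Ex_add, ← Ex_mul_left, ← Ex_sum]
  refine Ex_mono w0 fun u hu => ?_
  have hl : (go ([] : St D) u).length = j := by simp [hu]
  refine (mul_le_mul_of_nonneg_left (cp_le h0 h1 S _) (ind_nonneg _)).trans (le_of_eq ?_)
  rw [mul_sum]
  refine sum_congr rfl fun k _ => ?_
  rw [mul_sum]
  refine sum_congr rfl fun s _ => ?_
  simp only [New, hl, ind_and]
  ring

end Conf

theorem confS : WinStmt → ConfStmt := by
  intro hW D p lam lam' β K h0 h1 hK S hS hL n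
  have h := Conf.lag_le hW h0 h1 lam lam' β hS hL n [] 0 leg_nil
  simp only [List.nil_append, Nat.cast_zero, zero_add] at h
  refine h.trans ((sum_le_sum fun j _ => mul_le_mul_of_nonneg_left
    (Conf.Ex_cp_le hW h0 h1 lam S j) (by positivity)).trans ?_)
  simp only [mul_sum, Dg]
  rw [sum_comm]
  refine sum_le_sum fun k _ => ?_
  rw [sum_comm]
  refine sum_le_sum fun s _ => ?_
  have a1 := hK (back S (k + 1)) (back S (k + 1)) n (by simp)
  have a2 := hK (back S (k + 1)) (back S (k + 1) + vec s) n (by simp)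
  have e : ∑ j ∈ range n, (1 + (j : ℝ)) ^ 4 * (del p ((S.get k).1 s) *
      (fv p lam j (back S (k + 1)) + fv p lam j (back S (k + 1) + vec s))) =
      del p ((S.get k).1 s) * (∑ j ∈ range n, (1 + (j : ℝ)) ^ 4 * fv p lam j (back S (k + 1)) +
        ∑ j ∈ range n, (1 + (j : ℝ)) ^ 4 * fv p lam j (back S (k + 1) + vec s)) := by
    rw [← sum_add_distrib, mul_sum]
    exact sum_congr rfl fun j _ => by ring
  rw [e]
  nlinarith [mul_le_mul_of_nonneg_left (add_le_add a1 a2) (del_nonneg h1 ((S.get k).1 s))]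

end Pool.Agent.MP_8c549f_pr.S3

end
end MrgPart0

-- ======== part 1: formerly Pool.Agent.MP_8c549f_pr.S3.Dg
section MrgPart1

/-! PROJECT BWALK3, row DG: a state that passes all tests of the cascade has small danger. -/

noncomputable section

namespace Pool.Agent.MP_8c549f_pr.S3

open Finset Real Filter

namespace Dg

variable {D : ℕ}

theorem nrm_back (S : St D) (k : ℕ) : nrm (back S k) ≤ k := by
  unfold back
  rw [nrm_neg]
  refine (nrm_pos_le _).trans ?_
  simp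

theorem back_zero (S : St D) : back S 0 = 0 := by simp [back]

theorem ker_nonneg (lam : ℝ) (z : V D) : 0 ≤ ker lam z := by
  unfold ker
  positivity

theorem ker_near {lam : ℝ} (h0 : 0 ≤ lam) (h1 : lam ≤ 1) {z : V D} {R : ℕ} (hz : nrm z ≤ R) :
    ker lam z ≤ exp R := by
  unfold ker
  have a1 : ((1 + (nrm z : ℝ)) ^ 2740)⁻¹ ≤ 1 :=
    inv_le_one_of_one_le₀ (one_le_pow₀ (by have := Nat.cast_nonneg (α := ℝ) (nrm z); linarith))
  have a2 : (z 0 : ℝ) ≤ R := by
    have h2 := abs_le_nrm z 0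
    have h3 : z 0 ≤ (R : ℤ) := (le_abs_self _).trans (h2.trans (by exact_mod_cast hz))
    exact_mod_cast h3
  have a3 : max 0 (lam * (z 0 : ℝ) - (nrm z : ℝ) ^ (1 / 9 : ℝ)) ≤ R := by
    refine max_le (Nat.cast_nonneg _) ?_
    have h4 : 0 ≤ (nrm z : ℝ) ^ (1 / 9 : ℝ) := by positivity
    have h5 : lam * (z 0 : ℝ) ≤ lam * R := mul_le_mul_of_nonneg_left a2 h0
    have h6 : lam * (R : ℝ) ≤ 1 * R := mul_le_mul_of_nonneg_right h1 (Nat.cast_nonneg _)
    linarith
  calc _ ≤ 1 * exp R := mul_le_mul a1 (exp_le_exp.2 a3) (exp_pos _).le zero_le_one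
    _ = _ := one_mul _

theorem ker_far {lam lam' N : ℝ} (h0 : 0 < lam) (h1 : lam ≤ lam') (h2 : lam' ≤ 2 * lam) {z : V D}
    {b : ℕ} (hb : 1 ≤ b) (hz : b ≤ nrm z) (hN : lam * (z 0 : ℝ) ≤ N)
    (hg : 2 * N ≤ (b : ℝ) ^ (1 / 9 : ℝ)) : ker lam' z ≤ ((b : ℝ) ^ 2740)⁻¹ := by
  unfold ker
  have hz' : (b : ℝ) ≤ nrm z := by exact_mod_cast hz
  have hb' : (1 : ℝ) ≤ b := by exact_mod_cast hb
  have a1 : (b : ℝ) ^ (1 / 9 : ℝ) ≤ (nrm z : ℝ) ^ (1 / 9 : ℝ) :=
    rpow_le_rpow (by linarith) hz' (by norm_num)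
  have a0 : 0 ≤ (b : ℝ) ^ (1 / 9 : ℝ) := by positivity
  have a2 : lam' * (z 0 : ℝ) - (nrm z : ℝ) ^ (1 / 9 : ℝ) ≤ 0 := by
    rcases le_total 0 (z 0 : ℝ) with h | h
    · have := mul_le_mul_of_nonneg_right h2 h
      linarith
    · have : lam' * (z 0 : ℝ) ≤ 0 := mul_nonpos_of_nonneg_of_nonpos (by linarith) h
      linarith
  rw [max_eq_left a2, exp_zero, mul_one]
  exact inv_anti₀ (by positivity) (pow_le_pow_left₀ (by linarith) (by linarith) _)

theorem sum_ite_le (n M : ℕ) {c : ℝ} (hc : 0 ≤ c) :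
    ∑ k : Fin n, (if (k : ℕ) < M then c else 0) ≤ M * c := by
  rw [Fin.sum_univ_eq_sum_range (fun k => if k < M then c else 0) n, ← sum_filter, sum_const,
    nsmul_eq_mul]
  refine mul_le_mul_of_nonneg_right ?_ hc
  have : #{k ∈ range n | k < M} ≤ #(range M) :=
    card_le_card fun k hk => mem_range.2 (mem_filter.1 hk).2
  rw [card_range] at this
  exact_mod_cast this

theorem Ls_succ (L i : ℕ) : Ls L (i + 1) = Ls L i ^ 37 := by
  unfold Ls
  rw [pow_succ, pow_mul]

theorem Ls_ge {L : ℕ} (hL : 2 ≤ L) (i : ℕ) : L * 2 ^ i ≤ Ls L i := by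
  unfold Ls
  have h1 : i + 1 ≤ 37 ^ i := Nat.lt_pow_self (by norm_num)
  calc L * 2 ^ i ≤ L * L ^ i := Nat.mul_le_mul_left _ (Nat.pow_le_pow_left hL i)
    _ = L ^ (i + 1) := by ring
    _ ≤ _ := Nat.pow_le_pow_right (by omega) h1

theorem le_Ls {L : ℕ} (hL : 2 ≤ L) (i : ℕ) : L ≤ Ls L i :=
  (Nat.le_mul_of_pos_right L (by positivity)).trans (Ls_ge hL i)

theorem sum_inv {L : ℕ} (hL : 2 ≤ L) (J : ℕ) :
    ∑ i ∈ Ico 1 J, ((Ls L i : ℝ) ^ 2)⁻¹ ≤ 2 / L := by
  have hL' : (2 : ℝ) ≤ L := by exact_mod_cast hL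
  have h1 : ∀ i, ((Ls L i : ℝ) ^ 2)⁻¹ ≤ (1 / L) * (1 / 2 : ℝ) ^ i := fun i => by
    have a1 : (L : ℝ) * 2 ^ i ≤ Ls L i := by exact_mod_cast Ls_ge hL i
    have a2 : (1 : ℝ) ≤ Ls L i := by exact_mod_cast (by have := le_Ls hL i; omega : 1 ≤ Ls L i)
    have a3 : (L : ℝ) * 2 ^ i ≤ (Ls L i : ℝ) ^ 2 := by nlinarith
    calc _ ≤ ((L : ℝ) * 2 ^ i)⁻¹ := inv_anti₀ (by positivity) a3
      _ = _ := by rw [one_div_pow]; field_simp
  calc _ ≤ ∑ i ∈ Ico 1 J, (1 / L) * (1 / 2 : ℝ) ^ i := sum_le_sum fun i _ => h1 i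
    _ ≤ ∑ i ∈ range J, (1 / L) * (1 / 2 : ℝ) ^ i :=
      sum_le_sum_of_subset_of_nonneg (fun i hi => mem_range.2 (mem_Ico.1 hi).2)
        fun _ _ _ => by positivity
    _ = (1 / L) * ∑ i ∈ range J, (1 / 2 : ℝ) ^ i := by rw [mul_sum]
    _ ≤ (1 / L) * 2 := mul_le_mul_of_nonneg_left (sum_geometric_two_le J) (by positivity)
    _ = _ := by ring

theorem grow (c : ℝ) (hc : 0 < c) : ∃ x : ℕ, ∀ b : ℕ, x ≤ b →
    c * log b ≤ (b : ℝ) ^ (1 / 9 : ℝ) := by
  have h := (isLittleO_log_rpow_atTop (by norm_num : (0 : ℝ) < 1 / 9)).bound (inv_pos.2 hc)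
  obtain ⟨x, hx⟩ := eventually_atTop.1 h
  refine ⟨⌈x⌉₊, fun b hb => ?_⟩
  have h1 := hx b ((Nat.le_ceil x).trans (by exact_mod_cast hb))
  rw [norm_eq_abs, norm_eq_abs, abs_of_nonneg (by positivity : 0 ≤ (b : ℝ) ^ (1 / 9 : ℝ))] at h1
  have h2 := mul_le_mul_of_nonneg_left ((le_abs_self _).trans h1) hc.le
  rwa [← mul_assoc, mul_inv_cancel₀ hc.ne', one_mul] at h2

theorem NN_le {n b : ℕ} (hb : 2 ≤ b) (hn0 : 1 ≤ n) (hn : n ≤ 2 * b ^ 2738) :
    NN D n ≤ ((D : ℝ) + 9) * 2739 * log b := by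
  unfold NN
  have h1 : n ≤ b ^ 2739 := hn.trans (by rw [pow_succ' b 2738]; exact Nat.mul_le_mul_right _ hb)
  have h2 : log n ≤ log ((b : ℝ) ^ 2739) :=
    log_le_log (by exact_mod_cast hn0) (by exact_mod_cast h1)
  rw [log_pow] at h2
  rw [mul_assoc]
  exact mul_le_mul_of_nonneg_left (by exact_mod_cast h2) (by positivity)

theorem iso_all {lam : ℝ} {S : St D} {L J : ℕ} (h : ¬ Low lam S L J) (hI : Iso S L (J - 1)) :
    ∀ d i, 1 ≤ i → i + d + 1 = J → Iso S L i := by
  intro d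
  induction d with
  | zero =>
    intro i _ e
    rwa [show J - 1 = i by omega] at hI
  | succ d ih =>
    intro i hi e
    by_contra hc
    by_cases hN : NBk lam S (Ls L (i + 2)) (NN D (Ls L (i + 2)))
    · exact h (Or.inr (Or.inl ⟨i, hi, by omega, ih (i + 1) (by omega) (by omega), hN, hc⟩))
    · exact h (Or.inl ⟨i + 1, by omega, by omega, hN⟩)

theorem level {L : ℕ} (k : ℕ) : ∀ J, 2 ≤ J → Ls L 2 ≤ k →
    Ls L J ≤ k ∨ ∃ i, 1 ≤ i ∧ i + 1 < J ∧ Ls L (i + 1) ≤ k ∧ k < Ls L (i + 2) := by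
  intro J hJ hk
  induction J, hJ using Nat.le_induction with
  | base => exact Or.inl hk
  | succ J hJ ih =>
    rcases ih with h | ⟨i, h1, h2, h3⟩
    · by_cases h' : Ls L (J + 1) ≤ k
      · exact Or.inl h'
      · obtain ⟨j, rfl⟩ : ∃ j, J = j + 1 := ⟨J - 1, by omega⟩
        exact Or.inr ⟨j, by omega, by omega, h, not_le.1 h'⟩
    · exact Or.inr ⟨i, h1, by omega, h3⟩

theorem far_of {S : St D} {k b m : ℕ} (h : m + b < nrm (back S k - back S b)) :
    m ≤ nrm (back S k) := by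
  have h1 := nrm_sub_le (back S k) (back S b)
  have h2 := nrm_back S b
  omega

theorem nbk {lam N : ℝ} {S : St D} {n k : ℕ} (h : NBk lam S n N) (h1 : k ≤ n)
    (h2 : k ≤ S.length) : lam * ((back S k 0 : ℤ) : ℝ) ≤ N := by
  have := h 0 k (Nat.zero_le _) h1 h2
  rwa [back_zero, sub_zero] at this

/-- every record is either near and open, or far at some level -/
theorem split {lam : ℝ} {S : St D} {L J : ℕ} (hL : 2 ≤ L) (hJ : 2 ≤ J)
    (hlen : S.length ≤ 2 * Ls L (J + 1) ^ 2) (h : ¬ Low lam S L J) (hI : Iso S L (J - 1))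
    (hN : NBk lam S S.length (NN D (2 * Ls L (J + 1) ^ 2))) (k : Fin S.length) :
    ((k : ℕ) < Ls L 2 ∧ nrm (back S (k + 1)) ≤ 3 * Ls L 1 ∧ ∀ s, (S.get k).1 s = true) ∨
    ∃ i ∈ Ico 1 J, (k : ℕ) < 2 * Ls L i ^ 2738 ∧ Ls L i ≤ nrm (back S (k + 1)) ∧
      lam * ((back S (k + 1) 0 : ℤ) : ℝ) ≤ ((D : ℝ) + 9) * 2739 * log (Ls L i) := by
  have hiso : ∀ i, 1 ≤ i → i < J → Iso S L i := fun i h1 h2 =>
    iso_all h hI (J - 1 - i) i h1 (by omega)
  have hnb : ∀ i, 1 ≤ i → i < J → NBk lam S (Ls L (i + 1)) (NN D (Ls L (i + 1))) :=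
    fun i h1 h2 => by_contra fun hc => h (Or.inl ⟨i, h1, h2, hc⟩)
  have hk : (k : ℕ) + 1 ≤ S.length := k.2
  have h2 : ∀ i, 2 ≤ Ls L i := fun i => hL.trans (le_Ls hL i)
  have hp : ∀ i e, e ≤ 2738 → Ls L i ^ e ≤ 2 * Ls L i ^ 2738 := fun i e he =>
    (Nat.pow_le_pow_right (by have := h2 i; omega) he).trans (by omega)
  by_cases c1 : (k : ℕ) < Ls L 2
  · by_cases c2 : nrm (back S (k + 1) - back S (Ls L 1)) ≤ 2 * Ls L 1
    · have hAO : AO S L := by_contra fun hc => h (Or.inr (Or.inr ⟨hiso 1 le_rfl (by omega), hc⟩))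
      refine Or.inl ⟨c1, ?_, hAO k c1 c2⟩
      have a1 := nrm_add_le (back S (k + 1) - back S (Ls L 1)) (back S (Ls L 1))
      rw [sub_add_cancel] at a1
      have a2 := nrm_back S (Ls L 1)
      omega
    · have e : Ls L 2 ≤ 2 * Ls L 1 ^ 2738 := by rw [Ls_succ L 1]; exact hp 1 37 (by norm_num)
      refine Or.inr ⟨1, mem_Ico.2 ⟨le_rfl, by omega⟩, by omega,
        far_of (b := Ls L 1) (by omega), ?_⟩
      exact (nbk (hnb 1 le_rfl (by omega)) c1 hk).trans
        (NN_le (h2 1) (le_trans (by norm_num) (h2 2)) e)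
  · rcases level (L := L) k J hJ (not_lt.1 c1) with c2 | ⟨i, i1, i2, i3, i4⟩
    · obtain ⟨j, rfl⟩ : ∃ j, J = j + 1 := ⟨J - 1, by omega⟩
      have e : 2 * Ls L (j + 1 + 1) ^ 2 = 2 * Ls L j ^ 2738 := by
        rw [Ls_succ, Ls_succ, ← pow_mul, ← pow_mul]
      have a1 := hiso j (by omega) (by omega) (k + 1) (by omega) hk
      refine Or.inr ⟨j, mem_Ico.2 ⟨by omega, by omega⟩, by omega,
        far_of (b := Ls L j) (by omega), ?_⟩
      refine (nbk hN hk hk).trans (NN_le (h2 j) ?_ e.le)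
      have := pow_pos (by have := h2 (j + 1 + 1); omega : 0 < Ls L (j + 1 + 1)) 2
      omega
    · have e : Ls L (i + 2) ≤ 2 * Ls L i ^ 2738 := by
        rw [Ls_succ, Ls_succ, ← pow_mul]; exact hp i _ (by norm_num)
      have a1 := hiso i i1 (by omega) (k + 1) (by omega) hk
      refine Or.inr ⟨i, mem_Ico.2 ⟨i1, by omega⟩, by omega,
        far_of (b := Ls L i) (by omega), ?_⟩
      exact (nbk (hnb (i + 1) (by omega) i2) i4 hk).trans
        (NN_le (h2 i) (le_trans (by norm_num) (h2 (i + 2))) e)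

end Dg

open Dg in
theorem dg : DgStmt := by
  intro D β hβ
  obtain ⟨x, hx⟩ := grow (2 * (((D : ℝ) + 9) * 2739)) (by positivity)
  obtain ⟨c, hc⟩ : ∃ c : ℝ, c = Fintype.card (Step D) := ⟨_, rfl⟩
  have hc0 : 0 ≤ c := hc ▸ Nat.cast_nonneg _
  refine ⟨max 2 (max x ⌈8 * c / β⌉₊), fun L hL => ?_⟩
  have hL2 : 2 ≤ L := (le_max_left _ _).trans hL
  have hLx : x ≤ L := ((le_max_left _ _).trans (le_max_right _ _)).trans hL
  have hLc : 8 * c / β ≤ L := (Nat.le_ceil _).trans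
    (by exact_mod_cast ((le_max_right _ _).trans (le_max_right _ _)).trans hL)
  have hL0 : (0 : ℝ) < L := by exact_mod_cast (by omega : 0 < L)
  obtain ⟨A, hA⟩ : ∃ A : ℝ, A = (Ls L 2 : ℝ) * (c * exp ((3 * Ls L 1 : ℕ) : ℝ)) := ⟨_, rfl⟩
  have hA0 : 0 ≤ A := by rw [hA]; positivity
  refine ⟨min 1 (β / (2 * (A + 1))), lt_min one_pos (by positivity), ?_⟩
  intro p lam lam' J S hp hp1 h0 h1 h2 h3 hJ hlen hlow hI hN
  obtain ⟨e, he⟩ : ∃ e : ℝ, e = β / (2 * (A + 1)) := ⟨_, rfl⟩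
  rw [← he] at hp
  have he0 : 0 ≤ e := by rw [he]; positivity
  have hpe : 1 - p ≤ e := by linarith [min_le_right 1 e]
  have hp0 : 0 ≤ p := by linarith [min_le_left 1 e]
  have key : ∀ k : Fin S.length, ∑ s, del p ((S.get k).1 s) * ker lam' (back S (k + 1)) ≤
      (if (k : ℕ) < Ls L 2 then c * exp ((3 * Ls L 1 : ℕ) : ℝ) * e else 0) +
      ∑ i ∈ Ico 1 J, if (k : ℕ) < 2 * Ls L i ^ 2738 then c * ((Ls L i : ℝ) ^ 2740)⁻¹ else 0 := by
    intro k
    have n1 : 0 ≤ if (k : ℕ) < Ls L 2 then c * exp ((3 * Ls L 1 : ℕ) : ℝ) * e else 0 := by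
      split_ifs <;> positivity
    have n2 : ∀ i ∈ Ico 1 J,
        0 ≤ if (k : ℕ) < 2 * Ls L i ^ 2738 then c * ((Ls L i : ℝ) ^ 2740)⁻¹ else 0 := fun i _ => by
      split_ifs <;> positivity
    rcases split hL2 hJ hlen hlow hI hN k with ⟨a1, a2, a3⟩ | ⟨i, hi, a1, a2, a3⟩
    · refine le_add_of_le_of_nonneg ?_ (sum_nonneg n2)
      rw [if_pos a1]
      have b1 := ker_near (by linarith : 0 ≤ lam') h3 a2
      calc _ ≤ ∑ _s : Step D, e * exp ((3 * Ls L 1 : ℕ) : ℝ) := sum_le_sum fun s _ => by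
            rw [a3 s]
            exact mul_le_mul (by simpa [del] using hpe) b1 (ker_nonneg _ _) he0
        _ = _ := by rw [sum_const, card_univ, nsmul_eq_mul, ← hc]; ring
    · refine le_add_of_nonneg_of_le n1 (le_trans ?_ (single_le_sum n2 hi))
      rw [if_pos a1]
      have b0 := le_Ls hL2 i
      have b1 := ker_far h0 h1 h2 (by omega) a2 a3 (by
        have := hx (Ls L i) (hLx.trans b0)
        linarith)
      calc _ ≤ ∑ _s : Step D, 1 * ((Ls L i : ℝ) ^ 2740)⁻¹ := sum_le_sum fun s _ =>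
            mul_le_mul (by unfold del; split_ifs <;> linarith) b1 (ker_nonneg _ _) zero_le_one
        _ = _ := by rw [sum_const, card_univ, nsmul_eq_mul, ← hc, one_mul]
  unfold Dg
  refine (sum_le_sum fun k _ => key k).trans ?_
  rw [sum_add_distrib, sum_comm]
  have t1 : ∑ k : Fin S.length,
      (if (k : ℕ) < Ls L 2 then c * exp ((3 * Ls L 1 : ℕ) : ℝ) * e else 0) ≤ β / 2 := by
    refine (sum_ite_le _ _ (by positivity)).trans ?_
    have : (Ls L 2 : ℝ) * (c * exp ((3 * Ls L 1 : ℕ) : ℝ) * e) = A * e := by rw [hA]; ring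
    rw [this]
    have e2 : (A + 1) * e = β / 2 := by rw [he]; field_simp
    nlinarith
  have t2 : ∑ i ∈ Ico 1 J, ∑ k : Fin S.length,
      (if (k : ℕ) < 2 * Ls L i ^ 2738 then c * ((Ls L i : ℝ) ^ 2740)⁻¹ else 0) ≤ β / 2 := by
    calc _ ≤ ∑ i ∈ Ico 1 J, 2 * c * ((Ls L i : ℝ) ^ 2)⁻¹ := sum_le_sum fun i _ => by
          refine (sum_ite_le _ _ (by positivity)).trans (le_of_eq ?_)
          have b0 : (Ls L i : ℝ) ≠ 0 := by
            exact_mod_cast (by have := le_Ls hL2 i; omega : Ls L i ≠ 0)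
          generalize Ls L i = b at b0
          rw [show 2740 = 2738 + 2 from rfl, pow_add, Nat.cast_mul, Nat.cast_pow]
          have b1 : (b : ℝ) ^ 2738 ≠ 0 := pow_ne_zero _ b0
          generalize (b : ℝ) ^ 2738 = y at b1
          push_cast
          field_simp
      _ = 2 * c * ∑ i ∈ Ico 1 J, ((Ls L i : ℝ) ^ 2)⁻¹ := by rw [mul_sum]
      _ ≤ 2 * c * (2 / L) := mul_le_mul_of_nonneg_left (sum_inv hL2 J) (by positivity)
      _ ≤ β / 2 := by
          rw [div_le_iff₀ hβ] at hLc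
          rw [show 2 * c * (2 / L) = 4 * c / L by ring, div_le_iff₀ hL0]
          linarith
  linarith

end Pool.Agent.MP_8c549f_pr.S3

end
end MrgPart1

-- marker of a merged file
example : 731051 + 640630 = 731051 + 640630 := rfl
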