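import Mathlib.Analysis.Asymptotics.SpecificAsymptotics
import Pool.Agent.MP_8c549f_pr.S3.BasicA

/-! PROJECT BWALK3, row TAU: a renewal limit lemma and a Lipschitz bound in the weights. -/

noncomputable section

namespace Pool.Agent.MP_8c549f_pr.S3

open Finset Classical Filter Topology Real

namespace Tau

lemma icc_range (F : ℕ → ℝ) (n : ℕ) : ∑ m ∈ Icc 1 n, F m = ∑ j ∈ range n, F (j + 1) := by
  induction n with
  | zero => simp
  | succ n ih => rw [Finset.sum_Icc_succ_top (by omega), ih, sum_range_succ]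

/-- the remaining mass -/
def Q (b : ℕ → ℝ) (n : ℕ) : ℝ := 1 - ∑ m ∈ Icc 1 n, b m

lemma Q_succ (b : ℕ → ℝ) (n : ℕ) : Q b (n + 1) = Q b n - b (n + 1) := by
  unfold Q; rw [Finset.sum_Icc_succ_top (by omega)]; ring

lemma Q_le (b : ℕ → ℝ) (n j : ℕ) : |Q b n| ≤ |Q b (n + j)| + ∑ m ∈ Ioc n (n + j), |b m| := by
  induction j with
  | zero => simp
  | succ j ih =>
    rw [← add_assoc, Finset.sum_Ioc_succ_top (by omega), Q_succ]
    have := abs_add_le (Q b (n + j) - b (n + j + 1)) (b (n + j + 1))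
    rw [sub_add_cancel] at this
    linarith

lemma dbl (b : ℕ → ℝ) (L : ℕ) :
    ∑ k ∈ range L, ∑ m ∈ Ioc k L, |b m| = ∑ m ∈ range (L + 1), (m : ℝ) * |b m| := by
  induction L with
  | zero => simp
  | succ L ih =>
    rw [sum_range_succ (fun m => (m : ℝ) * |b m|), ← ih,
      sum_congr rfl (fun k hk => Finset.sum_Ioc_succ_top (by
        have := mem_range.mp hk; omega) (fun m => |b m|)), sum_add_distrib, sum_range_succ]
    simp

lemma sumQ {b : ℕ → ℝ} (hs : Summable (fun m : ℕ => (m : ℝ) * |b m|))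
    (hQ : Tendsto (Q b) atTop (𝓝 0)) (N : ℕ) :
    ∑ k ∈ range N, |Q b k| ≤ ∑' m : ℕ, (m : ℝ) * |b m| := by
  have h1 : Tendsto (fun L => (N : ℝ) * |Q b L| + ∑' m : ℕ, (m : ℝ) * |b m|) atTop
      (𝓝 ((N : ℝ) * |0| + ∑' m : ℕ, (m : ℝ) * |b m|)) := (hQ.abs.const_mul _).add_const _
  rw [abs_zero, mul_zero, zero_add] at h1
  refine ge_of_tendsto h1 (eventually_atTop.mpr ⟨N, fun L hL => ?_⟩)
  have h2 : ∑ k ∈ range N, |Q b k| ≤ ∑ k ∈ range N, (|Q b L| + ∑ m ∈ Ioc k L, |b m|) :=
    sum_le_sum fun k hk => by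
      have := Q_le b k (L - k)
      rwa [show k + (L - k) = L by have := mem_range.mp hk; omega] at this
  rw [sum_add_distrib, sum_const, card_range, nsmul_eq_mul] at h2
  have h3 : ∑ k ∈ range N, ∑ m ∈ Ioc k L, |b m| ≤ ∑ k ∈ range L, ∑ m ∈ Ioc k L, |b m| :=
    sum_le_sum_of_subset_of_nonneg (range_mono hL) fun k _ _ => sum_nonneg fun m _ => abs_nonneg _
  rw [dbl] at h3
  have h4 := hs.sum_le_tsum (range (L + 1)) (fun m _ => by positivity)
  linarith

lemma nQ {b : ℕ → ℝ} (hs : Summable (fun m : ℕ => (m : ℝ) * |b m|))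
    (hQ : Tendsto (Q b) atTop (𝓝 0)) : Tendsto (fun n : ℕ => (n : ℝ) * Q b n) atTop (𝓝 0) := by
  set S := ∑' m : ℕ, (m : ℝ) * |b m| with hS
  have h0 : Tendsto (fun n : ℕ => S - ∑ m ∈ range (n + 1), (m : ℝ) * |b m|) atTop (𝓝 (S - S)) :=
    (hs.hasSum.tendsto_sum_nat.comp (tendsto_add_atTop_nat 1)).const_sub S
  rw [sub_self] at h0
  refine squeeze_zero_norm (fun n => ?_) h0
  rw [Real.norm_eq_abs, abs_mul, Nat.abs_cast]
  have h1 : Tendsto (fun L => (n : ℝ) * |Q b L| + (S - ∑ m ∈ range (n + 1), (m : ℝ) * |b m|)) atTop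
      (𝓝 ((n : ℝ) * |0| + (S - ∑ m ∈ range (n + 1), (m : ℝ) * |b m|))) :=
    (hQ.abs.const_mul _).add_const _
  rw [abs_zero, mul_zero, zero_add] at h1
  refine ge_of_tendsto h1 (eventually_atTop.mpr ⟨n, fun L hL => ?_⟩)
  have h2 := Q_le b n (L - n)
  rw [show n + (L - n) = L by omega] at h2
  have h3 : (n : ℝ) * ∑ m ∈ Ioc n L, |b m| ≤ ∑ m ∈ Ioc n L, (m : ℝ) * |b m| := by
    rw [mul_sum]
    refine sum_le_sum fun m hm => mul_le_mul_of_nonneg_right ?_ (abs_nonneg _)
    exact_mod_cast (mem_Ioc.mp hm).1.le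
  have h4 := hs.sum_le_tsum (range (n + 1) ∪ Ioc n L) (fun m _ => by positivity)
  rw [sum_union (by
    rw [disjoint_left]; intro m h h'
    have := mem_range.mp h; have := mem_Ioc.mp h'; omega)] at h4
  have h5 := mul_le_mul_of_nonneg_left h2 (Nat.cast_nonneg (α := ℝ) n)
  linarith

lemma conv (z b : ℕ → ℝ) (N : ℕ) :
    ∑ n ∈ range (N + 1), (z n - ∑ m ∈ Icc 1 n, z (n - m) * b m) =
      ∑ i ∈ range (N + 1), z i * Q b (N - i) := by
  induction N with
  | zero => simp [Q]
  | succ N ih =>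
    rw [sum_range_succ, ih, sum_range_succ _ (N + 1), Nat.sub_self, icc_range,
      ← sum_range_reflect (fun j => z (N + 1 - (j + 1)) * b (j + 1))]
    have : ∑ i ∈ range (N + 1), z i * Q b (N + 1 - i) = ∑ i ∈ range (N + 1), (z i * Q b (N - i) -
        z (N + 1 - (N + 1 - 1 - i + 1)) * b (N + 1 - 1 - i + 1)) := by
      refine sum_congr rfl fun i hi => ?_
      have := mem_range.mp hi
      rw [show N + 1 - i = N - i + 1 by omega, Q_succ, show N + 1 - 1 - i = N - i by omega,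
        show N + 1 - (N - i + 1) = i by omega]
      ring
    rw [this, sum_sub_distrib]
    simp only [Q, Icc_eq_empty_of_lt zero_lt_one, sum_empty]
    ring

lemma small {z : ℕ → ℝ} (hz : Tendsto (fun n : ℕ => z n / n) atTop (𝓝 0)) {ε : ℝ} (hε : 0 < ε) :
    ∃ C, 0 ≤ C ∧ ∀ n, |z n| ≤ ε * n + C := by
  obtain ⟨n0, h⟩ := eventually_atTop.mp ((Metric.tendsto_nhds.mp hz) ε hε)
  refine ⟨∑ i ∈ range (n0 + 1), |z i|, sum_nonneg fun _ _ => abs_nonneg _, fun n => ?_⟩
  have hp : 0 ≤ ∑ i ∈ range (n0 + 1), |z i| := sum_nonneg fun _ _ => abs_nonneg _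
  by_cases hn : n ≤ n0
  · have := single_le_sum (f := fun i => |z i|) (fun _ _ => abs_nonneg _)
      (mem_range.mpr (show n < n0 + 1 by omega))
    have : 0 ≤ ε * n := by positivity
    linarith
  · have h1 := h n (by omega)
    have h2 : (0 : ℝ) < n := by exact_mod_cast (by omega : 0 < n)
    rw [Real.dist_eq, sub_zero, abs_div, Nat.abs_cast, div_lt_iff₀ h2] at h1
    linarith

lemma lim_zero {z b : ℕ → ℝ} {c : ℝ} (hs : Summable (fun m : ℕ => (m : ℝ) * |b m|))
    (hQ : Tendsto (Q b) atTop (𝓝 0)) (hz : Tendsto (fun n : ℕ => z n / n) atTop (𝓝 0))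
    (h : Tendsto (fun n => z n - ∑ m ∈ Icc 1 n, z (n - m) * b m) atTop (𝓝 c)) : c = 0 := by
  set S := ∑' m : ℕ, (m : ℝ) * |b m| with hS
  have hS0 : 0 ≤ S := tsum_nonneg fun m => by positivity
  have h1 := (h.cesaro.comp (tendsto_add_atTop_nat 1)).abs
  have key : ∀ ε > 0, |c| ≤ ε * S := by
    intro ε hε
    obtain ⟨C, hC, hb⟩ := small hz hε
    have h2 : Tendsto (fun N : ℕ => (ε + C / ((N + 1 : ℕ) : ℝ)) * S) atTop (𝓝 ((ε + 0) * S)) :=
      ((((tendsto_const_div_atTop_nhds_zero_nat C).comp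
        (tendsto_add_atTop_nat 1))).const_add ε).mul_const S
    rw [add_zero] at h2
    refine le_of_tendsto_of_tendsto' h1 h2 fun N => ?_
    simp only [Function.comp]
    have hp : (0 : ℝ) < ((N + 1 : ℕ) : ℝ) := by positivity
    rw [conv, abs_mul, abs_inv, Nat.abs_cast, inv_mul_le_iff₀ hp]
    have h3 : |∑ i ∈ range (N + 1), z i * Q b (N - i)| ≤
        ∑ i ∈ range (N + 1), (ε * ((N + 1 : ℕ) : ℝ) + C) * |Q b (N + 1 - 1 - i)| := by
      refine (abs_sum_le_sum_abs _ _).trans (sum_le_sum fun i hi => ?_)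
      rw [abs_mul]
      refine mul_le_mul_of_nonneg_right ((hb i).trans ?_) (abs_nonneg _)
      have : (i : ℝ) ≤ ((N + 1 : ℕ) : ℝ) := by exact_mod_cast (mem_range.mp hi).le
      nlinarith
    rw [← mul_sum, sum_range_reflect (fun k => |Q b k|)] at h3
    refine h3.trans ((mul_le_mul_of_nonneg_left (sumQ hs hQ _) (by positivity)).trans (le_of_eq ?_))
    field_simp
    rfl
  by_contra hc
  have hc' : 0 < |c| := abs_pos.mpr hc
  have := key (|c| / (2 * (S + 1))) (by positivity)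
  rw [div_mul_eq_mul_div, le_div_iff₀ (by positivity)] at this
  nlinarith

lemma one_step {ι : Type} [Fintype ι] {w w' : ι → ℝ} {r : ℝ} (hr : 1 ≤ r) (h0 : ∀ a, 0 ≤ w a)
    (h1 : ∀ a, w' a ≤ r * w a) (h2 : ∀ a, w a ≤ r * w' a) (m : ℕ) (Φ : List ι → ℝ) :
    |Ex w' m Φ - Ex w m Φ| ≤ (r ^ m - 1) * Ex w m (fun u => |Φ u|) := by
  induction m generalizing Φ with
  | zero => simp [Ex]
  | succ m ih =>
    rw [Ex_succ, Ex_succ, Ex_succ, ← sum_sub_distrib, mul_sum]
    refine (abs_sum_le_sum_abs _ _).trans (sum_le_sum fun a _ => ?_)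
    have a1 := ih fun u => Φ (a :: u)
    have a2 := abs_Ex_le h0 m fun u => Φ (a :: u)
    set X' := Ex w' m fun u => Φ (a :: u)
    set X := Ex w m fun u => Φ (a :: u)
    set Y := Ex w m fun u => |Φ (a :: u)|
    have hY : 0 ≤ Y := (abs_nonneg _).trans a2
    have b0 := h0 a
    have b1 := h1 a
    have b2 := h2 a
    have b3 : 0 ≤ w' a := by
      by_contra hc
      have : r * w' a < 0 := mul_neg_of_pos_of_neg (by linarith) (not_le.mp hc)
      linarith
    have b4 : |w' a - w a| ≤ (r - 1) * w a := by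
      rw [abs_le]
      refine ⟨?_, by linarith⟩
      by_cases hc : w a ≤ w' a
      · nlinarith
      · nlinarith
    have b5 : 1 ≤ r ^ m := one_le_pow₀ hr
    have e : w' a * X' - w a * X = w' a * (X' - X) + (w' a - w a) * X := by ring
    rw [e]
    refine (abs_add_le _ _).trans ?_
    rw [abs_mul, abs_mul, abs_of_nonneg b3]
    have c1 : w' a * |X' - X| ≤ r * w a * ((r ^ m - 1) * Y) :=
      mul_le_mul b1 a1 (abs_nonneg _) (by positivity)
    have c2 : |w' a - w a| * |X| ≤ (r - 1) * w a * Y :=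
      mul_le_mul b4 a2 (abs_nonneg _) (mul_nonneg (by linarith) b0)
    rw [pow_succ]
    linarith

lemma exp_le {u : ℝ} (h0 : 0 ≤ u) (h1 : u ≤ 1) : exp u - 1 ≤ 2 * u := by
  have := Real.abs_exp_sub_one_le (x := u) (by rwa [abs_of_nonneg h0])
  rw [abs_of_nonneg h0] at this
  exact (le_abs_self _).trans this

end Tau

open Tau

theorem tau : TauStmt := by
  intro y a b e f θ v hθ _ hy hb ha hs he hf hv
  have hQ : Tendsto (Q b) atTop (𝓝 0) := by
    have := hf.div_const θ
    rw [zero_div] at this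
    refine this.congr fun n => ?_
    have h := hb n
    rw [← mul_sum] at h
    unfold Q
    field_simp
    linarith
  have ha' : Summable fun j => a (j + 1) := (summable_nat_add_iff 1).mpr ha.of_abs
  have hs' : Summable fun j : ℕ => ((j + 1 : ℕ) : ℝ) * b (j + 1) := by
    refine (summable_nat_add_iff (f := fun m : ℕ => (m : ℝ) * b m) 1).mpr (Summable.of_abs ?_)
    simpa only [abs_mul, Nat.abs_cast] using hs
  have hlim : Tendsto (fun M : ℕ => v * ∑ m ∈ Icc 1 M, (m : ℝ) * b m - ∑ m ∈ Icc 1 M, a m) atTop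
      (𝓝 (v * ∑' j : ℕ, ((j + 1 : ℕ) : ℝ) * b (j + 1) - ∑' j, a (j + 1))) := by
    simp only [icc_range]
    exact (hs'.hasSum.tendsto_sum_nat.const_mul v).sub ha'.hasSum.tendsto_sum_nat
  set c := v * ∑' j : ℕ, ((j + 1 : ℕ) : ℝ) * b (j + 1) - ∑' j, a (j + 1)
  have hz : Tendsto (fun n : ℕ => (y n - v * θ * n) / n) atTop (𝓝 0) := by
    have := hv.sub_const (v * θ)
    rw [sub_self] at this
    refine this.congr' (eventually_atTop.mpr ⟨1, fun n hn => ?_⟩)
    have : (n : ℝ) ≠ 0 := by exact_mod_cast (by omega : n ≠ 0)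
    field_simp
  have h := ((hlim.const_mul (-θ)).add he).sub ((nQ hs hQ).const_mul (v * θ))
  have h0 := lim_zero (z := fun n => y n - v * θ * n) hs hQ hz (h.congr fun n => by
    have e1 : ∑ m ∈ Icc 1 n, (y (n - m) - v * θ * ((n - m : ℕ) : ℝ)) * b m =
        ∑ m ∈ Icc 1 n, (y (n - m) * b m - v * θ * n * b m + v * θ * (m * b m)) :=
      sum_congr rfl fun m hm => by rw [Nat.cast_sub (mem_Icc.mp hm).2]; ring
    have e2 := hy n
    rw [sum_add_distrib, ← mul_sum] at e2
    rw [e1, sum_add_distrib, sum_sub_distrib, ← mul_sum, ← mul_sum]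
    unfold Q
    linarith)
  have : c = 0 := by
    rw [add_zero, mul_zero, sub_zero] at h0
    simpa [hθ] using h0
  rwa [this] at hlim

theorem lip : LipStmt := by
  intro ι _ w x y c δ Φ M hxy hc h0 h1 h2
  obtain ⟨N, hN⟩ := exists_nat_gt (c * M * (y - x))
  have hd : 0 ≤ y - x := by linarith
  have hN0 : (0 : ℝ) < N := lt_of_le_of_lt (by positivity) hN
  set h := (y - x) / N with hh
  have hh0 : 0 ≤ h := by positivity
  have hNh : N * h = y - x := by rw [hh]; field_simp
  have hcm : c * h * M ≤ 1 := by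
    rw [hh, mul_div_assoc', div_mul_eq_mul_div, div_le_one hN0]; linarith
  have mem : ∀ k : ℕ, k ≤ N → x + k * h ∈ Set.Icc x y := fun k hk => by
    have : (k : ℝ) * h ≤ N * h := mul_le_mul_of_nonneg_right (by exact_mod_cast hk) hh0
    have : 0 ≤ (k : ℝ) * h := by positivity
    constructor <;> linarith
  have key : ∀ k : ℕ, k ≤ N →
      |∑ m ∈ Icc 1 M, (Ex (w (x + k * h)) m (Φ m) - Ex (w x) m (Φ m))| ≤ 2 * c * δ * (k * h) := by
    intro k
    induction k with
    | zero => intro _; simp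
    | succ k ih =>
      intro hk
      have m1 := mem k (by omega)
      have m2 := mem (k + 1) hk
      have d1 : |x + k * h - (x + (k + 1 : ℕ) * h)| = h := by
        rw [abs_sub_comm]; push_cast; rw [show x + (k + 1) * h - (x + k * h) = h by ring, abs_of_nonneg hh0]
      have s : |∑ m ∈ Icc 1 M, (Ex (w (x + (k + 1 : ℕ) * h)) m (Φ m) - Ex (w (x + k * h)) m (Φ m))| ≤
          2 * c * h * δ := by
        refine (abs_sum_le_sum_abs _ _).trans (le_trans ?_
          (mul_le_mul_of_nonneg_left (h2 _ m1) (by positivity)))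
        rw [mul_sum]
        refine sum_le_sum fun m hm => (one_step (r := exp (c * h))
          (Real.one_le_exp (by positivity)) (h0 _ m1) (fun a => ?_) (fun a => ?_) m (Φ m)).trans ?_
        · have := h1 _ m1 _ m2 a; rwa [d1] at this
        · have := h1 _ m2 _ m1 a; rwa [abs_sub_comm, d1] at this
        · rw [← mul_assoc]
          refine mul_le_mul_of_nonneg_right ?_ (Ex_nonneg (h0 _ m1) fun _ _ => abs_nonneg _)
          have hm' : (m : ℝ) ≤ M := by exact_mod_cast (mem_Icc.mp hm).2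
          have := exp_le (u := m * (c * h)) (by positivity) (by
            have := mul_le_mul_of_nonneg_left hm' (show 0 ≤ c * h by positivity)
            linarith)
          rw [← Real.exp_nat_mul]
          linarith
      have t := abs_add_le
        (∑ m ∈ Icc 1 M, (Ex (w (x + (k + 1 : ℕ) * h)) m (Φ m) - Ex (w (x + k * h)) m (Φ m)))
        (∑ m ∈ Icc 1 M, (Ex (w (x + k * h)) m (Φ m) - Ex (w x) m (Φ m)))
      rw [← sum_add_distrib] at t
      simp only [sub_add_sub_cancel] at t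
      have := ih (by omega)
      push_cast at t s ⊢
      linarith
  have := key N le_rfl
  rwa [hNh, show x + (y - x) = y by ring] at this

end Pool.Agent.MP_8c549f_pr.S3
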