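import Pool.Agent.MP_8c549f_pr.FinalB
import Pool.Agent.MP_8c549f_pr.S3.BasicB
import Pool.Agent.MP_8c549f_pr.S3.Small
import Pool.Agent.MP_8c549f_pr.S3.ZY
import Pool.Agent.MP_8c549f_pr.S3.Br
import Pool.Agent.MP_8c549f_pr.S3.Rec
import Pool.Agent.MP_8c549f_pr.S3.Dg
import Pool.Agent.MP_8c549f_pr.S3.Nash
import Pool.Agent.MP_8c549f_pr.S3.Pei
import Pool.Agent.MP_8c549f_pr.S3.Speed
import Pool.Agent.MP_8c549f_pr.S3.Tau

-- ======== part 0: formerly Pool.Agent.MP_8c549f_pr.S3.Peak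
section MrgPart0

/-! PROJECT BWALK3: the speed attains its largest value. -/

namespace Pool.Agent.MP_8c549f_pr.Peak

open MeasureTheory Filter Topology Real
open scoped ENNReal NNReal

/-- upper semicontinuity of the speed formula in the critical window -/
theorem usc (D : ℕ) (hD : 2 ≤ D) : ∃ e₀ : ℝ, 0 < e₀ ∧ ∀ p α β, 1 - e₀ ≤ p → Win D p α β →
    1 ≤ α ∧ UpperSemicontinuousOn (fun w => BR D p w / AR D p w) (Set.Icc α β) := by
  have hD1 : 1 ≤ D := by omega
  obtain ⟨c, hc, hB⟩ := bushS D hD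
  obtain ⟨C, hC1, hR⟩ := regbS D hD
  obtain ⟨x₁, h0⟩ := reg0S D hD1
  obtain ⟨e1, he1, hB⟩ := hB 1 one_pos
  obtain ⟨e2, he2, hR⟩ := hR 1 one_pos
  obtain ⟨e3, he3, hA⟩ := regaS D hD 1 one_pos
  obtain ⟨e4, he4, hS⟩ := splitS D hD1
  obtain ⟨e5, he5, hN⟩ := nice D hD1 1 one_pos
  obtain ⟨q₀, e6, hq, he6, hq0⟩ := q0S D hD1 1 one_pos
  obtain ⟨e7, he7, hO⟩ := oneS D hD1 1 one_pos
  obtain ⟨e8, he8, hW⟩ := win_mu hD (max 1 x₁)
  refine ⟨min (min (min e1 e2) (min e3 e4)) (min (min e5 e6) (min e7 e8)), by positivity, ?_⟩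
  intro p α β hp hw
  have k : ∀ {e : ℝ}, min (min (min e1 e2) (min e3 e4)) (min (min e5 e6) (min e7 e8)) ≤ e →
      1 - e ≤ p := fun h => by linarith
  have p1 := hw.1
  have hαβ := hw.2.1
  obtain ⟨μ, m1, -, p0, m2, -⟩ := hW p α (k (by simp)) p1 (hw.mem ⟨le_rfl, hαβ⟩).1
    (hw.mem ⟨le_rfl, hαβ⟩).2
  have a1 : 1 ≤ α := (le_max_left _ _).trans (m1.trans m2)
  have a3 : x₁ ≤ α := (le_max_right _ _).trans (m1.trans m2)
  refine ⟨a1, ?_⟩
  replace hB := hB p α β (k (by simp)) hw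
  obtain ⟨R1, R2, R3⟩ := hR p α β (k (by simp)) hw
  obtain ⟨A1, A2⟩ := hA p α β (k (by simp)) hw
  have hp0 : 0 ≤ p := by linarith
  have key : ∀ w ∈ Set.Icc α β, 0 < (BT D p w).toReal ∧ BT D p w ≤ AT D p w ∧
      BR D p w / AR D p w = (BT D p w).toReal / (AT D p w).toReal ∧
      AT D p w = AReg D p w + ⨆ h, ABu D p w h := fun w hw => by
    have w1 : 1 ≤ w := a1.trans hw.1
    obtain ⟨b1, b2, b3, b4⟩ := qrS D p w hp0 p1.le
    have q1ne : q1 D p w ≠ 0 := fun h => by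
      have := (b4 (hN p w (k (by simp)) p1.le w1).1).trans
        (add_le_add le_rfl (hq0 p w (k (by simp)) p1.le w1))
      rw [h, zero_add, ENNReal.one_le_ofReal] at this
      linarith
    have q1top : q1 D p w ≠ ∞ := ne_top_of_le_ne_top ENNReal.one_ne_top b3
    obtain ⟨-, o2, o3⟩ := hO p w (k (by simp)) p1.le w1
    obtain ⟨-, -, -, -, -, -, s1, s2⟩ := sump D p w hp0 p1.le
    have qp := ENNReal.toReal_pos q1ne q1top
    refine ⟨ENNReal.toReal_pos ?_ (R1 w hw).1, ?_, ?_, hS p w (k (by simp)) p1 w1⟩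
    · rw [← b2]
      exact mul_ne_zero (fun h => by simp [h, o2] at s2) q1ne
    · rw [← b1, ← b2]; exact mul_le_mul' s1 le_rfl
    · rw [← b1, ← b2, ENNReal.toReal_mul, ENNReal.toReal_mul, mul_div_mul_right _ _ qp.ne']
      rfl
  have cB : ContinuousOn (fun w => (BT D p w).toReal) (Set.Icc α β) :=
    (R2.continuousOn.add R3.continuousOn).congr fun w _ => by simp
  have pe : ∀ w ∈ Set.Icc α β, exp w - exp (-w) ≠ 0 := fun w hw =>
    (sub_pos.2 (exp_lt_exp.2 (by linarith [hw.1]))).ne'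
  have cA1 : ContinuousOn (fun w => (AT D 1 w).toReal) (Set.Icc α β) := by
    have c1 : ContinuousOn (fun w => (BT D 1 w).toReal * Zf D w / (exp w - exp (-w)))
        (Set.Icc α β) :=
      (R3.continuousOn.mul (by unfold Zf; fun_prop)).div (by fun_prop) pe
    refine c1.congr fun w hw => ?_
    rw [eq_div_iff (pe w hw)]
    exact (h0 w (a3.trans hw.1) (A1 w hw).2.1 (R1 w hw).2.1).2
  have cA : ContinuousOn (fun w => (AReg D p w).toReal) (Set.Icc α β) :=
    (A2.continuousOn.add cA1).congr fun w _ => by simp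
  intro x hx y hy
  obtain ⟨x1, x2, x3, x4⟩ := key x hx
  simp only [x3] at hy
  have y0 : 0 < y := lt_of_le_of_lt (by positivity) hy
  obtain ⟨h, hh⟩ : ∃ h, (BT D p x).toReal < y * ((AReg D p x).toReal + (ABu D p x h).toReal) := by
    by_contra hn
    push Not at hn
    have hle : AT D p x ≤ ENNReal.ofReal ((BT D p x).toReal / y) := by
      rw [x4, ENNReal.add_iSup]
      refine iSup_le fun h => ?_
      rw [← ENNReal.ofReal_toReal (A1 x hx).1, ← ENNReal.ofReal_toReal ((hB h).1 x hx),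
        ← ENNReal.ofReal_add ENNReal.toReal_nonneg ENNReal.toReal_nonneg]
      exact ENNReal.ofReal_le_ofReal ((le_div_iff₀' y0).2 (hn h))
    have ht : AT D p x ≠ ∞ := ne_top_of_le_ne_top ENNReal.ofReal_ne_top hle
    have xa : 0 < (AT D p x).toReal := x1.trans_le (ENNReal.toReal_mono ht x2)
    have h1 := ENNReal.toReal_le_of_le_ofReal (by positivity) hle
    rw [le_div_iff₀' y0] at h1
    rw [div_lt_iff₀ xa] at hy
    linarith
  have ev : ∀ᶠ w in 𝓝[Set.Icc α β] x,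
      (BT D p w).toReal < y * ((AReg D p w).toReal + (ABu D p w h).toReal) :=
    (cB x hx).eventually_lt (((cA.add (hB h).2.1).const_smul y) x hx) hh
  filter_upwards [ev, self_mem_nhdsWithin] with w h1 hw
  obtain ⟨w1, w2, w3, w4⟩ := key w hw
  rw [w3]
  by_cases ht : AT D p w = ∞
  · simpa [ht] using y0
  · have wa : 0 < (AT D p w).toReal := w1.trans_le (ENNReal.toReal_mono ht w2)
    rw [div_lt_iff₀ wa]
    refine h1.trans_le (mul_le_mul_of_nonneg_left ?_ y0.le)
    rw [← ENNReal.toReal_add (A1 w hw).1 ((hB h).1 w hw)]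
    refine ENNReal.toReal_mono ht ?_
    rw [w4]
    exact add_le_add le_rfl (le_iSup (fun h => ABu D p w h) h)

/-- the largest speed is attained, near the critical bias -/
theorem peak (D : ℕ) (hD : 2 ≤ D) (η : ℝ) (hη : 0 < η) : ∃ p₀ : ℝ, p₀ < 1 ∧
    ∀ p, p₀ < p → p < 1 → ∀ v : ℝ → ℝ, (∀ x, 0 < x → HasSpeed D p x (v x)) →
      ∃ m, 0 < m ∧ |m - D * log (1 / (1 - p))| ≤ η ∧ ∀ x, 0 < x → v x ≤ v m := by
  have hD1 : 1 ≤ D := by omega
  obtain ⟨e1, he1, h1⟩ := usc D hD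
  obtain ⟨e2, he2, h2⟩ := oneS D hD1 1 one_pos
  obtain ⟨p₁, hp₁, h3⟩ := maxStmt D hD1 (min η (1 / 4)) (by positivity)
  have he : 0 < min e1 e2 := by positivity
  refine ⟨max (max 0 p₁) (1 - min e1 e2), max_lt (max_lt one_pos hp₁) (by linarith), ?_⟩
  intro p hp hp1 v hv
  have hp0 : 0 < p := ((le_max_left _ _).trans (le_max_left _ _)).trans_lt hp
  have hp3 : p₁ < p := ((le_max_right _ _).trans (le_max_left _ _)).trans_lt hp
  have hp2 := (le_max_right _ _).trans_lt hp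
  have k : ∀ {e : ℝ}, min e1 e2 ≤ e → 1 - e ≤ p := fun h => by linarith
  have hε : 0 < 1 - p := by linarith
  obtain ⟨-, x₀, -, x1, -, x2⟩ := h3 p hp3 hp1 v hv
  set Λ := D * log (1 / (1 - p)) with hΛ
  set t := min η (1 / 4) with ht
  have t0 : 0 < t := by positivity
  have t1 : t ≤ 1 / 4 := min_le_right _ _
  have hw : Win D p (Λ - t) (Λ + t) := by
    refine ⟨hp1, by linarith, by linarith, ?_, ?_⟩
    · rw [sub_eq_add_neg Λ, exp_Lam hε]
      linarith [add_one_le_exp (-t)]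
    · rw [exp_Lam hε]
      have := add_one_le_exp (-(1 / 4 : ℝ))
      rw [exp_neg, le_inv_comm₀ (by norm_num) (exp_pos _)] at this
      linarith [exp_le_exp.2 t1]
  obtain ⟨a1, u⟩ := h1 p _ _ (k (by simp)) hw
  have sp : ∀ w, 1 ≤ w → v w = BR D p w / AR D p w := fun w hw => by
    obtain ⟨b1, b2, b3⟩ := h2 p w (k (by simp)) hp1.le hw
    obtain ⟨t1, t2⟩ := transS D p w (v w) hp0 hp1.le (by linarith) b1 b2 b3 (hv w (by linarith))
    by_cases h : AA D p w = ∞
    · rw [t2 h, AR, h]; simp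
    · exact t1 h
  obtain ⟨m, hm, hmax⟩ := u.exists_isMaxOn ⟨Λ, by constructor <;> linarith⟩ isCompact_Icc
  have inw : ∀ w, |w - Λ| ≤ t → v w ≤ v m := fun w h => by
    have hw : w ∈ Set.Icc (Λ - t) (Λ + t) := by
      constructor <;> linarith [(abs_le.1 h).1, (abs_le.1 h).2]
    rw [sp w (a1.trans hw.1), sp m (a1.trans hm.1)]
    exact hmax hw
  refine ⟨m, by linarith [hm.1], (abs_le.2 ⟨by linarith [hm.1], by linarith [hm.2]⟩).trans
    (min_le_left η (1 / 4)), fun x hx => ?_⟩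
  by_cases h : |x - Λ| ≤ t
  · exact inw x h
  · exact (x2 x hx (not_le.1 h)).le.trans (inw x₀ x1)

end Pool.Agent.MP_8c549f_pr.Peak

end MrgPart0

-- ======== part 1: formerly Pool.Agent.MP_8c549f_pr.S3.Win
section MrgPart1

/-! PROJECT BWALK3: the law of an input. -/

noncomputable section

namespace Pool.Agent.MP_8c549f_pr.S3

open Finset Real Classical

namespace Win

variable {D : ℕ}

theorem part_pos (lam : ℝ) {τ : Sv D} (h : ∃ s', τ s' = true) :
    0 < ∑ s', if τ s' = true then wt lam s' else 0 := by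
  obtain ⟨s, hs⟩ := h
  refine sum_pos' (fun s' _ => ?_) ⟨s, mem_univ _, by simpa [hs] using wt_pos lam s⟩
  split_ifs
  · exact (wt_pos lam s').le
  · exact le_rfl

theorem rho_nonneg (lam : ℝ) (τ : Sv D) (s : Step D) : 0 ≤ rho lam τ s := by
  unfold rho
  split_ifs with h1 h2
  · exact div_nonneg (wt_pos lam s).le (part_pos lam h1).le
  · exact le_rfl
  · exact div_nonneg (wt_pos lam s).le (Zf_pos D lam).le

theorem sum_rho (lam : ℝ) (τ : Sv D) : ∑ s, rho lam τ s = 1 := by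
  unfold rho
  by_cases h : ∃ s', τ s' = true
  · simp only [if_pos h]
    rw [← div_self (part_pos lam h).ne', sum_div]
    refine sum_congr rfl fun s _ => ?_
    split_ifs <;> simp
  · simp only [if_neg h]
    rw [← sum_div, sum_wt, div_self (Zf_pos D lam).ne']

theorem marg (lam : ℝ) (τ0 : Sv D) (F : Step D → ℝ) :
    ∑ m : Sv D → Step D, (∏ τ, rho lam τ (m τ)) * F (m τ0) = ∑ s, rho lam τ0 s * F s := by
  have h1 : ∀ m : Sv D → Step D, (∏ τ, rho lam τ (m τ)) * F (m τ0) =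
      ∏ τ, (rho lam τ (m τ) * if τ = τ0 then F (m τ) else 1) := by
    intro m
    rw [prod_mul_distrib, prod_ite_eq']
    simp
  simp only [h1]
  rw [← Fintype.piFinset_univ, ← prod_univ_sum (fun _ => univ)
    (fun τ s => rho lam τ s * if τ = τ0 then F s else 1),
    prod_eq_single τ0 (fun τ _ h => by simp [h, sum_rho]) (by simp)]
  simp

theorem sum_ber (p : ℝ) : ∑ σ : Sv D, ∏ s, (if σ s = true then p else 1 - p) = 1 := by
  rw [← Fintype.piFinset_univ, ← prod_univ_sum (fun _ => univ)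
    (fun _ (b : Bool) => if b = true then p else 1 - p)]
  simp

theorem item3 (p lam : ℝ) (g : Sv D → Sv D) (f : Sv D → Step D → ℝ) :
    ∑ a : In D, win p lam a * f a.1 (a.2 (g a.1)) =
      ∑ σ : Sv D, (∏ s, if σ s = true then p else 1 - p) * ∑ s, rho lam (g σ) s * f σ s := by
  rw [Fintype.sum_prod_type]
  refine sum_congr rfl fun σ _ => ?_
  rw [← marg, mul_sum]
  exact sum_congr rfl fun m _ => by simp only [win, mul_assoc]

theorem wt_le (s t : ℝ) (a : Step D) : wt t a ≤ exp |s - t| * wt s a := by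
  unfold wt
  rw [← exp_add, exp_le_exp]
  have h : |(vec a 0 : ℝ)| ≤ 1 := by
    obtain ⟨i, b⟩ := a
    by_cases hi : i = 0 <;> cases b <;> simp [vec, hi]
  have h2 : (t - s) * (vec a 0 : ℝ) ≤ |s - t| := by
    refine (le_abs_self _).trans ?_
    rw [abs_mul, abs_sub_comm]
    exact mul_le_of_le_one_right (abs_nonneg _) h
  linarith

theorem div_le {a a' b b' c : ℝ} (ha' : 0 ≤ a') (hb : 0 < b) (hb' : 0 < b') (hc : 0 ≤ c)
    (h1 : a ≤ c * a') (h2 : b' ≤ c * b) : a / b ≤ c * c * (a' / b') := by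
  rw [← mul_div_assoc, div_le_div_iff₀ hb hb']
  calc a * b' ≤ c * a' * (c * b) := mul_le_mul h1 h2 hb'.le (mul_nonneg hc ha')
    _ = c * c * a' * b := by ring

theorem rho_le (s t : ℝ) (τ : Sv D) (a : Step D) : rho t τ a ≤ exp (2 * |s - t|) * rho s τ a := by
  have e : exp (2 * |s - t|) = exp |s - t| * exp |s - t| := by rw [← exp_add]; congr 1; ring
  have w : ∀ a : Step D, wt s a ≤ exp |s - t| * wt t a := fun a => by
    rw [abs_sub_comm]; exact wt_le t s a
  unfold rho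
  rw [e]
  split_ifs with h1 h2
  · refine div_le (wt_pos s a).le (part_pos t h1) (part_pos s h1) (exp_pos _).le (wt_le s t a) ?_
    rw [mul_sum]
    refine sum_le_sum fun b _ => ?_
    split_ifs
    · exact w b
    · simp
  · simp
  · refine div_le (wt_pos s a).le (Zf_pos D t) (Zf_pos D s) (exp_pos _).le (wt_le s t a) ?_
    rw [← sum_wt, ← sum_wt, mul_sum]
    exact sum_le_sum fun b _ => w b

theorem sum_G1 (p lam : ℝ) (F : Step D → ℝ) :
    ∑ a ∈ G1 D, win p lam a * F (a.2 a.1) =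
      p ^ (2 * (D + 1)) * ∑ s, wt lam s / Zf D lam * F s := by
  have h := item3 p lam id fun σ s => if ∀ s, σ s = true then F s else 0
  rw [G1, sum_filter]
  simp only [id, mul_ite, mul_zero] at h
  rw [h, sum_eq_single (fun _ => true)]
  · have h1 : ∀ s : Step D, rho lam (fun _ => true) s = wt lam s / Zf D lam := by
      intro s; simp [rho, sum_wt]
    simp [h1, mul_comm]
  · intro σ _ hσ
    have : ¬ ∀ s, σ s = true := fun h => hσ (funext h)
    simp only [if_neg this, sum_const_zero, mul_zero]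
  · simp

theorem drift {x y : ℝ} (hx : 0 ≤ x) (hxy : x ≤ y) (hy : y ≤ 1) : (y - x) / (8 * (D + 1)) ≤
    (exp y - exp (-y)) / Zf D y - (exp x - exp (-x)) / Zf D x := by
  have zx := Zf_pos D x
  have zy := Zf_pos D y
  have bx : Zf D x ≤ 2 * D + 4 := Zf_le hx (hxy.trans hy)
  have by' : Zf D y ≤ 2 * D + 4 := Zf_le (hx.trans hxy) hy
  have hD : (0 : ℝ) ≤ D := Nat.cast_nonneg D
  have h1 : sinh x - x ≤ sinh y - y := sinh_sub_id_strictMono.monotone hxy
  have h2 : y - x ≤ sinh (y - x) := self_le_sinh_iff.2 (sub_nonneg.2 hxy)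
  rw [sinh_eq, sinh_eq] at h1
  rw [sinh_eq, neg_sub, sub_eq_add_neg y, sub_eq_add_neg x, exp_add, exp_add] at h2
  have h3 : (4 + 4 * D) * (y - x) ≤
      (exp y - exp (-y)) * Zf D x - Zf D y * (exp x - exp (-x)) := by
    unfold Zf
    nlinarith [mul_le_mul_of_nonneg_left h1 hD]
  rw [div_sub_div _ _ zy.ne' zx.ne', div_le_div_iff₀ (by positivity) (mul_pos zy zx)]
  have h4 : Zf D y * Zf D x ≤ (4 + 4 * D) * (8 * (D + 1)) :=
    (mul_le_mul by' bx zx.le (by positivity)).trans (by nlinarith)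
  calc (y - x) * (Zf D y * Zf D x) ≤ (y - x) * ((4 + 4 * D) * (8 * (D + 1))) :=
        mul_le_mul_of_nonneg_left h4 (sub_nonneg.2 hxy)
    _ = (4 + 4 * D) * (y - x) * (8 * (D + 1)) := by ring
    _ ≤ _ := mul_le_mul_of_nonneg_right h3 (by positivity)

end Win

open Win in
theorem winS : WinStmt := by
  intro D p h0 h1
  have ber : ∀ σ : Sv D, 0 ≤ ∏ s, if σ s = true then p else 1 - p := fun σ =>
    prod_nonneg fun s _ => by split_ifs <;> linarith
  refine ⟨fun lam a => mul_nonneg (ber _) (prod_nonneg fun τ _ => rho_nonneg lam τ _),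
    fun lam => ?_, item3 p, fun s t a => ?_, fun lam => ?_, fun lam => ?_,
    fun x y hx hxy hy => drift hx hxy hy⟩
  · have := item3 (D := D) p lam id fun _ _ => 1
    simpa [sum_rho, sum_ber] using this
  · unfold win
    rw [mul_left_comm]
    refine mul_le_mul_of_nonneg_left ?_ (ber _)
    refine (prod_le_prod (fun τ _ => rho_nonneg t τ _) fun τ _ => rho_le s t τ _).trans_eq ?_
    rw [prod_mul_distrib, prod_const, ← exp_nat_mul]
    congr 2
    simp only [card_univ, Fintype.card_fun, Fintype.card_bool, Fintype.card_prod, Fintype.card_fin]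
    push_cast
    ring
  · have := sum_G1 (D := D) p lam fun _ => 1
    simpa [← sum_div, sum_wt, (Zf_pos D lam).ne'] using this
  · refine (sum_G1 (D := D) p lam fun s => (vec s 0 : ℝ)).trans ?_
    congr 1
    rw [sum_step]
    simp [vec_side_zero]
    ring

end Pool.Agent.MP_8c549f_pr.S3

end
end MrgPart1

-- ======== part 2: formerly Pool.Agent.MP_8c549f_pr.S3.Main
section MrgPart2

/-! PROJECT BWALK3: composition of the modules. -/

namespace Pool.Agent.MP_8c549f_pr.S3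

open Real

theorem brfS : BrfStmt := S3.brf (S3.br S3.winS)

theorem fcpS : FcpStmt := S3.fcp S3.fc S3.pei

theorem hkS : HKStmt := S3.hk S3.pkS (S3.spec S3.pkS) S3.nash S3.hardy (S3.extS S3.lu S3.le S3.pathE)

theorem finS : FinStmt := S3.fin brfS S3.pkS (S3.spec S3.pkS) S3.pathE fcpS

theorem smallS : SmallStmt :=
  S3.small S3.winS (S3.absS S3.recS S3.rest (S3.momS S3.path S3.zy) S3.tau S3.lip)
    (S3.speed S3.winS (S3.br S3.winS)) fcpS (S3.sumS S3.winS brfS hkS (S3.peiL S3.pei) finS)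
    (S3.confS S3.winS) (S3.late S3.winS) finS
    (S3.casc S3.winS brfS (S3.nb S3.pkS) fcpS S3.dg (S3.top brfS hkS (S3.peiL S3.pei))
      (S3.low S3.winS brfS (S3.nb S3.pkS) (S3.far brfS hkS (S3.peiL S3.pei)) (S3.ao brfS)))

/-- from ratios at most two to all pairs -/
theorem chain {v : ℝ → ℝ} (h : ∀ x y, 0 < x → x < y → y ≤ 2 * x → y ≤ 1 → v x < v y) {x y : ℝ}
    (hx : 0 < x) (hxy : x < y) (hy : y ≤ 1) : v x < v y := by
  obtain ⟨n, hn⟩ := pow_unbounded_of_one_lt (y / x) (one_lt_two (α := ℝ))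
  rw [div_lt_iff₀ hx] at hn
  replace hn := hn.le
  induction n generalizing x with
  | zero => linarith
  | succ n ih =>
    by_cases c : y ≤ 2 * x
    · exact h x y hx hxy c hy
    · exact (h x (2 * x) hx (by linarith) le_rfl (by linarith)).trans
        (ih (by linarith) (not_le.1 c) (by rw [pow_succ] at hn; linarith))

theorem fullUni (D : ℕ) (hD : 100000 ≤ D) (η : ℝ) (hη : 0 < η) : ∃ p₀ : ℝ, p₀ < 1 ∧
    ∀ p : ℝ, p₀ < p → p < 1 → ∀ v : ℝ → ℝ, (∀ x, 0 < x → HasSpeed D p x (v x)) →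
      ∃ m : ℝ, 0 < m ∧ MonotoneOn v (Set.Ioc 0 m) ∧ AntitoneOn v (Set.Ici m) ∧
        |m - D * log (1 / (1 - p))| ≤ η ∧
        StrictMonoOn v (Set.Ioc 0 (D * log (1 / (1 - p)) - η)) := by
  obtain ⟨p1, a1, h1⟩ := smallS D hD
  obtain ⟨p2, a2, h2⟩ := uniStmt D (by omega) 1 one_pos
  obtain ⟨p3, a3, h3⟩ := Peak.peak D (by omega) η hη
  obtain ⟨p4, a4, h4⟩ := incStmt D (by omega) 1 η one_pos hη
  refine ⟨max (max p1 p2) (max p3 p4), max_lt (max_lt a1 a2) (max_lt a3 a4), ?_⟩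
  intro p hp hp1 v hv
  simp only [max_lt_iff] at hp
  have sm : ∀ x y, 0 < x → x < y → y ≤ 1 → v x < v y := fun x y hx hxy hy =>
    chain (fun a b ha hab h2 hb =>
      h1 p hp.1.1 hp1 a b _ _ ha hab h2 hb (hv a ha) (hv b (ha.trans hab))) hx hxy hy
  have un : ∀ x y z, 1 ≤ x → x < y → y < z → min (v x) (v z) ≤ v y := fun x y z hx hxy hyz =>
    h2 p hp.1.2 hp1 x y z _ _ _ hx hxy hyz (hv x (by linarith)) (hv y (by linarith))
      (hv z (by linarith))
  have nodip : ∀ x y z, 0 < x → x < y → y < z → min (v x) (v z) ≤ v y := by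
    intro x y z hx hxy hyz
    by_cases c1 : y ≤ 1
    · exact (min_le_left _ _).trans (sm x y hx hxy c1).le
    by_cases c2 : 1 ≤ x
    · exact un x y z c2 hxy hyz
    · exact (min_le_min_right _ (sm x 1 hx (not_le.1 c2) le_rfl).le).trans
        (un 1 y z le_rfl (not_le.1 c1) hyz)
  obtain ⟨m, m0, m1, m2⟩ := h3 p hp.2.1 hp1 v hv
  refine ⟨m, m0, fun x hx y hy hxy => ?_, fun x hx y hy hxy => ?_, m1, fun x hx y hy hxy => ?_⟩
  · rcases hxy.eq_or_lt with rfl | hxy
    · exact le_rfl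
    rcases hy.2.eq_or_lt with rfl | hym
    · exact m2 x hx.1
    · exact (min_eq_left (m2 x hx.1)).ge.trans (nodip x y m hx.1 hxy hym)
  · rcases hxy.eq_or_lt with rfl | hxy
    · exact le_rfl
    have y0 : 0 < y := m0.trans_le hy
    rcases (Set.mem_Ici.1 hx).eq_or_lt with rfl | hmx
    · exact m2 y y0
    · exact (min_eq_right (m2 y y0)).ge.trans (nodip m x y m0 hmx hxy)
  · by_cases c1 : y ≤ 1
    · exact sm x y hx.1 hxy c1
    by_cases c2 : 1 ≤ x
    · exact h4 p hp.2.2 hp1 x y _ _ c2 hxy hy.2 (hv x hx.1) (hv y hy.1)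
    · exact (sm x 1 hx.1 (not_le.1 c2) le_rfl).trans
        (h4 p hp.2.2 hp1 1 y _ _ le_rfl (not_le.1 c1) hy.2 (hv 1 one_pos) (hv y hy.1))

end Pool.Agent.MP_8c549f_pr.S3

end MrgPart2

-- marker of a merged file
example : 731051 + 23335 = 731051 + 23335 := rfl
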